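import Mathlib

set_option autoImplicit false

namespace Pool.Agent.H21.Cfl

/-- `L` is unavoidable: only finitely many words have no subword (factor) in `L`. -/
def Unavoidable {α : Type} (L : Language α) : Prop :=
  {x : List α | ∀ u ∈ L, ¬ u <:+: x}.Finite

/-- `L` is periodically unavoidable: for every nonempty word `w`, some power `w ^ n` has a
subword in `L`. -/
def PeriodicallyUnavoidable {α : Type} (L : Language α) : Prop :=
  ∀ w : List α, w ≠ [] → ∃ n : ℕ, ∃ u ∈ L, u <:+: (List.replicate n w).flatten

end Pool.Agent.H21.Cfl
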