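import Mathlib

set_option autoImplicit false

namespace Pool.Agent.H21.Cfl

/-- A linear system of rewriting rules. -/
structure LinSys (T Q : Type) where
  step : Set (Q × List T × Q × List T)
  base : Set (Q × List T)
  hstep : step.Finite
  hbase : base.Finite

inductive LinSys.Gen {T Q : Type} (S : LinSys T Q) : Q → List T → Prop
  | base {q : Q} {w : List T} : (q, w) ∈ S.base → Gen S q w
  | step {q : Q} {u : List T} {q' : Q} {v w : List T} :
      (q, u, q', v) ∈ S.step → Gen S q' w → Gen S q (u ++ w ++ v)

namespace LinSys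

variable {T Q : Type}

noncomputable def gram (S : LinSys T Q) (q0 : Q) : ContextFreeGrammar T := by
  classical
  exact
  { NT := Q
    initial := q0
    rules :=
      (S.hstep.toFinset.image (fun r : Q × List T × Q × List T =>
        (⟨r.1, r.2.1.map Symbol.terminal ++ [Symbol.nonterminal r.2.2.1] ++
          r.2.2.2.map Symbol.terminal⟩ : ContextFreeRule T Q))) ∪
      (S.hbase.toFinset.image (fun r : Q × List T =>
        (⟨r.1, r.2.map Symbol.terminal⟩ : ContextFreeRule T Q))) }

theorem mem_rules (S : LinSys T Q) (q0 : Q) (r : ContextFreeRule T Q) :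
    r ∈ (S.gram q0).rules ↔
      (∃ q u q' v, (q, u, q', v) ∈ S.step ∧ r = ⟨q, u.map Symbol.terminal ++
        [Symbol.nonterminal q'] ++ v.map Symbol.terminal⟩) ∨
      (∃ q w, (q, w) ∈ S.base ∧ r = ⟨q, w.map Symbol.terminal⟩) := by
  classical
  unfold gram
  simp only [Finset.mem_union, Finset.mem_image, Set.Finite.mem_toFinset, Prod.exists]
  constructor
  · rintro (⟨q, u, q', v, h, rfl⟩ | ⟨q, w, h, rfl⟩)
    · exact Or.inl ⟨q, u, q', v, h, rfl⟩
    · exact Or.inr ⟨q, w, h, rfl⟩
  · rintro (⟨q, u, q', v, h, rfl⟩ | ⟨q, w, h, rfl⟩)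
    · exact Or.inl ⟨q, u, q', v, h, rfl⟩
    · exact Or.inr ⟨q, w, h, rfl⟩

theorem derives_of_gen (S : LinSys T Q) (q0 : Q) {q : Q} {w : List T} (h : S.Gen q w) :
    (S.gram q0).Derives [Symbol.nonterminal q] (w.map Symbol.terminal) := by
  induction h with
  | @base q w h =>
    apply ContextFreeGrammar.Produces.single
    refine ⟨⟨q, w.map Symbol.terminal⟩, (mem_rules S q0 _).2 (Or.inr ⟨q, w, h, rfl⟩), ?_⟩
    exact ContextFreeRule.Rewrites.input_output
  | @step q u q' v w h _ ih =>
    have h1 : (S.gram q0).Produces [Symbol.nonterminal q]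
        (u.map Symbol.terminal ++ [Symbol.nonterminal q'] ++ v.map Symbol.terminal) :=
      ⟨⟨q, _⟩, (mem_rules S q0 _).2 (Or.inl ⟨q, u, q', v, h, rfl⟩),
        ContextFreeRule.Rewrites.input_output⟩
    refine h1.trans_derives ?_
    have h2 := (ih.append_left (u.map Symbol.terminal)).append_right (v.map Symbol.terminal)
    rw [List.map_append, List.map_append]
    exact h2

theorem nonterm_unique {u v : List T} {q : Q} {p r : List (Symbol T Q)} {q1 : Q}
    (h : u.map Symbol.terminal ++ [Symbol.nonterminal q] ++ v.map Symbol.terminal =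
      p ++ [Symbol.nonterminal q1] ++ r) :
    p = u.map Symbol.terminal ∧ q1 = q ∧ r = v.map Symbol.terminal := by
  induction u generalizing p with
  | nil =>
    cases p with
    | nil => simp at h; exact ⟨rfl, h.1.symm, h.2.symm⟩
    | cons x p =>
      simp at h
      have : (Symbol.nonterminal q1 : Symbol T Q) ∈ v.map Symbol.terminal := by
        rw [h.2]; simp
      simp at this
  | cons a u ih =>
    cases p with
    | nil => simp at h
    | cons x p =>
      simp at h
      obtain ⟨h1, h2⟩ := h
      have := ih (p := p) (by simpa using h2)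
      refine ⟨by rw [this.1, ← h1]; rfl, this.2.1, this.2.2⟩

theorem assoc5 (A B C D E : List (Symbol T Q)) :
    A ++ (B ++ C ++ D) ++ E = (A ++ B) ++ C ++ (D ++ E) := by simp

theorem gen_of_derives (S : LinSys T Q) (q0 : Q) {w : List T} {s : List (Symbol T Q)}
    (h : (S.gram q0).Derives s (w.map Symbol.terminal)) :
    ∀ (u : List T) (q : Q) (v : List T),
      s = u.map Symbol.terminal ++ [Symbol.nonterminal q] ++ v.map Symbol.terminal →
      ∃ m, S.Gen q m ∧ w = u ++ m ++ v := by
  induction h using Relation.ReflTransGen.head_induction_on with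
  | refl =>
    intro u q v h
    have h0 : (Symbol.nonterminal q : Symbol T Q) ∈
        u.map Symbol.terminal ++ [Symbol.nonterminal q] ++ v.map Symbol.terminal := by simp
    have h1 : (Symbol.nonterminal q : Symbol T Q) ∈ w.map Symbol.terminal := h ▸ h0
    simp at h1
  | @head s s' h1 h2 ih =>
    intro u q v hs
    obtain ⟨r, hr, hrw⟩ := h1
    obtain ⟨p, t, hp, hp'⟩ := hrw.exists_parts
    rw [hs] at hp
    obtain ⟨e1, e2, e3⟩ := nonterm_unique hp
    rcases (mem_rules S q0 r).1 hr with ⟨q1, u1, q1', v1, hm, rfl⟩ | ⟨q1, w1, hm, rfl⟩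
    · simp only at e2
      subst e2
      have e4 : s' = (u ++ u1).map Symbol.terminal ++ [Symbol.nonterminal q1'] ++
          (v1 ++ v).map Symbol.terminal := by
        rw [hp', e1, e3, List.map_append, List.map_append]
        exact assoc5 _ _ _ _ _
      obtain ⟨m, hm1, hm2⟩ := ih (u ++ u1) q1' (v1 ++ v) e4
      refine ⟨u1 ++ m ++ v1, Gen.step hm hm1, by rw [hm2]; simp⟩
    · simp only at e2
      subst e2
      refine ⟨w1, Gen.base hm, ?_⟩
      -- s' is terminal, so w = u ++ w1 ++ v
      have h3 : s' = (u ++ w1 ++ v).map Symbol.terminal := by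
        rw [hp', e1, e3, List.map_append, List.map_append]
        rfl
      rw [h3] at h2
      have h4 : ∀ (a b : List T), (S.gram q0).Derives (a.map Symbol.terminal)
          (b.map Symbol.terminal) → b = a := by
        intro a b hab
        rcases hab.eq_or_head with h | ⟨c, ⟨r, _, hc⟩, _⟩
        · exact (List.map_injective_iff.2 (fun x y h => by injection h) h).symm
        · have := hc.nonterminal_input_mem
          simp at this
      exact h4 _ _ h2

theorem isContextFree (S : LinSys T Q) (q0 : Q) :
    Language.IsContextFree ({w : List T | S.Gen q0 w} : Language T) := by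
  refine ⟨S.gram q0, ?_⟩
  ext w
  rw [ContextFreeGrammar.mem_language_iff]
  constructor
  · intro h
    obtain ⟨m, hm, hw⟩ := gen_of_derives S q0 h [] q0 [] (by simp [gram])
    simp at hw
    subst hw
    exact hm
  · intro h
    exact derives_of_gen S q0 h

end LinSys

end Pool.Agent.H21.Cfl
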