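import Pool.Agent.H21.CflStep
import Pool.Agent.H21.CflLinear
import Pool.Agent.H21.CflDefs

set_option autoImplicit false

namespace Pool.Agent.H21.Cfl

/-- the segment of length `n` starting at `a` -/
def seg (y : ℤ → T) (a : ℤ) (n : ℕ) : List T := (List.range n).map (fun i : ℕ => y (a + (i : ℤ)))

theorem seg_length (y : ℤ → T) (a : ℤ) (n : ℕ) : (seg y a n).length = n := by simp [seg]

theorem seg_add (y : ℤ → T) (a : ℤ) (n m : ℕ) :
    seg y a (n + m) = seg y a n ++ seg y (a + n) m := by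
  unfold seg
  rw [List.range_add, List.map_append, List.map_map]
  congr 1
  apply List.map_congr_left
  intro i _
  simp only [Function.comp_apply, Nat.cast_add]
  congr 1; ring

theorem seg_one (y : ℤ → T) (a : ℤ) : seg y a 1 = [y a] := by simp [seg]

theorem seg_zero (y : ℤ → T) (a : ℤ) : seg y a 0 = [] := by simp [seg]

theorem seg_getElem (y : ℤ → T) (a : ℤ) (n : ℕ) (i : ℕ) (h : i < (seg y a n).length) :
    (seg y a n)[i] = y (a + i) := by simp [seg]

/-- states: `none` is the start, `some (i, c, m)` the inner states -/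
abbrev Q := Option (Fin 3 × T × Fin 3)

def nxt (m m' : Fin 3) : Prop := (m = 1 ∧ m' = 0) ∨ (m = 2 ∧ m' = 1) ∨ (m = 2 ∧ m' = 2)

/-- the finite language of words of length 33 that are not factors of `X` -/
def Fin33 : Set (List T) := {w | w.length = 33 ∧ ∀ a : ℤ, 1 ≤ a → w ≠ seg X a 33}

def stepSet : Set (Q × List T × Q × List T) :=
  {r | (∃ (i : Fin 3) (c : T) (m m' : Fin 3) (x : T) (t : List T), nxt m m' ∧
      t.length + 1 = 2 ^ (i : ℕ) ∧
      r = (some (i, c, m), (x + ((i : ℕ) : T)) :: t, some (i, c, m'), [x])) ∨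
    (∃ (i : Fin 3) (c a b : T) (t : List T), forb i (b - c) (a - c) ∧
      t.length + 1 = 2 ^ (i : ℕ) ∧
      r = (none, a :: t, some (i, c, 2), [b]))}

def baseSet : Set (Q × List T) :=
  {r | (∃ (i : Fin 3) (c : T), r = (some (i, c, 0), [c])) ∨ (∃ w ∈ Fin33, r = (none, w))}

theorem step_fin : stepSet.Finite := by
  have h1 : ({l : List T | l.length ≤ 4}).Finite := List.finite_length_le T 4
  have h2 : ((Set.univ : Set Q) ×ˢ ({l : List T | l.length ≤ 4} ×ˢ ((Set.univ : Set Q) ×ˢ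
      {l : List T | l.length ≤ 4}))).Finite :=
    (Set.toFinite _).prod (h1.prod ((Set.toFinite _).prod h1))
  refine h2.subset ?_
  have h3 : ∀ i : Fin 3, 2 ^ (i : ℕ) ≤ 4 := by decide
  rintro r (⟨i, c, m, m', x, t, _, ht, rfl⟩ | ⟨i, c, a, b, t, _, ht, rfl⟩)
  · have := h3 i
    simp only [Set.mem_prod, Set.mem_univ, Set.mem_ofPred_eq, List.length_cons, true_and,
      List.length_nil]
    omega
  · have := h3 i
    simp only [Set.mem_prod, Set.mem_univ, Set.mem_ofPred_eq, List.length_cons, true_and,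
      List.length_nil]
    omega

theorem base_fin : baseSet.Finite := by
  have h1 : ({l : List T | l.length ≤ 33}).Finite := List.finite_length_le T 33
  have h2 : ((Set.univ : Set Q) ×ˢ {l : List T | l.length ≤ 33}).Finite :=
    (Set.toFinite _).prod h1
  refine h2.subset ?_
  rintro r (⟨i, c, rfl⟩ | ⟨w, hw, rfl⟩)
  · simp
  · simp [hw.1]

def sys : LinSys T Q where
  step := stepSet
  base := baseSet
  hstep := step_fin
  hbase := base_fin

/-- the context-free language -/
def L : Language T := {w | sys.Gen none w}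

theorem L_cf : L.IsContextFree := LinSys.isContextFree sys none

/-- shape of the words generated from the inner states -/
theorem inner_shape {q : Q} {w : List T} (h : sys.Gen q w) :
    ∀ (i : Fin 3) (c : T) (m : Fin 3), q = some (i, c, m) →
      ∃ D : ℕ, (m : ℕ) ≤ D ∧ w.length = (2 ^ (i : ℕ) + 1) * D + 1 ∧
        ∀ (y : ℤ → T) (a : ℤ), w = seg y a w.length →
          y (a + 2 ^ (i : ℕ) * D) = c ∧
          ∀ e : ℤ, 1 ≤ e → e ≤ D → y (a + 2 ^ (i : ℕ) * D - 2 ^ (i : ℕ) * e) =
            y (a + 2 ^ (i : ℕ) * D + e) + ((i : ℕ) : T) := by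
  induction h with
  | @base q w hb =>
    intro i c m hq
    subst hq
    rcases hb with ⟨i', c', h⟩ | ⟨w', _, h⟩
    · simp only [Prod.mk.injEq, Option.some.injEq] at h
      obtain ⟨⟨rfl, rfl, rfl⟩, rfl⟩ := h
      refine ⟨0, by simp, by simp, fun y a hw => ⟨?_, fun e h1 h2 => ?_⟩⟩
      · simp only [List.length_cons, List.length_nil, zero_add, seg_one, List.cons.injEq,
          and_true] at hw
        simp [hw]
      · simp only [Nat.cast_zero] at h2; omega
    · simp at h
  | @step q u q' v w hs hg ih =>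
    intro i c m hq
    subst hq
    rcases hs with ⟨i', c', m1, m', x, t, hn, ht, h⟩ | ⟨i', c', a', b', t, _, _, h⟩
    · simp only [Prod.mk.injEq, Option.some.injEq] at h
      obtain ⟨⟨rfl, rfl, rfl⟩, rfl, rfl, rfl⟩ := h
      obtain ⟨D, hD1, hD2, hD3⟩ := ih i c m' rfl
      have hlen : (((x + ((i : ℕ) : T)) :: t) ++ w ++ [x]).length =
          (2 ^ (i : ℕ) + 1) * (D + 1) + 1 := by
        simp only [List.length_append, List.length_cons, List.length_nil, hD2]
        rw [ht]; ring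
      refine ⟨D + 1, ?_, hlen, ?_⟩
      · rcases hn with ⟨rfl, rfl⟩ | ⟨rfl, rfl⟩ | ⟨rfl, rfl⟩
        · simp
        · simp at hD1 ⊢; omega
        · simp at hD1 ⊢; omega
      · intro y a hw
        rw [hlen, show (2 ^ (i : ℕ) + 1) * (D + 1) + 1 =
          2 ^ (i : ℕ) + ((2 ^ (i : ℕ) + 1) * D + 1) + 1 by ring, seg_add, seg_add, seg_one] at hw
        have e1 := List.append_inj hw (by
          simp only [List.length_append, List.length_cons, seg_length, hD2]; omega)
        have e2 := List.append_inj e1.1 (by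
          simp only [List.length_cons, seg_length]; omega)
        rw [← hD2] at e2
        have e3 := hD3 y _ e2.2
        have e4 : x = y (a + ((2 ^ (i : ℕ) + ((2 ^ (i : ℕ) + 1) * D + 1) : ℕ) : ℤ)) := by
          have := e1.2; simpa using this
        have e5 : x + ((i : ℕ) : T) = y a := by
          have h1 := e2.1
          obtain ⟨s, hs⟩ : ∃ s, 2 ^ (i : ℕ) = s + 1 := ⟨t.length, ht.symm⟩
          rw [hs, add_comm s 1, seg_add, seg_one] at h1
          simp only [List.cons_append, List.nil_append, List.cons.injEq] at h1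
          exact h1.1
        push_cast at e3 e4
        constructor
        · rw [← e3.1]; congr 1; push_cast; ring
        · intro e he1 he2
          push_cast at he2 ⊢
          rcases eq_or_lt_of_le he2 with h | h
          · subst h
            rw [show a + 2 ^ (i : ℕ) * ((D : ℤ) + 1) - 2 ^ (i : ℕ) * ((D : ℤ) + 1) = a by ring,
              ← e5, e4]
            congr 2; ring
          · have := e3.2 e he1 (by omega)
            rw [show a + 2 ^ (i : ℕ) + 2 ^ (i : ℕ) * (D : ℤ) = a + 2 ^ (i : ℕ) * ((D : ℤ) + 1) by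
              ring] at this
            exact this
    · simp at h

theorem L_sound {w : List T} (hw : w ∈ L) (a : ℤ) (ha : 1 ≤ a) : w ≠ seg X a w.length := by
  intro heq
  change sys.Gen none w at hw
  cases hw with
  | base hb =>
    rcases hb with ⟨i', c', h⟩ | ⟨w', hw', h⟩
    · simp at h
    · simp only [Prod.mk.injEq, true_and] at h
      subst h
      rw [hw'.1] at heq
      exact hw'.2 a ha heq
  | @step _ u q' v w' hs hg =>
    rcases hs with ⟨i', c', m1, m', x, t, hn, ht, h⟩ | ⟨i, c, a', b', t, hf, ht, h⟩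
    · simp at h
    · simp only [Prod.mk.injEq, true_and] at h
      obtain ⟨rfl, rfl, rfl⟩ := h
      obtain ⟨D, hD1, hD2, hD3⟩ := inner_shape hg i c 2 rfl
      have hlen : ((a' :: t) ++ w' ++ [b']).length = (2 ^ (i : ℕ) + 1) * (D + 1) + 1 := by
        simp only [List.length_append, List.length_cons, List.length_nil, hD2]
        rw [ht]; ring
      rw [hlen, show (2 ^ (i : ℕ) + 1) * (D + 1) + 1 =
          2 ^ (i : ℕ) + ((2 ^ (i : ℕ) + 1) * D + 1) + 1 by ring, seg_add, seg_add, seg_one] at heq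
      have e1 := List.append_inj heq (by
        simp only [List.length_append, List.length_cons, seg_length, hD2]; omega)
      have e2 := List.append_inj e1.1 (by
        simp only [List.length_cons, seg_length]; omega)
      rw [← hD2] at e2
      have e3 := hD3 X _ e2.2
      have e4 : b' = X (a + ((2 ^ (i : ℕ) + ((2 ^ (i : ℕ) + 1) * D + 1) : ℕ) : ℤ)) := by
        have := e1.2; simpa using this
      have e5 : a' = X a := by
        have h1 := e2.1
        obtain ⟨s, hs⟩ : ∃ s, 2 ^ (i : ℕ) = s + 1 := ⟨t.length, ht.symm⟩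
        rw [hs, add_comm s 1, seg_add, seg_one] at h1
        simp only [List.cons_append, List.nil_append, List.cons.injEq] at h1
        exact h1.1
      push_cast at e3 e4
      rw [show a + 2 ^ (i : ℕ) + 2 ^ (i : ℕ) * (D : ℤ) = a + 2 ^ (i : ℕ) * ((D : ℤ) + 1) by
        ring] at e3
      apply X_sound i (a + 2 ^ (i : ℕ) * ((D : ℤ) + 1)) (D + 1) (by
        rw [add_sub_cancel_right]; exact ha)
      simp at hD1
      refine ⟨by omega, fun e h1 h2 => e3.2 e h1 (by omega), ?_⟩
      rw [e3.1, add_sub_cancel_right, ← e5,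
        show a + 2 ^ (i : ℕ) * ((D : ℤ) + 1) + (D + 1) =
          a + (2 ^ (i : ℕ) + ((2 ^ (i : ℕ) + 1) * D + 1)) by ring, ← e4]
      exact hf

theorem gen_inner (y : ℤ → T) (i : Fin 3) (p : ℤ) (D : ℕ)
    (h : ∀ e : ℤ, 1 ≤ e → e ≤ D → y (p - 2 ^ (i : ℕ) * e) = y (p + e) + ((i : ℕ) : T)) :
    ∀ m : Fin 3, (m : ℕ) = min D 2 →
    sys.Gen (some (i, y p, m)) (seg y (p - 2 ^ (i : ℕ) * D) ((2 ^ (i : ℕ) + 1) * D + 1)) := by
  induction D with
  | zero =>
    intro m hm
    simp only [Nat.zero_min, Fin.val_eq_zero_iff] at hm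
    subst hm
    simp only [Nat.cast_zero, mul_zero, sub_zero, zero_add, seg_one]
    exact LinSys.Gen.base (Or.inl ⟨i, y p, rfl⟩)
  | succ D ih =>
    intro m hm
    have hD := ih (fun e h1 h2 => h e h1 (by push_cast; omega))
    obtain ⟨s, hs⟩ : ∃ s, 2 ^ (i : ℕ) = s + 1 := ⟨2 ^ (i : ℕ) - 1, by
      have : 0 < 2 ^ (i : ℕ) := by positivity
      omega⟩
    have hs' : (2 : ℤ) ^ (i : ℕ) = s + 1 := by exact_mod_cast hs
    have e1 : seg y (p - 2 ^ (i : ℕ) * ((D + 1 : ℕ) : ℤ)) ((2 ^ (i : ℕ) + 1) * (D + 1) + 1) =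
        (y (p + ((D + 1 : ℕ) : ℤ)) + ((i : ℕ) : T)) ::
          seg y (p - 2 ^ (i : ℕ) * ((D + 1 : ℕ) : ℤ) + 1) s ++
        seg y (p - 2 ^ (i : ℕ) * D) ((2 ^ (i : ℕ) + 1) * D + 1) ++
        [y (p + ((D + 1 : ℕ) : ℤ))] := by
      rw [← h ((D + 1 : ℕ) : ℤ) (by push_cast; omega) le_rfl]
      rw [show (2 ^ (i : ℕ) + 1) * (D + 1) + 1 =
          (1 + s) + ((2 ^ (i : ℕ) + 1) * D + 1) + 1 by rw [hs]; ring,
        seg_add, seg_add, seg_add, seg_one, seg_one]
      congr 2
      · congr 1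
        push_cast
        rw [hs']; ring
      · congr 1
        push_cast
        rw [hs']; ring
    rw [e1]
    obtain ⟨m', hm'⟩ : ∃ m' : Fin 3, (m' : ℕ) = min D 2 := ⟨⟨min D 2, by omega⟩, rfl⟩
    refine LinSys.Gen.step (Or.inl ⟨i, y p, m, m', _, _, ?_, ?_, rfl⟩) (hD m' hm')
    · unfold nxt
      rcases (show D = 0 ∨ D = 1 ∨ 2 ≤ D by omega) with h | h | h
      · subst h
        left
        constructor <;> apply Fin.ext
        · rw [hm]; simp
        · rw [hm']; simp
      · subst h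
        right; left
        constructor <;> apply Fin.ext
        · rw [hm]; simp
        · rw [hm']; simp
      · right; right
        constructor <;> apply Fin.ext
        · rw [hm]; simp; omega
        · rw [hm']; simp; omega
    · rw [seg_length, hs]

theorem L_bad {y : ℤ → T} {i : Fin 3} {p d : ℤ} (h : Bad y i p d) :
    ∃ (a : ℤ) (n : ℕ), seg y a n ∈ L := by
  obtain ⟨h1, h2, h3⟩ := h
  obtain ⟨D, rfl⟩ : ∃ D : ℕ, d = ((D + 1 : ℕ) : ℤ) := ⟨(d - 1).toNat, by push_cast; omega⟩
  push_cast at h1 h2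
  have hg := gen_inner y i p D (fun e a b => h2 e a (by omega)) 2 (by simp; omega)
  refine ⟨p - 2 ^ (i : ℕ) * ((D + 1 : ℕ) : ℤ), (2 ^ (i : ℕ) + 1) * (D + 1) + 1, ?_⟩
  obtain ⟨s, hs⟩ : ∃ s, 2 ^ (i : ℕ) = s + 1 := ⟨2 ^ (i : ℕ) - 1, by
    have : 0 < 2 ^ (i : ℕ) := by positivity
    omega⟩
  have hs' : (2 : ℤ) ^ (i : ℕ) = s + 1 := by exact_mod_cast hs
  have e1 : seg y (p - 2 ^ (i : ℕ) * ((D + 1 : ℕ) : ℤ)) ((2 ^ (i : ℕ) + 1) * (D + 1) + 1) =
      y (p - 2 ^ (i : ℕ) * ((D + 1 : ℕ) : ℤ)) ::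
        seg y (p - 2 ^ (i : ℕ) * ((D + 1 : ℕ) : ℤ) + 1) s ++
      seg y (p - 2 ^ (i : ℕ) * D) ((2 ^ (i : ℕ) + 1) * D + 1) ++
      [y (p + ((D + 1 : ℕ) : ℤ))] := by
    rw [show (2 ^ (i : ℕ) + 1) * (D + 1) + 1 =
        (1 + s) + ((2 ^ (i : ℕ) + 1) * D + 1) + 1 by rw [hs]; ring,
      seg_add, seg_add, seg_add, seg_one, seg_one]
    congr 2
    · congr 1
      push_cast
      rw [hs']; ring
    · congr 1
      push_cast
      rw [hs']; ring
  rw [e1]
  exact LinSys.Gen.step (Or.inr ⟨i, y p, _, _, _, h3, by rw [seg_length, hs], rfl⟩) hg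

theorem L_win {y : ℤ → T} {n : ℤ}
    (h : ¬ ∃ a : ℤ, 1 ≤ a ∧ ∀ i : ℤ, 0 ≤ i → i < 33 → y (n + i) = X (a + i)) :
    seg y n 33 ∈ L := by
  refine LinSys.Gen.base (Or.inr ⟨_, ⟨seg_length _ _ _, fun a ha heq => h ⟨a, ha, ?_⟩⟩, rfl⟩)
  intro i h0 h1
  obtain ⟨j, rfl⟩ := Int.eq_ofNat_of_zero_le h0
  have hj : j < 33 := by omega
  have e1 := seg_getElem y n 33 j (by rw [seg_length]; exact hj)
  have e2 := seg_getElem X a 33 j (by rw [seg_length]; exact hj)
  rw [← e1, ← e2]
  simp only [heq]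

theorem nil_not_mem : ([] : List T) ∉ L := by
  intro h
  change sys.Gen none [] at h
  have := L_sound h 1 le_rfl
  simp [seg] at this

end Pool.Agent.H21.Cfl
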