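import Pool.Agent.H21.CflLang

set_option autoImplicit false

namespace Pool.Agent.H21.Cfl

theorem exists_seg_mem {y : ℤ → T} {P : ℤ} (hP : 1 ≤ P) (hper : ∀ n, y (n + P) = y n) :
    ∃ (a : ℤ) (n : ℕ), seg y a n ∈ L := by
  by_contra hcon
  push Not at hcon
  refine no_period (y := y) (fun i p d h => ?_) (fun n => ?_) hP hper
  · obtain ⟨a, n, h⟩ := L_bad h
    exact hcon a n h
  · by_contra h
    exact hcon n 33 (L_win h)

/-- the bi-infinite periodic word with period `w` -/
def per (w : List T) (n : ℤ) : T := w.getD (n % (w.length : ℤ)).toNat 0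

theorem per_add (w : List T) (n : ℤ) : per w (n + w.length) = per w n := by
  unfold per; rw [Int.add_emod_right]

theorem per_add_mul (w : List T) (n : ℤ) (q : ℕ) : per w (n + w.length * q) = per w n := by
  unfold per; rw [Int.add_mul_emod_self_left]

theorem seg_per (w : List T) (q : ℕ) : seg (per w) (w.length * q) w.length = w := by
  apply List.ext_getElem
  · rw [seg_length]
  · intro i h1 h2
    rw [seg_getElem, add_comm, per_add_mul]
    unfold per
    rw [Int.emod_eq_of_lt (by omega) (by exact_mod_cast h2), Int.toNat_natCast,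
      List.getD_eq_getElem _ _ h2]

theorem seg_flatten (w : List T) (m : ℕ) :
    seg (per w) 0 (w.length * m) = (List.replicate m w).flatten := by
  induction m with
  | zero => simp [seg]
  | succ m ih =>
    rw [mul_add, mul_one, seg_add, ih, List.replicate_succ', List.flatten_append]
    congr 1
    have := seg_per w m
    push_cast
    rw [zero_add, this]
    simp

theorem periodically_unavoidable : PeriodicallyUnavoidable L := by
  intro w hw
  have hlen : 1 ≤ w.length := List.length_pos_iff.2 hw
  obtain ⟨a, n, h⟩ := exists_seg_mem (y := per w) (P := w.length) (by exact_mod_cast hlen)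
    (per_add w)
  obtain ⟨b, hb⟩ : ∃ b : ℕ, a + w.length * (a.natAbs : ℤ) = b := by
    refine ⟨(a + w.length * (a.natAbs : ℤ)).toNat, ?_⟩
    rw [Int.toNat_of_nonneg]
    have h1 : (1 : ℤ) * (a.natAbs : ℤ) ≤ w.length * (a.natAbs : ℤ) :=
      mul_le_mul_of_nonneg_right (by exact_mod_cast hlen) (by positivity)
    omega
  have e1 : seg (per w) b n = seg (per w) a n := by
    unfold seg
    apply List.map_congr_left
    intro i _
    rw [← hb, add_right_comm, per_add_mul]
  refine ⟨b + n, seg (per w) a n, h, ?_⟩
  rw [← seg_flatten, ← e1]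
  obtain ⟨t, ht⟩ : ∃ t, w.length * (b + n) = b + n + t := by
    refine ⟨w.length * (b + n) - (b + n), ?_⟩
    have : 1 * (b + n) ≤ w.length * (b + n) := Nat.mul_le_mul_right _ hlen
    omega
  rw [ht, seg_add, seg_add, zero_add]
  exact List.infix_append _ _ _

/-- the infinite word -/
def word (n : ℕ) : T := X (n + 1)

theorem word_seg (a n : ℕ) : (List.range n).map (fun i => word (a + i)) = seg X (a + 1) n := by
  unfold seg
  apply List.map_congr_left
  intro i _
  unfold word
  congr 1
  push_cast
  ring

theorem word_avoids (a n : ℕ) : (List.range n).map (fun i => word (a + i)) ∉ L := by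
  intro h
  rw [word_seg] at h
  apply L_sound h (a + 1) (by omega)
  rw [seg_length]

theorem infix_seg {u : List T} {n : ℕ} (h : u <:+: seg X 1 n) :
    ∃ a : ℤ, 1 ≤ a ∧ u = seg X a u.length := by
  obtain ⟨s, t, hst⟩ := h
  refine ⟨1 + s.length, by omega, ?_⟩
  have hn : n = s.length + u.length + t.length := by
    have := congrArg List.length hst
    rw [seg_length] at this
    simp only [List.length_append] at this
    omega
  rw [hn, seg_add, seg_add] at hst
  have e1 := List.append_inj hst (by simp [seg_length])
  have e2 := List.append_inj e1.1 (by simp [seg_length])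
  exact e2.2

theorem not_unavoidable : ¬ Unavoidable L := by
  intro h
  have h1 : Set.range (fun n : ℕ => seg X 1 n) ⊆ {x : List T | ∀ u ∈ L, ¬ u <:+: x} := by
    rintro _ ⟨n, rfl⟩ u hu hin
    obtain ⟨a, ha, he⟩ := infix_seg hin
    exact L_sound hu a ha he
  have h2 := h.subset h1
  have h3 : Function.Injective (fun n : ℕ => seg X 1 n) := by
    intro n m hnm
    have := congrArg List.length hnm
    simpa [seg_length] using this
  exact Set.infinite_range_of_injective h3 h2

theorem main : ∃ L : Language (Fin 3), L.IsContextFree ∧ [] ∉ L ∧ PeriodicallyUnavoidable L ∧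
    ¬ Unavoidable L ∧
    ∃ x : ℕ → Fin 3, ∀ a n : ℕ, (List.range n).map (fun i => x (a + i)) ∉ L :=
  ⟨L, L_cf, nil_not_mem, periodically_unavoidable, not_unavoidable, word, word_avoids⟩

end Pool.Agent.H21.Cfl
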