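import Mathlib

set_option autoImplicit false

namespace Pool.Agent.H21.Cfl

abbrev T := ZMod 3

/-- valuation -/
def V (n : ℤ) : ℕ := padicValInt 2 n

def X (n : ℤ) : T := (V n : ZMod 3)

instance : Fact (Nat.Prime 2) := ⟨Nat.prime_two⟩

theorem V_spec {n : ℤ} {j : ℕ} (h1 : (2 : ℤ) ^ j ∣ n) (h2 : ¬ (2 : ℤ) ^ (j + 1) ∣ n) :
    V n = j := by
  have hn : n ≠ 0 := by rintro rfl; exact h2 (dvd_zero _)
  have a1 := (padicValInt_dvd_iff (p := 2) j n).1 (by exact_mod_cast h1)
  have a2 : ¬ (j + 1 ≤ padicValInt 2 n) := by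
    intro h
    exact h2 (by exact_mod_cast (padicValInt_dvd_iff (p := 2) (j + 1) n).2 (Or.inr h))
  rcases a1 with a1 | a1
  · exact absurd a1 hn
  · unfold V; omega

theorem V_dvd {n : ℤ} : (2 : ℤ) ^ (V n) ∣ n := by
  have := (padicValInt_dvd_iff (p := 2) (V n) n).2 (Or.inr le_rfl)
  exact_mod_cast this

theorem V_not_dvd {n : ℤ} (hn : n ≠ 0) : ¬ (2 : ℤ) ^ (V n + 1) ∣ n := by
  intro h
  rcases (padicValInt_dvd_iff (p := 2) (V n + 1) n).1 (by exact_mod_cast h) with h | h
  · exact hn h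
  · unfold V at h; omega

theorem dvd_iff {n : ℤ} (hn : n ≠ 0) (j : ℕ) : (2 : ℤ) ^ j ∣ n ↔ j ≤ V n := by
  constructor
  · intro h
    by_contra hc
    exact V_not_dvd hn ((pow_dvd_pow 2 (by omega)).trans h)
  · intro h
    exact (pow_dvd_pow 2 h).trans V_dvd

theorem V_lt {n : ℤ} {k : ℕ} (h : ¬ (2 : ℤ) ^ k ∣ n) : V n < k := by
  have hn : n ≠ 0 := by rintro rfl; exact h (dvd_zero _)
  rw [dvd_iff hn] at h
  omega

theorem ne_of_not_dvd {n : ℤ} {k : ℕ} (h : ¬ (2 : ℤ) ^ k ∣ n) : n ≠ 0 := by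
  rintro rfl; exact h (dvd_zero _)

/-- adding a multiple of a higher power of 2 does not change the valuation -/
theorem V_add {a b : ℤ} {k : ℕ} (ha : (2 : ℤ) ^ k ∣ a) (hb : ¬ (2 : ℤ) ^ k ∣ b) :
    V (a + b) = V b := by
  have hb0 := ne_of_not_dvd hb
  have hlt := V_lt hb
  apply V_spec
  · exact dvd_add ((pow_dvd_pow 2 (by omega)).trans ha) V_dvd
  · intro h
    apply V_not_dvd hb0
    have h2 : (2 : ℤ) ^ (V b + 1) ∣ a := (pow_dvd_pow 2 (by omega)).trans ha
    have := dvd_sub h h2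
    simpa using this

theorem V_neg (n : ℤ) : V (-n) = V n := by
  unfold V padicValInt
  rw [Int.natAbs_neg]

theorem V_mul_pow {n : ℤ} (hn : n ≠ 0) (i : ℕ) : V (2 ^ i * n) = V n + i := by
  apply V_spec
  · rw [add_comm, pow_add]
    exact mul_dvd_mul_left _ V_dvd
  · intro h
    apply V_not_dvd hn
    rw [show V n + i + 1 = i + (V n + 1) by omega, pow_add] at h
    exact (mul_dvd_mul_iff_left (by positivity)).1 h

theorem V_pow (i : ℕ) : V (2 ^ i) = i := by
  apply V_spec dvd_rfl
  intro h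
  have := Int.le_of_dvd (by positivity) h
  rw [pow_succ] at this
  have h2 : (0 : ℤ) < 2 ^ i := by positivity
  linarith

/-- If `p` and `d` have the same valuation `j` then `p - d` or `p + d` has valuation `j + 1`. -/
theorem V_pair {p d : ℤ} (hp : p ≠ 0) (hd : d ≠ 0) (h : V d = V p) :
    (V (p - d) = V p + 1 ∨ V (p + d) = V p + 1) := by
  obtain ⟨m, hm⟩ := V_dvd (n := p)
  obtain ⟨l, hl⟩ := V_dvd (n := d)
  have hmo : m % 2 = 1 := by
    have hodd : ¬ (2 : ℤ) ∣ m := by
      intro h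
      apply V_not_dvd hp
      have h3 : (2 : ℤ) ^ V p * 2 ∣ 2 ^ V p * m := mul_dvd_mul_left _ h
      rwa [← hm, ← pow_succ] at h3
    omega
  have hlo : l % 2 = 1 := by
    have hodd : ¬ (2 : ℤ) ∣ l := by
      intro h
      apply V_not_dvd hd
      have h3 : (2 : ℤ) ^ V d * 2 ∣ 2 ^ V d * l := mul_dvd_mul_left _ h
      rwa [← hl, ← pow_succ] at h3
    omega
  rw [h] at hl
  generalize V p = j at *
  subst hm
  subst hl
  rcases (show (m + l) % 4 = 2 ∨ (m - l) % 4 = 2 by omega) with h | h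
  · right
    rw [← mul_add]
    apply V_spec
    · rw [pow_succ]
      exact mul_dvd_mul_left _ (by omega)
    · intro hd
      rw [show j + 1 + 1 = j + 2 by omega, pow_add] at hd
      have := (mul_dvd_mul_iff_left (by positivity)).1 hd
      norm_num at this
      omega
  · left
    rw [← mul_sub]
    apply V_spec
    · rw [pow_succ]
      exact mul_dvd_mul_left _ (by omega)
    · intro hd
      rw [show j + 1 + 1 = j + 2 by omega, pow_add] at hd
      have := (mul_dvd_mul_iff_left (by positivity)).1 hd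
      norm_num at this
      omega

/-- forbidden pairs, relative to the centre -/
def forb (i : Fin 3) (b a : T) : Prop :=
  (i = 0 ∧ ((b = 0 ∧ a = 2) ∨ (b = 2 ∧ a = 0))) ∨
  (i = 1 ∧ ((b = 0 ∧ a = 0) ∨ (b = 0 ∧ a = 2) ∨ (b = 1 ∧ a = 1))) ∨
  (i = 2 ∧ (b = 0 ∧ a = 0))

instance (i : Fin 3) (b a : T) : Decidable (forb i b a) := by unfold forb; infer_instance

/-- The forbidden configuration of type `i` around the centre `p` with radius `d`, in `y`. -/
def Bad (y : ℤ → T) (i : Fin 3) (p : ℤ) (d : ℤ) : Prop :=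
  3 ≤ d ∧ (∀ e : ℤ, 1 ≤ e → e < d → y (p - 2 ^ (i : ℕ) * e) = y (p + e) + ((i : ℕ) : T)) ∧
    forb i (y (p + d) - y p) (y (p - 2 ^ (i : ℕ) * d) - y p)

theorem X_rel {p e : ℤ} {i : ℕ} {k : ℕ} (hp : (2 : ℤ) ^ k ∣ p) (h : ¬ (2 : ℤ) ^ k ∣ 2 ^ i * e) :
    X (p - 2 ^ i * e) = X (p + e) + (i : T) := by
  have he : ¬ (2 : ℤ) ^ k ∣ e := fun hc => h (hc.mul_left _)
  have he0 := ne_of_not_dvd he
  unfold X
  rw [V_add hp he, sub_eq_add_neg, V_add hp (by rwa [dvd_neg]), V_neg, V_mul_pow he0]
  push_cast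
  rfl

theorem dec0 : ∀ a b c : ZMod 3, (a = b ∨ a = c + 1 ∨ b = c + 1) → ¬ forb 0 (b - c) (a - c) := by
  decide

theorem dec1 : ∀ b c : ZMod 3, ¬ forb 1 (b - c) (b + 1 - c) := by decide

theorem dec1' : ∀ a b c : ZMod 3, b + 1 = c → ¬ forb 1 (b - c) (a - c) := by decide

theorem dec1'' : ∀ b c : ZMod 3, b = c + 1 → ¬ forb 1 (b - c) (c - c) := by decide

theorem dec2 : ∀ a b c : ZMod 3, b ≠ c → ¬ forb 2 (b - c) (a - c) := by decide

theorem dec2' : ∀ b c : ZMod 3, ¬ forb 2 (b - c) (b + 2 - c) := by decide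

theorem X_sound0 (p d : ℤ) (hd : 1 ≤ d) (hpos : 1 ≤ p - d) :
    ¬ forb 0 (X (p + d) - X p) (X (p - d) - X p) := by
  apply dec0
  have hp : p ≠ 0 := by omega
  have hd0 : d ≠ 0 := by omega
  unfold X
  rcases lt_trichotomy (V d) (V p) with h | h | h
  · left
    have h1 : ¬ (2 : ℤ) ^ V p ∣ d := by rw [dvd_iff hd0]; omega
    rw [V_add V_dvd h1, sub_eq_add_neg, V_add V_dvd (by rwa [dvd_neg]), V_neg]
  · right
    rcases V_pair hp hd0 h with h | h
    · left; rw [h]; push_cast; rfl
    · right; rw [h]; push_cast; rfl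
  · left
    have h1 : ¬ (2 : ℤ) ^ V d ∣ p := by rw [dvd_iff hp]; omega
    rw [add_comm p d, V_add V_dvd h1, sub_eq_add_neg, add_comm p, V_add (by
      rw [dvd_neg]; exact V_dvd) h1]

theorem V_one : V 1 = 0 := by have := V_pow 0; simpa using this

theorem three_ne (c : ZMod 3) : c ≠ c + 1 := by revert c; decide

theorem X_sound1 (p d : ℤ) (hd : 3 ≤ d) (hpos : 1 ≤ p - 2 * d)
    (hrel : ∀ e : ℤ, 1 ≤ e → e < d → X (p - 2 * e) = X (p + e) + 1) :
    ¬ forb 1 (X (p + d) - X p) (X (p - 2 * d) - X p) := by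
  have hp : p ≠ 0 := by omega
  have hd0 : d ≠ 0 := by omega
  by_cases A : (2 : ℤ) ^ V p ∣ 2 * d
  swap
  · have := X_rel (p := p) (e := d) (i := 1) (k := V p) V_dvd (by simpa using A)
    simp only [pow_one, Nat.cast_one] at this
    rw [this]
    exact dec1 _ _
  by_cases B : (2 : ℤ) ^ V p ∣ d
  swap
  · apply dec1'
    have h1 : V (p + d) = V d := V_add V_dvd B
    have h2 : V d < V p := V_lt B
    have h3 : V p ≤ V (2 * d) := (dvd_iff (by omega) _).1 A
    have h4 : V (2 * d) = V d + 1 := by have := V_mul_pow hd0 1; simpa using this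
    unfold X
    rw [h1, show V p = V d + 1 by omega]
    push_cast
    rfl
  · have hle : (2 : ℤ) ^ V p ≤ d := Int.le_of_dvd (by omega) B
    rcases Nat.eq_zero_or_pos (V p) with h0 | h0
    · exfalso
      have h2 : ¬ (2 : ℤ) ^ 1 ∣ p := by rw [dvd_iff hp]; omega
      have h3 := hrel 2 (by norm_num) (by omega)
      have h4 : V (p - 2 * 2) = 0 := by
        rw [sub_eq_add_neg, add_comm, V_add (k := 1) (by norm_num) h2, h0]
      have h5 : V (p + 2) = 0 := by
        rw [add_comm, V_add (k := 1) (by norm_num) h2, h0]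
      unfold X at h3
      rw [h4, h5] at h3
      revert h3; decide
    · obtain ⟨j, hj⟩ : ∃ j, V p = j + 1 := ⟨V p - 1, by omega⟩
      have hpj : (2 : ℤ) ^ (j + 1) ∣ p := by rw [← hj]; exact V_dvd
      have hlt : (2 : ℤ) ^ j < 2 ^ (j + 1) := by
        rw [pow_succ]; have : (0 : ℤ) < 2 ^ j := by positivity
        linarith
      rw [hj] at hle
      have h1 := hrel (2 ^ j) (by exact_mod_cast Nat.one_le_two_pow) (by omega)
      have nd : ¬ (2 : ℤ) ^ (j + 1) ∣ 2 ^ j := by
        intro h; have := Int.le_of_dvd (by positivity) h; omega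
      have h2 : V (p + 2 ^ j) = j := by rw [V_add hpj nd, V_pow]
      have h3 : X (p - 2 ^ (j + 1)) = X p := by
        rw [pow_succ, mul_comm, h1]
        unfold X
        rw [h2, hj]
        push_cast
        rfl
      have h4 : V (p + 2 ^ (j + 1)) = j + 2 := by
        rcases V_pair (p := p) (d := 2 ^ (j + 1)) hp (by positivity) (by rw [V_pow, hj]) with h | h
        · exfalso
          have : X (p - 2 ^ (j + 1)) = X p + 1 := by
            unfold X; rw [h]; push_cast; rfl
          rw [h3] at this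
          exact three_ne _ this
        · rw [h, hj]
      have h5 : X (p + 2 ^ (j + 1)) = X p + 1 := by
        unfold X
        rw [h4, hj]
        push_cast
        ring
      have h6 : X (p - 2 * 2 ^ (j + 1)) = X p := by
        unfold X
        have nd2 : ¬ (2 : ℤ) ^ (j + 2) ∣ p := by rw [dvd_iff hp]; omega
        rw [sub_eq_add_neg, add_comm, V_add (k := j + 2) (by
          rw [dvd_neg]; exact ⟨1, by ring⟩) nd2]
      rcases eq_or_lt_of_le hle with hle | hle
      · rw [← hle, h5, h6]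
        exact dec1'' _ _ rfl
      · exfalso
        have h7 := hrel (2 ^ (j + 1)) (by exact_mod_cast Nat.one_le_two_pow) hle
        rw [h5, h6] at h7
        revert h7
        generalize X p = c
        revert c
        decide

theorem X_sound2 (p d : ℤ) (hd : 3 ≤ d) (hpos : 1 ≤ p - 4 * d)
    (hrel : ∀ e : ℤ, 1 ≤ e → e < d → X (p - 4 * e) = X (p + e) + 2) :
    ¬ forb 2 (X (p + d) - X p) (X (p - 4 * d) - X p) := by
  have hp : p ≠ 0 := by omega
  have hd0 : d ≠ 0 := by omega
  by_cases A : (2 : ℤ) ^ V p ∣ 4 * d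
  swap
  · have := X_rel (p := p) (e := d) (i := 2) (k := V p) V_dvd (by norm_num; exact A)
    norm_num at this
    rw [this]
    exact dec2' _ _
  by_cases B : (2 : ℤ) ^ V p ∣ d
  swap
  · apply dec2
    have h1 : V (p + d) = V d := V_add V_dvd B
    have h2 : V d < V p := V_lt B
    have h3 : V p ≤ V (4 * d) := (dvd_iff (by omega) _).1 A
    have h4 : V (4 * d) = V d + 2 := by have := V_mul_pow hd0 2; norm_num at this; exact this
    unfold X
    rw [h1]
    rcases (show V p = V d + 1 ∨ V p = V d + 2 by omega) with h | h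
    · rw [h]; push_cast; exact three_ne _
    · rw [h]; push_cast
      generalize ((V d : ℕ) : ZMod 3) = c
      revert c; decide
  · have hle : (2 : ℤ) ^ V p ≤ d := Int.le_of_dvd (by omega) B
    exfalso
    rcases (show V p = 0 ∨ V p = 1 ∨ 2 ≤ V p by omega) with h0 | h0 | h0
    · have h2 : ¬ (2 : ℤ) ^ 1 ∣ p := by rw [dvd_iff hp]; omega
      have h3 := hrel 2 (by norm_num) (by omega)
      have h4 : V (p - 4 * 2) = 0 := by
        rw [sub_eq_add_neg, add_comm, V_add (k := 1) (by norm_num) h2, h0]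
      have h5 : V (p + 2) = 0 := by
        rw [add_comm, V_add (k := 1) (by norm_num) h2, h0]
      unfold X at h3
      rw [h4, h5] at h3
      revert h3; decide
    · have h2 : ¬ (2 : ℤ) ^ 2 ∣ p := by rw [dvd_iff hp]; omega
      have h2' : (2 : ℤ) ^ 1 ∣ p := by rw [dvd_iff hp]; omega
      have h3 := hrel 1 (by norm_num) (by omega)
      have h4 : V (p - 4 * 1) = 1 := by
        rw [sub_eq_add_neg, add_comm, V_add (k := 2) (by norm_num) h2, h0]
      have h5 : V (p + 1) = 0 := by
        rw [V_add (k := 1) h2' (by norm_num), V_one]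
      unfold X at h3
      rw [h4, h5] at h3
      revert h3; decide
    · obtain ⟨j, hj⟩ : ∃ j, V p = j + 2 := ⟨V p - 2, by omega⟩
      have hpj : (2 : ℤ) ^ (j + 2) ∣ p := by rw [← hj]; exact V_dvd
      have hpow : (0 : ℤ) < 2 ^ j := by positivity
      have e2 : (2 : ℤ) ^ (j + 2) = 4 * 2 ^ j := by ring
      rw [hj, e2] at hle
      have h1 := hrel (2 ^ j) (by omega) (by omega)
      have nd : ¬ (2 : ℤ) ^ (j + 1) ∣ 2 ^ j := by
        intro h; have := Int.le_of_dvd (by positivity) h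
        rw [pow_succ] at this; omega
      have hpj1 : (2 : ℤ) ^ (j + 1) ∣ p := (pow_dvd_pow 2 (by omega)).trans hpj
      have h2 : V (p + 2 ^ j) = j := by rw [V_add hpj1 nd, V_pow]
      have h3 : X (p - 2 ^ (j + 2)) = X p := by
        rw [e2, h1]
        unfold X
        rw [h2, hj]
        push_cast
        rfl
      have h4 : V (p + 2 ^ (j + 2)) = j + 3 := by
        rcases V_pair (p := p) (d := 2 ^ (j + 2)) hp (by positivity) (by rw [V_pow, hj]) with h | h
        · exfalso
          have : X (p - 2 ^ (j + 2)) = X p + 1 := by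
            unfold X; rw [h]; push_cast; rfl
          rw [h3] at this
          exact three_ne _ this
        · rw [h, hj]
      have h5 := hrel (3 * 2 ^ j) (by omega) (by omega)
      have nd3 : ¬ (2 : ℤ) ^ (j + 1) ∣ 3 * 2 ^ j := by
        intro h
        rw [pow_succ, mul_comm 3] at h
        have := (mul_dvd_mul_iff_left hpow.ne').1 h
        omega
      have h6 : V (p + 3 * 2 ^ j) = j := by
        rw [V_add hpj1 nd3]
        apply V_spec (dvd_mul_left _ _) nd3
      have h7 : V (p - 4 * (3 * 2 ^ j)) = j + 3 := by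
        rw [show p - 4 * (3 * 2 ^ j) = -(2 ^ (j + 4)) + (p + 2 ^ (j + 2)) by ring]
        rw [V_add (k := j + 4) (by rw [dvd_neg]), h4]
        rw [dvd_iff]
        · omega
        · intro h0'
          rw [h0'] at h4
          have : p = -(2 ^ (j+2)) := by linarith
          omega
      unfold X at h5
      rw [h6, h7] at h5
      push_cast at h5
      revert h5
      generalize ((j : ℕ) : ZMod 3) = c
      revert c
      decide

theorem X_sound (i : Fin 3) (p d : ℤ) (hpos : 1 ≤ p - 2 ^ (i : ℕ) * d) : ¬ Bad X i p d := by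
  rintro ⟨h3, hrel, hf⟩
  fin_cases i
  · simp only [Fin.zero_eta, Fin.val_zero, pow_zero, one_mul] at hpos hf
    exact X_sound0 p d (by omega) hpos hf
  · simp only [Fin.mk_one, Fin.val_one, pow_one, Nat.cast_one] at hpos hf hrel
    exact X_sound1 p d h3 hpos hrel hf
  · simp only [Fin.reduceFinMk, Fin.val_two] at hpos hf hrel
    norm_num at hpos hf hrel
    exact X_sound2 p d h3 hpos hrel hf

end Pool.Agent.H21.Cfl
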