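import Pool.Agent.H21.CflRuler

set_option autoImplicit false

namespace Pool.Agent.H21.Cfl

theorem decA : ∀ K c a : ZMod 3, ¬ forb 1 (K + 1 - c) (a - c) → ¬ forb 2 (K - c) (a - c) →
    a = K + 2 ∨ c = K + 2 := by decide

theorem decB' : ∀ κ a b : ZMod 3, (forb 0 (κ - κ) (a - κ) ∨ forb 0 (b - κ) (κ - κ) ∨
    forb 1 (b - κ) (a - κ)) ∨ ((a = κ ∧ b ≠ κ) ∨ (a ≠ κ ∧ b = κ)) := by decide

theorem decB (κ a b : ZMod 3) (h1 : ¬ forb 0 (κ - κ) (a - κ)) (h2 : ¬ forb 0 (b - κ) (κ - κ))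
    (h3 : ¬ forb 1 (b - κ) (a - κ)) : (a = κ ∧ b ≠ κ) ∨ (a ≠ κ ∧ b = κ) := by
  rcases decB' κ a b with (h | h | h) | h
  · exact absurd h h1
  · exact absurd h h2
  · exact absurd h h3
  · exact h

theorem relY {y : ℤ → T} {k : ℕ} (hS : ∀ n, ¬ (2 : ℤ) ^ k ∣ n → y n = X n) {p e : ℤ} {i : ℕ}
    (hp : (2 : ℤ) ^ k ∣ p) (h : ¬ (2 : ℤ) ^ k ∣ 2 ^ i * e) :
    y (p - 2 ^ i * e) = y (p + e) + (i : T) := by
  have he : ¬ (2 : ℤ) ^ k ∣ e := fun hc => h (hc.mul_left _)
  rw [hS _ (by rwa [dvd_sub_right hp]), hS _ (by rwa [dvd_add_right hp]), X_rel hp h]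

theorem not_dvd_small {k : ℕ} {e : ℤ} (h1 : 1 ≤ e) (h2 : e < 2 ^ k) : ¬ (2 : ℤ) ^ k ∣ e := by
  intro h
  have := Int.le_of_dvd (by omega) h
  omega

theorem X_pow_add {k K : ℕ} {p : ℤ} (hp : (2 : ℤ) ^ k ∣ p) (hK : K < k) :
    X (p + 2 ^ K) = (K : T) := by
  unfold X
  rw [V_add hp, V_pow]
  apply not_dvd_small (by exact_mod_cast Nat.one_le_two_pow)
  exact pow_lt_pow_right₀ (by norm_num) hK

theorem parity (z : ℤ → T) (κ : T) (h1 : ∀ i, z (i - 1) = κ ∨ z i = κ)
    (h2 : ∀ i, z (i + 1) = κ → z (i + 2) = κ → (z i = κ ∧ z (i + 3) ≠ κ) ∨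
      (z i ≠ κ ∧ z (i + 3) = κ)) :
    ∃ ε : ℤ, ∀ i, 2 ∣ i - ε → z i = κ := by
  have key : ∀ n : ℕ, ∀ i, z i ≠ κ → z (i + 2 * n + 1) ≠ κ → False := by
    intro n
    induction n using Nat.strong_induction_on with
    | _ n ih =>
      intro i hi hj
      by_cases hm : ∃ m, i < m ∧ m < i + 2 * n + 1 ∧ z m ≠ κ
      · obtain ⟨m, hm1, hm2, hm3⟩ := hm
        rcases Int.emod_two_eq_zero_or_one (m - i) with h | h
        · -- m - i even
          obtain ⟨t, ht⟩ : ∃ t : ℕ, i + 2 * n + 1 = m + 2 * t + 1 :=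
            ⟨((i + 2 * n - m) / 2).toNat, by omega⟩
          exact ih t (by omega) m hm3 (by rwa [← ht])
        · obtain ⟨t, ht⟩ : ∃ t : ℕ, m = i + 2 * t + 1 :=
            ⟨((m - i - 1) / 2).toNat, by omega⟩
          exact ih t (by omega) i hi (by rwa [← ht])
      · push Not at hm
        rcases (show n = 0 ∨ n = 1 ∨ 2 ≤ n by omega) with h | h | h
        · subst h
          simp only [Nat.cast_zero, mul_zero, add_zero] at hj
          rcases h1 (i + 1) with h | h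
          · rw [add_sub_cancel_right] at h; exact hi h
          · exact hj h
        · subst h
          have e1 := hm (i + 1) (by omega) (by omega)
          have e2 := hm (i + 2) (by omega) (by omega)
          rcases h2 i e1 e2 with h | h
          · exact hi h.1
          · apply hj
            rw [← h.2]; congr 1; push_cast; ring
        · have e1 := hm (i + 1) (by omega) (by omega)
          have e2 := hm (i + 1 + 1) (by omega) (by omega)
          have e3 := hm (i + 1 + 2) (by omega) (by omega)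
          have e4 := hm (i + 1 + 3) (by omega) (by omega)
          rcases h2 (i + 1) e2 e3 with h | h
          · exact h.2 e4
          · exact h.1 e1
  by_contra hcon
  push Not at hcon
  obtain ⟨i, hi1, hi2⟩ := hcon 0
  obtain ⟨j, hj1, hj2⟩ := hcon 1
  rcases lt_trichotomy i j with h | h | h
  · obtain ⟨t, ht⟩ : ∃ t : ℕ, j = i + 2 * t + 1 := ⟨((j - i - 1) / 2).toNat, by omega⟩
    exact key t i hi2 (by rwa [← ht])
  · omega
  · obtain ⟨t, ht⟩ : ∃ t : ℕ, i = j + 2 * t + 1 := ⟨((i - j - 1) / 2).toNat, by omega⟩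
    exact key t j hj2 (by rwa [← ht])

theorem step_aux {y : ℤ → T} (hg : ∀ i p d, ¬ Bad y i p d) {K : ℕ} (hK : 2 ≤ K)
    (hS : ∀ n, ¬ (2 : ℤ) ^ (K + 2) ∣ n → y n = X n) :
    ∃ ε : ℤ, ∀ i, 2 ∣ i - ε → y (2 ^ (K + 2) * i) = ((K + 2 : ℕ) : T) := by
  have hpow : (4 : ℤ) ≤ 2 ^ K := by
    calc (4 : ℤ) = 2 ^ 2 := by norm_num
      _ ≤ 2 ^ K := pow_le_pow_right₀ (by norm_num) hK
  have e1 : (2 : ℤ) ^ (K + 1) = 2 * 2 ^ K := by ring
  have e2 : (2 : ℤ) ^ (K + 2) = 4 * 2 ^ K := by ring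
  apply parity (fun i => y (2 ^ (K + 2) * i))
  · intro i
    have hp : (2 : ℤ) ^ (K + 2) ∣ 2 ^ (K + 2) * i := dvd_mul_right _ _
    have b1 := hg 1 (2 ^ (K + 2) * i) (2 ^ (K + 1))
    have b2 := hg 2 (2 ^ (K + 2) * i) (2 ^ K)
    unfold Bad at b1 b2
    simp only [not_and] at b1 b2
    have b1' := b1 (by omega) (fun e he1 he2 => by
      apply relY hS hp
      apply not_dvd_small (by simp; omega)
      simp only [Fin.val_one, pow_one]
      omega)
    have b2' := b2 (by omega) (fun e he1 he2 => by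
      apply relY hS hp
      apply not_dvd_small (by simp; omega)
      simp only [Fin.val_two]
      omega)
    have v1 : y (2 ^ (K + 2) * i + 2 ^ (K + 1)) = (K : T) + 1 := by
      rw [hS, X_pow_add hp (by omega)]
      · push_cast; rfl
      · rw [dvd_add_right hp]
        exact not_dvd_small (by omega) (by omega)
    have v2 : y (2 ^ (K + 2) * i + 2 ^ K) = (K : T) := by
      rw [hS, X_pow_add hp (by omega)]
      rw [dvd_add_right hp]
      exact not_dvd_small (by omega) (by omega)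
    rw [v1, show (2 : ℤ) ^ (K + 2) * i - 2 ^ ((1 : Fin 3) : ℕ) * 2 ^ (K + 1) =
      2 ^ (K + 2) * (i - 1) by simp only [Fin.val_one, pow_one]; ring] at b1'
    rw [v2, show (2 : ℤ) ^ (K + 2) * i - 2 ^ ((2 : Fin 3) : ℕ) * 2 ^ K =
      2 ^ (K + 2) * (i - 1) by simp only [Fin.val_two]; ring] at b2'
    have := decA _ _ _ b1' b2'
    push_cast
    exact this
  · intro i z1 z2
    have hp1 : (2 : ℤ) ^ (K + 2) ∣ 2 ^ (K + 2) * (i + 1) := dvd_mul_right _ _
    have hp2 : (2 : ℤ) ^ (K + 2) ∣ 2 ^ (K + 2) * (i + 2) := dvd_mul_right _ _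
    have b1 := hg 0 (2 ^ (K + 2) * (i + 1)) (2 ^ (K + 2))
    have b2 := hg 0 (2 ^ (K + 2) * (i + 2)) (2 ^ (K + 2))
    have b3 := hg 1 (2 ^ (K + 2) * (i + 2)) (2 ^ (K + 2))
    unfold Bad at b1 b2 b3
    simp only [not_and] at b1 b2 b3
    have b1' := b1 (by omega) (fun e he1 he2 => by
      apply relY hS hp1
      apply not_dvd_small (by simp; omega)
      simp only [Fin.val_zero, pow_zero, one_mul]
      omega)
    have b2' := b2 (by omega) (fun e he1 he2 => by
      apply relY hS hp2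
      apply not_dvd_small (by simp; omega)
      simp only [Fin.val_zero, pow_zero, one_mul]
      omega)
    have b3' := b3 (by omega) (fun e he1 he2 => by
      by_cases hd : (2 : ℤ) ^ (K + 2) ∣ 2 ^ ((1 : Fin 3) : ℕ) * e
      · simp only [Fin.val_one, pow_one] at hd
        obtain ⟨q, hq⟩ := hd
        have hq1 : q = 1 := by
          have h1 : 0 < q := by
            by_contra hc
            have : (2 : ℤ) ^ (K + 2) * q ≤ 0 :=
              mul_nonpos_of_nonneg_of_nonpos (by positivity) (by omega)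
            omega
          have h2 : q < 2 := by
            by_contra hc
            have : (2 : ℤ) ^ (K + 2) * 2 ≤ 2 ^ (K + 2) * q :=
              mul_le_mul_of_nonneg_left (by omega) (by positivity)
            omega
          omega
        subst hq1
        have he : e = 2 ^ (K + 1) := by omega
        subst he
        rw [show (2 : ℤ) ^ (K + 2) * (i + 2) - 2 ^ ((1 : Fin 3) : ℕ) * 2 ^ (K + 1) =
          2 ^ (K + 2) * (i + 1) by simp only [Fin.val_one, pow_one]; ring, z1, hS,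
          X_pow_add hp2 (by omega)]
        · push_cast; simp only [Fin.val_one, Nat.cast_one]; ring
        · rw [dvd_add_right hp2]
          exact not_dvd_small (by omega) (by omega)
      · exact relY hS hp2 hd)
    rw [show (2 : ℤ) ^ (K + 2) * (i + 1) + 2 ^ (K + 2) = 2 ^ (K + 2) * (i + 2) by ring,
      show (2 : ℤ) ^ (K + 2) * (i + 1) - 2 ^ ((0 : Fin 3) : ℕ) * 2 ^ (K + 2) =
        2 ^ (K + 2) * i by simp only [Fin.val_zero, pow_zero]; ring, z1, z2] at b1'
    rw [show (2 : ℤ) ^ (K + 2) * (i + 2) + 2 ^ (K + 2) = 2 ^ (K + 2) * (i + 3) by ring,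
      show (2 : ℤ) ^ (K + 2) * (i + 2) - 2 ^ ((0 : Fin 3) : ℕ) * 2 ^ (K + 2) =
        2 ^ (K + 2) * (i + 1) by simp only [Fin.val_zero, pow_zero]; ring, z1, z2] at b2'
    rw [show (2 : ℤ) ^ (K + 2) * (i + 2) + 2 ^ (K + 2) = 2 ^ (K + 2) * (i + 3) by ring,
      show (2 : ℤ) ^ (K + 2) * (i + 2) - 2 ^ ((1 : Fin 3) : ℕ) * 2 ^ (K + 2) =
        2 ^ (K + 2) * i by simp only [Fin.val_one, pow_one]; ring, z2] at b3'
    exact decB _ _ _ b1' b2' b3'

/-- the structure statement of level `k` -/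
def S (y : ℤ → T) (k : ℕ) (r : ℤ) : Prop := ∀ n, ¬ (2 : ℤ) ^ k ∣ n - r → y n = X (n - r)

theorem Bad_shift {y : ℤ → T} {r : ℤ} {i : Fin 3} {p d : ℤ}
    (h : Bad (fun n => y (n + r)) i p d) : Bad y i (p + r) d := by
  obtain ⟨h1, h2, h3⟩ := h
  refine ⟨h1, fun e he1 he2 => ?_, ?_⟩
  · have := h2 e he1 he2
    simp only at this
    rw [show p + r - 2 ^ (i : ℕ) * e = p - 2 ^ (i : ℕ) * e + r by ring,
      show p + r + e = p + e + r by ring]
    exact this
  · rw [show p + r - 2 ^ (i : ℕ) * d = p - 2 ^ (i : ℕ) * d + r by ring,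
      show p + r + d = p + d + r by ring]
    exact h3

theorem step {y : ℤ → T} (hg : ∀ i p d, ¬ Bad y i p d) {k : ℕ} (hk : 4 ≤ k) {r : ℤ}
    (hS : S y k r) : ∃ r', S y (k + 1) r' := by
  obtain ⟨K, rfl⟩ : ∃ K, k = K + 2 := ⟨k - 2, by omega⟩
  obtain ⟨ε, hε⟩ := step_aux (y := fun n => y (n + r)) (fun i p d h => hg i _ d (Bad_shift h))
    (K := K) (by omega) (fun n hn => by
      have := hS (n + r) (by simpa using hn)
      simpa using this)
  refine ⟨r + 2 ^ (K + 2) * (ε + 1), fun n hn => ?_⟩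
  by_cases hd : (2 : ℤ) ^ (K + 2) ∣ n - r
  · obtain ⟨q, hq⟩ := hd
    have hq' : ¬ (2 : ℤ) ∣ q - ε - 1 := by
      intro h
      apply hn
      rw [show n - (r + 2 ^ (K + 2) * (ε + 1)) = 2 ^ (K + 2) * (q - ε - 1) by
        rw [← sub_sub, hq]; ring, pow_succ]
      exact mul_dvd_mul_left _ h
    have h1 := hε q (by omega)
    rw [← hq, sub_add_cancel] at h1
    rw [h1]
    unfold X
    rw [V_spec (j := K + 2)]
    · rw [show n - (r + 2 ^ (K + 2) * (ε + 1)) = 2 ^ (K + 2) * (q - ε - 1) by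
        rw [← sub_sub, hq]; ring]
      exact dvd_mul_right _ _
    · exact hn
  · rw [hS n hd]
    unfold X
    congr 1
    rw [show n - (r + 2 ^ (K + 2) * (ε + 1)) = -(2 ^ (K + 2) * (ε + 1)) + (n - r) by ring]
    rw [V_add (by rw [dvd_neg]; exact dvd_mul_right _ _) hd]

theorem recog {a b : ℤ} (h : ∀ i : ℤ, 0 ≤ i → i < 32 → X (a + i) = X (b + i)) :
    (2 : ℤ) ^ 4 ∣ a - b := by
  by_contra hc
  have hj := V_lt hc
  have h0 := ne_of_not_dvd hc
  set j := V (a - b) with hjd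
  have hpos : (0 : ℤ) < 2 ^ (j + 2) := by positivity
  have hle : (2 : ℤ) ^ (j + 2) ≤ 32 := by
    calc (2 : ℤ) ^ (j + 2) ≤ 2 ^ 5 := pow_le_pow_right₀ (by norm_num) (by omega)
      _ = 32 := by norm_num
  have hi := h ((2 ^ (j + 1) - b) % 2 ^ (j + 2)) (Int.emod_nonneg _ (by omega))
    (lt_of_lt_of_le (Int.emod_lt_of_pos _ hpos) hle)
  set i := (2 ^ (j + 1) - b) % 2 ^ (j + 2) with hidef
  have hdi : (2 : ℤ) ^ (j + 2) ∣ (b + i) - 2 ^ (j + 1) := by
    have := Int.emod_add_mul_ediv (2 ^ (j + 1) - b) (2 ^ (j + 2))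
    refine ⟨-((2 ^ (j + 1) - b) / 2 ^ (j + 2)), ?_⟩
    rw [mul_neg]
    linarith
  have nd : ¬ (2 : ℤ) ^ (j + 2) ∣ 2 ^ (j + 1) := by
    apply not_dvd_small (by exact_mod_cast Nat.one_le_two_pow)
    exact pow_lt_pow_right₀ (by norm_num) (by omega)
  have vb : V (b + i) = j + 1 := by
    have := V_add hdi nd
    rw [sub_add_cancel, V_pow] at this
    exact this
  have va : V (a + i) = j := by
    have h1 : (2 : ℤ) ^ (j + 1) ∣ b + i := by rw [← vb]; exact V_dvd
    have h2 : ¬ (2 : ℤ) ^ (j + 1) ∣ a - b := by rw [hjd]; exact V_not_dvd h0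
    have := V_add h1 h2
    rw [show b + i + (a - b) = a + i by ring] at this
    exact this
  unfold X at hi
  rw [va, vb] at hi
  push_cast at hi
  exact three_ne _ hi

theorem base {y : ℤ → T}
    (hw : ∀ n : ℤ, ∃ a : ℤ, 1 ≤ a ∧ ∀ i : ℤ, 0 ≤ i → i < 33 → y (n + i) = X (a + i)) :
    ∃ r, S y 4 r := by
  choose a _ ha using hw
  have h1 : ∀ n, (2 : ℤ) ^ 4 ∣ a (n + 1) - (a n + 1) := by
    intro n
    apply recog
    intro i h0 h1
    rw [← ha (n + 1) i h0 (by omega), show n + 1 + i = n + (i + 1) by ring,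
      ha n (i + 1) (by omega) (by omega)]
    congr 1; ring
  have h2 : ∀ n, (2 : ℤ) ^ 4 ∣ a n - (a 0 + n) := by
    intro n
    induction n using Int.induction_on with
    | zero => simp
    | succ n ih =>
      have := dvd_add (h1 n) ih
      rw [show a (n + 1) - (a n + 1) + (a n - (a 0 + n)) = a (n + 1) - (a 0 + (n + 1)) by ring]
        at this
      exact this
    | pred n ih =>
      have := dvd_sub ih (h1 (-n - 1))
      rw [sub_add_cancel, show a (-n) - (a 0 + -n) - (a (-n) - (a (-n - 1) + 1)) =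
        a (-n - 1) - (a 0 + (-n - 1)) by ring] at this
      exact this
  refine ⟨-a 0, fun n hn => ?_⟩
  have h3 := ha n 0 le_rfl (by norm_num)
  simp only [add_zero] at h3
  rw [h3]
  unfold X
  congr 1
  have := V_add (h2 n) hn
  rw [← this]
  congr 1
  ring

theorem no_period {y : ℤ → T} (hg : ∀ i p d, ¬ Bad y i p d)
    (hw : ∀ n : ℤ, ∃ a : ℤ, 1 ≤ a ∧ ∀ i : ℤ, 0 ≤ i → i < 33 → y (n + i) = X (a + i))
    {P : ℤ} (hP : 1 ≤ P) (hper : ∀ n, y (n + P) = y n) : False := by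
  have hall : ∀ k, ∃ r, S y (k + 4) r := by
    intro k
    induction k with
    | zero => exact base hw
    | succ k ih =>
      obtain ⟨r, hr⟩ := ih
      exact step hg (by omega) hr
  obtain ⟨b, hb⟩ := V_dvd (n := P)
  have hbo : ¬ (2 : ℤ) ∣ b := by
    intro h
    apply V_not_dvd (n := P) (by omega)
    have h3 : (2 : ℤ) ^ V P * 2 ∣ 2 ^ V P * b := mul_dvd_mul_left _ h
    rwa [← hb, ← pow_succ] at h3
  obtain ⟨r, hr⟩ := hall (V P)
  generalize V P = a at *
  have n1 : ¬ (2 : ℤ) ^ (a + 1) ∣ 2 ^ a * (2 - b) := by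
    intro h
    rw [pow_succ] at h
    have := (mul_dvd_mul_iff_left (by positivity)).1 h
    omega
  have n1' : ¬ (2 : ℤ) ^ (a + 4) ∣ 2 ^ a * (2 - b) := fun h =>
    n1 ((pow_dvd_pow 2 (by omega)).trans h)
  have n2 : ¬ (2 : ℤ) ^ (a + 4) ∣ 2 ^ (a + 1) := by
    apply not_dvd_small (by exact_mod_cast Nat.one_le_two_pow)
    exact pow_lt_pow_right₀ (by norm_num) (by omega)
  have h1 := hr (r + 2 ^ a * (2 - b)) (by rwa [add_sub_cancel_left])
  have h2 := hr (r + 2 ^ a * (2 - b) + P) (by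
    rw [hb, show r + 2 ^ a * (2 - b) + 2 ^ a * b - r = 2 ^ (a + 1) by ring]
    exact n2)
  rw [hper, h1, add_sub_cancel_left] at h2
  rw [hb] at h2
  rw [show r + 2 ^ a * (2 - b) + 2 ^ a * b - r = 2 ^ (a + 1) by ring] at h2
  unfold X at h2
  rw [V_pow, V_spec (dvd_mul_right _ _) n1] at h2
  push_cast at h2
  exact three_ne _ h2

end Pool.Agent.H21.Cfl
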