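import Pool.Agent.H21.CritData

set_option autoImplicit false

namespace Pool.Agent.H21.Crit

/-- edge index -/
def idx (v w : ℕ) : ℕ := (((nb.getD v []).find? (fun p => p.1 == w)).getD (0, 157)).2

theorem adj_symm' : ∀ a b : Fin 110, adjB a b = true → adjB b a = true := by
  decide +kernel

theorem adj_irrefl : ∀ a : Fin 110, adjB a a = false := by
  decide +kernel

/-- adjacency implies being listed -/
def ck1 : Bool := (List.range 110).all fun a => (List.range 110).all fun b =>
  !(adjB a b) || (((nb.getD a []).map Prod.fst).contains b &&
    decide (idx a b < 157) && (idx a b == idx b a) &&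
    (EL.getD (idx a b) (0, 0) == (if a < b then (a, b) else (b, a))))

theorem ck1_true : ck1 = true := by decide +kernel

/-- incident edges are listed in `confl` -/
def ck2 : Bool := (List.range 110).all fun v =>
  let l := (nb.getD v []).map Prod.snd
  l.all fun i => l.all fun j => i == j || confl.contains (i, j) || confl.contains (j, i)

theorem ck2_true : ck2 = true := by decide +kernel

def dg (N i : ℕ) : ℕ := (N >>> (2 * i)) % 4

/-- each row is a proper colouring of the graph minus an edge -/
def ck3 : Bool := (List.range 157).all fun k =>
  let N := rows.getD k 0
  (confl.all fun p => p.1 == k || p.2 == k || dg N p.1 != dg N p.2) &&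
  ((List.range 157).all fun i => decide (dg N i < 3))

theorem ck3_true : ck3 = true := by decide +kernel

/-- the neighbour lists have no repetitions -/
def ck4 : Bool := (List.range 110).all fun v =>
  decide (((nb.getD v []).map Prod.fst).length ≤ 3)

theorem ck4_true : ck4 = true := by decide +kernel

end Pool.Agent.H21.Crit
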