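import Pool.Agent.H21.CritMain

set_option autoImplicit false

namespace Pool.Agent.H21.Crit

/-- the graph -/
def G : SimpleGraph (Fin 110) where
  Adj a b := adjB a b = true
  symm := ⟨fun a b h => adj_symm' a b h⟩
  loopless := ⟨fun a h => by rw [adj_irrefl a] at h; exact absurd h (by simp)⟩

instance : DecidableRel G.Adj := fun a b => inferInstanceAs (Decidable (adjB a b = true))

theorem par_ok : ∀ v : Fin 110, v ≠ 0 → adjB v (par.getD v 0) = true ∧ par.getD v 0 < 110 ∧
    dep.getD (par.getD v 0) 0 < dep.getD v 0 := by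
  decide +kernel

theorem connected : G.Connected := by
  have h : ∀ (n : ℕ) (v : Fin 110), dep.getD v 0 = n → G.Reachable v 0 := by
    intro n
    induction n using Nat.strong_induction_on with
    | _ n ih =>
      intro v hv
      by_cases h0 : v = 0
      · rw [h0]
      · obtain ⟨h1, h2, h3⟩ := par_ok v h0
        have h4 : G.Adj v ⟨par.getD v 0, h2⟩ := h1
        exact h4.reachable.trans (ih _ (hv ▸ h3) ⟨par.getD v 0, h2⟩ rfl)
  have : Nonempty (Fin 110) := ⟨0⟩
  exact ⟨fun a b => (h _ a rfl).trans (h _ b rfl).symm⟩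

theorem ck1' {a b : Fin 110} (h : adjB a b = true) :
    (b : ℕ) ∈ (nb.getD a []).map Prod.fst ∧ idx a b < 157 ∧ idx a b = idx b a ∧
    EL.getD (idx a b) (0, 0) = if (a : ℕ) < b then ((a : ℕ), (b : ℕ)) else ((b : ℕ), (a : ℕ)) := by
  have h1 := ck1_true
  unfold ck1 at h1
  rw [List.all_eq_true] at h1
  have h2 := h1 a (List.mem_range.2 a.2)
  rw [List.all_eq_true] at h2
  have h3 := h2 b (List.mem_range.2 b.2)
  rw [h] at h3
  simp only [Bool.not_true, Bool.false_or, Bool.and_eq_true, decide_eq_true_eq, beq_iff_eq,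
    List.contains_iff_mem] at h3
  exact ⟨h3.1.1.1, h3.1.1.2, h3.1.2, h3.2⟩

theorem degree_le (v : Fin 110) : G.degree v ≤ 3 := by
  have h1 := ck4_true
  unfold ck4 at h1
  rw [List.all_eq_true] at h1
  have h2 := h1 v (List.mem_range.2 v.2)
  rw [decide_eq_true_eq] at h2
  rw [← SimpleGraph.card_neighborFinset_eq_degree]
  have h3 : (G.neighborFinset v).image (fun w : Fin 110 => (w : ℕ)) ⊆
      ((nb.getD v []).map Prod.fst).toFinset := by
    intro x hx
    obtain ⟨w, hw, rfl⟩ := Finset.mem_image.1 hx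
    rw [SimpleGraph.mem_neighborFinset] at hw
    rw [List.mem_toFinset]
    exact (ck1' hw).1
  have h4 := Finset.card_le_card h3
  rw [Finset.card_image_of_injective _ Fin.val_injective] at h4
  exact h4.trans ((List.toFinset_card_le _).trans h2)

theorem degree_zero : 3 ≤ G.degree 0 := by
  rw [← SimpleGraph.card_neighborFinset_eq_degree]
  have h3 : ({4, 5, 26} : Finset (Fin 110)) ⊆ G.neighborFinset 0 := by
    intro x hx
    simp only [Finset.mem_insert, Finset.mem_singleton] at hx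
    rw [SimpleGraph.mem_neighborFinset]
    rcases hx with rfl | rfl | rfl
    · show adjB 0 4 = true; decide +kernel
    · show adjB 0 5 = true; decide +kernel
    · show adjB 0 26 = true; decide +kernel
  exact (by decide : 3 ≤ ({4, 5, 26} : Finset (Fin 110)).card).trans (Finset.card_le_card h3)

theorem maxDegree_eq : G.maxDegree = 3 :=
  le_antisymm (G.maxDegree_le_of_forall_degree_le 3 degree_le)
    (degree_zero.trans (G.degree_le_maxDegree 0))

theorem not_colorable : ¬ ∃ c : G.edgeSet → Fin G.maxDegree,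
    ∀ e f : G.edgeSet, e ≠ f → (∃ v, v ∈ e.1 ∧ v ∈ f.1) → c e ≠ c f := by
  rintro ⟨c, hc⟩
  classical
  let f : ℕ → ℕ → ℕ := fun a b =>
    if h : a < 110 ∧ b < 110 then
      if h2 : s((⟨a, h.1⟩ : Fin 110), (⟨b, h.2⟩ : Fin 110)) ∈ G.edgeSet then (c ⟨_, h2⟩ : ℕ) else 0
    else 0
  have hf : ∀ a b (ha : a < 110) (hb : b < 110) (h : adjB a b = true),
      f a b = (c ⟨s((⟨a, ha⟩ : Fin 110), (⟨b, hb⟩ : Fin 110)), h⟩ : ℕ) := by
    intro a b ha hb h
    have h2 : s((⟨a, ha⟩ : Fin 110), (⟨b, hb⟩ : Fin 110)) ∈ G.edgeSet := h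
    simp only [f]
    rw [dif_pos ⟨ha, hb⟩, dif_pos h2]
  refine not_col f ⟨?_, ?_, ?_⟩
  · intro a b
    simp only [f]
    split_ifs with h1 h2
    · exact lt_of_lt_of_le (c _).2 maxDegree_eq.le
    · norm_num
    · norm_num
  · intro a b ha hb h
    rw [hf a b ha hb h, hf b a hb ha (adj_symm ha hb h)]
    congr 2
    exact Subtype.ext Sym2.eq_swap
  · intro a b d ha hb hd h1 h2 hne
    rw [hf a b ha hb h1, hf a d ha hd h2]
    intro he
    refine hc ⟨s((⟨a, ha⟩ : Fin 110), (⟨b, hb⟩ : Fin 110)), h1⟩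
      ⟨s((⟨a, ha⟩ : Fin 110), (⟨d, hd⟩ : Fin 110)), h2⟩ ?_ ⟨⟨a, ha⟩, by simp, by simp⟩ (Fin.ext he)
    intro h3
    have h4 := congrArg Subtype.val h3
    simp only [Sym2.eq_iff, Fin.mk.injEq, true_and] at h4
    rcases h4 with h4 | ⟨h4, h5⟩
    · exact hne h4
    · exact hne (h5.trans h4)

/-- index of an edge -/
noncomputable def I (x : Sym2 (Fin 110)) : ℕ := idx (Quot.out x).1 (Quot.out x).2

theorem I_mk {a b : Fin 110} (h : adjB a b = true) : I s(a, b) = idx a b := by
  unfold I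
  have h1 : s((Quot.out s(a, b)).1, (Quot.out s(a, b)).2) = s(a, b) := Quot.out_eq s(a, b)
  rw [Sym2.eq_iff] at h1
  rcases h1 with ⟨h1, h2⟩ | ⟨h1, h2⟩
  · rw [h1, h2]
  · rw [h1, h2, (ck1' h).2.2.1]

theorem I_inj {x y : Sym2 (Fin 110)} (hx : x ∈ G.edgeSet) (hy : y ∈ G.edgeSet)
    (h : I x = I y) : x = y := by
  induction x with
  | _ a b =>
    induction y with
    | _ c d =>
      have hx' : adjB a b = true := hx
      have hy' : adjB c d = true := hy
      rw [I_mk hx', I_mk hy'] at h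
      have h1 := (ck1' hx').2.2.2
      have h2 := (ck1' hy').2.2.2
      rw [h, h2] at h1
      rw [Sym2.eq_iff]
      split_ifs at h1 <;> simp only [Prod.mk.injEq] at h1 <;> obtain ⟨h3, h4⟩ := h1 <;>
      first
      | (left; exact ⟨Fin.ext (by omega), Fin.ext (by omega)⟩)
      | (right; exact ⟨Fin.ext (by omega), Fin.ext (by omega)⟩)

theorem I_lt {x : Sym2 (Fin 110)} (hx : x ∈ G.edgeSet) : I x < 157 := by
  induction x with
  | _ a b =>
    have hx' : adjB a b = true := hx
    rw [I_mk hx']; exact (ck1' hx').2.1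

theorem I_mem {v : Fin 110} {x : Sym2 (Fin 110)} (hx : x ∈ G.edgeSet) (hv : v ∈ x) :
    I x ∈ (nb.getD v []).map Prod.snd := by
  obtain ⟨w, rfl⟩ := hv
  have hx' : adjB v w = true := hx
  rw [I_mk hx']
  have h1 := (ck1' hx').1
  have h2 := (ck1' hx').2.1
  unfold idx at h2 ⊢
  rcases hf : (nb.getD v []).find? (fun p => p.1 == (w : ℕ)) with _ | p
  · rw [hf] at h2; simp at h2
  · rw [hf, Option.getD_some]
    exact List.mem_map_of_mem (List.mem_of_find?_eq_some hf)

theorem row_ok (k : ℕ) (hk : k < 157) :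
    (∀ p ∈ confl, p.1 = k ∨ p.2 = k ∨ dg (rows.getD k 0) p.1 ≠ dg (rows.getD k 0) p.2) ∧
    ∀ i < 157, dg (rows.getD k 0) i < 3 := by
  have h1 := ck3_true
  unfold ck3 at h1
  rw [List.all_eq_true] at h1
  have h2 := h1 k (List.mem_range.2 hk)
  simp only [Bool.and_eq_true, List.all_eq_true, Bool.or_eq_true, beq_iff_eq, bne_iff_ne,
    decide_eq_true_eq, List.mem_range] at h2
  refine ⟨fun p hp => ?_, h2.2⟩
  rcases h2.1 p hp with (h | h) | h
  · exact Or.inl h
  · exact Or.inr (Or.inl h)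
  · exact Or.inr (Or.inr h)

theorem colorable_minus (e : Sym2 (Fin 110)) (he : e ∈ G.edgeSet) :
    ∃ c : (G.deleteEdges {e}).edgeSet → Fin G.maxDegree,
      ∀ a b : (G.deleteEdges {e}).edgeSet, a ≠ b →
        (∃ v, v ∈ a.1 ∧ v ∈ b.1) → c a ≠ c b := by
  have hmem : ∀ a : (G.deleteEdges {e}).edgeSet, a.1 ∈ G.edgeSet ∧ a.1 ≠ e := by
    rintro ⟨x, hx⟩
    rw [SimpleGraph.edgeSet_deleteEdges] at hx
    exact ⟨hx.1, fun h => hx.2 h⟩
  obtain ⟨r1, r2⟩ := row_ok (I e) (I_lt he)
  refine ⟨fun a => ⟨dg (rows.getD (I e) 0) (I a.1), ?_⟩, ?_⟩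
  · rw [maxDegree_eq]
    exact r2 _ (I_lt (hmem a).1)
  · rintro a b hab ⟨v, hva, hvb⟩ heq
    simp only [Fin.mk.injEq] at heq
    obtain ⟨ha, hae⟩ := hmem a
    obtain ⟨hb, hbe⟩ := hmem b
    have m1 := I_mem ha hva
    have m2 := I_mem hb hvb
    have h1 := ck2_true
    unfold ck2 at h1
    rw [List.all_eq_true] at h1
    have h2 := h1 v (List.mem_range.2 v.2)
    simp only at h2
    rw [List.all_eq_true] at h2
    have h3 := h2 _ m1
    rw [List.all_eq_true] at h3
    have h4 := h3 _ m2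
    simp only [Bool.or_eq_true, beq_iff_eq, List.contains_iff_mem] at h4
    have n1 : I a.1 ≠ I e := fun h => hae (I_inj ha he h)
    have n2 : I b.1 ≠ I e := fun h => hbe (I_inj hb he h)
    rcases h4 with (h4 | h4) | h4
    · exact hab (Subtype.ext (I_inj ha hb h4))
    · rcases r1 _ h4 with h5 | h5 | h5
      · exact n1 h5
      · exact n2 h5
      · exact h5 heq
    · rcases r1 _ h4 with h5 | h5 | h5
      · exact n2 h5
      · exact n1 h5
      · exact h5 heq.symm

/-- components of the graph minus the four hubs `0, 1, 2, 3` -/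
def comp (v : Fin 110) : ℕ := if (v : ℕ) < 4 then 0 else if (v : ℕ) = 4 then 1 else
  ((v : ℕ) - 5) / 21 + 2

theorem comp_adj : ∀ v w : Fin 110, adjB v w = true → 4 ≤ (v : ℕ) → (w : ℕ) < 4 ∨
    comp v = comp w := by
  decide +kernel

theorem comp_pos : ∀ v : Fin 110, 0 < comp v → 4 ≤ (v : ℕ) := by
  decide +kernel

theorem comp_odd : ∀ i : Fin 6, (Finset.univ.filter (fun v : Fin 110 => comp v = i + 1)).card % 2
    = 1 := by
  decide +kernel

theorem no_pm : ¬ ∃ M : G.Subgraph, M.IsPerfectMatching := by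
  rintro ⟨M, hM, hs⟩
  classical
  have h1 : ∀ v, ∃ w, M.Adj v w ∧ ∀ y, M.Adj v y → y = w := by
    intro v
    obtain ⟨w, hw, hu⟩ := hM (hs v)
    exact ⟨w, hw, hu⟩
  choose m hm hu using h1
  have hinv : ∀ v : Fin 110, m (m v) = v := fun v => (hu (m v) v (hm v).symm).symm
  have hadj : ∀ v : Fin 110, adjB v (m v) = true := fun v => M.adj_sub (hm v)
  have hne : ∀ v : Fin 110, m v ≠ v := by
    intro v h
    have := hadj v
    rw [h, adj_irrefl v] at this
    exact absurd this (by simp)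
  have h2 : ∀ i : Fin 6, ∃ v : Fin 110, comp v = i + 1 ∧ (m v : ℕ) < 4 := by
    intro i
    by_contra hcon
    push Not at hcon
    have h3 : ∀ v, comp v = i + 1 → comp (m v) = i + 1 := by
      intro v hv
      rcases comp_adj v (m v) (hadj v) (comp_pos v (by omega)) with h | h
      · have := hcon v hv; omega
      · rw [← h]; exact hv
    have h4 : ∑ v ∈ Finset.univ.filter (fun v : Fin 110 => comp v = i + 1), (1 : ZMod 2) = 0 := by
      refine Finset.sum_involution (fun v _ => m v) ?_ ?_ ?_ ?_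
      · intro v _; decide
      · intro v _ _; exact hne v
      · intro v hv
        rw [Finset.mem_filter] at hv ⊢
        exact ⟨Finset.mem_univ _, h3 v hv.2⟩
      · intro v _; exact hinv v
    rw [Finset.sum_const, nsmul_eq_mul, mul_one, ZMod.natCast_eq_zero_iff] at h4
    have := comp_odd i
    omega
  choose g hg1 hg2 using h2
  let F : Fin 6 → Fin 4 := fun i => ⟨m (g i), hg2 i⟩
  have hF : Function.Injective F := by
    intro i j hij
    have h5 : (m (g i) : ℕ) = m (g j) := Fin.mk.inj hij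
    have h6 : m (g i) = m (g j) := Fin.ext h5
    have h7 : g i = g j := by rw [← hinv (g i), h6, hinv]
    have h8 := hg1 i
    rw [h7, hg1 j] at h8
    exact Fin.ext (by omega)
  have := Fintype.card_le_of_injective F hF
  simp at this

end Pool.Agent.H21.Crit
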