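import Pool.Agent.H21.CritCheck

set_option autoImplicit false

namespace Pool.Agent.H21.Crit

/-- no extension of the partial assignment `a` -/
def noExt : List (List ℕ) → List ℕ → Bool
  | [], _ => false
  | cs :: rest, a => [0, 1, 2].all fun c => (cs.any fun j => a.getD j 9 == c) ||
      noExt rest (a ++ [c])

theorem noExt_sound (x : ℕ → ℕ) (hx : ∀ k, x k < 3) (L : List (List ℕ)) (n : ℕ)
    (hL : ∀ i cs, L[i]? = some cs → ∀ j ∈ cs, j < n + i ∧ x j ≠ x (n + i)) :
    noExt L ((List.range n).map x) = false := by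
  induction L generalizing n with
  | nil => rfl
  | cons cs rest ih =>
    rw [noExt]
    rw [List.all_eq_false]
    refine ⟨x n, ?_, ?_⟩
    · have := hx n
      interval_cases x n <;> simp
    · rw [Bool.not_eq_true, Bool.or_eq_false_iff]
      constructor
      · rw [List.any_eq_false]
        intro j hj
        obtain ⟨h1, h2⟩ := hL 0 cs rfl j hj
        rw [add_zero] at h1 h2
        rw [List.getD_eq_getElem?_getD, List.getElem?_map, List.getElem?_range h1]
        simpa using h2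
      · have e1 : (List.range n).map x ++ [x n] = (List.range (n + 1)).map x := by
          rw [List.range_succ, List.map_append]; rfl
        rw [e1]
        apply ih
        intro i cs' hi j hj
        have := hL (i + 1) cs' hi j hj
        rw [show n + 1 + i = n + (i + 1) by ring]
        exact this

theorem noExt_cons : noExt cons [] = true := by decide +kernel

/-- end vertices of the five gadgets -/
def gp : ℕ → ℕ := fun i => [0, 0, 1, 1, 2].getD i 0
def gq : ℕ → ℕ := fun i => [2, 3, 2, 3, 3].getD i 0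

/-- global labels -/
def gl (i l : ℕ) : ℕ := if l < 21 then 5 + 21 * i + l else if l = 21 then gp i else gq i

/-- edges sharing exactly one vertex -/
def sh (e f : ℕ × ℕ) : Bool :=
  (e.1 == f.1 && e.2 != f.2) || (e.1 == f.2 && e.2 != f.1) ||
  (e.2 == f.1 && e.1 != f.2) || (e.2 == f.2 && e.1 != f.1)

/-- `k`-th edge of the `i`-th gadget -/
def ge (i k : ℕ) : ℕ × ℕ := (gl i (GE.getD k (0, 0)).1, gl i (GE.getD k (0, 0)).2)

def ck5 : Bool := (List.range 5).all fun i => (List.range 31).all fun k =>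
  adjB (ge i k).1 (ge i k).2 && decide ((ge i k).1 < 110) && decide ((ge i k).2 < 110) &&
  ((cons.getD k []).all fun j => decide (j < k) &&
    ((j == k0 && k == k1) || (j == k1 && k == k0) || sh (ge i j) (ge i k)))

theorem ck5_true : ck5 = true := by decide +kernel

theorem cons_len : cons.length = 31 := by decide

/-- a proper colouring with three colours -/
structure Col (f : ℕ → ℕ → ℕ) : Prop where
  lt : ∀ a b, f a b < 3
  symm : ∀ a b, a < 110 → b < 110 → adjB a b = true → f a b = f b a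
  ne : ∀ a b c, a < 110 → b < 110 → c < 110 → adjB a b = true → adjB a c = true → b ≠ c →
    f a b ≠ f a c

theorem adj_symm {a b : ℕ} (ha : a < 110) (hb : b < 110) (h : adjB a b = true) :
    adjB b a = true := adj_symm' ⟨a, ha⟩ ⟨b, hb⟩ h

theorem Col.sh {f : ℕ → ℕ → ℕ} (hf : Col f) {e g : ℕ × ℕ} (h : sh e g = true)
    (he : adjB e.1 e.2 = true) (hg : adjB g.1 g.2 = true) (h1 : e.1 < 110) (h2 : e.2 < 110)
    (h3 : g.1 < 110) (h4 : g.2 < 110) : f e.1 e.2 ≠ f g.1 g.2 := by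
  rcases e with ⟨a, b⟩
  rcases g with ⟨c, d⟩
  simp only at he hg h1 h2 h3 h4 ⊢
  unfold Crit.sh at h
  simp only [Bool.or_eq_true, Bool.and_eq_true, beq_iff_eq, bne_iff_ne, ne_eq] at h
  rcases h with ((⟨h5, h6⟩ | ⟨h5, h6⟩) | ⟨h5, h6⟩) | ⟨h5, h6⟩
  · subst h5
    exact hf.ne a b d h1 h2 h4 he hg h6
  · subst h5
    rw [hf.symm c a h3 h4 hg]
    exact hf.ne a b c h1 h2 h3 he (adj_symm h3 h4 hg) h6
  · subst h5
    rw [hf.symm a b h1 h2 he]
    exact hf.ne b a d h2 h1 h4 (adj_symm h1 h2 he) hg h6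
  · subst h5
    rw [hf.symm a b h1 h2 he, hf.symm c b h3 h4 hg]
    exact hf.ne b a c h2 h1 h3 (adj_symm h1 h2 he) (adj_symm h3 h4 hg) h6

theorem gadget {f : ℕ → ℕ → ℕ} (hf : Col f) (i : ℕ) (hi : i < 5) :
    f (ge i k0).1 (ge i k0).2 = f (ge i k1).1 (ge i k1).2 := by
  by_contra hne
  have h5 := ck5_true
  unfold ck5 at h5
  rw [List.all_eq_true] at h5
  have h5i := h5 i (List.mem_range.2 hi)
  rw [List.all_eq_true] at h5i
  have h6 : ∀ k, k < 31 → adjB (ge i k).1 (ge i k).2 = true ∧ (ge i k).1 < 110 ∧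
      (ge i k).2 < 110 ∧ ∀ j ∈ cons.getD k [], j < k ∧
        ((j = k0 ∧ k = k1) ∨ (j = k1 ∧ k = k0) ∨ sh (ge i j) (ge i k) = true) := by
    intro k hk
    have h7 := h5i k (List.mem_range.2 hk)
    simp only [Bool.and_eq_true, Bool.or_eq_true, List.all_eq_true, decide_eq_true_eq,
      beq_iff_eq] at h7
    obtain ⟨⟨⟨a1, a2⟩, a3⟩, a4⟩ := h7
    refine ⟨a1, a2, a3, fun j hj => ?_⟩
    obtain ⟨b1, b2⟩ := a4 j hj
    refine ⟨b1, ?_⟩
    rcases b2 with (b2 | b2) | b2
    · exact Or.inl b2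
    · exact Or.inr (Or.inl b2)
    · exact Or.inr (Or.inr b2)
  have h8 := noExt_sound (fun k => f (ge i k).1 (ge i k).2) (fun k => hf.lt _ _) cons 0 (by
    intro k cs hk j hj
    have hk31 : k < 31 := by
      have := (List.getElem?_eq_some_iff.1 hk).1
      rwa [cons_len] at this
    obtain ⟨a1, a2, a3, a4⟩ := h6 k hk31
    have hcs : cons.getD k [] = cs := by
      rw [List.getD_eq_getElem?_getD, hk]; rfl
    rw [zero_add]
    obtain ⟨b1, b2⟩ := a4 j (by rw [hcs]; exact hj)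
    refine ⟨b1, ?_⟩
    obtain ⟨c1, c2, c3, -⟩ := h6 j (by omega)
    rcases b2 with ⟨rfl, rfl⟩ | ⟨rfl, rfl⟩ | b2
    · exact hne
    · exact fun h => hne h.symm
    · exact hf.sh b2 c1 a1 c2 c3 a2 a3)
  rw [List.range_zero, List.map_nil, noExt_cons] at h8
  exact absurd h8 (by simp)

theorem hub' : ∀ s t x0 x1 x2 x3 x4 : Fin 3, (s != x0 && s != x1 && x0 != x1 && t != x2 &&
    t != x3 && x2 != x3 && x0 != x2 && x0 != x4 && x2 != x4 && x1 != x3 && x1 != x4 && x3 != x4 &&
    s != t) = false := by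
  decide +kernel

theorem hub : ∀ s t x0 x1 x2 x3 x4 : Fin 3, s ≠ x0 → s ≠ x1 → x0 ≠ x1 → t ≠ x2 → t ≠ x3 →
    x2 ≠ x3 → x0 ≠ x2 → x0 ≠ x4 → x2 ≠ x4 → x1 ≠ x3 → x1 ≠ x4 → x3 ≠ x4 → s ≠ t → False := by
  intro s t x0 x1 x2 x3 x4 h1 h2 h3 h4 h5 h6 h7 h8 h9 h10 h11 h12 h13
  have := hub' s t x0 x1 x2 x3 x4
  simp [h1, h2, h3, h4, h5, h6, h7, h8, h9, h10, h11, h12, h13] at this

theorem not_col (f : ℕ → ℕ → ℕ) (hf : Col f) : False := by
  have g0 := gadget hf 0 (by norm_num)
  have g1 := gadget hf 1 (by norm_num)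
  have g2 := gadget hf 2 (by norm_num)
  have g3 := gadget hf 3 (by norm_num)
  have g4 := gadget hf 4 (by norm_num)
  have key : ∀ a b c : ℕ, (decide (a < 110) && decide (b < 110) && decide (c < 110) && adjB a b &&
      adjB a c && (b != c)) = true → f a b ≠ f a c := by
    intro a b c h
    simp only [Bool.and_eq_true, decide_eq_true_eq, bne_iff_ne] at h
    obtain ⟨⟨⟨⟨⟨h1, h2⟩, h3⟩, h4⟩, h5⟩, h6⟩ := h
    exact hf.ne a b c h1 h2 h3 h4 h5 h6
  have F : ∀ a b, f a b < 3 := hf.lt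
  have e0 : ge 0 k0 = (0, 5) := by decide
  have e0' : ge 0 k1 = (2, 12) := by decide
  have e1 : ge 1 k0 = (0, 26) := by decide
  have e1' : ge 1 k1 = (3, 33) := by decide
  have e2 : ge 2 k0 = (1, 47) := by decide
  have e2' : ge 2 k1 = (2, 54) := by decide
  have e3 : ge 3 k0 = (1, 68) := by decide
  have e3' : ge 3 k1 = (3, 75) := by decide
  have e4 : ge 4 k0 = (2, 89) := by decide
  have e4' : ge 4 k1 = (3, 96) := by decide
  rw [e0, e0'] at g0
  rw [e1, e1'] at g1
  rw [e2, e2'] at g2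
  rw [e3, e3'] at g3
  rw [e4, e4'] at g4
  simp only at g0 g1 g2 g3 g4
  have s1 := hf.symm 0 4 (by norm_num) (by norm_num) (by decide +kernel)
  have s2 := hf.symm 1 4 (by norm_num) (by norm_num) (by decide +kernel)
  have n1 := key 0 4 5 (by decide +kernel)
  have n2 := key 0 4 26 (by decide +kernel)
  have n3 := key 0 5 26 (by decide +kernel)
  have n4 := key 1 4 47 (by decide +kernel)
  have n5 := key 1 4 68 (by decide +kernel)
  have n6 := key 1 47 68 (by decide +kernel)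
  have n7 := key 2 12 54 (by decide +kernel)
  have n8 := key 2 12 89 (by decide +kernel)
  have n9 := key 2 54 89 (by decide +kernel)
  have n10 := key 3 33 75 (by decide +kernel)
  have n11 := key 3 33 96 (by decide +kernel)
  have n12 := key 3 75 96 (by decide +kernel)
  have n13 := key 4 0 1 (by decide +kernel)
  rw [← g0] at n7 n8
  rw [← g1] at n10 n11
  rw [← g2] at n7 n9
  rw [← g3] at n10 n12
  rw [← g4] at n11 n12
  rw [← s1, ← s2] at n13
  refine hub ⟨f 0 4, F _ _⟩ ⟨f 1 4, F _ _⟩ ⟨f 0 5, F _ _⟩ ⟨f 0 26, F _ _⟩ ⟨f 1 47, F _ _⟩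
    ⟨f 1 68, F _ _⟩ ⟨f 2 89, F _ _⟩ ?_ ?_ ?_ ?_ ?_ ?_ ?_ ?_ ?_ ?_ ?_ ?_ ?_ <;>
  (intro h; simp only [Fin.mk.injEq] at h) <;> first
  | exact n1 h | exact n2 h | exact n3 h | exact n4 h | exact n5 h | exact n6 h | exact n7 h
  | exact n8 h | exact n9 h | exact n10 h | exact n11 h | exact n12 h | exact n13 h

end Pool.Agent.H21.Crit
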