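import Pool.Agent.H21.CflLinear

set_option autoImplicit false

namespace Pool.Agent.H21.Cfl

namespace LinSys

variable {T Q T' : Type} {σ : Type}

abbrev Q2 (T Q σ : Type) := Option (Q × List T × List T × σ × σ)

def step2 (S : LinSys T Q) (q0 : Q) (h : T' → List T) (M : DFA T' σ) (B : ℕ) :
    Set (Q2 T Q σ × List T' × Q2 T Q σ × List T') :=
  {r | (∃ (q : Q) (α β : List T) (s t : σ) (y : T'), (α ++ h y).length ≤ B ∧ β.length ≤ B ∧
        r = (some (q, α, β, s, t), [y], some (q, α ++ h y, β, M.step s y, t), [])) ∨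
    (∃ (q : Q) (α β : List T) (s t t' : σ) (y : T'), α.length ≤ B ∧ (h y ++ β).length ≤ B ∧
        M.step t' y = t ∧
        r = (some (q, α, β, s, t), [], some (q, α, h y ++ β, s, t'), [y])) ∨
    (∃ (q q' : Q) (u v α β : List T) (s t : σ), (q, u, q', v) ∈ S.step ∧
        (u ++ α).length ≤ B ∧ (β ++ v).length ≤ B ∧
        r = (some (q, u ++ α, β ++ v, s, t), [], some (q', α, β, s, t), [])) ∨
    (∃ t : σ, t ∈ M.accept ∧ r = (none, [], some (q0, [], [], M.start, t), []))}

def base2 (S : LinSys T Q) (T' : Type) (B : ℕ) : Set (Q2 T Q σ × List T') :=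
  {r | ∃ (q : Q) (α β : List T) (s : σ), α.length ≤ B ∧ β.length ≤ B ∧ S.Gen q (α ++ β) ∧
    r = (some (q, α, β, s, s), [])}

theorem states_finite [Finite T] [Finite Q] [Finite σ] (B : ℕ) :
    ({r : Q2 T Q σ | r = none ∨ ∃ (q : Q) (α β : List T) (s t : σ), α.length ≤ B ∧
      β.length ≤ B ∧ r = some (q, α, β, s, t)}).Finite := by
  have h1 : ({l : List T | l.length ≤ B}).Finite := List.finite_length_le T B
  have h2 : ((Set.univ : Set Q) ×ˢ ({l : List T | l.length ≤ B} ×ˢ ({l : List T | l.length ≤ B} ×ˢ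
      ((Set.univ : Set σ) ×ˢ (Set.univ : Set σ))))).Finite :=
    (Set.toFinite _).prod (h1.prod (h1.prod ((Set.toFinite _).prod (Set.toFinite _))))
  refine ((Set.finite_singleton none).union (h2.image some)).subset ?_
  rintro r (rfl | ⟨q, α, β, s, t, h1, h2, rfl⟩)
  · left; rfl
  · right
    refine ⟨_, ?_, rfl⟩
    simp [h1, h2]

theorem step2_finite [Finite T] [Finite Q] [Finite σ] [Finite T'] (S : LinSys T Q) (q0 : Q)
    (h : T' → List T) (M : DFA T' σ) (B : ℕ) : (step2 S q0 h M B).Finite := by
  have hs := states_finite (T := T) (Q := Q) (σ := σ) B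
  have hl : ({l : List T' | l.length ≤ 1}).Finite := List.finite_length_le T' 1
  refine (hs.prod (hl.prod (hs.prod hl))).subset ?_
  rintro r (⟨q, α, β, s, t, y, h1, h2, rfl⟩ | ⟨q, α, β, s, t, t', y, h1, h2, h3, rfl⟩ |
    ⟨q, q', u, v, α, β, s, t, h0, h1, h2, rfl⟩ | ⟨t, ht, rfl⟩)
  · refine ⟨Or.inr ⟨_, _, _, _, _, ?_, h2, rfl⟩, by simp, Or.inr ⟨_, _, _, _, _, h1, h2, rfl⟩,
      by simp⟩
    rw [List.length_append] at h1; omega
  · refine ⟨Or.inr ⟨_, _, _, _, _, h1, ?_, rfl⟩, by simp, Or.inr ⟨_, _, _, _, _, h1, h2, rfl⟩,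
      by simp⟩
    rw [List.length_append] at h2; omega
  · refine ⟨Or.inr ⟨_, _, _, _, _, h1, h2, rfl⟩, by simp, Or.inr ⟨_, _, _, _, _, ?_, ?_, rfl⟩,
      by simp⟩
    · rw [List.length_append] at h1; omega
    · rw [List.length_append] at h2; omega
  · exact ⟨Or.inl rfl, by simp, Or.inr ⟨_, _, _, _, _, by simp, by simp, rfl⟩, by simp⟩

theorem base2_finite [Finite T] [Finite Q] [Finite σ] (S : LinSys T Q) (B : ℕ) :
    (base2 (σ := σ) S T' B).Finite := by
  have hs := states_finite (T := T) (Q := Q) (σ := σ) B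
  refine (hs.prod (Set.finite_singleton ([] : List T'))).subset ?_
  rintro r ⟨q, α, β, s, h1, h2, _, rfl⟩
  exact ⟨Or.inr ⟨_, _, _, _, _, h1, h2, rfl⟩, rfl⟩

def sys2 [Finite T] [Finite Q] [Finite σ] [Finite T'] (S : LinSys T Q) (q0 : Q)
    (h : T' → List T) (M : DFA T' σ) (B : ℕ) : LinSys T' (Q2 T Q σ) where
  step := step2 S q0 h M B
  base := base2 S T' B
  hstep := step2_finite S q0 h M B
  hbase := base2_finite S B

variable [Finite T] [Finite Q] [Finite σ] [Finite T']

theorem sound2 (S : LinSys T Q) (q0 : Q) (h : T' → List T) (M : DFA T' σ) (B : ℕ)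
    {r : Q2 T Q σ} {w : List T'} (hg : (sys2 S q0 h M B).Gen r w) :
    (∀ q α β s t, r = some (q, α, β, s, t) →
      S.Gen q (α ++ w.flatMap h ++ β) ∧ M.evalFrom s w = t) ∧
    (r = none → S.Gen q0 (w.flatMap h) ∧ M.evalFrom M.start w ∈ M.accept) := by
  induction hg with
  | @base r w hb =>
    obtain ⟨q, α, β, s, _, _, hg, he⟩ := hb
    simp only [Prod.mk.injEq] at he
    obtain ⟨rfl, rfl⟩ := he
    constructor
    · intro q' α' β' s' t' h'
      simp only [Option.some.injEq, Prod.mk.injEq] at h'
      obtain ⟨rfl, rfl, rfl, rfl, rfl⟩ := h'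
      exact ⟨by simpa using hg, rfl⟩
    · intro h'; simp at h'
  | @step r u r' v w hs _ ih =>
    rcases hs with ⟨q, α, β, s, t, y, _, _, he⟩ | ⟨q, α, β, s, t, t', y, _, _, h3, he⟩ |
      ⟨q, q', u', v', α, β, s, t, h0, _, _, he⟩ | ⟨t, ht, he⟩
    · simp only [Prod.mk.injEq] at he
      obtain ⟨rfl, rfl, rfl, rfl⟩ := he
      constructor
      · intro q' α' β' s' t' h'
        simp only [Option.some.injEq, Prod.mk.injEq] at h'
        obtain ⟨rfl, rfl, rfl, rfl, rfl⟩ := h'
        obtain ⟨h1, h2⟩ := ih.1 _ _ _ _ _ rfl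
        exact ⟨by simpa using h1, by simpa using h2⟩
      · intro h'; simp at h'
    · simp only [Prod.mk.injEq] at he
      obtain ⟨rfl, rfl, rfl, rfl⟩ := he
      constructor
      · intro q' α' β' s' t'' h'
        simp only [Option.some.injEq, Prod.mk.injEq] at h'
        obtain ⟨rfl, rfl, rfl, rfl, rfl⟩ := h'
        obtain ⟨h1, h2⟩ := ih.1 _ _ _ _ _ rfl
        refine ⟨by simpa using h1, ?_⟩
        rw [List.nil_append, DFA.evalFrom_append_singleton, h2, h3]
      · intro h'; simp at h'
    · simp only [Prod.mk.injEq] at he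
      obtain ⟨rfl, rfl, rfl, rfl⟩ := he
      constructor
      · intro q'' α' β' s' t'' h'
        simp only [Option.some.injEq, Prod.mk.injEq] at h'
        obtain ⟨rfl, rfl, rfl, rfl, rfl⟩ := h'
        obtain ⟨h1, h2⟩ := ih.1 _ _ _ _ _ rfl
        refine ⟨?_, by simpa using h2⟩
        have := Gen.step h0 h1
        simpa using this
      · intro h'; simp at h'
    · simp only [Prod.mk.injEq] at he
      obtain ⟨rfl, rfl, rfl, rfl⟩ := he
      constructor
      · intro q'' α' β' s' t'' h'; simp at h'
      · intro _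
        obtain ⟨h1, h2⟩ := ih.1 _ _ _ _ _ rfl
        refine ⟨by simpa using h1, ?_⟩
        simp only [List.nil_append, List.append_nil]
        rw [h2]; exact ht

omit [Finite T] in
theorem split_lemma {α X β u m v : List T} (h : α ++ X ++ β = u ++ m ++ v)
    (h1 : u.length ≤ α.length) (h2 : v.length ≤ β.length) :
    ∃ α' β', α = u ++ α' ∧ β = β' ++ v ∧ m = α' ++ X ++ β' := by
  have h3 : u <+: α := by
    apply List.prefix_of_prefix_length_le (l₃ := α ++ X ++ β) _ _ h1
    · rw [h, List.append_assoc]; exact List.prefix_append _ _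
    · rw [List.append_assoc]; exact List.prefix_append _ _
  have h4 : v <:+ β := by
    apply List.suffix_of_suffix_length_le (l₃ := α ++ X ++ β) _ _ h2
    · rw [h]; exact List.suffix_append _ _
    · exact List.suffix_append _ _
  obtain ⟨α', rfl⟩ := h3
  obtain ⟨β', rfl⟩ := h4
  refine ⟨α', β', rfl, rfl, ?_⟩
  have : u ++ (α' ++ X ++ β') ++ v = u ++ m ++ v := by
    rw [← h]; simp
  have h5 := List.append_cancel_right this
  exact (List.append_cancel_left h5).symm

theorem complete2 (S : LinSys T Q) (q0 : Q) (h : T' → List T) (M : DFA T' σ) (B U H : ℕ)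
    (hB : U + H ≤ B) (hU : ∀ q u q' v, (q, u, q', v) ∈ S.step → u.length ≤ U ∧ v.length ≤ U)
    (hU' : ∀ q w, (q, w) ∈ S.base → w.length ≤ B) (hH : ∀ y, (h y).length ≤ H)
    {q : Q} {m : List T} (hg : S.Gen q m) :
    ∀ (w : List T') (α β : List T) (s t : σ), α.length ≤ B → β.length ≤ B →
      m = α ++ w.flatMap h ++ β → M.evalFrom s w = t →
      (sys2 S q0 h M B).Gen (some (q, α, β, s, t)) w := by
  induction hg with
  | @base q m hb =>
    intro w
    induction w with
    | nil =>
      intro α β s t h1 h2 h3 h4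
      simp only [DFA.evalFrom_nil] at h4
      subst h4
      exact Gen.base ⟨q, α, β, s, h1, h2, by
        simp only [List.flatMap_nil, List.append_nil] at h3
        rw [← h3]; exact Gen.base hb, rfl⟩
    | cons y w ih =>
      intro α β s t h1 h2 h3 h4
      have hm := hU' _ _ hb
      have e1 : m = (α ++ h y) ++ w.flatMap h ++ β := by rw [h3]; simp
      have hl : (α ++ h y).length ≤ B := by
        rw [e1] at hm
        simp only [List.length_append] at hm ⊢
        omega
      have := ih (α ++ h y) β (M.step s y) t hl h2 e1 (by simpa using h4)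
      have h5 : (sys2 S q0 h M B).Gen (some (q, α, β, s, t)) ([y] ++ w ++ []) :=
        Gen.step (Or.inl ⟨q, α, β, s, t, y, hl, h2, rfl⟩) this
      simpa using h5
  | @step q u q' v m hs hg' ih =>
    intro w
    induction hn : w.length using Nat.strong_induction_on generalizing w with
    | _ n ihw =>
      intro α β s t h1 h2 h3 h4
      obtain ⟨hu, hv⟩ := hU _ _ _ _ hs
      rcases List.eq_nil_or_concat w with hw | ⟨w1, z, hw⟩
      · subst hw
        simp only [DFA.evalFrom_nil] at h4
        subst h4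
        exact Gen.base ⟨q, α, β, s, h1, h2, by
          simp only [List.flatMap_nil, List.append_nil] at h3
          rw [← h3]; exact Gen.step hs hg', rfl⟩
      by_cases hα : α.length < u.length
      · -- emit left
        cases w with
        | nil => simp at hw
        | cons y w' =>
          have hl : (α ++ h y).length ≤ B := by
            have := hH y
            simp only [List.length_append]
            omega
          have e1 : u ++ m ++ v = (α ++ h y) ++ w'.flatMap h ++ β := by rw [h3]; simp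
          have := ihw w'.length (by simp at hn; omega) w' rfl (α ++ h y) β (M.step s y) t hl h2 e1
            (by simpa using h4)
          have h5 : (sys2 S q0 h M B).Gen (some (q, α, β, s, t)) ([y] ++ w' ++ []) :=
            Gen.step (Or.inl ⟨q, α, β, s, t, y, hl, h2, rfl⟩) this
          simpa using h5
      by_cases hβ : β.length < v.length
      · rw [List.concat_eq_append] at hw
        subst hw
        have hl : (h z ++ β).length ≤ B := by
          have := hH z
          simp only [List.length_append]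
          omega
        have e1 : u ++ m ++ v = α ++ w1.flatMap h ++ (h z ++ β) := by rw [h3]; simp
        have h6 : M.step (M.evalFrom s w1) z = t := by
          rw [← h4, DFA.evalFrom_append_singleton]
        have := ihw w1.length (by simp at hn; omega) w1 rfl α (h z ++ β) s (M.evalFrom s w1) h1 hl
          e1 rfl
        have h5 : (sys2 S q0 h M B).Gen (some (q, α, β, s, t)) ([] ++ w1 ++ [z]) :=
          Gen.step (Or.inr (Or.inl ⟨q, α, β, s, t, _, z, h1, hl, h6, rfl⟩)) this
        simpa using h5
      · obtain ⟨α', β', e1, e2, e3⟩ := split_lemma h3.symm (not_lt.1 hα) (not_lt.1 hβ)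
        subst e1
        subst e2
        have h7 := ih w α' β' s t (by rw [List.length_append] at h1; omega)
          (by rw [List.length_append] at h2; omega) e3 h4
        have h5 : (sys2 S q0 h M B).Gen (some (q, u ++ α', β' ++ v, s, t)) ([] ++ w ++ []) :=
          Gen.step (Or.inr (Or.inr (Or.inl ⟨q, q', u, v, α', β', s, t, hs, h1, h2, rfl⟩))) h7
        simpa using h5

omit [Finite T] [Finite Q] in
theorem exists_bound (S : LinSys T Q) : ∃ U : ℕ,
    (∀ q u q' v, (q, u, q', v) ∈ S.step → u.length ≤ U ∧ v.length ≤ U) ∧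
    (∀ q w, (q, w) ∈ S.base → w.length ≤ U) := by
  obtain ⟨a, ha⟩ := (S.hstep.image (fun r => r.2.1.length)).bddAbove
  obtain ⟨b, hb⟩ := (S.hstep.image (fun r => r.2.2.2.length)).bddAbove
  obtain ⟨c, hc⟩ := (S.hbase.image (fun r => r.2.length)).bddAbove
  refine ⟨a + b + c, fun q u q' v h => ⟨?_, ?_⟩, fun q w h => ?_⟩
  · have := ha ⟨_, h, rfl⟩
    simp only at this
    omega
  · have := hb ⟨_, h, rfl⟩
    simp only at this
    omega
  · have := hc ⟨_, h, rfl⟩
    simp only at this
    omega

/-- The class of linear languages is closed under inverse morphisms and intersection with regular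
languages. -/
theorem closure (S : LinSys T Q) (q0 : Q) (h : T' → List T) (M : DFA T' σ) :
    Language.IsContextFree ({w : List T' | S.Gen q0 (w.flatMap h) ∧ w ∈ M.accepts} :
      Language T') := by
  obtain ⟨U, hU1, hU2⟩ := exists_bound S
  obtain ⟨H, hH⟩ : ∃ H, ∀ y, (h y).length ≤ H := by
    obtain ⟨H, hH⟩ := (Set.finite_range (fun y => (h y).length)).bddAbove
    exact ⟨H, fun y => hH ⟨y, rfl⟩⟩
  have key := (sys2 S q0 h M (U + H)).isContextFree none
  suffices e : ({w : List T' | S.Gen q0 (w.flatMap h) ∧ w ∈ M.accepts} : Language T') =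
      {w : List T' | (sys2 S q0 h M (U + H)).Gen none w} by rw [e]; exact key
  ext w
  constructor
  · rintro ⟨h1, h2⟩
    have h3 := complete2 S q0 h M (U + H) U H le_rfl hU1 (fun q w hw => (hU2 q w hw).trans
      (Nat.le_add_right _ _)) hH h1 w [] [] M.start (M.evalFrom M.start w) (by simp) (by simp)
      (by simp) rfl
    have h4 : (sys2 S q0 h M (U + H)).Gen none ([] ++ w ++ []) :=
      Gen.step (Or.inr (Or.inr (Or.inr ⟨_, h2, rfl⟩))) h3
    simpa using h4
  · intro hw
    exact (sound2 S q0 h M (U + H) hw).2 rfl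

end LinSys

end Pool.Agent.H21.Cfl
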