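import Mathlib

set_option autoImplicit false

namespace Pool.Agent.H21.Cyl

/-- The combinatorial core: under the halving conditions the counter cannot get large. -/
theorem comb (σ : Type) [Fintype σ] (c : ℕ) (hc : 1 ≤ c) : ∃ B : ℕ, ∀ (m : ℕ) (st : ℕ → σ)
    (cnt D : ℕ → ℕ), Monotone cnt → cnt 0 = 0 → (∀ i, cnt (i + 1) ≤ cnt i + 1) →
    Antitone D → (∀ i, D i ≤ D (i + 1) + c) →
    (∀ a b, a < b → b ≤ m → st a = st b → 1 ≤ cnt a → cnt a < cnt b → cnt b < B →
      2 * D b < D a) →
    (∀ a b b', a < b → b < b' → b' ≤ m → st a = st b → st b = st b' → 1 ≤ cnt a →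
      cnt a < cnt b → cnt b' < B → D b ≠ D b' → 2 * D b' < D b) →
    cnt m < B := by
  classical
  set K := Fintype.card σ with hK
  set Nc := (K + 1) * K + 1 with hNc
  set C := 2 * (Nc * c) with hC
  refine ⟨2 + K * (K + 1) + (C + 1) * K + 1, ?_⟩
  set B := 2 + K * (K + 1) + (C + 1) * K + 1 with hB
  intro m st cnt D hmono h0 hstep hanti hD h1 h2
  by_contra hcon
  push Not at hcon
  -- first index of each level
  set F : ℕ → ℕ := fun j => sInf {i | j ≤ cnt i} with hF
  have F_spec : ∀ j, j ≤ cnt m → F j ≤ m ∧ cnt (F j) = j := by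
    intro j hj
    have hmem : m ∈ {i | j ≤ cnt i} := hj
    have h3 : F j ≤ m := Nat.sInf_le hmem
    have h4 : j ≤ cnt (F j) := Nat.sInf_mem ⟨m, hmem⟩
    refine ⟨h3, le_antisymm ?_ h4⟩
    rcases Nat.eq_zero_or_pos (F j) with h5 | h5
    · rw [h5, h0]; omega
    · have h6 : ¬ j ≤ cnt (F j - 1) := by
        intro h
        have : F j ≤ F j - 1 := Nat.sInf_le h
        omega
      have h7 := hstep (F j - 1)
      rw [show F j - 1 + 1 = F j by omega] at h7
      omega
  have lt_of_cnt : ∀ {a b}, cnt a < cnt b → a < b := by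
    intro a b h
    by_contra hc
    exact absurd (hmono (not_lt.1 hc)) (by omega)
  have F_mono : ∀ {i j}, i ≤ j → j ≤ cnt m → F i ≤ F j := by
    intro i j hij hj
    rcases eq_or_lt_of_le hij with h | h
    · rw [h]
    · apply le_of_lt
      apply lt_of_cnt
      rw [(F_spec i (by omega)).2, (F_spec j hj).2]
      exact h
  have hKpos : 0 < K := Fintype.card_pos_iff.2 ⟨st 0⟩
  -- step 1
  have s1 : ∀ j, 1 ≤ j → j + K ≤ B - 1 → 2 * D (F (j + K)) < D (F j) := by
    intro j hj hjB
    have hcard : Fintype.card σ < Fintype.card (Fin (K + 1)) := by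
      rw [Fintype.card_fin]; omega
    obtain ⟨t1, t2, hne, heq⟩ := Fintype.exists_ne_map_eq_of_card_lt
      (fun t : Fin (K + 1) => st (F (j + t))) hcard
    wlog hlt : t1 < t2 generalizing t1 t2
    · exact this t2 t1 hne.symm heq.symm (lt_of_le_of_ne (not_lt.1 hlt) hne.symm)
    have e1 := F_spec (j + t1) (by omega)
    have e2 := F_spec (j + t2) (by omega)
    have hlt' : (t1 : ℕ) < t2 := hlt
    have h3 := h1 (F (j + t1)) (F (j + t2)) (lt_of_cnt (by rw [e1.2, e2.2]; omega)) e2.1 heq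
      (by omega) (by omega) (by omega)
    have h4 : D (F (j + K)) ≤ D (F (j + t2)) := hanti (F_mono (by omega) (by omega))
    have h5 : D (F (j + t1)) ≤ D (F j) := hanti (F_mono (by omega) (by omega))
    omega
  -- step 2
  have s2 : ∀ r j, 1 ≤ j → j + r * K ≤ B - 1 → 2 ^ r ≤ D (F j) + 1 := by
    intro r
    induction r with
    | zero => intro j _ _; simp
    | succ r ih =>
      intro j hj hjB
      rw [Nat.add_mul, Nat.one_mul] at hjB
      have h3 := ih (j + K) (by omega) (by omega)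
      have h4 := s1 j hj (by omega)
      rw [pow_succ]
      omega
  -- step 3
  have s3 : ∀ j, 2 ≤ j → j + K ≤ B - 1 → C ≤ D (F j) →
      ∃ b, b ≤ m ∧ j ≤ cnt b ∧ cnt b ≤ j + K ∧ ∀ a, 1 ≤ cnt a → cnt a < j → st a ≠ st b := by
    intro j hj hjB hCD
    have hfin := s1 j (by omega) hjB
    have eK := F_spec (j + K) (by omega)
    have ej := F_spec j (by omega)
    have hFle : F j ≤ F (j + K) := F_mono (by omega) (by omega)
    set bb : ℕ → ℕ := fun r => sInf {i | F j ≤ i ∧ D i + r * c ≤ D (F j)} with hbb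
    have hrc : ∀ r, r ≤ Nc → r * c ≤ Nc * c := fun r hr => Nat.mul_le_mul_right _ hr
    have hmem : ∀ r, r ≤ Nc → F (j + K) ∈ {i | F j ≤ i ∧ D i + r * c ≤ D (F j)} := by
      intro r hr
      refine ⟨hFle, ?_⟩
      have := hrc r hr
      omega
    have b1 : ∀ r, r ≤ Nc → bb r ≤ F (j + K) := fun r hr => Nat.sInf_le (hmem r hr)
    have b2 : ∀ r, r ≤ Nc → F j ≤ bb r ∧ D (bb r) + r * c ≤ D (F j) := fun r hr =>
      Nat.sInf_mem ⟨_, hmem r hr⟩
    have b3 : ∀ r, r ≤ Nc → D (F j) < D (bb r) + (r + 1) * c := by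
      intro r hr
      rw [Nat.add_mul, Nat.one_mul]
      rcases eq_or_lt_of_le (b2 r hr).1 with h | h
      · rw [← h]; omega
      · have h6 : ¬ (F j ≤ bb r - 1 ∧ D (bb r - 1) + r * c ≤ D (F j)) := by
          intro h
          have : bb r ≤ bb r - 1 := Nat.sInf_le h
          omega
        have h7 := hD (bb r - 1)
        rw [show bb r - 1 + 1 = bb r by omega] at h7
        have h8 : D (F j) < D (bb r - 1) + r * c := by
          by_contra hcc
          exact h6 ⟨by omega, not_lt.1 hcc⟩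
        omega
    have hcard : Fintype.card (Fin (K + 1) × σ) < Fintype.card (Fin Nc) := by
      rw [Fintype.card_prod, Fintype.card_fin, Fintype.card_fin, ← hK]; omega
    have hcnt : ∀ r, r ≤ Nc → j ≤ cnt (bb r) ∧ cnt (bb r) ≤ j + K := by
      intro r hr
      have h3 := hmono (b1 r hr)
      have h4 := hmono (b2 r hr).1
      rw [eK.2] at h3
      rw [ej.2] at h4
      exact ⟨h4, h3⟩
    obtain ⟨r1, r2, hne, heq⟩ := Fintype.exists_ne_map_eq_of_card_lt
      (fun r : Fin Nc => ((⟨cnt (bb r) - j, by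
        have := hcnt r (by omega)
        omega⟩ : Fin (K + 1)), st (bb r))) hcard
    wlog hlt : r1 < r2 generalizing r1 r2
    · exact this r2 r1 hne.symm heq.symm (lt_of_le_of_ne (not_lt.1 hlt) hne.symm)
    have hlt' : (r1 : ℕ) < r2 := hlt
    simp only [Prod.mk.injEq, Fin.mk.injEq] at heq
    have q1 := hcnt r1 (by omega)
    have q2 := hcnt r2 (by omega)
    have p1 := b2 r1 (by omega)
    have p2 := b2 r2 (by omega)
    have p3 := b3 r1 (by omega)
    have p4 := b3 r2 (by omega)
    have p5 : ((r1 : ℕ) + 1) * c ≤ r2 * c := Nat.mul_le_mul_right _ hlt'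
    have p6 : ((r2 : ℕ) + 1) * c ≤ Nc * c := Nat.mul_le_mul_right _ (by omega)
    have hDlt : D (bb r2) < D (bb r1) := by omega
    have hblt : bb r1 < bb r2 := by
      by_contra hcc
      have := hanti (not_lt.1 hcc)
      omega
    refine ⟨bb r1, by have := b1 r1 (by omega); omega, q1.1, q1.2, fun a ha1 ha2 hst => ?_⟩
    have h9 := h2 a (bb r1) (bb r2) (lt_of_cnt (by omega)) hblt
      (by have := b1 r2 (by omega); omega) hst heq.2 ha1 (by omega) (by omega) (by omega)
    omega
  -- step 4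
  have s4 : ∀ s, s ≤ K + 1 → ∃ V : Finset σ, s ≤ V.card ∧ ∀ v ∈ V, ∃ a, 1 ≤ cnt a ∧
      cnt a < 2 + s * (K + 1) ∧ st a = v := by
    intro s
    induction s with
    | zero => intro _; exact ⟨∅, by simp, by simp⟩
    | succ s ih =>
      intro hs
      obtain ⟨V, hV1, hV2⟩ := ih (by omega)
      have hsK : s * (K + 1) ≤ K * (K + 1) := Nat.mul_le_mul_right _ (by omega)
      have hCK : (C + 1) * K = C * K + K := by ring
      have hpow := s2 C (2 + s * (K + 1)) (by omega) (by omega)
      have hC2 : C < 2 ^ C := Nat.lt_two_pow_self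
      obtain ⟨b, hbm, hb1, hb2, hb3⟩ := s3 (2 + s * (K + 1)) (by omega) (by omega) (by omega)
      have hsK2 : (s + 1) * (K + 1) = s * (K + 1) + (K + 1) := by ring
      refine ⟨insert (st b) V, ?_, ?_⟩
      · rw [Finset.card_insert_of_notMem]
        · omega
        · intro hmem
          obtain ⟨a, ha1, ha2, ha3⟩ := hV2 _ hmem
          exact hb3 a ha1 ha2 ha3
      · intro v hv
        rcases Finset.mem_insert.1 hv with rfl | hv
        · exact ⟨b, by omega, by omega, rfl⟩
        · obtain ⟨a, ha1, ha2, ha3⟩ := hV2 _ hv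
          exact ⟨a, ha1, by omega, ha3⟩
  obtain ⟨V, hV, _⟩ := s4 (K + 1) le_rfl
  have := Finset.card_le_univ V
  omega

end Pool.Agent.H21.Cyl
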