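import Pool.Agent.H21.CylMain

set_option autoImplicit false

namespace Pool.Agent.H21.Cyl

open Pool.Agent.H21.Cfl

def Fam (n : ℕ) : Set (Language (Fin n)) :=
  {L' | ∃ (h : Fin n → List W) (R : Language (Fin n)), R.IsRegular ∧
    L' = ({w | w.flatMap h ∈ CoPref ∧ w ∈ R} : Set (List (Fin n)))}

theorem regular_comap {m n : ℕ} (g : Fin m → List (Fin n)) {R : Language (Fin n)}
    (hR : R.IsRegular) : Language.IsRegular ({w : List (Fin m) | w.flatMap g ∈ R} :
      Language (Fin m)) := by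
  obtain ⟨σ, hσ, M, rfl⟩ := hR
  refine ⟨σ, hσ, ⟨fun s a => M.evalFrom s (g a), M.start, M.accept⟩, ?_⟩
  ext w
  rw [DFA.mem_accepts]
  change _ ↔ w.flatMap g ∈ M.accepts
  rw [DFA.mem_accepts]
  unfold DFA.eval
  have : ∀ (w : List (Fin m)) (s : σ),
      (⟨fun s a => M.evalFrom s (g a), M.start, M.accept⟩ : DFA (Fin m) σ).evalFrom s w =
        M.evalFrom s (w.flatMap g) := by
    intro w
    induction w with
    | nil => intro s; rfl
    | cons a w ih =>
      intro s
      rw [DFA.evalFrom_cons, ih, List.flatMap_cons, DFA.evalFrom_of_append]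
  rw [this]

theorem regular_inf {n : ℕ} {R R' : Language (Fin n)} (h : R.IsRegular) (h' : R'.IsRegular) :
    Language.IsRegular ({w : List (Fin n) | w ∈ R ∧ w ∈ R'} : Language (Fin n)) := by
  have := h.inf h'
  exact this

noncomputable def e4 : Fin 4 ≃ W := (Fintype.equivFinOfCardEq (by decide)).symm

theorem not_regular : ¬ Language.IsRegular ({w : List (Fin 4) |
    w.flatMap (fun a => [e4 a]) ∈ CoPref ∧ w ∈ (Set.univ : Set (List (Fin 4)))} :
      Language (Fin 4)) := by
  rintro ⟨σ, hσ, M, hM⟩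
  have hmem : ∀ v : List W, M.eval (v.map e4.symm) ∈ M.accept ↔ v ∈ CoPref := by
    intro v
    rw [← DFA.mem_accepts, hM]
    change ((v.map e4.symm).flatMap (fun a => [e4 a]) ∈ CoPref ∧ _) ↔ _
    have : (v.map e4.symm).flatMap (fun a => [e4 a]) = v := by
      induction v with
      | nil => rfl
      | cons a v ih => simp [ih]
    rw [this]
    simp
  obtain ⟨i, j, hne, heq⟩ := Finite.exists_ne_map_eq_of_infinite
    (fun i : ℕ => M.eval ((sg 0 i).map e4.symm))
  wlog hlt : i < j generalizing i j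
  · exact this j i hne.symm heq.symm (lt_of_le_of_ne (not_lt.1 hlt) hne.symm)
  have h1 : sg 0 i ++ sg i (j - i) ∉ CoPref := by
    rw [not_mem_iff]
    rw [List.length_append, sg_length, sg_length, sg_add, Nat.zero_add]
  have h2 : sg 0 j ++ sg i (j - i) ∉ CoPref := by
    rw [← hmem] at h1 ⊢
    rw [List.map_append] at h1 ⊢
    unfold DFA.eval at h1 ⊢ heq
    rw [DFA.evalFrom_of_append] at h1 ⊢
    rw [← heq]
    exact h1
  rw [not_mem_iff] at h2
  have h3 := (split_sg h2).2
  rw [sg_length, sg_length, Nat.zero_add] at h3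
  have h4 := sq_sg (s := i) (p := j - i) (by omega)
  apply h4
  rw [show i + (j - i) = j by omega]
  exact h3

theorem main :
    ¬ (∀ F : ∀ n : ℕ, Set (Language (Fin n)),
      (∀ (m n : ℕ) (g : Fin m → List (Fin n)) (L : Language (Fin n)), L ∈ F n →
          ({w : List (Fin m) | w.flatMap g ∈ L} : Set (List (Fin m))) ∈ F m) →
      (∀ (n : ℕ) (L R : Language (Fin n)), L ∈ F n → R.IsRegular →
          ({w : List (Fin n) | w ∈ L ∧ w ∈ R} : Set (List (Fin n))) ∈ F n) →
      (∀ (n : ℕ) (L : Language (Fin n)), L ∈ F n →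
          L.IsContextFree ∧
          ∃ N₀ : ℕ, ∀ f : List (Fin n), f ∈ L → ∀ M : Finset ℕ,
            (∀ i ∈ M, i < f.length) → N₀ ≤ M.card →
            ∃ x u y : List (Fin n), f = x ++ u ++ y ∧
              (∀ k : ℕ, x ++ (List.replicate k u).flatten ++ y ∈ L) ∧
              (∃ i ∈ M, i < x.length) ∧
              (∃ i ∈ M, x.length ≤ i ∧ i < x.length + u.length) ∧
              (∃ i ∈ M, x.length + u.length ≤ i)) →
      ∀ (n : ℕ) (L : Language (Fin n)), L ∈ F n → L.IsRegular) := by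
  intro H
  refine not_regular (H Fam ?_ ?_ ?_ 4 _ ⟨fun a => [e4 a], Set.univ, ?_, rfl⟩)
  · rintro m n g L ⟨h, R, hR, rfl⟩
    refine ⟨fun a => (g a).flatMap h, _, regular_comap g hR, ?_⟩
    ext w
    change ((w.flatMap g).flatMap h ∈ CoPref ∧ w.flatMap g ∈ R) ↔
      (w.flatMap (fun a => (g a).flatMap h) ∈ CoPref ∧ w.flatMap g ∈ R)
    rw [List.flatMap_assoc]
  · rintro n L R' ⟨h, R, hR, rfl⟩ hR'
    refine ⟨h, _, regular_inf hR hR', ?_⟩
    ext w
    change ((w.flatMap h ∈ CoPref ∧ w ∈ R) ∧ w ∈ R') ↔ (w.flatMap h ∈ CoPref ∧ (w ∈ R ∧ w ∈ R'))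
    exact and_assoc
  · rintro n L ⟨h, R, ⟨σ, hσ, M, rfl⟩, rfl⟩
    constructor
    · have key := LinSys.closure sysW none h M
      suffices e : ({w : List (Fin n) | w.flatMap h ∈ CoPref ∧ w ∈ M.accepts} :
          Language (Fin n)) = {w : List (Fin n) | sysW.Gen none (w.flatMap h) ∧ w ∈ M.accepts} by
        rw [e]; exact key
      ext w
      change (w.flatMap h ∈ CoPref ∧ w ∈ M.accepts) ↔ (sysW.Gen none (w.flatMap h) ∧ _)
      rw [gen_iff]
    · exact oll h M
  · refine ⟨Unit, inferInstance, ⟨fun _ _ => (), (), Set.univ⟩, ?_⟩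
    ext w
    rw [DFA.mem_accepts]
    exact ⟨fun _ => trivial, fun _ => trivial⟩

end Pool.Agent.H21.Cyl
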