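import Pool.Agent.H21.CflLinear

set_option autoImplicit false

namespace Pool.Agent.H21.Cyl

open Pool.Agent.H21.Cfl

/-- Thue-Morse -/
def tm : ℕ → Bool
  | 0 => false
  | (n + 1) => if (n + 1) % 2 = 0 then tm ((n + 1) / 2) else !tm ((n + 1) / 2)
decreasing_by all_goals omega

theorem tm_even (n : ℕ) : tm (2 * n) = tm n := by
  cases n with
  | zero => rfl
  | succ n =>
    rw [show 2 * (n + 1) = (2 * n + 1) + 1 by ring, tm, if_pos (by omega)]
    congr 1; omega

theorem tm_odd (n : ℕ) : tm (2 * n + 1) = !tm n := by
  rw [tm, if_neg (by omega)]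
  congr 2; omega

theorem tm41 (j : ℕ) : tm (4 * j + 1) = tm (4 * j + 2) := by
  rw [show 4 * j + 1 = 2 * (2 * j) + 1 by ring, tm_odd, tm_even,
    show 4 * j + 2 = 2 * (2 * j + 1) by ring, tm_even, tm_odd]

theorem overlap_free (p : ℕ) : 1 ≤ p → ∀ n, ¬ (∀ i ≤ p, tm (n + i) = tm (n + i + p)) := by
  induction p using Nat.strong_induction_on with
  | _ p ih =>
    intro hp n h
    rcases Nat.even_or_odd' p with ⟨q, hq | hq⟩
    · rcases Nat.even_or_odd' n with ⟨m, hm | hm⟩
      · apply ih q (by omega) (by omega) m
        intro j hj
        have := h (2 * j) (by omega)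
        rw [hm, hq, show 2 * m + 2 * j = 2 * (m + j) by ring, tm_even,
          show 2 * (m + j) + 2 * q = 2 * (m + j + q) by ring, tm_even] at this
        exact this
      · apply ih q (by omega) (by omega) m
        intro j hj
        have := h (2 * j) (by omega)
        rw [hm, hq, show 2 * m + 1 + 2 * j = 2 * (m + j) + 1 by ring, tm_odd,
          show 2 * (m + j) + 1 + 2 * q = 2 * (m + j + q) + 1 by ring, tm_odd] at this
        simpa using this
    · -- odd case
      have key : ∀ a b : ℕ, a % 2 = 0 → b % 4 = 1 → tm a = tm b → tm (a + 1) = tm (b + 1) →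
          False := by
        intro a b ha hb h1 h2
        obtain ⟨c, rfl⟩ : ∃ c, a = 2 * c := ⟨a / 2, by omega⟩
        obtain ⟨d, rfl⟩ : ∃ d, b = 4 * d + 1 := ⟨b / 4, by omega⟩
        have h3 := tm41 d
        rw [tm_odd] at h2
        rw [tm_even] at h1
        rw [show 4 * d + 1 + 1 = 4 * d + 2 by ring, ← h3, ← h1] at h2
        revert h2
        cases tm c <;> simp
      rcases Nat.eq_zero_or_pos q with h0 | h0
      · subst h0
        have hp1 : p = 1 := by omega
        subst hp1
        have h1 := h 0 (by omega)
        have h2 := h 1 (by omega)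
        rcases Nat.even_or_odd' n with ⟨m, hm | hm⟩
        · rw [hm, add_zero, tm_even, tm_odd] at h1
          revert h1; cases tm m <;> simp
        · rw [hm, show 2 * m + 1 + 1 = 2 * (m + 1) by ring, tm_even, tm_odd] at h2
          revert h2; cases tm (m + 1) <;> simp
      · by_cases hc : n % 4 = 2 ∧ p = 3
        · apply key n (n + p) (by omega) (by omega)
          · have := h 0 (by omega); simpa using this
          · have := h 1 (by omega)
            rw [this]; congr 1; ring
        · obtain ⟨r, hr1, hr2⟩ : ∃ r, r + 1 ≤ p ∧ (n + r) % 4 = 1 := by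
            refine ⟨(5 - n % 4) % 4, ?_, ?_⟩ <;> omega
          apply key (n + r + p) (n + r) (by omega) hr2
          · exact (h r (by omega)).symm
          · have := h (r + 1) hr1
            rw [show n + r + 1 = n + (r + 1) by ring, this]; congr 1; ring

abbrev W := Bool × Bool

def x (n : ℕ) : W := (tm n, tm (n + 1))

def fA (a : W) : W := (a.1, !a.1)
def fB (a : W) : W := (!a.1, a.2)

theorem x_even (n : ℕ) : x (2 * n) = fA (x n) := by
  unfold x fA
  simp only [tm_even, tm_odd]

theorem x_odd (n : ℕ) : x (2 * n + 1) = fB (x n) := by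
  unfold x fB
  rw [show 2 * n + 1 + 1 = 2 * (n + 1) by ring]
  simp only [tm_even, tm_odd]

theorem squarefree {p : ℕ} (hp : 1 ≤ p) (n : ℕ) : ¬ (∀ i < p, x (n + i) = x (n + p + i)) := by
  intro h
  apply overlap_free p hp n
  intro i hi
  rcases Nat.eq_zero_or_pos i with h0 | h0
  · subst h0
    have := h 0 (by omega)
    have := congrArg Prod.fst this
    simpa [x] using this
  · have := h (i - 1) (by omega)
    have := congrArg Prod.snd this
    simp only [x] at this
    rw [show n + (i - 1) + 1 = n + i by omega, show n + p + (i - 1) + 1 = n + i + p by omega] at this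
    exact this

/-- the co-prefix language -/
def CoPref : Set (List W) := {w | ∃ (i : ℕ) (h : i < w.length), w[i] ≠ x i}

abbrev QW := Option (Bool × W)

def stepW : Set (QW × List W × QW × List W) :=
  {r | (∃ y, r = (none, [], none, [y])) ∨
    (∃ a b, b ≠ fA a ∧ r = (none, [], some (false, a), [b])) ∨
    (∃ a b, b ≠ fB a ∧ r = (none, [], some (true, a), [b])) ∨
    (∃ k a y y', r = (some (k, a), [y], some (k, a), [y']))}

def baseW : Set (QW × List W) :=
  {r | (∃ b, b ≠ x 0 ∧ r = (none, [b])) ∨ (∃ a, r = (some (true, a), [a])) ∨
    (∃ a y, r = (some (false, a), [y, a]))}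

theorem stepW_finite : stepW.Finite := by
  have hl : ({l : List W | l.length ≤ 2}).Finite := List.finite_length_le W 2
  refine ((Set.toFinite (Set.univ : Set QW)).prod (hl.prod
    ((Set.toFinite (Set.univ : Set QW)).prod hl))).subset ?_
  rintro r (⟨y, rfl⟩ | ⟨a, b, _, rfl⟩ | ⟨a, b, _, rfl⟩ | ⟨k, a, y, y', rfl⟩) <;> simp

theorem baseW_finite : baseW.Finite := by
  have hl : ({l : List W | l.length ≤ 2}).Finite := List.finite_length_le W 2
  refine ((Set.toFinite (Set.univ : Set QW)).prod hl).subset ?_
  rintro r (⟨y, _, rfl⟩ | ⟨a, rfl⟩ | ⟨a, y, rfl⟩) <;> simp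

def sysW : LinSys W QW := ⟨stepW, baseW, stepW_finite, baseW_finite⟩

theorem shapeW {q : QW} {w : List W} (h : sysW.Gen q w) :
    (∀ k a, q = some (k, a) → ∃ u v : List W, w = u ++ [a] ++ v ∧
      (k = true → u.length = v.length) ∧ (k = false → u.length = v.length + 1)) ∧
    (q = none → w ∈ CoPref) := by
  induction h with
  | @base q w hb =>
    rcases hb with ⟨b, hb, he⟩ | ⟨a, he⟩ | ⟨a, y, he⟩
    · simp only [Prod.mk.injEq] at he
      obtain ⟨rfl, rfl⟩ := he
      exact ⟨by simp, fun _ => ⟨0, by simp, by simpa using hb⟩⟩
    · simp only [Prod.mk.injEq] at he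
      obtain ⟨rfl, rfl⟩ := he
      refine ⟨fun k a' h => ?_, by simp⟩
      simp only [Option.some.injEq, Prod.mk.injEq] at h
      obtain ⟨rfl, rfl⟩ := h
      exact ⟨[], [], by simp, by simp, by simp⟩
    · simp only [Prod.mk.injEq] at he
      obtain ⟨rfl, rfl⟩ := he
      refine ⟨fun k a' h => ?_, by simp⟩
      simp only [Option.some.injEq, Prod.mk.injEq] at h
      obtain ⟨rfl, rfl⟩ := h
      exact ⟨[y], [], by simp, by simp, by simp⟩
  | @step q u q' v w hs _ ih =>
    rcases hs with ⟨y, he⟩ | ⟨a, b, hb, he⟩ | ⟨a, b, hb, he⟩ | ⟨k, a, y, y', he⟩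
    · simp only [Prod.mk.injEq] at he
      obtain ⟨rfl, rfl, rfl, rfl⟩ := he
      refine ⟨by simp, fun _ => ?_⟩
      obtain ⟨i, hi, hne⟩ := ih.2 rfl
      refine ⟨i, by simp; omega, ?_⟩
      simp only [List.nil_append]
      rw [List.getElem_append_left hi]
      exact hne
    · simp only [Prod.mk.injEq] at he
      obtain ⟨rfl, rfl, rfl, rfl⟩ := he
      refine ⟨by simp, fun _ => ?_⟩
      obtain ⟨u', v', hw, _, hl⟩ := ih.1 _ _ rfl
      have hl := hl rfl
      subst hw
      by_cases ha : a = x u'.length
      · refine ⟨2 * u'.length, by simp; omega, ?_⟩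
        rw [x_even, ← ha]
        rw [List.getElem_append_right (by simp; omega)]
        simpa using hb
      · refine ⟨u'.length, by simp, ?_⟩
        simpa using ha
    · simp only [Prod.mk.injEq] at he
      obtain ⟨rfl, rfl, rfl, rfl⟩ := he
      refine ⟨by simp, fun _ => ?_⟩
      obtain ⟨u', v', hw, hl, _⟩ := ih.1 _ _ rfl
      have hl := hl rfl
      subst hw
      by_cases ha : a = x u'.length
      · refine ⟨2 * u'.length + 1, by simp; omega, ?_⟩
        rw [x_odd, ← ha]
        rw [List.getElem_append_right (by simp; omega)]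
        simpa using hb
      · refine ⟨u'.length, by simp, ?_⟩
        simpa using ha
    · simp only [Prod.mk.injEq] at he
      obtain ⟨rfl, rfl, rfl, rfl⟩ := he
      refine ⟨fun k' a' h => ?_, by simp⟩
      simp only [Option.some.injEq, Prod.mk.injEq] at h
      obtain ⟨rfl, rfl⟩ := h
      obtain ⟨u', v', hw, h1, h2⟩ := ih.1 _ _ rfl
      refine ⟨y :: u', v' ++ [y'], by rw [hw]; simp, fun h => ?_, fun h => ?_⟩
      · simp [h1 h]
      · simp [h2 h]

theorem gen_true (a : W) (n : ℕ) : ∀ u v : List W, u.length = n → v.length = n →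
    sysW.Gen (some (true, a)) (u ++ [a] ++ v) := by
  induction n with
  | zero =>
    intro u v hu hv
    rw [List.length_eq_zero_iff] at hu hv
    subst hu hv
    exact LinSys.Gen.base (Or.inr (Or.inl ⟨a, rfl⟩))
  | succ n ih =>
    intro u v hu hv
    cases u with
    | nil => simp at hu
    | cons y u =>
      rcases List.eq_nil_or_concat v with h | ⟨v1, y', h⟩
      · subst h; simp at hv
      · rw [List.concat_eq_append] at h
        subst h
        have := ih u v1 (by simpa using hu) (by simpa using hv)
        have h5 : sysW.Gen (some (true, a)) ([y] ++ (u ++ [a] ++ v1) ++ [y']) :=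
          LinSys.Gen.step (Or.inr (Or.inr (Or.inr ⟨true, a, y, y', rfl⟩))) this
        simpa using h5

theorem gen_false (a : W) (n : ℕ) : ∀ u v : List W, u.length = n + 1 → v.length = n →
    sysW.Gen (some (false, a)) (u ++ [a] ++ v) := by
  induction n with
  | zero =>
    intro u v hu hv
    rw [List.length_eq_zero_iff] at hv
    obtain ⟨y, rfl⟩ := List.length_eq_one_iff.1 hu
    subst hv
    exact LinSys.Gen.base (Or.inr (Or.inr ⟨a, y, rfl⟩))
  | succ n ih =>
    intro u v hu hv
    cases u with
    | nil => simp at hu
    | cons y u =>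
      rcases List.eq_nil_or_concat v with h | ⟨v1, y', h⟩
      · subst h; simp at hv
      · rw [List.concat_eq_append] at h
        subst h
        have := ih u v1 (by simpa using hu) (by simpa using hv)
        have h5 : sysW.Gen (some (false, a)) ([y] ++ (u ++ [a] ++ v1) ++ [y']) :=
          LinSys.Gen.step (Or.inr (Or.inr (Or.inr ⟨false, a, y, y', rfl⟩))) this
        simpa using h5

theorem gen_tail {w : List W} (h : sysW.Gen none w) (t : List W) : sysW.Gen none (w ++ t) := by
  induction t using List.reverseRecOn with
  | nil => simpa using h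
  | append_singleton t y ih =>
    have h5 : sysW.Gen none ([] ++ (w ++ t) ++ [y]) := LinSys.Gen.step (Or.inl ⟨y, rfl⟩) ih
    simpa using h5

theorem gen_of_mem {w : List W} (h : w ∈ CoPref) : sysW.Gen none w := by
  classical
  have hex : ∃ i, ∃ (h : i < w.length), w[i] ≠ x i := h
  obtain ⟨hi, hne⟩ := Nat.find_spec hex
  have hmin : ∀ j, j < Nat.find hex → ∀ hj : j < w.length, w[j] = x j := by
    intro j hj hjl
    by_contra hc
    exact Nat.find_min hex hj ⟨hjl, hc⟩
  set i := Nat.find hex with hidef
  have hw : w = w.take i ++ [w[i]] ++ w.drop (i + 1) := by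
    simp
  rw [hw]
  apply gen_tail
  rcases Nat.even_or_odd' i with ⟨n, hn | hn⟩
  · rcases Nat.eq_zero_or_pos n with h0 | h0
    · have hi0 : i = 0 := by omega
      have : w.take i = [] := by rw [hi0]; simp
      rw [this]
      refine LinSys.Gen.base (Or.inl ⟨w[i], ?_, rfl⟩)
      have e0 : x i = x 0 := by rw [hi0]
      rw [← e0]
      exact hne
    · -- i = 2n
      have hnl : n < w.length := by omega
      have e1 := hmin n (by omega) hnl
      have e2 : w.take i = w.take n ++ [x n] ++ (w.take i).drop (n + 1) := by
        apply List.ext_getElem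
        · simp; omega
        · intro k h1 h2
          simp only [List.length_take] at h1
          rcases lt_trichotomy k n with hk | hk | hk
          · rw [List.getElem_append_left (by simp; omega), List.getElem_append_left (by simp; omega)]
            simp
          · subst hk
            rw [List.getElem_append_left (by simp; omega), List.getElem_append_right (by simp)]
            simp [e1]
          · rw [List.getElem_append_right (by simp; omega)]
            simp only [List.getElem_take, List.getElem_drop, List.length_append, List.length_take,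
              List.length_singleton]
            congr 1
            omega
      have e3 : sysW.Gen (some (false, x n)) (w.take i) := by
        rw [e2]
        apply gen_false (x n) (n - 1)
        · simp; omega
        · simp; omega
      have h5 : sysW.Gen none ([] ++ w.take i ++ [w[i]]) := by
        refine LinSys.Gen.step (Or.inr (Or.inl ⟨x n, w[i], ?_, rfl⟩)) e3
        rw [← x_even, ← hn]
        exact hne
      simpa using h5
  · have hnl : n < w.length := by omega
    have e1 := hmin n (by omega) hnl
    have e2 : w.take i = w.take n ++ [x n] ++ (w.take i).drop (n + 1) := by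
      apply List.ext_getElem
      · simp; omega
      · intro k h1 h2
        simp only [List.length_take] at h1
        rcases lt_trichotomy k n with hk | hk | hk
        · rw [List.getElem_append_left (by simp; omega), List.getElem_append_left (by simp; omega)]
          simp
        · subst hk
          rw [List.getElem_append_left (by simp; omega), List.getElem_append_right (by simp)]
          simp [e1]
        · rw [List.getElem_append_right (by simp; omega)]
          simp only [List.getElem_take, List.getElem_drop, List.length_append, List.length_take,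
            List.length_singleton]
          congr 1
          omega
    have e3 : sysW.Gen (some (true, x n)) (w.take i) := by
      rw [e2]
      apply gen_true (x n) n
      · simp; omega
      · simp; omega
    have h5 : sysW.Gen none ([] ++ w.take i ++ [w[i]]) := by
      refine LinSys.Gen.step (Or.inr (Or.inr (Or.inl ⟨x n, w[i], ?_, rfl⟩))) e3
      rw [← x_odd, ← hn]
      exact hne
    simpa using h5

theorem gen_iff (w : List W) : sysW.Gen none w ↔ w ∈ CoPref :=
  ⟨fun h => (shapeW h).2 rfl, gen_of_mem⟩

end Pool.Agent.H21.Cyl
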