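import Pool.Agent.H21.CylClosure
import Pool.Agent.H21.CylWord
import Pool.Agent.H21.CylComb

set_option autoImplicit false

namespace Pool.Agent.H21.Cyl

open Pool.Agent.H21.Cfl

def sg (s n : ℕ) : List W := (List.range n).map (fun i => x (s + i))

theorem sg_length (s n : ℕ) : (sg s n).length = n := by simp [sg]

theorem sg_add (s n m : ℕ) : sg s (n + m) = sg s n ++ sg (s + n) m := by
  unfold sg
  rw [List.range_add, List.map_append, List.map_map]
  congr 1
  apply List.map_congr_left
  intro i _
  simp only [Function.comp_apply]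
  congr 1; ring

theorem sg_getElem (s n i : ℕ) (h : i < (sg s n).length) : (sg s n)[i] = x (s + i) := by
  simp [sg]

theorem sg_inj {a b n : ℕ} (h : sg a n = sg b n) : ∀ i < n, x (a + i) = x (b + i) := by
  intro i hi
  have e1 := sg_getElem a n i (by rw [sg_length]; exact hi)
  have e2 := sg_getElem b n i (by rw [sg_length]; exact hi)
  rw [← e1, ← e2]
  simp only [h]

theorem sg_take (s n k : ℕ) (h : k ≤ n) : (sg s n).take k = sg s k := by
  obtain ⟨r, rfl⟩ : ∃ r, n = k + r := ⟨n - k, by omega⟩
  rw [sg_add, List.take_left' (sg_length _ _)]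

theorem sg_drop (s n k : ℕ) (h : k ≤ n) : (sg s n).drop k = sg (s + k) (n - k) := by
  obtain ⟨r, rfl⟩ : ∃ r, n = k + r := ⟨n - k, by omega⟩
  rw [sg_add, List.drop_left' (sg_length _ _), Nat.add_sub_cancel_left]

theorem not_mem_iff (w : List W) : w ∉ CoPref ↔ w = sg 0 w.length := by
  constructor
  · intro h
    apply List.ext_getElem
    · rw [sg_length]
    · intro i h1 h2
      rw [sg_getElem, Nat.zero_add]
      by_contra hc
      exact h ⟨i, h1, hc⟩
  · rintro h ⟨i, hi, hne⟩
    apply hne
    have e1 := sg_getElem 0 w.length i (by rw [sg_length]; exact hi)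
    rw [Nat.zero_add] at e1
    rw [← e1]
    congr 1

theorem sq_sg {s p : ℕ} (hp : 1 ≤ p) : sg s p ≠ sg (s + p) p := fun h =>
  squarefree hp s (sg_inj h)

/-- Splitting a prefix. -/
theorem split_sg {a b : List W} {s : ℕ} (h : a ++ b = sg s (a ++ b).length) :
    a = sg s a.length ∧ b = sg (s + a.length) b.length := by
  rw [List.length_append, sg_add] at h
  exact List.append_inj h (by rw [sg_length])

section OLL

variable {n : ℕ} {σ : Type} [Fintype σ]

theorem replicate_flatMap (k : ℕ) (u : List (Fin n)) (h : Fin n → List W) :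
    ((List.replicate k u).flatten).flatMap h = (List.replicate k (u.flatMap h)).flatten := by
  induction k with
  | zero => simp
  | succ k ih => simp [List.replicate_succ, ih]

omit [Fintype σ] in
theorem eval_pow (M : DFA (Fin n) σ) (s : σ) (u : List (Fin n)) (h : M.evalFrom s u = s)
    (k : ℕ) : M.evalFrom s (List.replicate k u).flatten = s := by
  induction k with
  | zero => simp
  | succ k ih =>
    rw [List.replicate_succ, List.flatten_cons, DFA.evalFrom_of_append, h, ih]

theorem level {cnt : ℕ → ℕ} (h0 : cnt 0 = 0) (hs : ∀ i, cnt (i + 1) ≤ cnt i + 1) (N : ℕ) :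
    ∀ j ≤ cnt N, ∃ i ≤ N, cnt i = j := by
  induction N with
  | zero => intro j hj; exact ⟨0, le_rfl, by omega⟩
  | succ N ih =>
    intro j hj
    by_cases h : j ≤ cnt N
    · obtain ⟨i, hi, he⟩ := ih j h
      exact ⟨i, by omega, he⟩
    · exact ⟨N + 1, le_rfl, by have := hs N; omega⟩

theorem oll (h : Fin n → List W) (M : DFA (Fin n) σ) :
    ∃ N₀ : ℕ, ∀ f : List (Fin n), (f.flatMap h ∈ CoPref ∧ f ∈ M.accepts) → ∀ Mk : Finset ℕ,
            (∀ i ∈ Mk, i < f.length) → N₀ ≤ Mk.card →
            ∃ x u y : List (Fin n), f = x ++ u ++ y ∧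
              (∀ k : ℕ, (x ++ (List.replicate k u).flatten ++ y).flatMap h ∈ CoPref ∧
                (x ++ (List.replicate k u).flatten ++ y) ∈ M.accepts) ∧
              (∃ i ∈ Mk, i < x.length) ∧
              (∃ i ∈ Mk, x.length ≤ i ∧ i < x.length + u.length) ∧
              (∃ i ∈ Mk, x.length + u.length ≤ i) := by
  classical
  obtain ⟨c0, hc0⟩ : ∃ H, ∀ y, (h y).length ≤ H := by
    obtain ⟨H, hH⟩ := (Set.finite_range (fun y => (h y).length)).bddAbove
    exact ⟨H, fun y => hH ⟨y, rfl⟩⟩
  obtain ⟨B, hB⟩ := comb σ (c0 + 1) (by omega)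
  set K := Fintype.card σ with hK
  refine ⟨B + K + 3, fun f hf Mk hMk hcard => ?_⟩
  obtain ⟨hf1, hf2⟩ := hf
  by_contra hno
  -- the data
  set g := f.flatMap h with hg
  set st : ℕ → σ := fun i => M.evalFrom M.start (f.take i) with hst
  set cnt : ℕ → ℕ := fun i => (Mk.filter (· < i)).card with hcnt
  set H : ℕ → ℕ := fun i => ((f.take i).flatMap h).length with hH
  have cnt_mono : Monotone cnt := by
    intro a b hab
    apply Finset.card_le_card
    intro i hi
    simp only [Finset.mem_filter] at hi ⊢
    exact ⟨hi.1, by omega⟩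
  have cnt0 : cnt 0 = 0 := by simp [hcnt]
  have cnt_step : ∀ i, cnt (i + 1) ≤ cnt i + 1 := by
    intro i
    have : Mk.filter (· < i + 1) ⊆ insert i (Mk.filter (· < i)) := by
      intro j hj
      simp only [Finset.mem_insert, Finset.mem_filter] at hj ⊢
      rcases (show j = i ∨ j < i by omega) with h | h
      · exact Or.inl h
      · exact Or.inr ⟨hj.1, h⟩
    exact (Finset.card_le_card this).trans (Finset.card_insert_le _ _)
  have cnt_top : cnt f.length = Mk.card := by
    simp only [hcnt]
    congr 1
    apply Finset.filter_true_of_mem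
    exact hMk
  have cnt_le : ∀ i, cnt i ≤ Mk.card := fun i => Finset.card_le_card (Finset.filter_subset _ _)
  have lt_of_cnt : ∀ {a b}, cnt a < cnt b → a < b := by
    intro a b h
    by_contra hc
    exact absurd (cnt_mono (not_lt.1 hc)) (by omega)
  have Hstep : ∀ i, H i ≤ H (i + 1) ∧ H (i + 1) ≤ H i + c0 := by
    intro i
    simp only [hH]
    by_cases hi : i < f.length
    · rw [List.take_succ_eq_append_getElem hi, List.flatMap_append, List.length_append]
      have := hc0 f[i]
      simp
      exact this
    · rw [List.take_of_length_le (by omega), List.take_of_length_le (by omega)]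
      omega
  have Hmono : Monotone H := monotone_nat_of_le_succ (fun i => (Hstep i).1)
  have Htop : H f.length = g.length := by simp only [hH, hg, List.take_length]
  -- decomposition at a cut
  have hcut : ∀ a, (f.take a).flatMap h ++ (f.drop a).flatMap h = g := by
    intro a
    rw [← List.flatMap_append, List.take_append_drop]
  -- the mismatch
  have hex : ∃ i, ∃ (h : i < g.length), g[i] ≠ x i := hf1
  obtain ⟨hq1, hq2⟩ := Nat.find_spec hex
  have hq3 : ∀ j, j < Nat.find hex → ∀ hj : j < g.length, g[j] = x j := by
    intro j hj hjl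
    by_contra hc
    exact Nat.find_min hex hj ⟨hjl, hc⟩
  generalize Nat.find hex = Qp at hq1 hq2 hq3
  have gtake : g.take Qp = sg 0 Qp := by
    apply List.ext_getElem
    · rw [sg_length, List.length_take]; omega
    · intro i h1 h2
      rw [sg_getElem, List.getElem_take, Nat.zero_add]
      rw [sg_length] at h2
      exact hq3 i h2 (by omega)
  have hexm : ∃ i, Qp < H i := ⟨f.length, by rw [Htop]; exact hq1⟩
  obtain ⟨m, hm1, hm2⟩ : ∃ m, H m ≤ Qp ∧ Qp < H (m + 1) := by
    have h1 := Nat.find_spec hexm
    have h2 : Nat.find hexm ≠ 0 := by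
      intro h0
      rw [h0] at h1
      simp [hH] at h1
    refine ⟨Nat.find hexm - 1, ?_, ?_⟩
    · have := Nat.find_min hexm (m := Nat.find hexm - 1) (by omega)
      omega
    · rw [show Nat.find hexm - 1 + 1 = Nat.find hexm by omega]; exact h1
  have hmf : m < f.length := by
    by_contra hc
    have h1 := Hmono (not_lt.1 hc)
    rw [Htop] at h1
    omega
  -- bad pairs
  have bad : ∀ a b, a < b → b ≤ f.length → st a = st b → 1 ≤ cnt a → cnt a < cnt b →
      cnt b < Mk.card → ∃ k : ℕ, (f.take a).flatMap h ++
        (List.replicate k (((f.take b).drop a).flatMap h)).flatten ++ (f.drop b).flatMap h ∉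
          CoPref := by
    intro a b hab hb hs h1 h2 h3
    by_contra hc
    push Not at hc
    apply hno
    have e1 : f.take a ++ (f.take b).drop a = f.take b := by
      have := List.take_append_drop a (f.take b)
      rw [List.take_take, min_eq_left (by omega)] at this
      exact this
    refine ⟨f.take a, (f.take b).drop a, f.drop b, by rw [e1, List.take_append_drop], fun k =>
      ⟨?_, ?_⟩, ?_, ?_, ?_⟩
    · rw [List.flatMap_append, List.flatMap_append, replicate_flatMap]
      exact hc k
    · rw [DFA.mem_accepts] at hf2 ⊢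
      unfold DFA.eval at hf2 ⊢
      have e2 : M.evalFrom (st a) ((f.take b).drop a) = st a := by
        conv_rhs => rw [hs]
        simp only [hst]
        rw [← DFA.evalFrom_of_append, e1]
      rw [DFA.evalFrom_of_append, DFA.evalFrom_of_append]
      change M.evalFrom (M.evalFrom (st a) _) _ ∈ _
      rw [eval_pow M _ _ e2, hs]
      simp only [hst]
      rw [← DFA.evalFrom_of_append, List.take_append_drop]
      exact hf2
    · obtain ⟨i, hi⟩ := Finset.card_pos.1 (show 0 < (Mk.filter (· < a)).card from h1)
      rw [Finset.mem_filter] at hi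
      exact ⟨i, hi.1, by rw [List.length_take]; omega⟩
    · obtain ⟨i, hi1, hi2⟩ := Finset.exists_mem_notMem_of_card_lt_card h2
      simp only [Finset.mem_filter, not_and, not_lt] at hi1 hi2
      refine ⟨i, hi1.1, ?_, ?_⟩
      · have := hi2 hi1.1
        rw [List.length_take]; omega
      · rw [List.length_take, List.length_drop, List.length_take]; omega
    · obtain ⟨i, hi1, hi2⟩ := Finset.exists_mem_notMem_of_card_lt_card h3
      simp only [Finset.mem_filter, not_and, not_lt] at hi1 hi2
      refine ⟨i, hi1, ?_⟩
      have := hi2 hi1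
      rw [List.length_take, List.length_drop, List.length_take]; omega
  -- analysis of bad pairs before the mismatch
  have ana : ∀ a b, a < b → b ≤ m → st a = st b → 1 ≤ cnt a → cnt a < cnt b →
      cnt b < Mk.card → H a < H b ∧ ∀ j < Qp - H b, x (H a + j) = x (H b + j) := by
    intro a b hab hb hs h1 h2 h3
    obtain ⟨k, hk⟩ := bad a b hab (by omega) hs h1 h2 h3
    have e1 : f.take a ++ (f.take b).drop a = f.take b := by
      have := List.take_append_drop a (f.take b)
      rw [List.take_take, min_eq_left (by omega)] at this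
      exact this
    have e2 : (f.take a).flatMap h ++ ((f.take b).drop a).flatMap h = (f.take b).flatMap h := by
      rw [← List.flatMap_append, e1]
    have e3 : H b = H a + (((f.take b).drop a).flatMap h).length := by
      simp only [hH]
      rw [← e2, List.length_append]
    have e4 : (f.take a).flatMap h ++ ((f.take b).drop a).flatMap h ++ (f.drop b).flatMap h = g := by
      rw [e2, hcut]
    have hHb : H b ≤ Qp := (Hmono hb).trans hm1
    set hu := ((f.take b).drop a).flatMap h with hhu
    have hlt : 0 < hu.length := by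
      rcases Nat.eq_zero_or_pos hu.length with h0 | h0
      · exfalso
        rw [List.length_eq_zero_iff] at h0
        rw [h0] at hk e4
        apply hk
        have : (List.replicate k ([] : List W)).flatten = [] := by simp
        rw [this, e4]
        exact hf1
      · exact h0
    refine ⟨by omega, ?_⟩
    rw [not_mem_iff] at hk
    rcases (show k = 0 ∨ k = 1 ∨ 2 ≤ k by omega) with h0 | h0 | h0
    · subst h0
      simp only [List.replicate_zero, List.flatten_nil, List.append_nil] at hk
      have h4 := (split_sg hk).2
      rw [Nat.zero_add] at h4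
      have h5 : ((f.drop b).flatMap h) = g.drop (H b) := by
        rw [← hcut b]
        rw [List.drop_left' rfl]
      have h6 : (g.drop (H b)).take (Qp - H b) = sg (H b) (Qp - H b) := by
        rw [← List.drop_take, gtake, sg_drop _ _ _ hHb, Nat.zero_add]
      rw [← h5, h4, sg_take] at h6
      · exact sg_inj h6
      · rw [h5, List.length_drop]; omega
    · exfalso
      subst h0
      rw [← not_mem_iff] at hk
      apply hk
      simp only [List.replicate_one, List.flatten_cons, List.flatten_nil, List.append_nil]
      rw [e4]; exact hf1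
    · exfalso
      obtain ⟨r, rfl⟩ : ∃ r, k = r + 2 := ⟨k - 2, by omega⟩
      rw [show (List.replicate (r + 2) hu).flatten = hu ++ (hu ++ (List.replicate r hu).flatten) by
        rw [List.replicate_succ, List.replicate_succ]; simp] at hk
      have e5 : (f.take a).flatMap h ++ (hu ++ (hu ++ (List.replicate r hu).flatten)) ++
          (f.drop b).flatMap h = (f.take a).flatMap h ++ (hu ++ (hu ++
            ((List.replicate r hu).flatten ++ (f.drop b).flatMap h))) := by simp
      rw [e5] at hk
      have h4 := (split_sg hk).2
      rw [Nat.zero_add] at h4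
      have h5 := split_sg h4
      have h6 := (split_sg h5.2).1
      exact sq_sg hlt (h5.1.symm.trans h6)
  -- the counter is small before the mismatch
  have hcm : cnt m < B := by
    apply hB m st cnt (fun i => Qp - H i) cnt_mono cnt0 cnt_step
    · intro a b hab
      have := Hmono hab
      simp only
      omega
    · intro i
      have := Hstep i
      omega
    · intro a b hab hb hs h1 h2 h3
      obtain ⟨h4, h5⟩ := ana a b hab hb hs h1 h2 (by omega)
      have hHb : H b ≤ Qp := (Hmono hb).trans hm1
      by_contra hcc
      apply squarefree (p := H b - H a) (by omega) (H a)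
      intro i hi
      rw [h5 i (by omega)]
      congr 1; omega
    · intro a b b' hab hbb hb' hs hs' h1 h2 h3 h4
      have hcbb := cnt_mono hbb.le
      obtain ⟨h5, h6⟩ := ana a b hab (by omega) hs h1 h2 (by omega)
      obtain ⟨h7, h8⟩ := ana a b' (by omega) hb' (hs.trans hs') h1 (by omega) (by omega)
      have hHb : H b ≤ Qp := (Hmono (show b ≤ m by omega)).trans hm1
      have hHb' : H b' ≤ Qp := (Hmono hb').trans hm1
      have hHbb := Hmono hbb.le
      by_contra hcc
      apply squarefree (p := H b' - H b) (by omega) (H b)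
      intro i hi
      rw [← h6 i (by omega), h8 i (by omega)]
      congr 1; omega
  -- many marks after the mismatch
  have hcm1 : cnt (m + 1) ≤ B := (cnt_step m).trans hcm
  have hlev : ∀ t : Fin (K + 1), ∃ i ≤ f.length, cnt i = cnt (m + 1) + 1 + t := by
    intro t
    apply level cnt0 cnt_step
    rw [cnt_top]
    omega
  choose F hF1 hF2 using hlev
  have hcardlt : Fintype.card σ < Fintype.card (Fin (K + 1)) := by
    rw [Fintype.card_fin]; omega
  obtain ⟨t1, t2, hne, heq⟩ := Fintype.exists_ne_map_eq_of_card_lt
    (fun t : Fin (K + 1) => st (F t)) hcardlt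
  wlog hlt : t1 < t2 generalizing t1 t2
  · exact this t2 t1 hne.symm heq.symm (lt_of_le_of_ne (not_lt.1 hlt) hne.symm)
  have hlt' : (t1 : ℕ) < t2 := hlt
  have c1 := hF2 t1
  have c2 := hF2 t2
  obtain ⟨k, hk⟩ := bad (F t1) (F t2) (lt_of_cnt (by omega)) (hF1 t2) heq (by omega) (by omega)
    (by omega)
  have hm3 : m + 1 < F t1 := lt_of_cnt (by omega)
  apply hk
  have h9 : H (m + 1) ≤ H (F t1) := Hmono hm3.le
  have h10 : Qp < ((f.take (F t1)).flatMap h).length := lt_of_lt_of_le hm2 h9
  refine ⟨Qp, by simp only [List.length_append]; omega, ?_⟩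
  rw [List.getElem_append_left (by simp only [List.length_append]; omega),
    List.getElem_append_left h10]
  intro hcc
  apply hq2
  rw [← hcc]
  have e6 := hcut (F t1)
  simp only [← e6]
  rw [List.getElem_append_left h10]

end OLL

end Pool.Agent.H21.Cyl
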