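import Pool.Agent.H21.GeoNeg

set_option autoImplicit false

namespace Pool.Agent.H21.Geo

open Pool.Agent.H21.Reg V

theorem pr_false {g : V} {a : Bool} (h : pr g a = false) :
    (g.c a false + g.c a true) % 2 = 0 := by
  unfold pr at h
  simp only [decide_eq_false_iff_not] at h
  omega

theorem pr_true {g : V} {a : Bool} (h : pr g a = true) :
    (g.c a false + g.c a true) % 2 = 1 := by
  unfold pr at h
  simpa only [decide_eq_true_eq] using h

theorem cond_iff (g : V) : Cond g ↔ (g.c false true + g.c true true +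
    if (pr g false = true ∧ pr g true = true) then 1 else 0) % 2 = 0 := by
  unfold Cond
  rw [Int.even_iff, Int.add_emod, Int.mul_emod]
  rcases e1 : pr g false with _ | _ <;> rcases e2 : pr g true with _ | _
  · rw [pr_false e1, pr_false e2]; simp
  · rw [pr_false e1, pr_true e2]; simp
  · rw [pr_true e1, pr_false e2]; simp
  · rw [pr_true e1, pr_true e2]; simp

theorem cond_mul {g h : V} (hg : Cond g) (hh : Cond h) : Cond (g * h) := by
  rw [cond_iff] at *
  simp only [mul_c, pr_mul, Bool.not_true, Bool.not_false, Bool.true_xor]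
  rcases e1 : pr g false with _ | _ <;> rcases e2 : pr g true with _ | _ <;>
  rcases e3 : pr h false with _ | _ <;> rcases e4 : pr h true with _ | _ <;>
  rw [e1, e2] at hg <;> rw [e3, e4] at hh <;>
  [have f3 := pr_false e3; have f3 := pr_false e3; have f3 := pr_true e3; have f3 := pr_true e3;
   have f3 := pr_false e3; have f3 := pr_false e3; have f3 := pr_true e3; have f3 := pr_true e3;
   have f3 := pr_false e3; have f3 := pr_false e3; have f3 := pr_true e3; have f3 := pr_true e3;
   have f3 := pr_false e3; have f3 := pr_false e3; have f3 := pr_true e3; have f3 := pr_true e3] <;>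
  [have f4 := pr_false e4; have f4 := pr_true e4; have f4 := pr_false e4; have f4 := pr_true e4;
   have f4 := pr_false e4; have f4 := pr_true e4; have f4 := pr_false e4; have f4 := pr_true e4;
   have f4 := pr_false e4; have f4 := pr_true e4; have f4 := pr_false e4; have f4 := pr_true e4;
   have f4 := pr_false e4; have f4 := pr_true e4; have f4 := pr_false e4; have f4 := pr_true e4] <;>
  simp at hg hh ⊢ <;> omega

theorem cond_inv {g : V} (hg : Cond g) : Cond (g⁻¹) := by
  rw [cond_iff] at *
  simp only [inv_c, pr_inv, Bool.not_true, Bool.not_false, Bool.true_xor]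
  rcases e1 : pr g false with _ | _ <;> rcases e2 : pr g true with _ | _
  · have f1 := pr_false e1
    have f2 := pr_false e2
    rw [e1, e2] at hg
    simp at hg ⊢; omega
  · have f1 := pr_false e1
    have f2 := pr_true e2
    rw [e1, e2] at hg
    simp at hg ⊢; omega
  · have f1 := pr_true e1
    have f2 := pr_false e2
    rw [e1, e2] at hg
    simp at hg ⊢; omega
  · have f1 := pr_true e1
    have f2 := pr_true e2
    rw [e1, e2] at hg
    simp at hg ⊢; omega

/-- the group -/
def H : Subgroup V where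
  carrier := {g | Cond g}
  mul_mem' := fun ha hb => cond_mul ha hb
  one_mem' := by simp [Cond, one_c]
  inv_mem' := fun ha => cond_inv ha

theorem lt_mem (x : Bool × Bool) : lt x ∈ H := by
  show Cond (lt x)
  unfold Cond
  simp only [lt_c]
  rcases x with ⟨x1, x2⟩
  cases x1 <;> simp

/-- the letters as elements of the group -/
def ge (x : Bool × Bool) : H := ⟨lt x, lt_mem x⟩

/-- the generating set -/
def S : Set H := Set.range ge

/-- the letters as elements of the generating set -/
def el (x : Bool × Bool) : S := ⟨ge x, x, rfl⟩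

theorem el_surj : Function.Surjective el := by
  rintro ⟨_, x, rfl⟩
  exact ⟨x, rfl⟩

theorem el_inj : Function.Injective el := by
  intro x y h
  have h1 : lt x = lt y := congrArg (fun z : S => z.1.1) h
  have h2 : ∀ e i, (lt x).c e i = (lt y).c e i := fun e i => by rw [h1]
  have h3 := h2 x.1 false
  rw [lt_c, lt_c] at h3
  rcases x with ⟨x1, x2⟩
  rcases y with ⟨y1, y2⟩
  simp only [true_and, and_true, if_true, sg] at h3
  by_cases h4 : x1 = y1
  · subst h4
    cases x2 <;> cases y2 <;> simp at h3 ⊢
  · rw [if_neg h4] at h3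
    split_ifs at h3 <;> omega

theorem words_surj (w : List S) : ∃ p : W, p.map el = w := by
  have := List.map_surjective_iff.2 el_surj w
  exact this

theorem ev_el (p : W) : ((evw (Subtype.val : S → H) (p.map el) : H) : V) = evw lt p := by
  unfold evw
  rw [List.map_map]
  rw [show (((p.map ((Subtype.val : S → H) ∘ el)).prod : H) : V) =
    H.subtype ((p.map ((Subtype.val : S → H) ∘ el)).prod) from rfl, map_list_prod, List.map_map]
  rfl

theorem ev_el_iff (p q : W) : evw (Subtype.val : S → H) (p.map el) =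
    evw (Subtype.val : S → H) (q.map el) ↔ evw lt p = evw lt q := by
  rw [← ev_el, ← ev_el, Subtype.ext_iff]

theorem S_finite : S.Finite := Set.finite_range _

theorem ge_inv (x : Bool × Bool) : (ge x)⁻¹ = ge (x.1, !x.2) := by
  rw [inv_eq_iff_mul_eq_one]
  apply Subtype.ext
  show lt x * lt (x.1, !x.2) = 1
  ext e i
  rw [mul_lt_c, lt_c, one_c]
  simp only [pr_lt]
  by_cases he : e = x.1
  · subst he
    rcases x with ⟨x1, x2⟩
    cases i <;> cases x2 <;> simp [sg]
  · simp [he]

theorem S_inv : ∀ a ∈ S, a⁻¹ ∈ S := by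
  rintro _ ⟨x, rfl⟩
  exact ⟨_, (ge_inv x).symm⟩

/-- the language -/
def LS : Language S := {w | ∃ p ∈ Lg, p.map el = w}

theorem LS_regular : LS.IsRegular := image Lg_regular el

theorem LS_onto (g : H) : ∃ w ∈ LS, evw (Subtype.val : S → H) w = g := by
  obtain ⟨p, hp, h⟩ := onto (g := g.1) g.2
  refine ⟨p.map el, ⟨p, hp, rfl⟩, Subtype.ext ?_⟩
  rw [ev_el, h]

theorem S_closure : Subgroup.closure S = ⊤ := by
  rw [Subgroup.eq_top_iff']
  intro g
  obtain ⟨w, -, rfl⟩ := LS_onto g
  apply Subgroup.list_prod_mem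
  intro y hy
  obtain ⟨b, -, rfl⟩ := List.mem_map.1 hy
  exact Subgroup.subset_closure b.2

theorem LS_sync (x : H) (hx : ∀ (P : V) e i, |(P * x.1).c e i - P.c e i| ≤ 1) :
    (Ext (fun u v => u ∈ LS ∧ v ∈ LS ∧
      evw (Subtype.val : S → H) u * x = evw (Subtype.val : S → H) v)).IsRegular := by
  refine regular_of_ft (Subtype.val : S → H) LS_regular ((Subtype.val : H → V) ⁻¹' Bd)
    (Bd_finite.preimage (Subtype.val_injective.injOn)) x ?_
  rintro _ ⟨p, hp, rfl⟩ _ ⟨q, hq, rfl⟩ he n
  have he' : evw lt p * x.1 = evw lt q := by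
    rw [← ev_el, ← ev_el, ← he]; rfl
  show _ ∈ Bd
  rw [← List.map_take, ← List.map_take]
  show ((evw (Subtype.val : S → H) ((p.take n).map el) : H) : V)⁻¹ *
    ((evw (Subtype.val : S → H) ((q.take n).map el) : H) : V) ∈ Bd
  rw [ev_el, ev_el]
  apply diff_mem hp hq
  intro e i
  rw [abs_sub_comm, ← he']
  exact hx _ e i

theorem LS_sync_one : (Ext (fun u v => u ∈ LS ∧ v ∈ LS ∧
    evw (Subtype.val : S → H) u = evw (Subtype.val : S → H) v)).IsRegular := by
  have := LS_sync 1 (by intro P e i; simp)
  simpa only [mul_one] using this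

theorem LS_sync_el (x : S) : (Ext (fun u v => u ∈ LS ∧ v ∈ LS ∧
    evw (Subtype.val : S → H) u * x.1 = evw (Subtype.val : S → H) v)).IsRegular := by
  refine LS_sync x.1 ?_
  obtain ⟨y, rfl⟩ := el_surj x
  intro P e i
  show |(P * lt y).c e i - P.c e i| ≤ 1
  rw [mul_lt_c, add_sub_cancel_left]
  unfold sg
  split_ifs <;> simp

theorem LS_geod {w : List S} (hw : w ∈ LS) (v : List S)
    (h : evw (Subtype.val : S → H) v = evw (Subtype.val : S → H) w) : w.length ≤ v.length := by
  obtain ⟨p, hp, rfl⟩ := hw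
  obtain ⟨q, rfl⟩ := words_surj v
  rw [ev_el_iff] at h
  simpa using geod hp q h

/-- no synchronous fellow travelling between `v₀` and `ℓ v₀` -/
theorem no_sync (K : Language S) (b σ : Bool)
    (h0 : ∀ m, 0 < m → (v0 b σ m).map el ∈ K)
    (h1 : ∀ m, 0 < m → (((!b, σ) :: v0 b σ m) : W).map el ∈ K) :
    ¬ (Ext (fun u v => u ∈ K ∧ v ∈ K ∧
    evw (Subtype.val : S → H) u * (el (!b, σ)).1 = evw (Subtype.val : S → H) v)).IsRegular := by
  intro hreg
  obtain ⟨N, hN⟩ := ft_of_regular (Subtype.val : S → H) (el (!b, σ)).1 hreg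
  obtain ⟨s, s', hs, hs', he⟩ := hN _ (h0 (N + 1) (by omega)) _ (h1 (N + 1) (by omega)) (by
    apply Subtype.ext
    show ((evw (Subtype.val : S → H) _ : H) : V) * lt (!b, σ) = _
    rw [ev_el, ev_el, v0_comm]) (2 * (N + 1))
  obtain ⟨p, rfl⟩ := words_surj s
  obtain ⟨p', rfl⟩ := words_surj s'
  rw [← List.map_take, ← List.map_take] at he
  have he' := congrArg (Subtype.val : H → V) he
  have he2 : (evw lt ((v0 b σ (N + 1)).take (2 * (N + 1)))) * evw lt p * lt (!b, σ) =
      evw lt ((((!b, σ) :: v0 b σ (N + 1)) : W).take (2 * (N + 1))) * evw lt p' := by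
    rw [← ev_el, ← ev_el, ← ev_el, ← ev_el]
    exact he'
  have t1 : (v0 b σ (N + 1)).take (2 * (N + 1)) = List.replicate (2 * (N + 1)) (b, true) := by
    unfold v0
    rw [List.take_left']
    simp
  have t2 : (((!b, σ) :: v0 b σ (N + 1)) : W).take (2 * (N + 1)) =
      (!b, σ) :: List.replicate (2 * N + 1) (b, true) := by
    rw [show 2 * (N + 1) = (2 * N + 1) + 1 by ring, List.take_succ_cons]
    congr 1
    unfold v0
    rw [List.take_append, List.take_replicate]
    simp
  rw [t1, t2, evw_cons] at he2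
  have he3 : ((evw lt (List.replicate (2 * (N + 1)) (b, true))) * evw lt p *
      lt (!b, σ)).c b false = (lt (!b, σ) * evw lt (List.replicate (2 * N + 1) (b, true)) *
      evw lt p').c b false := by rw [he2]
  rw [mul_lt_c, mul_c, mul_c (lt (!b, σ) * _), mul_c (lt (!b, σ)), ev_rep, ev_rep, lt_c,
    pr_lt] at he3
  have k1 := abs_ev_le p b (xor false (pr (evw lt (List.replicate (2 * (N + 1)) (b, true))) (!b)))
  have k2 := abs_ev_le p' b (xor false (pr (lt (!b, σ) *
    evw lt (List.replicate (2 * N + 1) (b, true))) (!b)))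
  simp only [List.length_map] at hs hs'
  rw [abs_le] at k1 k2
  simp [sg] at he3
  simp at k1 k2
  omega

end Pool.Agent.H21.Geo
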