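import Pool.Agent.H21.RegMore

set_option autoImplicit false

namespace Pool.Agent.H21.Geo

open Pool.Agent.H21.Reg

/-- underlying set of the ambient group: `ℤ⁴`, coordinates indexed by (axis, index) -/
@[ext] structure V where
  c : Bool → Bool → ℤ

namespace V

/-- parity of the total on an axis -/
def pr (g : V) (a : Bool) : Bool := decide ((g.c a false + g.c a true) % 2 = 1)

instance : Mul V := ⟨fun g h => ⟨fun a i => g.c a i + h.c a (xor i (pr g (!a)))⟩⟩
instance : One V := ⟨⟨fun _ _ => 0⟩⟩
instance : Inv V := ⟨fun g => ⟨fun a i => - g.c a (xor i (pr g (!a)))⟩⟩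

theorem mul_c (g h : V) (a i : Bool) : (g * h).c a i = g.c a i + h.c a (xor i (pr g (!a))) := rfl
theorem one_c (a i : Bool) : (1 : V).c a i = 0 := rfl
theorem inv_c (g : V) (a i : Bool) : (g⁻¹).c a i = - g.c a (xor i (pr g (!a))) := rfl

theorem pr_mul (g h : V) (a : Bool) : pr (g * h) a = xor (pr g a) (pr h a) := by
  unfold pr
  rw [mul_c, mul_c]
  rw [Bool.eq_iff_iff]
  simp only [Bool.xor_iff_ne, ne_eq, decide_eq_true_eq, Bool.false_xor, Bool.true_xor]
  rcases hp : g.pr (!a) with _ | _ <;> simp only [pr] at hp <;>
  simp only [Bool.not_true, Bool.not_false, decide_eq_decide] <;> omega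

theorem pr_inv (g : V) (a : Bool) : pr (g⁻¹) a = pr g a := by
  unfold pr
  rw [inv_c, inv_c]
  rcases hp : g.pr (!a) with _ | _ <;>
  simp only [Bool.false_xor, Bool.true_xor, Bool.not_true, Bool.not_false, decide_eq_decide] <;>
  omega

theorem pr_one (a : Bool) : pr 1 a = false := by
  simp [pr, one_c]

instance : Group V := Group.ofLeftAxioms
  (by
    intro g h k
    ext a i
    simp only [mul_c, pr_mul]
    rw [add_assoc, Bool.xor_assoc])
  (by
    intro g
    ext a i
    simp only [mul_c, one_c, pr_one]
    simp)
  (by
    intro g
    ext a i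
    simp only [mul_c, inv_c, pr_inv, one_c]
    simp)

end V

open V

/-- sign of a letter -/
def sg (s : Bool) : ℤ := if s then 1 else -1

/-- value of a letter `(axis, sign)` -/
def lt (x : Bool × Bool) : V := ⟨fun b i => if b = x.1 ∧ i = false then sg x.2 else 0⟩

theorem mul_lt_c (P : V) (x : Bool × Bool) (b i : Bool) :
    (P * lt x).c b i = P.c b i + if b = x.1 ∧ i = pr P (!x.1) then sg x.2 else 0 := by
  rw [mul_c]
  congr 1
  show (if b = x.1 ∧ xor i (pr P (!b)) = false then sg x.2 else 0) = _
  by_cases hb : b = x.1
  · subst hb
    congr 1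
    simp
  · simp [hb]

theorem evw_snoc (w : List (Bool × Bool)) (x : Bool × Bool) :
    evw lt (w ++ [x]) = evw lt w * lt x := by
  simp [evw]

/-- crossing numbers -/
theorem crossings (w : List (Bool × Bool)) : ∃ N : Bool → Bool → ℕ,
    N false false + N false true + N true false + N true true = w.length ∧
    (∀ a i, |(evw lt w).c a i| ≤ N a i ∧ ((evw lt w).c a i - N a i) % 2 = 0) ∧
    (∀ a, N a false = 0 → N a true = 0 → N (!a) true = 0) ∧
    (N false false = 0 → N true false = 0 → N false true = 0 ∧ N true true = 0) := by
  induction w using List.reverseRecOn with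
  | nil =>
    refine ⟨fun _ _ => 0, by simp, ?_, by simp, by simp⟩
    intro a i
    simp [evw, one_c]
  | append_singleton w x ih =>
    obtain ⟨N, h1, h2, h3, h4⟩ := ih
    set P := evw lt w with hP
    have hprP : ∀ a, N a false = 0 → N a true = 0 → pr P a = false := by
      intro a ha hb
      have e1 := (h2 a false).1
      have e2 := (h2 a true).1
      rw [ha] at e1; rw [hb] at e2
      have e1' : P.c a false = 0 := by simpa using e1
      have e2' : P.c a true = 0 := by simpa using e2
      simp [pr, e1', e2']
    refine ⟨fun a i => N a i + if a = x.1 ∧ i = pr P (!x.1) then 1 else 0, ?_, ?_, ?_, ?_⟩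
    · generalize pr P (!x.1) = q
      generalize x.1 = y
      rw [List.length_append, List.length_singleton, ← h1]
      cases y <;> cases q <;> simp <;> omega
    · intro a i
      rw [evw_snoc, ← hP, mul_lt_c]
      obtain ⟨e1, e2⟩ := h2 a i
      beta_reduce
      by_cases hc : a = x.1 ∧ i = pr P (!x.1)
      · have hs : sg x.2 = 1 ∨ sg x.2 = -1 := by
          unfold sg; split_ifs <;> simp
        simp only [if_pos hc]
        push_cast
        rw [abs_le] at e1 ⊢
        constructor
        · rcases hs with hs | hs <;> rw [hs] <;> constructor <;> omega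
        · rcases hs with hs | hs <;> rw [hs] <;> omega
      · simp only [if_neg hc, add_zero]
        exact ⟨e1, e2⟩
    · intro a ha hb
      simp only at ha hb ⊢
      have ha' : N a false = 0 := by omega
      have hb' : N a true = 0 := by omega
      have hpa := hprP a ha' hb'
      have hne : x.1 ≠ a := by
        rintro rfl
        rcases hq : pr P (!x.1) with _ | _
        · simp [hq] at ha
        · simp [hq] at hb
      have hx : x.1 = !a := by
        revert hne; cases x.1 <;> cases a <;> simp
      rw [hx, Bool.not_not, hpa, h3 a ha' hb']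
      simp
    · intro ha hb
      simp only at ha hb
      exfalso
      have ha' : N false false = 0 := by omega
      have hb' : N true false = 0 := by omega
      obtain ⟨h5, h6⟩ := h4 ha' hb'
      have p1 := hprP false ha' h5
      have p2 := hprP true hb' h6
      rcases hx : x.1 with _ | _
      · rw [hx] at ha; simp [p2] at ha
      · rw [hx] at hb; simp [p1] at hb

/-- penalty -/
def pen (g : V) : ℕ :=
  if (g.c true false = 0 ∧ g.c true true = 0 ∧ g.c false true ≠ 0) ∨
     (g.c false false = 0 ∧ g.c false true = 0 ∧ g.c true true ≠ 0) ∨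
     (g.c false false = 0 ∧ g.c true false = 0 ∧ (g.c false true ≠ 0 ∨ g.c true true ≠ 0))
  then 2 else 0

/-- the length function -/
def len (g : V) : ℕ := (g.c false false).natAbs + (g.c false true).natAbs +
  (g.c true false).natAbs + (g.c true true).natAbs + pen g

theorem len_le (w : List (Bool × Bool)) : len (evw lt w) ≤ w.length := by
  obtain ⟨N, h1, h2, h3, h4⟩ := crossings w
  set P := evw lt w with hP
  have a1 := h2 false false
  have a2 := h2 false true
  have a3 := h2 true false
  have a4 := h2 true true
  have b1 := h3 false
  have b2 := h3 true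
  simp only [Bool.not_true, Bool.not_false] at b1 b2
  simp only [abs_le] at a1 a2 a3 a4
  unfold len pen
  split_ifs with h
  · by_contra hcon
    have n1 : N false false = (P.c false false).natAbs := by omega
    have n2 : N false true = (P.c false true).natAbs := by omega
    have n3 : N true false = (P.c true false).natAbs := by omega
    have n4 : N true true = (P.c true true).natAbs := by omega
    rcases h with ⟨c1, c2, c3⟩ | ⟨c1, c2, c3⟩ | ⟨c1, c2, c3⟩
    · have := b2 (by omega) (by omega); omega
    · have := b1 (by omega) (by omega); omega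
    · have := h4 (by omega) (by omega); omega
  · omega

end Pool.Agent.H21.Geo
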