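import Pool.Agent.H21.GeoTable

set_option autoImplicit false

namespace Pool.Agent.H21.Geo

open Pool.Agent.H21.Reg V

/-- even block -/
def blk (a : Bool) (k : ℤ) : W := List.replicate (2 * k.natAbs) (a, decide (0 < k))

/-- truncation of `x` to `[-t, t]` -/
def cl (t : ℕ) (x : ℤ) : ℤ := max (-(t : ℤ)) (min t x)

theorem ev_rep (n : ℕ) (x : Bool × Bool) (b i : Bool) :
    (evw lt (List.replicate n x)).c b i = if b = x.1 ∧ i = false then n * sg x.2 else 0 := by
  induction n with
  | zero => simp [evw, one_c]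
  | succ n ih =>
    rw [List.replicate_succ', evw_snoc, mul_lt_c, ih]
    have hpr : pr (evw lt (List.replicate n x)) (!x.1) = false := by
      unfold pr
      have h1 : ∀ i, (evw lt (List.replicate n x)).c (!x.1) i = 0 := by
        intro i
        clear ih
        induction n with
        | zero => simp [evw, one_c]
        | succ n ih =>
          rw [List.replicate_succ', evw_snoc, mul_lt_c, ih]
          simp
      rw [h1, h1]; simp
    rw [hpr]
    split_ifs with h
    · push_cast; ring
    · simp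

theorem ev_blk (a : Bool) (k : ℤ) (b i : Bool) :
    (evw lt (blk a k)).c b i = if b = a ∧ i = false then 2 * k else 0 := by
  unfold blk
  rw [ev_rep]
  simp only
  split_ifs with h
  · unfold sg
    rcases lt_trichotomy k 0 with hk | hk | hk
    · rw [if_neg (by simp; omega)]; omega
    · subst hk; simp
    · rw [if_pos (by simpa using hk)]; omega
  · rfl

theorem pos_blk (P : W) (a : Bool) (k : ℤ) (n : ℕ) (b i : Bool) :
    (evw lt ((P ++ blk a k).take n)).c b i = (evw lt (P.take n)).c b i +
      if b = a ∧ i = pr (evw lt P) (!a) then cl (n - P.length) (2 * k) else 0 := by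
  rw [List.take_append, evw_append, mul_c]
  congr 1
  unfold blk
  rw [List.take_replicate, ev_rep]
  rcases le_total n P.length with hn | hn
  · rw [Nat.sub_eq_zero_of_le hn]
    simp [cl]
  · rw [List.take_of_length_le hn]
    simp only
    by_cases hb : b = a
    · subst hb
      have : (xor i (pr (evw lt P) (!b)) = false) ↔ i = pr (evw lt P) (!b) := by simp
      simp only [true_and, this]
      split_ifs with h
      · unfold sg cl
        rcases lt_trichotomy k 0 with hk | hk | hk
        · rw [if_neg (by simp; omega)]; omega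
        · subst hk; simp
        · rw [if_pos (by simpa using hk)]; omega
      · rfl
    · simp [hb]

theorem abs_ev_le (s : W) (b i : Bool) : |(evw lt s).c b i| ≤ s.length := by
  obtain ⟨N, h1, h2, -, -⟩ := crossings s
  have := (h2 b i).1
  refine this.trans ?_
  have : N b i ≤ s.length := by
    rw [← h1]
    cases b <;> cases i <;> omega
  exact_mod_cast this

theorem pos_short (P s : W) (n : ℕ) (b i : Bool) :
    |(evw lt ((P ++ s).take n)).c b i - (evw lt (P.take n)).c b i| ≤ s.length := by
  rw [List.take_append, evw_append, mul_c, add_sub_cancel_left]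
  refine (abs_ev_le _ _ _).trans ?_
  simp

/-- sign condition -/
def SC (z a : ℤ) : Prop := (0 < z ∧ 0 ≤ a) ∨ (z < 0 ∧ a ≤ 0) ∨ (z = 0 ∧ a = 0)

/-- the words of the language -/
def wd (t : Ent) (a b c d : ℤ) : W :=
  (((((blk false a ++ blk true b) ++ t.s1) ++ blk false c) ++ t.s2) ++ blk true d) ++ t.s3

def Lg : Language (Bool × Bool) :=
  {p | ∃ t ∈ table, ∃ a b c d : ℤ, SC t.x0 a ∧ SC t.y0 b ∧ SC t.x1 c ∧ SC t.y1 d ∧
    p = wd t a b c d}

theorem appBlk {K : Language (Bool × Bool)} (h : K.IsRegular) (z : ℤ) (ax : Bool) :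
    Language.IsRegular ({p | ∃ w ∈ K, ∃ a, SC z a ∧ p = w ++ blk ax a} :
      Language (Bool × Bool)) := by
  rcases lt_trichotomy z 0 with hz | hz | hz
  · refine isReg_congr (appendEven h (ax, false)) (fun p => ?_)
    constructor
    · rintro ⟨w, hw, a, ha, rfl⟩
      have ha' : a ≤ 0 := by unfold SC at ha; omega
      refine ⟨w, hw, a.natAbs, ?_⟩
      unfold blk
      rw [show decide (0 < a) = false by simp; omega]
    · rintro ⟨w, hw, m, rfl⟩
      refine ⟨w, hw, -m, Or.inr (Or.inl ⟨hz, by omega⟩), ?_⟩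
      unfold blk
      rw [show decide (0 < -(m : ℤ)) = false by simp]
      simp
  · refine isReg_congr h (fun p => ?_)
    constructor
    · rintro ⟨w, hw, a, ha, rfl⟩
      have ha' : a = 0 := by unfold SC at ha; omega
      subst ha'
      simpa [blk] using hw
    · intro hp
      exact ⟨p, hp, 0, Or.inr (Or.inr ⟨hz, rfl⟩), by simp [blk]⟩
  · refine isReg_congr (appendEven h (ax, true)) (fun p => ?_)
    constructor
    · rintro ⟨w, hw, a, ha, rfl⟩
      have ha' : 0 ≤ a := by unfold SC at ha; omega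
      refine ⟨w, hw, a.natAbs, ?_⟩
      unfold blk
      rcases ha'.eq_or_lt with h0 | h0
      · subst h0; simp
      · rw [show decide (0 < a) = true by simpa using h0]
    · rintro ⟨w, hw, m, rfl⟩
      refine ⟨w, hw, m, Or.inl ⟨hz, by omega⟩, ?_⟩
      unfold blk
      rcases Nat.eq_zero_or_pos m with h0 | h0
      · subst h0; simp
      · rw [show decide (0 < (m : ℤ)) = true by simp; omega]
        simp

theorem Lg_regular : Lg.IsRegular := by
  have key : ∀ t : Ent, Language.IsRegular ({p | ∃ a b c d : ℤ, SC t.x0 a ∧ SC t.y0 b ∧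
      SC t.x1 c ∧ SC t.y1 d ∧ p = wd t a b c d} : Language (Bool × Bool)) := by
    intro t
    refine isReg_congr (appendWord (appBlk (appendWord (appBlk (appendWord (appBlk (appBlk
      nilReg t.x0 false) t.y0 true) t.s1) t.x1 false) t.s2) t.y1 true) t.s3) (fun p => ?_)
    constructor
    · rintro ⟨a, b, c, d, ha, hb, hc, hd, rfl⟩
      exact ⟨_, ⟨_, ⟨_, ⟨_, ⟨_, ⟨_, ⟨_, rfl, a, ha, rfl⟩, b, hb, rfl⟩, rfl⟩, c, hc, rfl⟩,
        rfl⟩, d, hd, rfl⟩, by simp [wd]⟩
    · rintro ⟨_, ⟨_, ⟨_, ⟨_, ⟨_, ⟨_, ⟨_, rfl, a, ha, rfl⟩, b, hb, rfl⟩, rfl⟩, c, hc, rfl⟩,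
        rfl⟩, d, hd, rfl⟩, rfl⟩
      exact ⟨a, b, c, d, ha, hb, hc, hd, by simp [wd]⟩
  refine isReg_congr (iUnionReg _ (fun i : Fin table.length => key (table.get i))) (fun p => ?_)
  constructor
  · rintro ⟨t, ht, hp⟩
    obtain ⟨i, rfl⟩ := List.mem_iff_get.1 ht
    exact ⟨i, hp⟩
  · rintro ⟨i, hp⟩
    exact ⟨table.get i, List.get_mem _ _, hp⟩

end Pool.Agent.H21.Geo
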