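import Pool.Agent.H21.GeoLang

set_option autoImplicit false

namespace Pool.Agent.H21.Geo

open Pool.Agent.H21.Reg V

/-- `P` is `Q` shifted by `2 D` -/
def Sh (P Q : V) (D : Bool → Bool → ℤ) : Prop := ∀ b i, P.c b i = Q.c b i + 2 * D b i

theorem Sh.pr {P Q : V} {D : Bool → Bool → ℤ} (h : Sh P Q D) (a : Bool) : pr P a = pr Q a := by
  unfold V.pr
  rw [h, h, decide_eq_decide]
  omega

theorem Sh.mul {P Q : V} {D : Bool → Bool → ℤ} (h : Sh P Q D) (R : V) :
    Sh (P * R) (Q * R) D := by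
  intro b i
  rw [mul_c, mul_c, h.pr, h]
  ring

theorem Sh.blk {P Q : V} {D : Bool → Bool → ℤ} (h : Sh P Q D) (a : Bool) (k : ℤ) :
    Sh (P * evw lt (blk a k)) Q
      (fun b i => D b i + if b = a ∧ i = V.pr Q (!a) then k else 0) := by
  intro b i
  rw [mul_c, h.pr, h, ev_blk]
  by_cases hb : b = a
  · subst hb
    have : (xor i (V.pr Q (!b)) = false) ↔ i = V.pr Q (!b) := by simp
    simp only [true_and, this]
    split_ifs <;> ring
  · simp [hb]

theorem wd_sh (t : Ent) (a b c d : ℤ) : Sh (evw lt (wd t a b c d))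
    (evw lt (t.s1 ++ (t.s2 ++ t.s3)))
    (fun e i => (((0 + if e = false ∧ i = false then a else 0) +
      if e = true ∧ i = false then b else 0) +
      if e = false ∧ i = pr (evw lt t.s1) true then c else 0) +
      if e = true ∧ i = pr (evw lt (t.s1 ++ t.s2)) false then d else 0) := by
  have h0 : Sh 1 1 (fun _ _ => 0) := by intro b i; simp
  have h1 := (h0.blk false a).blk true b
  have h2 := (h1.mul (evw lt t.s1)).blk false c
  have h3 := (h2.mul (evw lt t.s2)).blk true d
  have h4 := h3.mul (evw lt t.s3)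
  simp only [one_mul, ← evw_append, Bool.not_true, Bool.not_false, pr_one] at h4
  rw [← List.append_assoc]
  exact h4

theorem wd_val {t : Ent} (ht : t.Ok) {a b c d : ℤ} (hc : SC t.x1 c) (hd : SC t.y1 d) :
    (evw lt (wd t a b c d)).c false false = t.x0 + 2 * a ∧
    (evw lt (wd t a b c d)).c false true = t.x1 + 2 * c ∧
    (evw lt (wd t a b c d)).c true false = t.y0 + 2 * b ∧
    (evw lt (wd t a b c d)).c true true = t.y1 + 2 * d := by
  obtain ⟨e1, e2, e3, e4, -, e5, e6, -⟩ := ht
  have h := wd_sh t a b c d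
  refine ⟨?_, ?_, ?_, ?_⟩
  · rw [h, e1]
    by_cases hx : t.x1 = 0
    · have : c = 0 := by unfold SC at hc; omega
      subst this; simp
    · rw [e5 hx]; simp
  · rw [h, e2]
    by_cases hx : t.x1 = 0
    · have : c = 0 := by unfold SC at hc; omega
      subst this; simp
    · rw [e5 hx]; simp
  · rw [h, e3]
    by_cases hx : t.y1 = 0
    · have : d = 0 := by unfold SC at hd; omega
      subst this; simp
    · rw [e6 hx]; simp
  · rw [h, e4]
    by_cases hx : t.y1 = 0
    · have : d = 0 := by unfold SC at hd; omega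
      subst this; simp
    · rw [e6 hx]; simp

theorem SC_len {z a : ℤ} (h : SC z a) : (z + 2 * a).natAbs = z.natAbs + 2 * a.natAbs ∧
    (z + 2 * a = 0 ↔ z = 0) := by
  unfold SC at h
  omega

theorem blk_length (a : Bool) (k : ℤ) : (blk a k).length = 2 * k.natAbs := by
  simp [blk]

theorem wd_len {t : Ent} (ht : t.Ok) {a b c d : ℤ} (ha : SC t.x0 a) (hb : SC t.y0 b)
    (hc : SC t.x1 c) (hd : SC t.y1 d) : (wd t a b c d).length = len (evw lt (wd t a b c d)) := by
  obtain ⟨v1, v2, v3, v4⟩ := wd_val ht (a := a) (b := b) hc hd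
  obtain ⟨-, -, -, -, hl, -⟩ := ht
  unfold len pen
  rw [v1, v2, v3, v4]
  obtain ⟨a1, a2⟩ := SC_len ha
  obtain ⟨b1, b2⟩ := SC_len hb
  obtain ⟨c1, c2⟩ := SC_len hc
  obtain ⟨d1, d2⟩ := SC_len hd
  simp only [a1, a2, b1, b2, c1, c2, d1, d2, ne_eq]
  unfold len4 at hl
  simp only [ne_eq] at hl
  simp only [wd, List.length_append, blk_length]
  omega

theorem split1 (z : ℤ) : ∃ z' a, z' ∈ box ∧ SC z' a ∧ z = z' + 2 * a := by
  unfold SC box
  simp only [List.mem_cons, List.not_mem_nil, or_false]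
  rcases lt_trichotomy z 0 with h | h | h
  · rcases Int.emod_two_eq_zero_or_one z with e | e
    · exact ⟨-2, (z + 2) / 2, by omega, by omega, by omega⟩
    · exact ⟨-1, (z + 1) / 2, by omega, by omega, by omega⟩
  · exact ⟨0, 0, by omega, by omega, by omega⟩
  · rcases Int.emod_two_eq_zero_or_one z with e | e
    · exact ⟨2, (z - 2) / 2, by omega, by omega, by omega⟩
    · exact ⟨1, (z - 1) / 2, by omega, by omega, by omega⟩

/-- condition defining the subgroup -/
def Cond (g : V) : Prop := Even (g.c false true + g.c true true +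
  (g.c false false + g.c false true) * (g.c true false + g.c true true))

theorem onto {g : V} (hg : Cond g) : ∃ p ∈ Lg, evw lt p = g := by
  obtain ⟨x0, a, hx0, ha, e1⟩ := split1 (g.c false false)
  obtain ⟨x1, c, hx1, hc, e2⟩ := split1 (g.c false true)
  obtain ⟨y0, b, hy0, hb, e3⟩ := split1 (g.c true false)
  obtain ⟨y1, d, hy1, hd, e4⟩ := split1 (g.c true true)
  have hcond : (x1 + y1 + (x0 + x1) * (y0 + y1)) % 2 = 0 := by
    unfold Cond at hg
    rw [e1, e2, e3, e4] at hg
    rw [← Int.even_iff]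
    simp only [Int.even_add, Int.even_mul, even_two, true_or, iff_true] at hg ⊢
    exact hg
  have hmem : (x0, x1, y0, y1) ∈ keys := by
    unfold keys
    rw [List.mem_filter]
    refine ⟨?_, by simpa using hcond⟩
    simp only [List.mem_flatMap, List.mem_map]
    exact ⟨x0, hx0, x1, hx1, y0, hy0, y1, hy1, rfl⟩
  rw [← table_keys, List.mem_map] at hmem
  obtain ⟨t, ht, hteq⟩ := hmem
  have hk := table_ok t ht
  simp only [Prod.mk.injEq] at hteq
  obtain ⟨rfl, rfl, rfl, rfl⟩ := hteq
  refine ⟨wd t a b c d, ⟨t, ht, a, b, c, d, ha, hb, hc, hd, rfl⟩, ?_⟩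
  obtain ⟨v1, v2, v3, v4⟩ := wd_val hk (a := a) (b := b) hc hd
  ext e i
  cases e <;> cases i
  · rw [v1, e1]
  · rw [v2, e2]
  · rw [v3, e3]
  · rw [v4, e4]

theorem geod {p : W} (hp : p ∈ Lg) (q : W) (h : evw lt q = evw lt p) : p.length ≤ q.length := by
  obtain ⟨t, ht, a, b, c, d, ha, hb, hc, hd, rfl⟩ := hp
  rw [wd_len (table_ok t ht) ha hb hc hd, ← h]
  exact len_le q

end Pool.Agent.H21.Geo
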