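import Pool.Agent.H21.GeoTrack

set_option autoImplicit false

namespace Pool.Agent.H21.Geo

open Pool.Agent.H21.Reg V

/-- total exponent of the letters of an axis -/
def tot (b : Bool) (q : W) : ℤ := (q.map (fun x => if x.1 = b then sg x.2 else 0)).sum

theorem tot_eq (b : Bool) (q : W) : tot b q = (evw lt q).c b false + (evw lt q).c b true := by
  induction q using List.reverseRecOn with
  | nil => simp [tot, evw, one_c]
  | append_singleton q x ih =>
    rw [evw_snoc, mul_lt_c, mul_lt_c]
    have h1 : tot b (q ++ [x]) = tot b q + if x.1 = b then sg x.2 else 0 := by simp [tot]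
    rw [h1, ih]
    generalize pr (evw lt q) (!x.1) = z
    by_cases hb : b = x.1
    · subst hb
      cases z <;> simp <;> ring
    · have : ¬ x.1 = b := fun h => hb h.symm
      simp [hb, this]

theorem tot_le (b : Bool) (q : W) : tot b q ≤ q.length := by
  induction q with
  | nil => simp [tot]
  | cons x q ih =>
    have h1 : tot b (x :: q) = (if x.1 = b then sg x.2 else 0) + tot b q := by simp [tot]
    rw [h1, List.length_cons]
    unfold sg
    push_cast
    split_ifs <;> omega

theorem tot_eq_len (b : Bool) (q : W) (h : tot b q = q.length) :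
    q = List.replicate q.length (b, true) := by
  induction q with
  | nil => rfl
  | cons x q ih =>
    have h1 : tot b (x :: q) = (if x.1 = b then sg x.2 else 0) + tot b q := by simp [tot]
    have h2 := tot_le b q
    rw [h1, List.length_cons] at h
    unfold sg at h
    push_cast at h
    have hx : x = (b, true) := by
      rcases x with ⟨x1, x2⟩
      simp only at h
      split_ifs at h with e1 e2
      · rw [e1, e2]
      · omega
      · omega
    subst hx
    simp only [if_true] at h
    rw [List.length_cons, List.replicate_succ, ← ih (by omega)]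

theorem tot_form (b : Bool) (q : W) (h : (q.length : ℤ) ≤ tot b q + 1) :
    q = List.replicate q.length (b, true) ∨
    ∃ j k τ, q = List.replicate j (b, true) ++ (!b, τ) :: List.replicate k (b, true) := by
  induction q with
  | nil => left; rfl
  | cons x q ih =>
    have h1 : tot b (x :: q) = (if x.1 = b then sg x.2 else 0) + tot b q := by simp [tot]
    have h2 := tot_le b q
    rw [h1, List.length_cons] at h
    unfold sg at h
    push_cast at h
    rcases x with ⟨x1, x2⟩
    simp only at h
    split_ifs at h with e1 e2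
    · rw [e1, e2]
      rcases ih (by omega) with h3 | ⟨j, k, τ, h3⟩
      · left; rw [List.length_cons, List.replicate_succ, ← h3]
      · right; exact ⟨j + 1, k, τ, by rw [List.replicate_succ, h3]; rfl⟩
    · omega
    · right
      refine ⟨0, q.length, x2, ?_⟩
      have : x1 = !b := by
        revert e1; cases x1 <;> cases b <;> simp
      rw [← tot_eq_len b q (by omega), this]
      rfl

/-- the geodesic with a single letter of the other axis -/
def v0 (b σ : Bool) (m : ℕ) : W :=
  List.replicate (2 * m) (b, true) ++ (!b, σ) :: List.replicate (2 * m) (b, true)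

theorem evw_cons (x : Bool × Bool) (q : W) : evw lt (x :: q) = lt x * evw lt q := by
  simp [evw]

theorem pr_rep (j : ℕ) (b a : Bool) : pr (evw lt (List.replicate j (b, true))) a =
    decide (a = b ∧ j % 2 = 1) := by
  unfold pr
  rw [ev_rep, ev_rep]
  simp only [sg, if_true, and_true, mul_one]
  by_cases h : a = b
  · simp [h]; omega
  · simp [h]

theorem lt_c (x : Bool × Bool) (e i : Bool) :
    (lt x).c e i = if e = x.1 ∧ i = false then sg x.2 else 0 := rfl

theorem pr_lt (x : Bool × Bool) (a : Bool) : pr (lt x) a = decide (a = x.1) := by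
  unfold pr
  rw [lt_c, lt_c]
  by_cases h : a = x.1
  · subst h
    unfold sg
    rcases x.2 with _ | _ <;> simp
  · simp [h]

theorem form_c (b τ : Bool) (j k : ℕ) :
    (evw lt (List.replicate j (b, true) ++ (!b, τ) :: List.replicate k (b, true))).c b false = j ∧
    (evw lt (List.replicate j (b, true) ++ (!b, τ) :: List.replicate k (b, true))).c b true = k ∧
    (evw lt (List.replicate j (b, true) ++ (!b, τ) :: List.replicate k (b, true))).c (!b) false =
      if j % 2 = 0 then sg τ else 0 := by
  rw [evw_append, evw_cons]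
  refine ⟨?_, ?_, ?_⟩
  · rw [mul_c, mul_c, pr_rep, ev_rep, lt_c, ev_rep, pr_lt]
    simp [sg]
  · rw [mul_c, mul_c, pr_rep, ev_rep, lt_c, ev_rep, pr_lt]
    simp [sg]
  · rw [mul_c, mul_c, pr_rep, ev_rep, lt_c, ev_rep]
    rcases Nat.mod_two_eq_zero_or_one j with h | h <;> simp [h]

theorem v0_unique (b σ : Bool) (m : ℕ) (q : W) (h : evw lt q = evw lt (v0 b σ m))
    (hl : q.length ≤ (v0 b σ m).length) : q = v0 b σ m := by
  obtain ⟨f1, f2, f3⟩ := form_c b σ (2 * m) (2 * m)
  have ht : tot b q = 4 * m := by
    rw [tot_eq, h]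
    unfold v0
    rw [f1, f2]; push_cast; ring
  have hlen : (v0 b σ m).length = 4 * m + 1 := by
    simp [v0]; ring
  rcases tot_form b q (by omega) with h1 | ⟨j, k, τ, h1⟩
  · exfalso
    have h2 : (evw lt q).c (!b) false = (evw lt (v0 b σ m)).c (!b) false := by rw [h]
    rw [h1, ev_rep] at h2
    unfold v0 at h2
    rw [f3] at h2
    simp only [Bool.not_eq_eq_eq_not, Bool.eq_not_self, Bool.not_eq_self, false_and, if_false,
      Nat.mul_mod_right, if_true] at h2
    unfold sg at h2
    split_ifs at h2 <;> omega
  · obtain ⟨g1, g2, g3⟩ := form_c b τ j k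
    have a1 : (evw lt q).c b false = (evw lt (v0 b σ m)).c b false := by rw [h]
    have a2 : (evw lt q).c b true = (evw lt (v0 b σ m)).c b true := by rw [h]
    have a3 : (evw lt q).c (!b) false = (evw lt (v0 b σ m)).c (!b) false := by rw [h]
    unfold v0 at a1 a2 a3
    rw [h1, g1, f1] at a1
    rw [h1, g2, f2] at a2
    rw [h1, g3, f3] at a3
    have hj : j = 2 * m := by exact_mod_cast a1
    have hk : k = 2 * m := by exact_mod_cast a2
    subst hj
    rw [hk] at h1
    simp only [Nat.mul_mod_right, if_true] at a3
    have : τ = σ := by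
      unfold sg at a3
      cases τ <;> cases σ <;> simp at a3 ⊢
    rw [this] at h1
    exact h1

/-- adding the least letter at the end of `v0` is the same as adding it in front -/
theorem v0_comm (b σ : Bool) (m : ℕ) :
    evw lt (v0 b σ m) * lt (!b, σ) = evw lt ((!b, σ) :: v0 b σ m) := by
  obtain ⟨f1, f2, f3⟩ := form_c b σ (2 * m) (2 * m)
  have h4 : (evw lt (v0 b σ m)).c (!b) true = 0 := by
    unfold v0
    rw [evw_append, evw_cons, mul_c, mul_c, pr_rep, ev_rep, lt_c, ev_rep]
    simp
  have f1' : (evw lt (v0 b σ m)).c b false = 2 * m := by unfold v0; rw [f1]; push_cast; rfl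
  have f2' : (evw lt (v0 b σ m)).c b true = 2 * m := by unfold v0; rw [f2]; push_cast; rfl
  have f3' : (evw lt (v0 b σ m)).c (!b) false = sg σ := by unfold v0; rw [f3]; simp
  have hp : pr (evw lt (v0 b σ m)) b = false := by
    unfold pr; rw [f1', f2']; simp
  ext e i
  rw [evw_cons, mul_lt_c, mul_c, lt_c, pr_lt]
  simp only [Bool.not_not, hp]
  by_cases he : e = b
  · subst he
    cases i <;> simp [f1', f2']
  · have he' : e = !b := by revert he; cases e <;> cases b <;> simp
    subst he'
    cases i <;> simp [f3', h4]

theorem v1_len (b σ : Bool) (m : ℕ) (hm : 0 < m) (q : W)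
    (h : evw lt q = evw lt ((!b, σ) :: v0 b σ m)) :
    ((!b, σ) :: v0 b σ m).length ≤ q.length := by
  have hlen : ((!b, σ) :: v0 b σ m).length = 4 * m + 2 := by
    simp [v0]; ring
  rw [hlen]
  refine le_trans ?_ (len_le q)
  obtain ⟨f1, f2, f3⟩ := form_c b σ (2 * m) (2 * m)
  have f1' : (evw lt (v0 b σ m)).c b false = 2 * m := by unfold v0; rw [f1]; push_cast; rfl
  have f2' : (evw lt (v0 b σ m)).c b true = 2 * m := by unfold v0; rw [f2]; push_cast; rfl
  have f3' : (evw lt (v0 b σ m)).c (!b) false = sg σ := by unfold v0; rw [f3]; simp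
  have hp : pr (evw lt (v0 b σ m)) b = false := by
    unfold pr; rw [f1', f2']; simp
  have k1 : (evw lt q).c b false = 2 * m := by
    rw [h, ← v0_comm, mul_lt_c, f1']; simp
  have k2 : (evw lt q).c b true = 2 * m := by
    rw [h, ← v0_comm, mul_lt_c, f2']; simp
  have k3 : (evw lt q).c (!b) false = 2 * sg σ := by
    rw [h, ← v0_comm, mul_lt_c, f3']; simp [hp]; ring
  have hs : sg σ = 1 ∨ sg σ = -1 := by unfold sg; split_ifs <;> simp
  unfold len
  rcases b with _ | _
  · simp only [Bool.not_false] at k3
    rw [k1, k2, k3]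
    omega
  · simp only [Bool.not_true] at k3
    rw [k1, k2, k3]
    omega

end Pool.Agent.H21.Geo
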