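import Pool.Agent.H21.GeoGroup

set_option autoImplicit false

namespace Pool.Agent.H21.Geo

open Pool.Agent.H21.Reg V

abbrev W := List (Bool × Bool)

/-- an entry of the table of base words -/
structure Ent where
  x0 : ℤ
  x1 : ℤ
  y0 : ℤ
  y1 : ℤ
  s1 : W
  s2 : W
  s3 : W

/-- the four letters -/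
abbrev u : Bool × Bool := (false, true)
abbrev U : Bool × Bool := (false, false)
abbrev w : Bool × Bool := (true, true)
abbrev v : Bool × Bool := (true, false)

def len4 (x0 x1 y0 y1 : ℤ) : ℕ := x0.natAbs + x1.natAbs + y0.natAbs + y1.natAbs +
  if (y0 = 0 ∧ y1 = 0 ∧ x1 ≠ 0) ∨ (x0 = 0 ∧ x1 = 0 ∧ y1 ≠ 0) ∨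
     (x0 = 0 ∧ y0 = 0 ∧ (x1 ≠ 0 ∨ y1 ≠ 0)) then 2 else 0

/-- correctness of a table entry -/
def Ent.Ok (t : Ent) : Prop :=
  (evw lt (t.s1 ++ (t.s2 ++ t.s3))).c false false = t.x0 ∧
  (evw lt (t.s1 ++ (t.s2 ++ t.s3))).c false true = t.x1 ∧
  (evw lt (t.s1 ++ (t.s2 ++ t.s3))).c true false = t.y0 ∧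
  (evw lt (t.s1 ++ (t.s2 ++ t.s3))).c true true = t.y1 ∧
  t.s1.length + t.s2.length + t.s3.length = len4 t.x0 t.x1 t.y0 t.y1 ∧
  (t.x1 ≠ 0 → pr (evw lt t.s1) true = true) ∧
  (t.y1 ≠ 0 → pr (evw lt (t.s1 ++ t.s2)) false = true) ∧
  t.s1.length ≤ 4 ∧ t.s2.length ≤ 4 ∧ t.s3.length ≤ 4

instance (t : Ent) : Decidable t.Ok := by unfold Ent.Ok; infer_instance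

def table : List Ent := [
  ⟨-2,-2,-2,-2,[U,U,v],[U,v],[v,U,v]⟩,
  ⟨-2,-2,-2,0,[U,U,v],[],[U,U,v]⟩,
  ⟨-2,-2,-2,2,[U,U,v],[U,w],[w,U,v]⟩,
  ⟨-2,-2,-1,-2,[U,U,v],[U],[v,v,U]⟩,
  ⟨-2,-2,-1,0,[U,U,v],[],[U,U]⟩,
  ⟨-2,-2,-1,2,[U,U,v],[U],[w,w,U]⟩,
  ⟨-2,-2,0,-2,[U,v],[U,U],[v,U]⟩,
  ⟨-2,-2,0,0,[U,U,w],[],[U,U,v]⟩,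
  ⟨-2,-2,0,2,[U,w],[U,U],[w,U]⟩,
  ⟨-2,-2,1,-2,[U,U,w],[U],[v,v,U]⟩,
  ⟨-2,-2,1,0,[U,U,w],[],[U,U]⟩,
  ⟨-2,-2,1,2,[U,U,w],[U],[w,w,U]⟩,
  ⟨-2,-2,2,-2,[U,U,w],[U,v],[v,U,w]⟩,
  ⟨-2,-2,2,0,[U,U,w],[],[U,U,w]⟩,
  ⟨-2,-2,2,2,[U,U,w],[U,w],[w,U,w]⟩,
  ⟨-2,-1,-1,-2,[U,U,v],[U],[v,v]⟩,
  ⟨-2,-1,-1,-1,[U,U,v],[U],[v]⟩,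
  ⟨-2,-1,-1,0,[U,U,v],[],[U]⟩,
  ⟨-2,-1,-1,1,[U,U,v],[U],[w]⟩,
  ⟨-2,-1,-1,2,[U,U,v],[U],[w,w]⟩,
  ⟨-2,-1,1,-2,[U,U,w],[U],[v,v]⟩,
  ⟨-2,-1,1,-1,[U,U,w],[U],[v]⟩,
  ⟨-2,-1,1,0,[U,U,w],[],[U]⟩,
  ⟨-2,-1,1,1,[U,U,w],[U],[w]⟩,
  ⟨-2,-1,1,2,[U,U,w],[U],[w,w]⟩,
  ⟨-2,0,-2,-2,[],[U,v,v],[U,v,v]⟩,
  ⟨-2,0,-2,0,[],[U,U],[v,v]⟩,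
  ⟨-2,0,-2,2,[],[U,w,w],[U,v,v]⟩,
  ⟨-2,0,-1,-2,[U],[v,v],[U,v]⟩,
  ⟨-2,0,-1,0,[U],[U],[v]⟩,
  ⟨-2,0,-1,2,[U],[w,w],[U,v]⟩,
  ⟨-2,0,0,-2,[],[U,v],[v,U]⟩,
  ⟨-2,0,0,0,[],[U],[U]⟩,
  ⟨-2,0,0,2,[],[U,w],[w,U]⟩,
  ⟨-2,0,1,-2,[U],[v,v],[U,w]⟩,
  ⟨-2,0,1,0,[U],[U],[w]⟩,
  ⟨-2,0,1,2,[U],[w,w],[U,w]⟩,
  ⟨-2,0,2,-2,[],[U,v,v],[U,w,w]⟩,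
  ⟨-2,0,2,0,[],[U,U],[w,w]⟩,
  ⟨-2,0,2,2,[],[U,w,w],[U,w,w]⟩,
  ⟨-2,1,-1,-2,[U,U,v],[u],[v,v]⟩,
  ⟨-2,1,-1,-1,[U,U,v],[u],[v]⟩,
  ⟨-2,1,-1,0,[U,U,v],[],[u]⟩,
  ⟨-2,1,-1,1,[U,U,v],[u],[w]⟩,
  ⟨-2,1,-1,2,[U,U,v],[u],[w,w]⟩,
  ⟨-2,1,1,-2,[U,U,w],[u],[v,v]⟩,
  ⟨-2,1,1,-1,[U,U,w],[u],[v]⟩,
  ⟨-2,1,1,0,[U,U,w],[],[u]⟩,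
  ⟨-2,1,1,1,[U,U,w],[u],[w]⟩,
  ⟨-2,1,1,2,[U,U,w],[u],[w,w]⟩,
  ⟨-2,2,-2,-2,[U,U,v],[u,v],[v,u,v]⟩,
  ⟨-2,2,-2,0,[U,U,v],[],[u,u,v]⟩,
  ⟨-2,2,-2,2,[U,U,v],[u,w],[w,u,v]⟩,
  ⟨-2,2,-1,-2,[U,U,v],[u],[v,v,u]⟩,
  ⟨-2,2,-1,0,[U,U,v],[],[u,u]⟩,
  ⟨-2,2,-1,2,[U,U,v],[u],[w,w,u]⟩,
  ⟨-2,2,0,-2,[U,v],[u,u],[v,U]⟩,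
  ⟨-2,2,0,0,[U,U,w],[],[u,u,v]⟩,
  ⟨-2,2,0,2,[U,w],[u,u],[w,U]⟩,
  ⟨-2,2,1,-2,[U,U,w],[u],[v,v,u]⟩,
  ⟨-2,2,1,0,[U,U,w],[],[u,u]⟩,
  ⟨-2,2,1,2,[U,U,w],[u],[w,w,u]⟩,
  ⟨-2,2,2,-2,[U,U,w],[u,v],[v,u,w]⟩,
  ⟨-2,2,2,0,[U,U,w],[],[u,u,w]⟩,
  ⟨-2,2,2,2,[U,U,w],[u,w],[w,u,w]⟩,
  ⟨-1,-2,-2,-2,[U,v,U],[v,v,U],[v]⟩,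
  ⟨-1,-2,-2,-1,[U,v,U],[v,v,U],[]⟩,
  ⟨-1,-2,-2,0,[v],[U,U],[v,U]⟩,
  ⟨-1,-2,-2,1,[U,w,U],[v,v,U],[]⟩,
  ⟨-1,-2,-2,2,[U,w,U],[v,v,U],[w]⟩,
  ⟨-1,-2,0,-2,[U,v],[U,U],[v]⟩,
  ⟨-1,-2,0,-1,[U,v],[],[U,U]⟩,
  ⟨-1,-2,0,0,[U,w],[U],[U,v]⟩,
  ⟨-1,-2,0,1,[U,w],[],[U,U]⟩,
  ⟨-1,-2,0,2,[U,w],[U,U],[w]⟩,
  ⟨-1,-2,2,-2,[U,v,U],[w,w,U],[v]⟩,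
  ⟨-1,-2,2,-1,[U,v,U],[w,w,U],[]⟩,
  ⟨-1,-2,2,0,[w],[U,U],[w,U]⟩,
  ⟨-1,-2,2,1,[U,w,U],[w,w,U],[]⟩,
  ⟨-1,-2,2,2,[U,w,U],[w,w,U],[w]⟩,
  ⟨-1,-1,-2,-1,[U,v],[],[U,v,v]⟩,
  ⟨-1,-1,-2,1,[U,w],[],[U,v,v]⟩,
  ⟨-1,-1,-1,-1,[U,v],[],[U,v]⟩,
  ⟨-1,-1,-1,1,[U,w],[],[U,v]⟩,
  ⟨-1,-1,0,-1,[U,v],[],[U]⟩,
  ⟨-1,-1,0,1,[U,w],[],[U]⟩,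
  ⟨-1,-1,1,-1,[U,v],[],[U,w]⟩,
  ⟨-1,-1,1,1,[U,w],[],[U,w]⟩,
  ⟨-1,-1,2,-1,[U,v],[],[U,w,w]⟩,
  ⟨-1,-1,2,1,[U,w],[],[U,w,w]⟩,
  ⟨-1,0,-2,-2,[v],[v,U],[v,v]⟩,
  ⟨-1,0,-2,-1,[v],[v,U],[v]⟩,
  ⟨-1,0,-2,0,[v],[v],[U]⟩,
  ⟨-1,0,-2,1,[v],[v,U],[w]⟩,
  ⟨-1,0,-2,2,[v],[v,U],[w,w]⟩,
  ⟨-1,0,0,-2,[U],[v],[v]⟩,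
  ⟨-1,0,0,-1,[],[U],[v]⟩,
  ⟨-1,0,0,0,[],[],[U]⟩,
  ⟨-1,0,0,1,[],[U],[w]⟩,
  ⟨-1,0,0,2,[U],[w],[w]⟩,
  ⟨-1,0,2,-2,[w],[w,U],[v,v]⟩,
  ⟨-1,0,2,-1,[w],[w,U],[v]⟩,
  ⟨-1,0,2,0,[w],[w],[U]⟩,
  ⟨-1,0,2,1,[w],[w,U],[w]⟩,
  ⟨-1,0,2,2,[w],[w,U],[w,w]⟩,
  ⟨-1,1,-2,-1,[U,v],[],[u,v,v]⟩,
  ⟨-1,1,-2,1,[U,w],[],[u,v,v]⟩,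
  ⟨-1,1,-1,-1,[U,v],[],[u,v]⟩,
  ⟨-1,1,-1,1,[U,w],[],[u,v]⟩,
  ⟨-1,1,0,-1,[U,v],[],[u]⟩,
  ⟨-1,1,0,1,[U,w],[],[u]⟩,
  ⟨-1,1,1,-1,[U,v],[],[u,w]⟩,
  ⟨-1,1,1,1,[U,w],[],[u,w]⟩,
  ⟨-1,1,2,-1,[U,v],[],[u,w,w]⟩,
  ⟨-1,1,2,1,[U,w],[],[u,w,w]⟩,
  ⟨-1,2,-2,-2,[U,v,u],[v,v,u],[v]⟩,
  ⟨-1,2,-2,-1,[U,v,u],[v,v,u],[]⟩,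
  ⟨-1,2,-2,0,[v],[u,u],[v,U]⟩,
  ⟨-1,2,-2,1,[U,w,u],[v,v,u],[]⟩,
  ⟨-1,2,-2,2,[U,w,u],[v,v,u],[w]⟩,
  ⟨-1,2,0,-2,[U,v],[u,u],[v]⟩,
  ⟨-1,2,0,-1,[U,v],[],[u,u]⟩,
  ⟨-1,2,0,0,[U,w],[u],[u,v]⟩,
  ⟨-1,2,0,1,[U,w],[],[u,u]⟩,
  ⟨-1,2,0,2,[U,w],[u,u],[w]⟩,
  ⟨-1,2,2,-2,[U,v,u],[w,w,u],[v]⟩,
  ⟨-1,2,2,-1,[U,v,u],[w,w,u],[]⟩,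
  ⟨-1,2,2,0,[w],[u,u],[w,U]⟩,
  ⟨-1,2,2,1,[U,w,u],[w,w,u],[]⟩,
  ⟨-1,2,2,2,[U,w,u],[w,w,u],[w]⟩,
  ⟨0,-2,-2,-2,[v,U],[v,v],[U,v]⟩,
  ⟨0,-2,-2,0,[v],[U],[U,v]⟩,
  ⟨0,-2,-2,2,[v,U],[w,w],[U,v]⟩,
  ⟨0,-2,-1,-2,[v],[U,v],[v,U]⟩,
  ⟨0,-2,-1,0,[v],[U],[U]⟩,
  ⟨0,-2,-1,2,[v],[U,w],[w,U]⟩,
  ⟨0,-2,0,-2,[u,v],[U,U],[v,U]⟩,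
  ⟨0,-2,0,0,[w],[U],[U,v]⟩,
  ⟨0,-2,0,2,[u,w],[U,U],[w,U]⟩,
  ⟨0,-2,1,-2,[w],[U,v],[v,U]⟩,
  ⟨0,-2,1,0,[w],[U],[U]⟩,
  ⟨0,-2,1,2,[w],[U,w],[w,U]⟩,
  ⟨0,-2,2,-2,[w,U],[v,v],[U,w]⟩,
  ⟨0,-2,2,0,[w],[U],[U,w]⟩,
  ⟨0,-2,2,2,[w,U],[w,w],[U,w]⟩,
  ⟨0,-1,-1,-2,[v],[U],[v,v]⟩,
  ⟨0,-1,-1,-1,[v],[U],[v]⟩,
  ⟨0,-1,-1,0,[v],[],[U]⟩,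
  ⟨0,-1,-1,1,[v],[U],[w]⟩,
  ⟨0,-1,-1,2,[v],[U],[w,w]⟩,
  ⟨0,-1,1,-2,[w],[U],[v,v]⟩,
  ⟨0,-1,1,-1,[w],[U],[v]⟩,
  ⟨0,-1,1,0,[w],[],[U]⟩,
  ⟨0,-1,1,1,[w],[U],[w]⟩,
  ⟨0,-1,1,2,[w],[U],[w,w]⟩,
  ⟨0,0,-2,-2,[],[u,v,v],[U,v,v]⟩,
  ⟨0,0,-2,0,[],[v],[v]⟩,
  ⟨0,0,-2,2,[],[u,w,w],[U,v,v]⟩,
  ⟨0,0,-1,-2,[u],[v,v],[U,v]⟩,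
  ⟨0,0,-1,0,[],[],[v]⟩,
  ⟨0,0,-1,2,[u],[w,w],[U,v]⟩,
  ⟨0,0,0,-2,[],[u,v],[v,U]⟩,
  ⟨0,0,0,0,[],[],[]⟩,
  ⟨0,0,0,2,[],[u,w],[w,U]⟩,
  ⟨0,0,1,-2,[u],[v,v],[U,w]⟩,
  ⟨0,0,1,0,[],[],[w]⟩,
  ⟨0,0,1,2,[u],[w,w],[U,w]⟩,
  ⟨0,0,2,-2,[],[u,v,v],[U,w,w]⟩,
  ⟨0,0,2,0,[],[w],[w]⟩,
  ⟨0,0,2,2,[],[u,w,w],[U,w,w]⟩,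
  ⟨0,1,-1,-2,[v],[u],[v,v]⟩,
  ⟨0,1,-1,-1,[v],[u],[v]⟩,
  ⟨0,1,-1,0,[v],[],[u]⟩,
  ⟨0,1,-1,1,[v],[u],[w]⟩,
  ⟨0,1,-1,2,[v],[u],[w,w]⟩,
  ⟨0,1,1,-2,[w],[u],[v,v]⟩,
  ⟨0,1,1,-1,[w],[u],[v]⟩,
  ⟨0,1,1,0,[w],[],[u]⟩,
  ⟨0,1,1,1,[w],[u],[w]⟩,
  ⟨0,1,1,2,[w],[u],[w,w]⟩,
  ⟨0,2,-2,-2,[v,u],[v,v],[u,v]⟩,
  ⟨0,2,-2,0,[v],[u],[u,v]⟩,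
  ⟨0,2,-2,2,[v,u],[w,w],[u,v]⟩,
  ⟨0,2,-1,-2,[v],[u,v],[v,u]⟩,
  ⟨0,2,-1,0,[v],[u],[u]⟩,
  ⟨0,2,-1,2,[v],[u,w],[w,u]⟩,
  ⟨0,2,0,-2,[u,v],[u,u],[v,U]⟩,
  ⟨0,2,0,0,[w],[u],[u,v]⟩,
  ⟨0,2,0,2,[u,w],[u,u],[w,U]⟩,
  ⟨0,2,1,-2,[w],[u,v],[v,u]⟩,
  ⟨0,2,1,0,[w],[u],[u]⟩,
  ⟨0,2,1,2,[w],[u,w],[w,u]⟩,
  ⟨0,2,2,-2,[w,u],[v,v],[u,w]⟩,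
  ⟨0,2,2,0,[w],[u],[u,w]⟩,
  ⟨0,2,2,2,[w,u],[w,w],[u,w]⟩,
  ⟨1,-2,-2,-2,[u,v,U],[v,v,U],[v]⟩,
  ⟨1,-2,-2,-1,[u,v,U],[v,v,U],[]⟩,
  ⟨1,-2,-2,0,[v],[U,U],[v,u]⟩,
  ⟨1,-2,-2,1,[u,w,U],[v,v,U],[]⟩,
  ⟨1,-2,-2,2,[u,w,U],[v,v,U],[w]⟩,
  ⟨1,-2,0,-2,[u,v],[U,U],[v]⟩,
  ⟨1,-2,0,-1,[u,v],[],[U,U]⟩,
  ⟨1,-2,0,0,[u,w],[U],[U,v]⟩,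
  ⟨1,-2,0,1,[u,w],[],[U,U]⟩,
  ⟨1,-2,0,2,[u,w],[U,U],[w]⟩,
  ⟨1,-2,2,-2,[u,v,U],[w,w,U],[v]⟩,
  ⟨1,-2,2,-1,[u,v,U],[w,w,U],[]⟩,
  ⟨1,-2,2,0,[w],[U,U],[w,u]⟩,
  ⟨1,-2,2,1,[u,w,U],[w,w,U],[]⟩,
  ⟨1,-2,2,2,[u,w,U],[w,w,U],[w]⟩,
  ⟨1,-1,-2,-1,[u,v],[],[U,v,v]⟩,
  ⟨1,-1,-2,1,[u,w],[],[U,v,v]⟩,
  ⟨1,-1,-1,-1,[u,v],[],[U,v]⟩,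
  ⟨1,-1,-1,1,[u,w],[],[U,v]⟩,
  ⟨1,-1,0,-1,[u,v],[],[U]⟩,
  ⟨1,-1,0,1,[u,w],[],[U]⟩,
  ⟨1,-1,1,-1,[u,v],[],[U,w]⟩,
  ⟨1,-1,1,1,[u,w],[],[U,w]⟩,
  ⟨1,-1,2,-1,[u,v],[],[U,w,w]⟩,
  ⟨1,-1,2,1,[u,w],[],[U,w,w]⟩,
  ⟨1,0,-2,-2,[v],[v,u],[v,v]⟩,
  ⟨1,0,-2,-1,[v],[v,u],[v]⟩,
  ⟨1,0,-2,0,[v],[v],[u]⟩,
  ⟨1,0,-2,1,[v],[v,u],[w]⟩,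
  ⟨1,0,-2,2,[v],[v,u],[w,w]⟩,
  ⟨1,0,0,-2,[u],[v],[v]⟩,
  ⟨1,0,0,-1,[],[u],[v]⟩,
  ⟨1,0,0,0,[],[],[u]⟩,
  ⟨1,0,0,1,[],[u],[w]⟩,
  ⟨1,0,0,2,[u],[w],[w]⟩,
  ⟨1,0,2,-2,[w],[w,u],[v,v]⟩,
  ⟨1,0,2,-1,[w],[w,u],[v]⟩,
  ⟨1,0,2,0,[w],[w],[u]⟩,
  ⟨1,0,2,1,[w],[w,u],[w]⟩,
  ⟨1,0,2,2,[w],[w,u],[w,w]⟩,
  ⟨1,1,-2,-1,[u,v],[],[u,v,v]⟩,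
  ⟨1,1,-2,1,[u,w],[],[u,v,v]⟩,
  ⟨1,1,-1,-1,[u,v],[],[u,v]⟩,
  ⟨1,1,-1,1,[u,w],[],[u,v]⟩,
  ⟨1,1,0,-1,[u,v],[],[u]⟩,
  ⟨1,1,0,1,[u,w],[],[u]⟩,
  ⟨1,1,1,-1,[u,v],[],[u,w]⟩,
  ⟨1,1,1,1,[u,w],[],[u,w]⟩,
  ⟨1,1,2,-1,[u,v],[],[u,w,w]⟩,
  ⟨1,1,2,1,[u,w],[],[u,w,w]⟩,
  ⟨1,2,-2,-2,[u,v,u],[v,v,u],[v]⟩,
  ⟨1,2,-2,-1,[u,v,u],[v,v,u],[]⟩,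
  ⟨1,2,-2,0,[v],[u,u],[v,u]⟩,
  ⟨1,2,-2,1,[u,w,u],[v,v,u],[]⟩,
  ⟨1,2,-2,2,[u,w,u],[v,v,u],[w]⟩,
  ⟨1,2,0,-2,[u,v],[u,u],[v]⟩,
  ⟨1,2,0,-1,[u,v],[],[u,u]⟩,
  ⟨1,2,0,0,[u,w],[u],[u,v]⟩,
  ⟨1,2,0,1,[u,w],[],[u,u]⟩,
  ⟨1,2,0,2,[u,w],[u,u],[w]⟩,
  ⟨1,2,2,-2,[u,v,u],[w,w,u],[v]⟩,
  ⟨1,2,2,-1,[u,v,u],[w,w,u],[]⟩,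
  ⟨1,2,2,0,[w],[u,u],[w,u]⟩,
  ⟨1,2,2,1,[u,w,u],[w,w,u],[]⟩,
  ⟨1,2,2,2,[u,w,u],[w,w,u],[w]⟩,
  ⟨2,-2,-2,-2,[u,u,v],[U,v],[v,U,v]⟩,
  ⟨2,-2,-2,0,[u,u,v],[],[U,U,v]⟩,
  ⟨2,-2,-2,2,[u,u,v],[U,w],[w,U,v]⟩,
  ⟨2,-2,-1,-2,[u,u,v],[U],[v,v,U]⟩,
  ⟨2,-2,-1,0,[u,u,v],[],[U,U]⟩,
  ⟨2,-2,-1,2,[u,u,v],[U],[w,w,U]⟩,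
  ⟨2,-2,0,-2,[u,v],[U,U],[v,u]⟩,
  ⟨2,-2,0,0,[u,u,w],[],[U,U,v]⟩,
  ⟨2,-2,0,2,[u,w],[U,U],[w,u]⟩,
  ⟨2,-2,1,-2,[u,u,w],[U],[v,v,U]⟩,
  ⟨2,-2,1,0,[u,u,w],[],[U,U]⟩,
  ⟨2,-2,1,2,[u,u,w],[U],[w,w,U]⟩,
  ⟨2,-2,2,-2,[u,u,w],[U,v],[v,U,w]⟩,
  ⟨2,-2,2,0,[u,u,w],[],[U,U,w]⟩,
  ⟨2,-2,2,2,[u,u,w],[U,w],[w,U,w]⟩,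
  ⟨2,-1,-1,-2,[u,u,v],[U],[v,v]⟩,
  ⟨2,-1,-1,-1,[u,u,v],[U],[v]⟩,
  ⟨2,-1,-1,0,[u,u,v],[],[U]⟩,
  ⟨2,-1,-1,1,[u,u,v],[U],[w]⟩,
  ⟨2,-1,-1,2,[u,u,v],[U],[w,w]⟩,
  ⟨2,-1,1,-2,[u,u,w],[U],[v,v]⟩,
  ⟨2,-1,1,-1,[u,u,w],[U],[v]⟩,
  ⟨2,-1,1,0,[u,u,w],[],[U]⟩,
  ⟨2,-1,1,1,[u,u,w],[U],[w]⟩,
  ⟨2,-1,1,2,[u,u,w],[U],[w,w]⟩,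
  ⟨2,0,-2,-2,[],[u,v,v],[u,v,v]⟩,
  ⟨2,0,-2,0,[],[u,u],[v,v]⟩,
  ⟨2,0,-2,2,[],[u,w,w],[u,v,v]⟩,
  ⟨2,0,-1,-2,[u],[v,v],[u,v]⟩,
  ⟨2,0,-1,0,[u],[u],[v]⟩,
  ⟨2,0,-1,2,[u],[w,w],[u,v]⟩,
  ⟨2,0,0,-2,[],[u,v],[v,u]⟩,
  ⟨2,0,0,0,[],[u],[u]⟩,
  ⟨2,0,0,2,[],[u,w],[w,u]⟩,
  ⟨2,0,1,-2,[u],[v,v],[u,w]⟩,
  ⟨2,0,1,0,[u],[u],[w]⟩,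
  ⟨2,0,1,2,[u],[w,w],[u,w]⟩,
  ⟨2,0,2,-2,[],[u,v,v],[u,w,w]⟩,
  ⟨2,0,2,0,[],[u,u],[w,w]⟩,
  ⟨2,0,2,2,[],[u,w,w],[u,w,w]⟩,
  ⟨2,1,-1,-2,[u,u,v],[u],[v,v]⟩,
  ⟨2,1,-1,-1,[u,u,v],[u],[v]⟩,
  ⟨2,1,-1,0,[u,u,v],[],[u]⟩,
  ⟨2,1,-1,1,[u,u,v],[u],[w]⟩,
  ⟨2,1,-1,2,[u,u,v],[u],[w,w]⟩,
  ⟨2,1,1,-2,[u,u,w],[u],[v,v]⟩,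
  ⟨2,1,1,-1,[u,u,w],[u],[v]⟩,
  ⟨2,1,1,0,[u,u,w],[],[u]⟩,
  ⟨2,1,1,1,[u,u,w],[u],[w]⟩,
  ⟨2,1,1,2,[u,u,w],[u],[w,w]⟩,
  ⟨2,2,-2,-2,[u,u,v],[u,v],[v,u,v]⟩,
  ⟨2,2,-2,0,[u,u,v],[],[u,u,v]⟩,
  ⟨2,2,-2,2,[u,u,v],[u,w],[w,u,v]⟩,
  ⟨2,2,-1,-2,[u,u,v],[u],[v,v,u]⟩,
  ⟨2,2,-1,0,[u,u,v],[],[u,u]⟩,
  ⟨2,2,-1,2,[u,u,v],[u],[w,w,u]⟩,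
  ⟨2,2,0,-2,[u,v],[u,u],[v,u]⟩,
  ⟨2,2,0,0,[u,u,w],[],[u,u,v]⟩,
  ⟨2,2,0,2,[u,w],[u,u],[w,u]⟩,
  ⟨2,2,1,-2,[u,u,w],[u],[v,v,u]⟩,
  ⟨2,2,1,0,[u,u,w],[],[u,u]⟩,
  ⟨2,2,1,2,[u,u,w],[u],[w,w,u]⟩,
  ⟨2,2,2,-2,[u,u,w],[u,v],[v,u,w]⟩,
  ⟨2,2,2,0,[u,u,w],[],[u,u,w]⟩,
  ⟨2,2,2,2,[u,u,w],[u,w],[w,u,w]⟩]

def box : List ℤ := [-2, -1, 0, 1, 2]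

def keys : List (ℤ × ℤ × ℤ × ℤ) :=
  (box.flatMap fun x0 => box.flatMap fun x1 => box.flatMap fun y0 => box.map fun y1 =>
    (x0, x1, y0, y1)).filter fun z => (z.2.1 + z.2.2.2 + (z.1 + z.2.1) * (z.2.2.1 + z.2.2.2)) % 2 = 0

theorem table_keys : table.map (fun t => (t.x0, t.x1, t.y0, t.y1)) = keys := by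
  decide +kernel

theorem table_ok : ∀ t ∈ table, t.Ok := by
  decide +kernel

end Pool.Agent.H21.Geo
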