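import Pool.Agent.H21.GeoMain

set_option autoImplicit false

namespace Pool.Agent.H21.Geo

open Pool.Agent.H21.Reg V

theorem cl_zero (t : ℕ) : cl t 0 = 0 := by unfold cl; omega

/-- position after `n` letters -/
def ps (P : W) (n : ℕ) (b i : Bool) : ℤ := (evw lt (P.take n)).c b i

theorem track {t : Ent} (ht : t.Ok) {a b c d : ℤ} (hc : SC t.x1 c) (hd : SC t.y1 d) (n : ℕ) :
    ∃ l3 l5 : ℕ, l3 ≤ 4 ∧ l5 ≤ 8 ∧
    |ps (wd t a b c d) n false false - cl n (2 * a)| ≤ 12 ∧
    |ps (wd t a b c d) n false true -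
      cl (n - (2 * a.natAbs + 2 * b.natAbs + l3)) (2 * c)| ≤ 12 ∧
    |ps (wd t a b c d) n true false - cl (n - 2 * a.natAbs) (2 * b)| ≤ 12 ∧
    |ps (wd t a b c d) n true true -
      cl (n - (2 * a.natAbs + 2 * b.natAbs + 2 * c.natAbs + l5)) (2 * d)| ≤ 12 := by
  obtain ⟨-, -, -, -, -, e5, e6, k1, k2, k3⟩ := ht
  refine ⟨t.s1.length, t.s1.length + t.s2.length, k1, by omega, ?_⟩
  set P1 := blk false a ++ blk true b with hP1
  set P3 := (P1 ++ t.s1) ++ blk false c with hP3
  set P5 := (P3 ++ t.s2) ++ blk true d with hP5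
  have hw : wd t a b c d = P5 ++ t.s3 := rfl
  have h0 : Sh 1 1 (fun _ _ => 0) := by intro b i; simp
  have h1 := (h0.blk false a).blk true b
  have h2 := h1.mul (evw lt t.s1)
  have h3 := (h2.blk false c).mul (evw lt t.s2)
  have q2 : pr (evw lt (P1 ++ t.s1)) true = pr (evw lt t.s1) true := by
    have := h2.pr true
    simp only [one_mul, ← evw_append] at this
    exact this
  have q4 : pr (evw lt (P3 ++ t.s2)) false = pr (evw lt (t.s1 ++ t.s2)) false := by
    have := h3.pr false
    simp only [one_mul, ← evw_append] at this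
    exact this
  have q1 : pr (evw lt (blk false a)) false = false := by
    have := (h0.blk false a).pr false
    simp only [one_mul, pr_one] at this
    exact this
  have t0 : ∀ e i, ps (blk false a) n e i =
      if e = false ∧ i = false then cl n (2 * a) else 0 := by
    intro e i
    have := pos_blk [] false a n e i
    simp only [List.nil_append, List.take_nil, List.length_nil, Nat.sub_zero] at this
    unfold ps
    rw [this]
    have h1' : evw lt ([] : W) = 1 := rfl
    rw [h1', one_c, Bool.not_false, pr_one, zero_add]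
  have t1 : ∀ e i, ps P1 n e i = ps (blk false a) n e i +
      if e = true ∧ i = false then cl (n - 2 * a.natAbs) (2 * b) else 0 := by
    intro e i
    have := pos_blk (blk false a) true b n e i
    rw [Bool.not_true, q1, blk_length] at this
    exact this
  have t2 : ∀ e i, |ps (P1 ++ t.s1) n e i - ps P1 n e i| ≤ 4 := fun e i =>
    (pos_short P1 t.s1 n e i).trans (by exact_mod_cast k1)
  have t3 : ∀ e i, ps P3 n e i = ps (P1 ++ t.s1) n e i +
      if e = false ∧ i = pr (evw lt t.s1) true then
        cl (n - (2 * a.natAbs + 2 * b.natAbs + t.s1.length)) (2 * c) else 0 := by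
    intro e i
    have := pos_blk (P1 ++ t.s1) false c n e i
    rw [Bool.not_false, q2] at this
    simp only [hP1, List.length_append, blk_length] at this
    exact this
  have t4 : ∀ e i, |ps (P3 ++ t.s2) n e i - ps P3 n e i| ≤ 4 := fun e i =>
    (pos_short P3 t.s2 n e i).trans (by exact_mod_cast k2)
  have t5 : ∀ e i, ps P5 n e i = ps (P3 ++ t.s2) n e i +
      if e = true ∧ i = pr (evw lt (t.s1 ++ t.s2)) false then
        cl (n - (2 * a.natAbs + 2 * b.natAbs + 2 * c.natAbs + (t.s1.length + t.s2.length)))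
          (2 * d) else 0 := by
    intro e i
    have := pos_blk (P3 ++ t.s2) true d n e i
    rw [Bool.not_true, q4] at this
    simp only [hP3, hP1, List.length_append, blk_length] at this
    rw [show 2 * a.natAbs + 2 * b.natAbs + t.s1.length + 2 * c.natAbs + t.s2.length =
      2 * a.natAbs + 2 * b.natAbs + 2 * c.natAbs + (t.s1.length + t.s2.length) by ring] at this
    exact this
  have t6 : ∀ e i, |ps (P5 ++ t.s3) n e i - ps P5 n e i| ≤ 4 := fun e i =>
    (pos_short P5 t.s3 n e i).trans (by exact_mod_cast k3)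
  have dc : ∀ m, (pr (evw lt t.s1) true = true) ∨ cl m (2 * c) = 0 := by
    intro m
    by_cases hx : t.x1 = 0
    · right
      have : c = 0 := by unfold SC at hc; omega
      subst this; simpa using cl_zero m
    · exact Or.inl (e5 hx)
  have dd : ∀ m, (pr (evw lt (t.s1 ++ t.s2)) false = true) ∨ cl m (2 * d) = 0 := by
    intro m
    by_cases hx : t.y1 = 0
    · right
      have : d = 0 := by unfold SC at hd; omega
      subst this; simpa using cl_zero m
    · exact Or.inl (e6 hx)
  have dc' := dc (n - (2 * a.natAbs + 2 * b.natAbs + t.s1.length))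
  have dd' := dd (n - (2 * a.natAbs + 2 * b.natAbs + 2 * c.natAbs +
    (t.s1.length + t.s2.length)))
  rw [hw]
  simp only [abs_le] at t2 t4 t6 ⊢
  refine ⟨?_, ?_, ?_, ?_⟩
  · have a0 := t0 false false
    have a1 := t1 false false
    have a2 := t2 false false
    have a3 := t3 false false
    have a4 := t4 false false
    have a5 := t5 false false
    have a6 := t6 false false
    rcases dc' with h | h <;> rw [h] at a3 <;> simp at a0 a1 a3 a5 <;> omega
  · have a0 := t0 false true
    have a1 := t1 false true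
    have a2 := t2 false true
    have a3 := t3 false true
    have a4 := t4 false true
    have a5 := t5 false true
    have a6 := t6 false true
    rcases dc' with h | h <;> rw [h] at a3 <;> simp at a0 a1 a3 a5 <;> omega
  · have a0 := t0 true false
    have a1 := t1 true false
    have a2 := t2 true false
    have a3 := t3 true false
    have a4 := t4 true false
    have a5 := t5 true false
    have a6 := t6 true false
    rcases dd' with h | h <;> rw [h] at a5 <;> simp at a0 a1 a3 a5 <;> omega
  · have a0 := t0 true true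
    have a1 := t1 true true
    have a2 := t2 true true
    have a3 := t3 true true
    have a4 := t4 true true
    have a5 := t5 true true
    have a6 := t6 true true
    rcases dd' with h | h <;> rw [h] at a5 <;> simp at a0 a1 a3 a5 <;> omega

theorem cl_lip (s t : ℕ) (x y : ℤ) (m k : ℤ) (h1 : |(s : ℤ) - t| ≤ m) (h2 : |x - y| ≤ k) :
    |cl s x - cl t y| ≤ m + k := by
  unfold cl
  simp only [abs_le] at *
  omega

theorem near {p q : W} (hp : p ∈ Lg) (hq : q ∈ Lg)
    (h : ∀ e i, |(evw lt p).c e i - (evw lt q).c e i| ≤ 1) (n : ℕ) (e i : Bool) :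
    |ps p n e i - ps q n e i| ≤ 60 := by
  obtain ⟨t, ht, a, b, c, d, ha, hb, hc, hd, rfl⟩ := hp
  obtain ⟨t', ht', a', b', c', d', ha', hb', hc', hd', rfl⟩ := hq
  have ok := table_ok t ht
  have ok' := table_ok t' ht'
  have hbox : ∀ t ∈ table, |t.x0| ≤ 2 ∧ |t.x1| ≤ 2 ∧ |t.y0| ≤ 2 ∧ |t.y1| ≤ 2 := by
    decide +kernel
  obtain ⟨z1, z2, z3, z4⟩ := hbox t ht
  obtain ⟨z1', z2', z3', z4'⟩ := hbox t' ht'
  obtain ⟨v1, v2, v3, v4⟩ := wd_val ok (a := a) (b := b) hc hd
  obtain ⟨v1', v2', v3', v4'⟩ := wd_val ok' (a := a') (b := b') hc' hd'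
  have g1 := h false false
  have g2 := h false true
  have g3 := h true false
  have g4 := h true true
  rw [v1, v1'] at g1
  rw [v2, v2'] at g2
  rw [v3, v3'] at g3
  rw [v4, v4'] at g4
  have f1 : |2 * a - 2 * a'| ≤ 5 := by simp only [abs_le] at *; omega
  have f2 : |2 * c - 2 * c'| ≤ 5 := by simp only [abs_le] at *; omega
  have f3 : |2 * b - 2 * b'| ≤ 5 := by simp only [abs_le] at *; omega
  have f4 : |2 * d - 2 * d'| ≤ 5 := by simp only [abs_le] at *; omega
  obtain ⟨l3, l5, m3, m5, t1, t2, t3, t4⟩ := track ok (a := a) (b := b) hc hd n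
  obtain ⟨l3', l5', m3', m5', t1', t2', t3', t4'⟩ := track ok' (a := a') (b := b') hc' hd' n
  have c1 := cl_lip n n (2 * a) (2 * a') 0 5 (by simp) f1
  have c2 := cl_lip (n - (2 * a.natAbs + 2 * b.natAbs + l3))
    (n - (2 * a'.natAbs + 2 * b'.natAbs + l3')) (2 * c) (2 * c') 14 5
    (by simp only [abs_le] at *; omega) f2
  have c3 := cl_lip (n - 2 * a.natAbs) (n - 2 * a'.natAbs) (2 * b) (2 * b') 5 5
    (by simp only [abs_le] at *; omega) f3
  have c4 := cl_lip (n - (2 * a.natAbs + 2 * b.natAbs + 2 * c.natAbs + l5))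
    (n - (2 * a'.natAbs + 2 * b'.natAbs + 2 * c'.natAbs + l5')) (2 * d) (2 * d') 23 5
    (by simp only [abs_le] at *; omega) f4
  simp only [abs_le] at c1 c2 c3 c4 t1 t2 t3 t4 t1' t2' t3' t4' ⊢
  cases e <;> cases i
  · omega
  · omega
  · omega
  · omega

/-- the finite set of differences -/
def Bd : Set V := {g | ∀ e i, |g.c e i| ≤ 60}

theorem Bd_finite : Bd.Finite := by
  have h : Set.InjOn (fun g : V => g.c) Bd := by
    intro g _ h _ he
    ext e i
    exact congrFun (congrFun he e) i
  refine Set.Finite.of_finite_image (f := fun g : V => g.c) ?_ h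
  refine (Set.Finite.pi (t := fun _ : Bool => Set.pi Set.univ (fun _ : Bool => Set.Icc (-60 : ℤ) 60))
    (fun _ => Set.Finite.pi (fun _ => Set.finite_Icc _ _))).subset ?_
  rintro _ ⟨g, hg, rfl⟩
  intro e _ i _
  have := hg e i
  rw [abs_le] at this
  exact this

theorem diff_mem {p q : W} (hp : p ∈ Lg) (hq : q ∈ Lg)
    (h : ∀ e i, |(evw lt p).c e i - (evw lt q).c e i| ≤ 1) (n : ℕ) :
    (evw lt (p.take n))⁻¹ * evw lt (q.take n) ∈ Bd := by
  intro e i
  rw [mul_c, inv_c, pr_inv]
  have := near hq hp (fun e i => by rw [abs_sub_comm]; exact h e i) n e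
    (xor i (pr (evw lt (p.take n)) (!e)))
  unfold ps at this
  rw [neg_add_eq_sub]
  exact this

end Pool.Agent.H21.Geo
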