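import Mathlib

open Filter Topology Polynomial

namespace Pool.Agent.H21.Hyper

section alg
variable {𝕂 : Type*} [Field 𝕂] {V : Type*} [AddCommGroup V] [Module 𝕂 V]

lemma span_inv (A : V →ₗ[𝕂] V) (v : V) (N : ℕ)
    (hN : (A ^ N) v ∈ Submodule.span 𝕂 (Set.range fun j : Fin N => (A ^ (j : ℕ)) v)) :
    ∀ n, (A ^ n) v ∈ Submodule.span 𝕂 (Set.range fun j : Fin N => (A ^ (j : ℕ)) v) := by
  set S := Submodule.span 𝕂 (Set.range fun j : Fin N => (A ^ (j : ℕ)) v) with hS
  have hgen : ∀ j, j < N → (A ^ j) v ∈ S := fun j hj => Submodule.subset_span ⟨⟨j, hj⟩, rfl⟩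
  have hinv : ∀ w ∈ S, A w ∈ S := by
    intro w hw
    have : S ≤ S.comap A := by
      rw [hS, Submodule.span_le]
      rintro _ ⟨j, rfl⟩
      simp only [Submodule.comap_coe, Set.mem_preimage, SetLike.mem_coe]
      have h1 : A ((A ^ (j : ℕ)) v) = (A ^ ((j : ℕ) + 1)) v := by
        rw [pow_succ']; rfl
      rw [h1]
      rcases Nat.lt_or_ge ((j : ℕ) + 1) N with h | h
      · exact hgen _ h
      · have : (j : ℕ) + 1 = N := le_antisymm j.2 h
        rw [this]; exact hN
    exact this hw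
  intro n
  induction n with
  | zero =>
    rcases Nat.eq_zero_or_pos N with h | h
    · rw [h] at hN; exact hN
    · exact hgen 0 h
  | succ n ih =>
    rw [pow_succ']
    exact hinv _ ih

end alg

section findim
variable {𝕂 : Type*} [RCLike 𝕂] {V : Type*} [AddCommGroup V] [Module 𝕂 V] [TopologicalSpace V]
  [IsTopologicalAddGroup V] [ContinuousSMul 𝕂 V] [T2Space V]

lemma span_eq_top_of_dense (A : V →ₗ[𝕂] V) (v : V)
    (hd : Dense (Set.range fun n : ℕ => (A ^ n) v)) (N : ℕ)
    (hN : (A ^ N) v ∈ Submodule.span 𝕂 (Set.range fun j : Fin N => (A ^ (j : ℕ)) v)) :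
    Submodule.span 𝕂 (Set.range fun j : Fin N => (A ^ (j : ℕ)) v) = ⊤ := by
  set S := Submodule.span 𝕂 (Set.range fun j : Fin N => (A ^ (j : ℕ)) v) with hS
  haveI : FiniteDimensional 𝕂 S := FiniteDimensional.span_of_finite 𝕂 (Set.finite_range _)
  have hcl : IsClosed (S : Set V) := Submodule.closed_of_finiteDimensional S
  rw [eq_top_iff]
  intro w _
  have h1 : w ∈ closure (Set.range fun n : ℕ => (A ^ n) v) := hd w
  have h2 : closure (Set.range fun n : ℕ => (A ^ n) v) ⊆ (S : Set V) := by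
    apply closure_minimal _ hcl
    rintro _ ⟨n, rfl⟩
    exact span_inv A v N hN n
  exact h2 h1

lemma no_findim [FiniteDimensional 𝕂 V] [Nontrivial V] (A : V →ₗ[𝕂] V) (v : V)
    (hd : Dense (Set.range fun n : ℕ => (A ^ n) v)) : False := by
  set N := Module.finrank 𝕂 V with hNdef
  have hNpos : 0 < N := Module.finrank_pos
  have hN : (A ^ N) v ∈ Submodule.span 𝕂 (Set.range fun j : Fin N => (A ^ (j : ℕ)) v) := by
    have h := LinearMap.aeval_self_charpoly A
    have hm := A.charpoly_monic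
    have hdeg : A.charpoly.natDegree = N := A.charpoly_natDegree
    rw [hm.as_sum, hdeg] at h
    have h2 : (A ^ N) v + ∑ i ∈ Finset.range N, A.charpoly.coeff i • (A ^ i) v = 0 := by
      have := congrArg (fun B : V →ₗ[𝕂] V => B v) h
      simpa [map_add, map_sum, LinearMap.sum_apply, Module.algebraMap_end_apply] using this
    rw [add_eq_zero_iff_eq_neg] at h2
    rw [h2]
    apply Submodule.neg_mem
    apply Submodule.sum_mem
    intro i hi
    apply Submodule.smul_mem
    exact Submodule.subset_span ⟨⟨i, Finset.mem_range.1 hi⟩, rfl⟩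
  have htop := span_eq_top_of_dense A v hd N hN
  have hli : LinearIndependent 𝕂 (fun j : Fin N => (A ^ (j : ℕ)) v) :=
    linearIndependent_of_top_le_span_of_card_eq_finrank htop.ge (by simp [hNdef])
  let b : Module.Basis (Fin N) 𝕂 V := Module.finBasis 𝕂 V
  let Mx : V → Matrix (Fin N) (Fin N) 𝕂 := fun w => Matrix.of fun i j => b.repr ((A ^ (j : ℕ)) w) i
  let δ : V → 𝕂 := fun w => (Mx w).det
  have hcont : Continuous δ := by
    apply Continuous.matrix_det
    apply continuous_matrix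
    intro i j
    have h1 : Continuous (fun w => (b.coord i ∘ₗ (A ^ (j : ℕ))) w) :=
      LinearMap.continuous_of_finiteDimensional _
    exact h1
  have hδA : ∀ w, δ (A w) = LinearMap.det A * δ w := by
    intro w
    have : Mx (A w) = LinearMap.toMatrix b b A * Mx w := by
      ext i j
      have h1 : (A ^ (j : ℕ)) (A w) = A ((A ^ (j : ℕ)) w) := by
        rw [← Module.End.mul_apply, ← Module.End.mul_apply, ← pow_succ, ← pow_succ']
      simp only [Mx, Matrix.of_apply, Matrix.mul_apply]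
      rw [h1]
      have h2 := congrFun (LinearMap.toMatrix_mulVec_repr b b A ((A ^ (j : ℕ)) w)) i
      rw [← h2]
      rfl
    simp only [δ]
    rw [this, Matrix.det_mul, LinearMap.det_toMatrix]
  have hδpow : ∀ n, δ ((A ^ n) v) = (LinearMap.det A) ^ n * δ v := by
    intro n
    induction n with
    | zero => simp
    | succ n ih =>
      have : (A ^ (n + 1)) v = A ((A ^ n) v) := by rw [pow_succ']; rfl
      rw [this, hδA, ih, pow_succ']; ring
  have hδv : δ v ≠ 0 := by
    have := (Module.Basis.is_basis_iff_det b (v := fun j : Fin N => (A ^ (j : ℕ)) v)).1 ⟨hli, htop⟩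
    rw [Module.Basis.det_apply] at this
    exact this.ne_zero
  have hδsmul : ∀ t : 𝕂, δ (t • v) = t ^ N * δ v := by
    intro t
    have : Mx (t • v) = t • Mx v := by
      ext i j
      simp [Mx]
    simp only [δ]
    rw [this, Matrix.det_smul]
    simp
  have hpos : 0 < ‖δ v‖ := norm_pos_iff.2 hδv
  rcases le_or_gt 1 ‖LinearMap.det A‖ with h1 | h1
  · have hopen : IsOpen {w | ‖δ w‖ < ‖δ v‖} := isOpen_lt hcont.norm continuous_const
    have hne : (((1 / 2 : ℝ) : 𝕂) • v) ∈ {w | ‖δ w‖ < ‖δ v‖} := by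
      simp only [Set.mem_setOf_eq]
      rw [hδsmul, norm_mul, norm_pow, RCLike.norm_ofReal]
      have : |(1 / 2 : ℝ)| ^ N < 1 := by
        rw [abs_of_pos (by norm_num)]
        exact pow_lt_one₀ (by norm_num) (by norm_num) hNpos.ne'
      nlinarith
    obtain ⟨w, hw, ⟨n, rfl⟩⟩ := hd.inter_open_nonempty _ hopen ⟨_, hne⟩
    simp only [Set.mem_setOf_eq] at hw
    rw [hδpow, norm_mul, norm_pow] at hw
    have : 1 ≤ ‖LinearMap.det A‖ ^ n := one_le_pow₀ h1
    nlinarith
  · have hopen : IsOpen {w | ‖δ v‖ < ‖δ w‖} := isOpen_lt continuous_const hcont.norm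
    have hne : (((2 : ℝ) : 𝕂) • v) ∈ {w | ‖δ v‖ < ‖δ w‖} := by
      simp only [Set.mem_setOf_eq]
      rw [hδsmul, norm_mul, norm_pow, RCLike.norm_ofReal]
      have : 1 < |(2 : ℝ)| ^ N := by
        rw [abs_of_pos (by norm_num)]
        exact one_lt_pow₀ (by norm_num) hNpos.ne'
      nlinarith
    obtain ⟨w, hw, ⟨n, rfl⟩⟩ := hd.inter_open_nonempty _ hopen ⟨_, hne⟩
    simp only [Set.mem_setOf_eq] at hw
    rw [hδpow, norm_mul, norm_pow] at hw
    have : ‖LinearMap.det A‖ ^ n ≤ 1 := pow_le_one₀ (norm_nonneg _) h1.le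
    nlinarith

end findim

section poly
variable {𝕂 : Type*} [RCLike 𝕂] {X : Type*} [AddCommGroup X] [Module 𝕂 X] [TopologicalSpace X]
  [IsTopologicalAddGroup X] [ContinuousSMul 𝕂 X]

lemma aeval_apply_sum (A : X →ₗ[𝕂] X) (p : 𝕂[X]) (y : X) :
    (aeval A p) y = ∑ i ∈ Finset.range (p.natDegree + 1), p.coeff i • (A ^ i) y := by
  rw [aeval_eq_sum_range, LinearMap.sum_apply]
  simp

lemma pow_continuous (T : X →L[𝕂] X) (n : ℕ) : Continuous (((T : X →ₗ[𝕂] X) ^ n : X →ₗ[𝕂] X)) := by
  induction n with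
  | zero =>
    have : ⇑((T : X →ₗ[𝕂] X) ^ 0) = (id : X → X) := by ext y; simp
    rw [this]; exact continuous_id
  | succ n ih =>
    rw [pow_succ']
    exact T.continuous.comp ih

lemma aeval_continuous (T : X →L[𝕂] X) (p : 𝕂[X]) : Continuous (aeval (T : X →ₗ[𝕂] X) p) := by
  have : ⇑(aeval (T : X →ₗ[𝕂] X) p) = fun y =>
      ∑ i ∈ Finset.range (p.natDegree + 1), p.coeff i • ((T : X →ₗ[𝕂] X) ^ i) y := by
    funext y; exact aeval_apply_sum _ p y
  rw [this]
  exact continuous_finset_sum _ (fun i _ => (pow_continuous T i).const_smul _)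

lemma poly_dense (T : X →L[𝕂] X) (x : X)
    (hx : Dense (Set.range fun n : ℕ => ((T : X →ₗ[𝕂] X) ^ n) x)) (p : 𝕂[X]) (hp : p ≠ 0) :
    DenseRange (aeval (T : X →ₗ[𝕂] X) p) := by
  set T' : X →ₗ[𝕂] X := (T : X →ₗ[𝕂] X) with hT'
  set R : Submodule 𝕂 X := LinearMap.range (aeval T' p) with hR
  set L : Submodule 𝕂 X := R.topologicalClosure with hL
  by_contra hcon
  have hLtop : L ≠ ⊤ := by
    intro h
    apply hcon
    intro y
    have : y ∈ L := by rw [h]; trivial
    have h2 : (y : X) ∈ closure (R : Set X) := by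
      rw [← Submodule.topologicalClosure_coe]; exact this
    rw [hR, LinearMap.coe_range] at h2
    exact h2
  have hLclosed : IsClosed (L : Set X) := Submodule.isClosed_topologicalClosure R
  haveI : IsClosed (L : Set X) := hLclosed
  haveI : T3Space (X ⧸ L) := Submodule.t3_quotient_of_isClosed L
  have hinv : L ≤ L.comap T' := by
    apply Submodule.topologicalClosure_minimal
    · rintro _ ⟨y, rfl⟩
      rw [Submodule.mem_comap]
      apply Submodule.le_topologicalClosure
      refine ⟨T' y, ?_⟩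
      have : Commute (aeval T' p) T' := by
        have h1 : Commute (aeval T' p) (aeval T' (Polynomial.X : 𝕂[X])) := by
          rw [Commute, SemiconjBy, ← map_mul, ← map_mul, mul_comm]
        rwa [aeval_X] at h1
      have h2 := congrArg (fun B : X →ₗ[𝕂] X => B y) this.eq
      exact h2
    · exact hLclosed.preimage T.continuous
  let A : (X ⧸ L) →ₗ[𝕂] (X ⧸ L) := L.mapQ L T' hinv
  have hApow : ∀ n y, (A ^ n) (L.mkQ y) = L.mkQ ((T' ^ n) y) := by
    intro n
    induction n with
    | zero => intro y; rfl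
    | succ n ih =>
      intro y
      rw [pow_succ, pow_succ, Module.End.mul_apply, Module.End.mul_apply]
      have : A (L.mkQ y) = L.mkQ (T' y) := rfl
      rw [this, ih]
  have hdense : Dense (Set.range fun n : ℕ => (A ^ n) (L.mkQ x)) := by
    have h1 : Dense (L.mkQ '' (Set.range fun n : ℕ => (T' ^ n) x)) :=
      (Function.Surjective.denseRange L.mkQ_surjective).dense_image continuous_quot_mk hx
    have h2 : (L.mkQ '' (Set.range fun n : ℕ => (T' ^ n) x)) =
        Set.range fun n : ℕ => (A ^ n) (L.mkQ x) := by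
      rw [← Set.range_comp]
      congr 1
      funext n
      exact (hApow n x).symm
    rwa [h2] at h1
  have hzero : ∑ i ∈ Finset.range (p.natDegree + 1), p.coeff i • (A ^ i) (L.mkQ x) = 0 := by
    have h1 : L.mkQ ((aeval T' p) x) = 0 := by
      rw [Submodule.mkQ_apply, Submodule.Quotient.mk_eq_zero]
      exact Submodule.le_topologicalClosure _ ⟨x, rfl⟩
    rw [aeval_apply_sum, map_sum] at h1
    rw [← h1]
    refine Finset.sum_congr rfl (fun i _ => ?_)
    rw [hApow, map_smul]
  have hN : (A ^ p.natDegree) (L.mkQ x) ∈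
      Submodule.span 𝕂 (Set.range fun j : Fin p.natDegree => (A ^ (j : ℕ)) (L.mkQ x)) := by
    rw [Finset.sum_range_succ] at hzero
    have hlc : p.coeff p.natDegree ≠ 0 := by
      rw [coeff_natDegree]; exact leadingCoeff_ne_zero.2 hp
    have h2 : (A ^ p.natDegree) (L.mkQ x) = (p.coeff p.natDegree)⁻¹ •
        (-(∑ i ∈ Finset.range p.natDegree, p.coeff i • (A ^ i) (L.mkQ x))) := by
      rw [eq_inv_smul_iff₀ hlc]
      rw [add_comm] at hzero
      exact eq_neg_of_add_eq_zero_left hzero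
    rw [h2]
    apply Submodule.smul_mem
    apply Submodule.neg_mem
    apply Submodule.sum_mem
    intro i hi
    apply Submodule.smul_mem
    exact Submodule.subset_span ⟨⟨i, Finset.mem_range.1 hi⟩, rfl⟩
  have htop := span_eq_top_of_dense A (L.mkQ x) hdense _ hN
  haveI : FiniteDimensional 𝕂 (X ⧸ L) := by
    haveI h1 : FiniteDimensional 𝕂 (Submodule.span 𝕂
        (Set.range fun j : Fin p.natDegree => (A ^ (j : ℕ)) (L.mkQ x))) :=
      FiniteDimensional.span_of_finite 𝕂 (Set.finite_range _)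
    rw [htop] at h1
    exact Module.finite_def.2 (Module.finite_def.1 (Module.Finite.equiv Submodule.topEquiv))
  haveI : Nontrivial (X ⧸ L) := Submodule.Quotient.nontrivial_iff.2 hLtop
  exact no_findim A (L.mkQ x) hdense

lemma poly_hyper (T : X →L[𝕂] X) (x : X)
    (hx : Dense (Set.range fun n : ℕ => ((T : X →ₗ[𝕂] X) ^ n) x)) (p : 𝕂[X]) (hp : p ≠ 0) :
    Dense (Set.range fun n : ℕ => ((T : X →ₗ[𝕂] X) ^ n) ((aeval (T : X →ₗ[𝕂] X) p) x)) := by
  have h1 := (poly_dense T x hx p hp).dense_image (aeval_continuous T p) hx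
  have h2 : ((aeval (T : X →ₗ[𝕂] X) p) '' (Set.range fun n : ℕ => ((T : X →ₗ[𝕂] X) ^ n) x)) =
      Set.range fun n : ℕ => ((T : X →ₗ[𝕂] X) ^ n) ((aeval (T : X →ₗ[𝕂] X) p) x) := by
    rw [← Set.range_comp]
    congr 1
    funext n
    have h1 : Commute (aeval (T : X →ₗ[𝕂] X) p) (aeval (T : X →ₗ[𝕂] X) (Polynomial.X ^ n : 𝕂[X])) := by
      rw [Commute, SemiconjBy, ← map_mul, ← map_mul, mul_comm]
    rw [aeval_X_pow] at h1
    exact congrArg (fun B : X →ₗ[𝕂] X => B x) h1.eq
  rwa [h2] at h1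

end poly

end Pool.Agent.H21.Hyper
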