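import Pool.Agent.H21.HyperA

open Filter Topology Polynomial
open scoped Pointwise

namespace Pool.Agent.H21.Hyper

variable {𝕂 : Type} [RCLike 𝕂] {X : Type} [AddCommGroup X] [Module 𝕂 X] [TopologicalSpace X]
  [IsTopologicalAddGroup X] [ContinuousSMul 𝕂 X]

/-- choice of the next coefficient -/
lemma exists_alpha (v : ℕ → X) (U : Set X) (hU : U ∈ 𝓝 (0 : X)) (j M : ℕ) :
    ∃ α : 𝕂, α ≠ 0 ∧ ∀ c : 𝕂, ‖c‖ ≤ j + 1 → ∀ m ≤ M, (c * α) • v (j + m) ∈ U := by
  have h : ∀ᶠ s in 𝓝 (0 : 𝕂), ∀ m ∈ Finset.range (M + 1), s • v (j + m) ∈ U := by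
    rw [Filter.eventually_all_finset]
    intro m _
    have hc : Continuous (fun s : 𝕂 => s • v (j + m)) := continuous_id.smul continuous_const
    apply hc.continuousAt.eventually
    simpa using hU
  rw [Metric.eventually_nhds_iff] at h
  obtain ⟨δ, hδ, h⟩ := h
  have hj : (0 : ℝ) < (j : ℝ) + 1 := by positivity
  refine ⟨((δ / (2 * (j + 1)) : ℝ) : 𝕂), ?_, ?_⟩
  · rw [Ne, RCLike.ofReal_eq_zero]; positivity
  · intro c hc m hm
    apply h _ m (Finset.mem_range.2 (by omega))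
    rw [dist_zero_right, norm_mul, RCLike.norm_ofReal, abs_of_pos (by positivity)]
    calc ‖c‖ * (δ / (2 * (j + 1))) ≤ (j + 1) * (δ / (2 * (j + 1))) := by
          apply mul_le_mul_of_nonneg_right hc (by positivity)
      _ = δ / 2 := by field_simp
      _ < δ := by linarith

/-- choice of the bound on the exponents, by compactness -/
lemma exists_M (T : X →L[𝕂] X) (x : X)
    (hx : Dense (Set.range fun n : ℕ => ((T : X →ₗ[𝕂] X) ^ n) x))
    (U : Set X) (hU : U ∈ 𝓝 (0 : X)) (j : ℕ) (p : ℕ → 𝕂) :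
    ∃ M : ℕ, (∀ i < j, p i ≠ 0) → ∀ ξ : ℕ → 𝕂, (∀ i < j, ‖ξ i‖ ≤ j) →
      (∃ i < j, 1 ≤ (j : ℝ) * ‖ξ i‖) →
      ∃ m ≤ M, ((T : X →ₗ[𝕂] X) ^ m)
        (∑ i ∈ Finset.range j, (ξ i * p i) • ((T : X →ₗ[𝕂] X) ^ i) x) - x ∈ U := by
  by_cases hp : ∀ i < j, p i ≠ 0
  swap
  · exact ⟨0, fun h => absurd h hp⟩
  -- for each index i0, a bound
  have key : ∀ i0 : Fin j, ∃ M : ℕ, ∀ ξ : Fin j → 𝕂, (∀ i, ‖ξ i‖ ≤ j) → 1 ≤ (j : ℝ) * ‖ξ i0‖ →
      ∃ m ≤ M, ((T : X →ₗ[𝕂] X) ^ m)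
        (∑ i : Fin j, (ξ i * p i) • ((T : X →ₗ[𝕂] X) ^ (i : ℕ)) x) - x ∈ U := by
    intro i0
    let K : Set (Fin j → 𝕂) := (Set.univ.pi fun _ => Metric.closedBall (0 : 𝕂) j) ∩
      {ξ | 1 ≤ (j : ℝ) * ‖ξ i0‖}
    have hK : IsCompact K := by
      apply IsCompact.inter_right
      · exact isCompact_univ_pi (fun _ => isCompact_closedBall _ _)
      · exact isClosed_le continuous_const
          (continuous_const.mul (continuous_apply i0).norm)
    let f : ℕ → (Fin j → 𝕂) → X := fun m ξ => ((T : X →ₗ[𝕂] X) ^ m)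
        (∑ i : Fin j, (ξ i * p i) • ((T : X →ₗ[𝕂] X) ^ (i : ℕ)) x) - x
    have hf : ∀ m, Continuous (f m) := by
      intro m
      apply Continuous.sub _ continuous_const
      apply (pow_continuous T m).comp
      apply continuous_finset_sum
      intro i _
      exact ((continuous_apply i).mul continuous_const).smul continuous_const
    have hcov : K ⊆ ⋃ m, f m ⁻¹' (interior U) := by
      rintro ξ ⟨-, hξ⟩
      let q : 𝕂[X] := ∑ i : Fin j, Polynomial.monomial (i : ℕ) (ξ i * p i)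
      have hq : q ≠ 0 := by
        intro h0
        have h1 : q.coeff (i0 : ℕ) = 0 := by rw [h0]; simp
        simp only [q] at h1
        rw [Polynomial.finset_sum_coeff, Finset.sum_eq_single i0] at h1
        · rw [Polynomial.coeff_monomial, if_pos rfl] at h1
          rcases mul_eq_zero.1 h1 with h2 | h2
          · have h3 : 1 ≤ (j : ℝ) * ‖ξ i0‖ := hξ
            rw [h2, norm_zero, mul_zero] at h3
            linarith
          · exact hp _ i0.2 h2
        · intro b _ hb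
          rw [Polynomial.coeff_monomial, if_neg]
          intro h; exact hb (Fin.ext h)
        · intro h; exact absurd (Finset.mem_univ _) h
      have hq2 : (aeval (T : X →ₗ[𝕂] X) q) x =
          ∑ i : Fin j, (ξ i * p i) • ((T : X →ₗ[𝕂] X) ^ (i : ℕ)) x := by
        simp only [q, map_sum, LinearMap.sum_apply]
        refine Finset.sum_congr rfl (fun i _ => ?_)
        rw [aeval_monomial]
        rw [Module.End.mul_apply, Module.algebraMap_end_apply]
      have hd := poly_hyper T x hx q hq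
      have hopen : IsOpen ((fun y => y - x) ⁻¹' interior U) :=
        isOpen_interior.preimage (continuous_id.sub continuous_const)
      obtain ⟨w, hw, ⟨m, rfl⟩⟩ := hd.inter_open_nonempty _ hopen
        ⟨x, by simpa using mem_interior_iff_mem_nhds.2 hU⟩
      rw [Set.mem_iUnion]
      refine ⟨m, ?_⟩
      rw [hq2] at hw
      exact hw
    obtain ⟨t, ht⟩ := hK.elim_finite_subcover (fun m => f m ⁻¹' (interior U))
      (fun m => isOpen_interior.preimage (hf m)) hcov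
    refine ⟨t.sup id, ?_⟩
    intro ξ h1 h2
    have hmem : ξ ∈ K := by
      refine ⟨?_, h2⟩
      intro i _
      simpa using h1 i
    have := ht hmem
    simp only [Set.mem_iUnion] at this
    obtain ⟨m, hm, hm2⟩ := this
    exact ⟨m, Finset.le_sup (f := id) hm, interior_subset hm2⟩
  choose Mf hMf using key
  refine ⟨Finset.univ.sup Mf, fun _ ξ h1 h2 => ?_⟩
  obtain ⟨i0, hi0, h2⟩ := h2
  obtain ⟨m, hm, hm2⟩ := hMf ⟨i0, hi0⟩ (fun i => ξ i) (fun i => h1 i i.2) h2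
  refine ⟨m, hm.trans (Finset.le_sup (f := Mf) (Finset.mem_univ _)), ?_⟩
  rw [← Fin.sum_univ_eq_sum_range (fun i => (ξ i * p i) • ((T : X →ₗ[𝕂] X) ^ i) x) j]
  exact hm2

/-- the coefficient sequence -/
lemma exists_seq (T : X →L[𝕂] X) (x : X)
    (hx : Dense (Set.range fun n : ℕ => ((T : X →ₗ[𝕂] X) ^ n) x))
    (U : ℕ → Set X) (hU : ∀ n, U n ∈ 𝓝 (0 : X)) :
    ∃ (a : ℕ → 𝕂) (M : ℕ → ℕ), (∀ n, a n ≠ 0) ∧ Monotone M ∧
      (∀ (j : ℕ) (c : 𝕂), ‖c‖ ≤ (j : ℝ) + 1 → ∀ m ≤ M j,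
        (c * a j) • ((T : X →ₗ[𝕂] X) ^ (j + m)) x ∈ U (j + 1)) ∧
      (∀ (j : ℕ) (ξ : ℕ → 𝕂), (∀ i < j, ‖ξ i‖ ≤ (j : ℝ)) → (∃ i < j, 1 ≤ (j : ℝ) * ‖ξ i‖) →
        ∃ m ≤ M j, ((T : X →ₗ[𝕂] X) ^ m)
          (∑ i ∈ Finset.range j, (ξ i * a i) • ((T : X →ₗ[𝕂] X) ^ i) x) - x ∈ U j) := by
  choose F hF0 hF using fun j M => exists_alpha (𝕂 := 𝕂)
    (fun n => ((T : X →ₗ[𝕂] X) ^ n) x) (U (j + 1)) (hU (j + 1)) j M
  choose G hG using fun j p => exists_M T x hx (U j) (hU j) j p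
  let step : ℕ → (ℕ → 𝕂) × ℕ → (ℕ → 𝕂) × ℕ := fun j s =>
    (Function.update s.1 j (F j s.2), max s.2 (G (j + 1) (Function.update s.1 j (F j s.2))))
  let s : ℕ → (ℕ → 𝕂) × ℕ := fun n => Nat.rec (fun _ => 1, G 0 (fun _ => 1)) step n
  have hs0 : s 0 = (fun _ => 1, G 0 (fun _ => 1)) := rfl
  have hss : ∀ j, s (j + 1) = step j (s j) := fun j => rfl
  have hpre : ∀ j, ∀ i < j, (s j).1 i = F i (s i).2 := by
    intro j
    induction j with
    | zero => intro i hi; omega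
    | succ j ih =>
      intro i hi
      rw [hss]
      simp only [step]
      rcases Nat.lt_succ_iff_lt_or_eq.1 hi with h | h
      · rw [Function.update_of_ne (by omega)]; exact ih i h
      · rw [h, Function.update_self]
  have hGle : ∀ j, G j (s j).1 ≤ (s j).2 := by
    intro j
    cases j with
    | zero => rw [hs0]
    | succ j => rw [hss]; exact le_max_right _ _
  refine ⟨fun n => F n (s n).2, fun n => (s n).2, fun n => hF0 _ _, ?_, ?_, ?_⟩
  · apply monotone_nat_of_le_succ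
    intro j
    rw [hss]
    exact le_max_left _ _
  · intro j c hc m hm
    exact hF j _ c hc m hm
  · intro j ξ h1 h2
    have hne : ∀ i < j, (s j).1 i ≠ 0 := by
      intro i hi
      rw [hpre j i hi]; exact hF0 _ _
    obtain ⟨m, hm, hm2⟩ := hG j (s j).1 hne ξ h1 h2
    refine ⟨m, hm.trans (hGle j), ?_⟩
    have : ∑ i ∈ Finset.range j, (ξ i * F i (s i).2) • ((T : X →ₗ[𝕂] X) ^ i) x =
        ∑ i ∈ Finset.range j, (ξ i * (s j).1 i) • ((T : X →ₗ[𝕂] X) ^ i) x := by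
      refine Finset.sum_congr rfl (fun i hi => ?_)
      rw [hpre j i (Finset.mem_range.1 hi)]
    rw [this]
    exact hm2

/-- telescoping of neighbourhoods -/
lemma tele (U : ℕ → Set X) (hU0 : ∀ n, (0 : X) ∈ U n) (hUU : ∀ n, U (n + 1) + U (n + 1) ⊆ U n)
    (e : ℕ → X) (d : ℕ) : ∀ j, (∀ n, j ≤ n → e n ∈ U (n + 1)) →
      ∑ i ∈ Finset.Ico j (j + d), e i ∈ U j := by
  induction d with
  | zero => intro j _; simpa using hU0 j
  | succ d ih =>
    intro j h
    rw [Finset.sum_eq_sum_Ico_succ_bot (by omega)]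
    apply hUU
    apply Set.add_mem_add
    · exact h j le_rfl
    · have := ih (j + 1) (fun n hn => h n (by omega))
      have h2 : j + 1 + d = j + (d + 1) := by omega
      rwa [h2] at this

lemma closure_sub (U : ℕ → Set X) (hU : ∀ n, U n ∈ 𝓝 (0 : X))
    (hUU : ∀ n, U (n + 1) + U (n + 1) ⊆ U n) (n : ℕ) : closure (U (n + 1)) ⊆ U n := by
  intro y hy
  have h1 : (fun z => y - z) ⁻¹' (U (n + 1)) ∈ 𝓝 y := by
    apply (continuous_const.sub continuous_id).continuousAt.preimage_mem_nhds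
    simpa using hU (n + 1)
  obtain ⟨z, hz1, hz2⟩ := mem_closure_iff_nhds.1 hy _ h1
  apply hUU
  have : y = (y - z) + z := by abel
  rw [this]
  exact Set.add_mem_add hz1 hz2

end Pool.Agent.H21.Hyper
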