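import Pool.Agent.H21.HyperB

open Filter Topology Polynomial Cardinal
open scoped Pointwise

namespace Pool.Agent.H21.Hyper

variable {𝕂 : Type} [RCLike 𝕂] {X : Type} [AddCommGroup X] [Module 𝕂 X] [UniformSpace X]
  [IsUniformAddGroup X] [CompleteSpace X] [ContinuousSMul 𝕂 X]
  [TopologicalSpace.MetrizableSpace X]

variable (𝕂) in
/-- bounded sequences -/
def W : Submodule 𝕂 (ℕ → 𝕂) where
  carrier := {ξ | ∃ C : ℝ, ∀ n, ‖ξ n‖ ≤ C}
  add_mem' := by
    rintro ξ η ⟨C, hC⟩ ⟨D, hD⟩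
    exact ⟨C + D, fun n => (norm_add_le _ _).trans (add_le_add (hC n) (hD n))⟩
  zero_mem' := ⟨0, fun n => by simp⟩
  smul_mem' := by
    rintro c ξ ⟨C, hC⟩
    refine ⟨‖c‖ * C, fun n => ?_⟩
    simp only [Pi.smul_apply, smul_eq_mul, norm_mul]
    exact mul_le_mul_of_nonneg_left (hC n) (norm_nonneg _)

lemma card_le (T : X →L[𝕂] X) (x : X)
    (hx : Dense (Set.range fun n : ℕ => ((T : X →ₗ[𝕂] X) ^ n) x)) : #X ≤ 𝔠 := by
  have hsep : TopologicalSpace.SeparableSpace X := ⟨⟨_, Set.countable_range _, hx⟩⟩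
  have hug : (uniformity X).IsCountablyGenerated := by
    exact IsUniformAddGroup.uniformity_countably_generated
  have h2 : SecondCountableTopology X := UniformSpace.secondCountable_of_separable X
  obtain ⟨b, hbc, -, hb⟩ := TopologicalSpace.exists_countable_basis X
  have hinj : Function.Injective (fun (y : X) => {s : b | y ∈ (s : Set X)}) := by
    intro y z hyz
    by_contra hne
    obtain ⟨s, hs, hys, hsz⟩ := hb.exists_subset_of_mem_open (u := {z}ᶜ)
      (show y ∈ ({z} : Set X)ᶜ from hne) isOpen_compl_singleton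
    have := Set.ext_iff.1 hyz ⟨s, hs⟩
    have hz : z ∈ s := this.1 hys
    exact hsz hz rfl
  have h3 := Cardinal.mk_le_of_injective hinj
  refine h3.trans ?_
  rw [Cardinal.mk_set]
  have h4 : #b ≤ ℵ₀ := by
    rw [Cardinal.mk_le_aleph0_iff]; exact hbc.to_subtype
  calc (2 : Cardinal) ^ #b ≤ 2 ^ ℵ₀ := Cardinal.power_le_power_left two_ne_zero h4
    _ = 𝔠 := Cardinal.two_power_aleph0

lemma rank_W : 𝔠 ≤ Module.rank 𝕂 (W 𝕂) := by
  let g : Set.Icc (0 : ℝ) 1 → W 𝕂 := fun r =>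
    ⟨fun n => ((r : ℝ) : 𝕂) ^ n, 1, fun n => by
      rw [norm_pow, RCLike.norm_ofReal, abs_of_nonneg r.2.1]
      exact pow_le_one₀ r.2.1 r.2.2⟩
  have hli : LinearIndependent 𝕂 g := by
    apply LinearIndependent.of_comp (W 𝕂).subtype
    have h1 := linearIndependent_monoidHom (Multiplicative ℕ) 𝕂
    have h2 : Function.Injective (fun r : Set.Icc (0 : ℝ) 1 => powersHom 𝕂 ((r : ℝ) : 𝕂)) := by
      intro r s hrs
      have := (powersHom 𝕂).injective hrs
      exact Subtype.ext (RCLike.ofReal_injective this)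
    exact h1.comp _ h2
  have := hli.cardinal_le_rank
  rwa [Cardinal.mk_Icc_real (by norm_num : (0 : ℝ) < 1)] at this

theorem main (T : X →L[𝕂] X) (h : ∃ x : X, Dense (Set.range fun n : ℕ => (⇑T)^[n] x)) :
    ∃ M : Submodule 𝕂 X, Dense (M : Set X) ∧
        (∀ x ∈ M, x ≠ 0 → Dense (Set.range fun n : ℕ => (⇑T)^[n] x)) ∧
        Module.rank 𝕂 M = Module.rank 𝕂 X := by
  obtain ⟨x, hx0⟩ := h
  have hit : ∀ (y : X) (n : ℕ), (⇑T)^[n] y = ((T : X →ₗ[𝕂] X) ^ n) y := by
    intro y n; rw [Module.End.pow_apply]; rfl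
  have hx : Dense (Set.range fun n : ℕ => ((T : X →ₗ[𝕂] X) ^ n) x) := by
    simpa only [hit] using hx0
  simp only [hit]
  rcases subsingleton_or_nontrivial X with hsub | hnt
  · refine ⟨⊤, by simp, fun y _ hy => absurd (Subsingleton.elim y 0) hy, rank_top 𝕂 X⟩
  obtain ⟨U, hUb, hUU⟩ := IsTopologicalAddGroup.exists_antitone_basis_nhds_zero X
  have hU : ∀ n, U n ∈ 𝓝 (0 : X) := fun n => hUb.mem n
  have hU0 : ∀ n, (0 : X) ∈ U n := fun n => mem_of_mem_nhds (hU n)
  obtain ⟨a, M, ha, hM, hsmall, hhit⟩ := exists_seq T x hx U hU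
  set v : ℕ → X := fun n => ((T : X →ₗ[𝕂] X) ^ n) x with hv
  have hTv : ∀ m n, ((T : X →ₗ[𝕂] X) ^ m) (v n) = v (n + m) := by
    intro m n
    simp only [hv]
    rw [← Module.End.mul_apply, ← pow_add, add_comm]
  let S : (ℕ → 𝕂) → ℕ → X := fun ξ j => ∑ i ∈ Finset.range j, (ξ i * a i) • v i
  -- tails
  have htail : ∀ (ξ : ℕ → 𝕂) (j : ℕ), (∀ n, ‖ξ n‖ ≤ j) → ∀ m ≤ M j, ∀ d,
      ((T : X →ₗ[𝕂] X) ^ m) (S ξ (j + d) - S ξ j) ∈ U j := by
    intro ξ j hξ m hm d
    have h1 : S ξ (j + d) - S ξ j = ∑ i ∈ Finset.Ico j (j + d), (ξ i * a i) • v i := by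
      rw [Finset.sum_Ico_eq_sub _ (by omega)]
    rw [h1, map_sum]
    apply tele U hU0 hUU
    intro n hn
    rw [map_smul, hTv]
    apply hsmall n (ξ n)
    · have := hξ n
      have h2 : (j : ℝ) ≤ n := by exact_mod_cast hn
      linarith
    · exact hm.trans (hM hn)
  have hbdd : ∀ ξ ∈ W 𝕂, ∃ J : ℕ, ∀ n, ‖ξ n‖ ≤ J := by
    rintro ξ ⟨C, hC⟩
    obtain ⟨J, hJ⟩ := exists_nat_ge C
    exact ⟨J, fun n => (hC n).trans hJ⟩
  have hconv : ∀ ξ ∈ W 𝕂, ∃ y, Tendsto (S ξ) atTop (𝓝 y) := by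
    intro ξ hξ
    obtain ⟨J, hJ⟩ := hbdd ξ hξ
    apply cauchySeq_tendsto_of_complete
    rw [(hUb.1.uniformity_of_nhds_zero_swapped).cauchySeq_iff']
    intro i _
    refine ⟨max J i, fun n hn => ?_⟩
    obtain ⟨d, rfl⟩ := Nat.exists_eq_add_of_le hn
    have h1 := htail ξ (max J i) (fun n => (hJ n).trans (by exact_mod_cast le_max_left J i)) 0
      (Nat.zero_le _) d
    have h2 : U (max J i) ⊆ U i := hUb.2 (le_max_right _ _)
    simpa using h2 h1
  choose! lim hlim using hconv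
  have hlim0 : ∀ ξ ∈ W 𝕂, ∀ y, Tendsto (S ξ) atTop (𝓝 y) → y = lim ξ := by
    intro ξ hξ y hy
    exact tendsto_nhds_unique hy (hlim ξ hξ)
  have hSadd : ∀ ξ η, S (ξ + η) = S ξ + S η := by
    intro ξ η; funext j
    simp only [S, Pi.add_apply]
    rw [← Finset.sum_add_distrib]
    refine Finset.sum_congr rfl (fun i _ => ?_)
    rw [add_mul, add_smul]
  have hSsmul : ∀ (c : 𝕂) ξ, S (c • ξ) = c • S ξ := by
    intro c ξ; funext j
    simp only [S, Pi.smul_apply, smul_eq_mul]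
    rw [Finset.smul_sum]
    refine Finset.sum_congr rfl (fun i _ => ?_)
    rw [smul_smul, mul_assoc]
  let Φ : W 𝕂 →ₗ[𝕂] X :=
    { toFun := fun ξ => lim ξ
      map_add' := by
        intro ξ η
        symm
        apply hlim0 _ (ξ + η).2
        have := (hlim ξ ξ.2).add (hlim η η.2)
        show Tendsto (S ((ξ : ℕ → 𝕂) + η)) atTop _
        rw [hSadd]; exact this
      map_smul' := by
        intro c ξ
        symm
        apply hlim0 _ (c • ξ).2
        have := (hlim ξ ξ.2).const_smul c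
        show Tendsto (S (c • (ξ : ℕ → 𝕂))) atTop _
        rw [hSsmul]; exact this }
  -- nonzero sequences give hypercyclic vectors
  have hhyp : ∀ ξ : W 𝕂, ξ ≠ 0 → Dense (Set.range fun n : ℕ => ((T : X →ₗ[𝕂] X) ^ n) (Φ ξ)) := by
    intro ξ hξ0
    obtain ⟨J, hJ⟩ := hbdd ξ ξ.2
    obtain ⟨n0, hn0⟩ : ∃ n, (ξ : ℕ → 𝕂) n ≠ 0 := by
      by_contra hcon
      push Not at hcon
      apply hξ0
      ext n; exact hcon n
    obtain ⟨J2, hJ2⟩ := exists_nat_ge (1 / ‖(ξ : ℕ → 𝕂) n0‖)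
    have hnpos : 0 < ‖(ξ : ℕ → 𝕂) n0‖ := norm_pos_iff.2 hn0
    -- x in the closure of the orbit
    have hxcl : x ∈ closure (Set.range fun n : ℕ => ((T : X →ₗ[𝕂] X) ^ n) (Φ ξ)) := by
      rw [mem_closure_iff_nhds]
      intro O hO
      have hO2 : (fun z => z + x) ⁻¹' O ∈ 𝓝 (0 : X) := by
        apply (continuous_id.add continuous_const).continuousAt.preimage_mem_nhds
        simpa using hO
      obtain ⟨k, -, hk⟩ := hUb.1.mem_iff.1 hO2
      set j := max (max J J2) (max (n0 + 1) (k + 3)) with hj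
      have hjJ : (J : ℝ) ≤ j := by
        exact_mod_cast (le_max_left J J2).trans (le_max_left _ _)
      have hjJ2 : (J2 : ℝ) ≤ j := by
        exact_mod_cast (le_max_right J J2).trans (le_max_left _ _)
      have hjn : n0 < j := by
        have : n0 + 1 ≤ j := (le_max_left _ _).trans (le_max_right _ _)
        omega
      have hjk : k + 3 ≤ j := (le_max_right _ _).trans (le_max_right _ _)
      obtain ⟨m, hm, hm2⟩ := hhit j ξ (fun i _ => (hJ i).trans hjJ) ⟨n0, hjn, by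
        have : 1 / ‖(ξ : ℕ → 𝕂) n0‖ ≤ j := hJ2.trans hjJ2
        rw [div_le_iff₀ hnpos] at this
        exact this⟩
      have hcl : ((T : X →ₗ[𝕂] X) ^ m) (Φ ξ - S ξ j) ∈ closure (U j) := by
        have h1 : Tendsto (fun d => ((T : X →ₗ[𝕂] X) ^ m) (S ξ (j + d) - S ξ j)) atTop
            (𝓝 (((T : X →ₗ[𝕂] X) ^ m) (Φ ξ - S ξ j))) := by
          apply ((pow_continuous T m).tendsto _).comp
          apply Tendsto.sub_const
          exact ((hlim ξ ξ.2).comp (tendsto_add_atTop_nat j)).congr (fun d => by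
            simp only [Function.comp, add_comm])
        apply mem_closure_of_tendsto h1
        exact Eventually.of_forall (fun d => htail ξ j (fun n => (hJ n).trans hjJ) m hm d)
      have hsub : ((T : X →ₗ[𝕂] X) ^ m) (Φ ξ) - x ∈ U k := by
        obtain ⟨i, hi⟩ : ∃ i, j = i + 2 := ⟨j - 2, by omega⟩
        have e1 : ((T : X →ₗ[𝕂] X) ^ m) (Φ ξ - S ξ j) ∈ U (i + 1) := by
          rw [hi] at hcl ⊢
          exact closure_sub U hU hUU (i + 1) hcl
        have e2 : ((T : X →ₗ[𝕂] X) ^ m) (S ξ j) - x ∈ U (i + 1) := by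
          rw [hi] at hm2 ⊢
          exact hUb.2 (by omega : i + 1 ≤ i + 2) hm2
        have e3 := hUU i (Set.add_mem_add e1 e2)
        have e4 : ((T : X →ₗ[𝕂] X) ^ m) (Φ ξ - S ξ j) + (((T : X →ₗ[𝕂] X) ^ m) (S ξ j) - x) =
            ((T : X →ₗ[𝕂] X) ^ m) (Φ ξ) - x := by
          rw [map_sub]; abel
        rw [e4] at e3
        exact hUb.2 (by omega : k ≤ i) e3
      refine ⟨((T : X →ₗ[𝕂] X) ^ m) (Φ ξ), ?_, ⟨m, rfl⟩⟩
      have := hk hsub
      simpa using this
    -- closure of orbit is invariant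
    have hinv : ∀ y ∈ closure (Set.range fun n : ℕ => ((T : X →ₗ[𝕂] X) ^ n) (Φ ξ)),
        T y ∈ closure (Set.range fun n : ℕ => ((T : X →ₗ[𝕂] X) ^ n) (Φ ξ)) := by
      intro y hy
      apply map_mem_closure T.continuous hy
      rintro _ ⟨n, rfl⟩
      refine ⟨n + 1, ?_⟩
      show ((T : X →ₗ[𝕂] X) ^ (n + 1)) (Φ ξ) = _
      rw [pow_succ']; rfl
    have horb : ∀ n, v n ∈ closure (Set.range fun n : ℕ => ((T : X →ₗ[𝕂] X) ^ n) (Φ ξ)) := by
      intro n
      induction n with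
      | zero => simpa [hv] using hxcl
      | succ n ih =>
        have : v (n + 1) = T (v n) := by simp only [hv]; rw [pow_succ']; rfl
        rw [this]; exact hinv _ ih
    intro y
    have h1 : closure (Set.range v) ⊆
        closure (Set.range fun n : ℕ => ((T : X →ₗ[𝕂] X) ^ n) (Φ ξ)) := by
      apply closure_minimal _ isClosed_closure
      rintro _ ⟨n, rfl⟩
      exact horb n
    exact h1 (hx y)
  refine ⟨LinearMap.range Φ, ?_, ?_, ?_⟩
  · apply hx.mono
    rintro _ ⟨n, rfl⟩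
    have hmem : (Pi.single n (a n)⁻¹ : ℕ → 𝕂) ∈ W 𝕂 := by
      refine ⟨‖(a n)⁻¹‖, fun i => ?_⟩
      rcases eq_or_ne i n with h | h
      · subst h; simp
      · simp [Pi.single_apply, h]
    refine ⟨⟨_, hmem⟩, ?_⟩
    show lim (Pi.single n (a n)⁻¹) = v n
    symm
    apply hlim0 _ hmem
    apply tendsto_const_nhds.congr'
    filter_upwards [eventually_gt_atTop n] with j hj
    simp only [S]
    rw [Finset.sum_eq_single n]
    · simp [ha n]
    · intro b _ hb
      simp [Pi.single_apply, hb]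
    · intro h; exact absurd (Finset.mem_range.2 hj) h
  · rintro _ ⟨ξ, rfl⟩ hne
    apply hhyp
    rintro rfl
    exact hne (map_zero Φ)
  · have hinj : Function.Injective Φ := by
      rw [injective_iff_map_eq_zero]
      intro ξ h0
      by_contra hne
      have hd := hhyp ξ hne
      rw [h0] at hd
      obtain ⟨y, hy⟩ := exists_ne (0 : X)
      obtain ⟨w, hw, ⟨n, rfl⟩⟩ := hd.inter_open_nonempty _ isOpen_compl_singleton ⟨y, hy⟩
      apply hw
      show _ = _
      simp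
    apply le_antisymm (Submodule.rank_le _)
    calc Module.rank 𝕂 X ≤ #X := rank_le_card 𝕂 X
      _ ≤ 𝔠 := card_le T x hx
      _ ≤ Module.rank 𝕂 (W 𝕂) := rank_W
      _ = Module.rank 𝕂 (LinearMap.range Φ) := (rank_range_of_injective Φ hinj).symm

end Pool.Agent.H21.Hyper
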