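import Mathlib
set_option autoImplicit false
set_option linter.all false
namespace Pool.Agent.H21.Jcs

/-- one jumping step for a relation of rules -/
def JStep {S : Type} (R : List S → List S → Prop) (x y : List S) : Prop :=
  ∃ l r, R l r ∧ ∃ u v u' v' : List S, x = u ++ l ++ v ∧ y = u' ++ r ++ v' ∧ u ++ v = u' ++ v'

/-- context-sensitive shape -/
def CS {T N : Type} (l r : List (Symbol T N)) : Prop :=
  ∃ (α β γ : List (Symbol T N)) (A : N), γ ≠ [] ∧
    l = α ++ [Symbol.nonterminal A] ++ β ∧ r = α ++ γ ++ β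

def isL {T N : Type} (lock : N → Prop) : Symbol T N → Prop
  | .terminal _ => False
  | .nonterminal n => lock n

/-- data of a locked monotone system -/
structure LData (T N : Type) (lock : N → Prop) (R : Type) (K : ℕ) where
  A : R → List (Symbol T N)
  a : R → N
  B : R → List (Symbol T N)
  C : R → List (Symbol T N)
  c : R → Symbol T N
  D : R → List (Symbol T N)
  ha : ∀ ρ, lock (a ρ)
  hA : ∀ ρ, ∀ σ ∈ A ρ, ¬ isL lock σ
  hB : ∀ ρ, ∀ σ ∈ B ρ, ¬ isL lock σ
  hC : ∀ ρ, ∀ σ ∈ C ρ, ¬ isL lock σ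
  hD : ∀ ρ, ∀ σ ∈ D ρ, ¬ isL lock σ
  hlen : ∀ ρ, (A ρ).length + 1 + (B ρ).length ≤ (C ρ).length + 1 + (D ρ).length
  hK : ∀ ρ, (C ρ).length + 1 + (D ρ).length ≤ K
  compat : ∀ ρ (i : ℕ) σ, (A ρ ++ Symbol.nonterminal (a ρ) :: B ρ)[i]? = some σ →
    (∃ n, σ = Symbol.nonterminal n) ∨ (i ≠ (C ρ).length ∧ (C ρ ++ c ρ :: D ρ)[i]? = some σ)
  last : ∀ ρ, ∃ n, (A ρ ++ Symbol.nonterminal (a ρ) :: B ρ)[(A ρ).length + (B ρ).length]? =
    some (Symbol.nonterminal n)

variable {T N : Type} {lock : N → Prop} {R : Type} {K : ℕ}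

abbrev N3 (N R : Type) (K : ℕ) := N ⊕ (R × Bool × Fin K)

def e : Symbol T N → Symbol T (N3 N R K)
  | .terminal t => .terminal t
  | .nonterminal n => .nonterminal (.inl n)

def mk (ρ : R) (b : Bool) (i : Fin K) : Symbol T (N3 N R K) := .nonterminal (.inr (ρ, b, i))

lemma e_inj {s t : Symbol T N} (h : (e s : Symbol T (N3 N R K)) = e t) : s = t := by
  cases s <;> cases t <;> simp_all [e]

lemma e_ne_mk (s : Symbol T N) (ρ : R) (b : Bool) (i : Fin K) :
    (e s : Symbol T (N3 N R K)) ≠ mk ρ b i := by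
  cases s <;> simp [e, mk]

variable (G : LData T N lock R K)

def LData.X (ρ : R) : List (Symbol T N) := G.A ρ ++ Symbol.nonterminal (G.a ρ) :: G.B ρ
def LData.Y (ρ : R) : List (Symbol T N) := G.C ρ ++ G.c ρ :: G.D ρ

/-- normal symbol of the big alphabet -/
def nrm (lock : N → Prop) (σ : Symbol T (N3 N R K)) : Prop := ∃ τ : Symbol T N, ¬ isL lock τ ∧ σ = e τ

def isMk (ρ : R) (b : Bool) (i : ℕ) (σ : Symbol T (N3 N R K)) : Prop :=
  ∃ h : i < K, σ = mk ρ b ⟨i, h⟩

def LData.len (ρ : R) (b : Bool) : ℕ := if b then (G.Y ρ).length else (G.X ρ).length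

def LData.Ph (ρ : R) (b : Bool) (Z : List (Symbol T (N3 N R K))) : Prop :=
  Z.length = G.len ρ b ∧
  (∀ (i : ℕ) σ, Z[i]? = some σ → nrm lock σ ∨ isMk ρ b i σ) ∧
  ∃ (i : ℕ) (σ : _), Z[i]? = some σ ∧ isMk ρ b i σ

def LData.HR (l r : List (Symbol T (N3 N R K))) : Prop :=
  CS l r ∧ ∃ ρ, ((l = (G.X ρ).map e ∧ G.Ph ρ false r) ∨ (G.Ph ρ false l ∧ G.Ph ρ false r) ∨
    (G.Ph ρ false l ∧ G.Ph ρ true r) ∨ (G.Ph ρ true l ∧ G.Ph ρ true r) ∨
    (G.Ph ρ true l ∧ r = (G.Y ρ).map e))

def LData.R2 (l r : List (Symbol T N)) : Prop := ∃ ρ, l = G.X ρ ∧ r = G.Y ρ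

lemma block_chain {S : Type} {Q : List S → List S → Prop} {Z Z' : List S} (u v : List S)
    (h : Relation.ReflTransGen Q Z Z') :
    Relation.ReflTransGen (JStep Q) (u ++ Z ++ v) (u ++ Z' ++ v) := by
  induction h with
  | refl => exact .refl
  | tail _ h2 ih => exact ih.tail ⟨_, _, h2, u, v, u, v, rfl, rfl, rfl⟩

/-- rewriting inside a phase -/
lemma phase_rewrite (ρ : R) (b : Bool) (Z Z' : List (Symbol T (N3 N R K)))
    (hl : Z.length = G.len ρ b) (hl' : Z'.length = G.len ρ b)
    (hZ : ∀ (i : ℕ) σ, Z[i]? = some σ → nrm lock σ ∨ isMk ρ b i σ)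
    (hZ' : ∀ (i : ℕ) σ, Z'[i]? = some σ → nrm lock σ ∨ isMk ρ b i σ)
    (q : ℕ) (s : Symbol T (N3 N R K)) (hq : isMk ρ b q s) (h1 : Z[q]? = some s) (h2 : Z'[q]? = some s)
    (hd : ∀ (i : ℕ) σ, Z[i]? = some σ → Z'[i]? = some σ ∨ ∃ n, σ = Symbol.nonterminal n) :
    Relation.ReflTransGen G.HR Z Z' := by
  have hmix : ∀ k, k ≤ Z.length → G.Ph ρ b (Z'.take k ++ Z.drop k) := by
    intro k hk
    have hlk : (Z'.take k).length = k := by rw [List.length_take]; omega
    have hget : ∀ i, (Z'.take k ++ Z.drop k)[i]? = if i < k then Z'[i]? else Z[i]? := by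
      intro i
      rw [List.getElem?_append, hlk]
      split_ifs with h
      · rw [List.getElem?_take]; simp [h]
      · rw [List.getElem?_drop]; congr 1; omega
    refine ⟨?_, ?_, q, s, ?_, hq⟩
    · rw [List.length_append, hlk, List.length_drop]; omega
    · intro i σ hi
      rw [hget] at hi
      split_ifs at hi
      · exact hZ' i σ hi
      · exact hZ i σ hi
    · rw [hget]; split_ifs <;> assumption
  have key : ∀ k, k ≤ Z.length → Relation.ReflTransGen G.HR Z (Z'.take k ++ Z.drop k) := by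
    intro k
    induction k with
    | zero => intro _; simpa using Relation.ReflTransGen.refl
    | succ k ih =>
      intro hk
      have ihk := ih (by omega)
      have hkZ : k < Z.length := by omega
      have hkZ' : k < Z'.length := by omega
      have e1 : Z.drop k = Z[k] :: Z.drop (k+1) := (List.drop_eq_getElem_cons hkZ)
      have e2 : Z'.take (k+1) = Z'.take k ++ [Z'[k]] := by
        rw [List.take_succ_eq_append_getElem hkZ']
      rcases hd k Z[k] (List.getElem?_eq_getElem hkZ) with h | ⟨n, hn⟩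
      · have : Z'[k] = Z[k] := by
          rw [List.getElem?_eq_getElem hkZ'] at h; exact Option.some.inj h
        have heq : Z'.take (k+1) ++ Z.drop (k+1) = Z'.take k ++ Z.drop k := by
          rw [e2, e1, this]; simp
        rw [heq]; exact ihk
      · refine ihk.tail ⟨⟨Z'.take k, Z.drop (k+1), [Z'[k]], n, by simp, ?_, ?_⟩, ρ, ?_⟩
        · rw [e1, hn]; simp
        · rw [e2]
        · have p1 := hmix k (by omega)
          have p2 := hmix (k+1) hk
          cases b
          · exact Or.inr (Or.inl ⟨p1, p2⟩)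
          · exact Or.inr (Or.inr (Or.inr (Or.inl ⟨p1, p2⟩)))
  have := key Z.length le_rfl
  have h3 : Z'.take Z.length ++ Z.drop Z.length = Z' := by
    rw [show Z.length = Z'.length by omega]
    rw [List.take_length]
    have : Z.drop Z'.length = [] := List.drop_eq_nil_of_le (by omega)
    rw [this]; simp
  rwa [h3] at this


lemma nrm_map {L : List (Symbol T N)} (h : ∀ σ ∈ L, ¬ isL lock σ) :
    ∀ σ ∈ L.map (e : Symbol T N → Symbol T (N3 N R K)), nrm lock σ := by
  intro σ hσ
  obtain ⟨τ, hτ, rfl⟩ := List.mem_map.1 hσ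
  exact ⟨τ, h τ hτ, rfl⟩

lemma rule_chain (m0 : N) (hm0 : ¬ lock m0) (ρ : R) :
    ∃ Z1, G.HR ((G.X ρ).map e) Z1 ∧ Relation.ReflTransGen G.HR Z1 ((G.Y ρ).map e) := by
  set A3 : List (Symbol T (N3 N R K)) := (G.A ρ).map e with hA3
  set B3 : List (Symbol T (N3 N R K)) := (G.B ρ).map e with hB3
  set C3 : List (Symbol T (N3 N R K)) := (G.C ρ).map e with hC3
  set D3 : List (Symbol T (N3 N R K)) := (G.D ρ).map e with hD3
  set n := (G.A ρ).length + (G.B ρ).length with hn
  have hlen := G.hlen ρ
  have hK := G.hK ρ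
  set ℓ := (G.A ρ).length with hℓ
  set j := (G.C ρ).length with hj
  have lA3 : A3.length = ℓ := by simp [hA3, hℓ]
  have lB3 : B3.length = (G.B ρ).length := by simp [hB3]
  have lC3 : C3.length = j := by simp [hC3, hj]
  have lD3 : D3.length = (G.D ρ).length := by simp [hD3]
  set X3 : List (Symbol T (N3 N R K)) := A3 ++ Symbol.nonterminal (.inl (G.a ρ)) :: B3 with hX3
  have eX : (G.X ρ).map e = X3 := by simp [LData.X, hX3, hA3, hB3, e]
  set T3 : List (Symbol T (N3 N R K)) := C3 ++ Symbol.nonterminal (.inl m0) :: D3 with hT3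
  have lX3 : X3.length = n + 1 := by simp [hX3, lA3, lB3, hn]; omega
  have lT3 : T3.length = (G.C ρ).length + 1 + (G.D ρ).length := by simp [hT3, lC3, lD3]; omega
  have lenF : G.len ρ false = n + 1 := by
    simp [LData.len, LData.X, hn]; omega
  have lenT : G.len ρ true = T3.length := by
    rw [lT3]; simp [LData.len, LData.Y]; omega
  have hnK : n < K := by omega
  have hℓK : ℓ < K := by omega
  have hjK : j < K := by omega
  have nA := nrm_map (R := R) (K := K) (G.hA ρ)
  have nB := nrm_map (R := R) (K := K) (G.hB ρ)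
  have nC := nrm_map (R := R) (K := K) (G.hC ρ)
  have nD := nrm_map (R := R) (K := K) (G.hD ρ)
  have nX : ∀ (i : ℕ) σ, X3[i]? = some σ → i ≠ ℓ → nrm lock σ := by
    intro i σ hi hne
    rw [hX3, List.getElem?_append] at hi
    split_ifs at hi with h
    · exact nA σ (List.mem_of_getElem? hi)
    · rw [List.getElem?_cons] at hi
      split_ifs at hi with h0
      · exact absurd (by omega) hne
      · exact nB σ (List.mem_of_getElem? hi)
  have nT : ∀ (i : ℕ) σ, T3[i]? = some σ → nrm lock σ := by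
    intro i σ hi
    rw [hT3, List.getElem?_append] at hi
    split_ifs at hi with h
    · exact nC σ (List.mem_of_getElem? hi)
    · rw [List.getElem?_cons] at hi
      split_ifs at hi with h0
      · have : σ = Symbol.nonterminal (.inl m0) := (Option.some.inj hi).symm
        exact ⟨Symbol.nonterminal m0, hm0, this⟩
      · exact nD σ (List.mem_of_getElem? hi)
  have cX : ∀ (i : ℕ) σ, X3[i]? = some σ → (∃ n', σ = Symbol.nonterminal n') ∨ T3[i]? = some σ := by
    intro i σ hi
    rw [← eX, List.getElem?_map] at hi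
    obtain ⟨τ, hτ, rfl⟩ := Option.map_eq_some_iff.1 hi
    rcases G.compat ρ i τ hτ with ⟨n', rfl⟩ | ⟨hne, h⟩
    · exact Or.inl ⟨_, rfl⟩
    · right
      rw [List.getElem?_append] at h
      rw [hT3, List.getElem?_append, lC3]
      split_ifs at h ⊢ with h1
      · rw [hC3, List.getElem?_map, h]; rfl
      · rw [List.getElem?_cons] at h ⊢
        have hne' : i - j ≠ 0 := by omega
        rw [if_neg hne'] at h ⊢
        rw [hD3, List.getElem?_map, h]; rfl
  have lastX : ∃ n', X3[n]? = some (Symbol.nonterminal n') := by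
    obtain ⟨n', h⟩ := G.last ρ
    refine ⟨.inl n', ?_⟩
    rw [← eX, List.getElem?_map]
    show Option.map e (G.A ρ ++ Symbol.nonterminal (G.a ρ) :: G.B ρ)[n]? = _
    rw [h]; rfl
  obtain ⟨nl, hnl⟩ := lastX
  -- the intermediate lists
  set f : ℕ → Symbol T (N3 N R K) := fun i => if h : i < K then mk ρ false ⟨i, h⟩ else mk ρ false ⟨n, hnK⟩ with hf
  set g : ℕ → Symbol T (N3 N R K) := fun i => if h : i < K then mk ρ true ⟨i, h⟩ else mk ρ true ⟨n, hnK⟩ with hg
  have fM : ∀ i, i < K → isMk ρ false i (f i) := fun i h => ⟨h, by simp [hf, h]⟩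
  have gM : ∀ i, i < K → isMk ρ true i (g i) := fun i h => ⟨h, by simp [hg, h]⟩
  have fN : ∀ i, ∃ n', f i = Symbol.nonterminal n' := by
    intro i; simp only [hf]; split_ifs <;> exact ⟨_, rfl⟩
  have gN : ∀ i, ∃ n', g i = Symbol.nonterminal n' := by
    intro i; simp only [hg]; split_ifs <;> exact ⟨_, rfl⟩
  set Z1 := X3.set ℓ (f ℓ) with hZ1
  set Z2 := Z1.set n (f n) with hZ2
  set W := T3.take n ++ [f n] with hW
  set V1 := T3.set n (g n) with hV1
  set V2 := V1.set j (g j) with hV2
  set V3 := T3.set j (g j) with hV3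
  have gZ1 : ∀ i, Z1[i]? = if ℓ = i then some (f ℓ) else X3[i]? := by
    intro i; rw [hZ1, List.getElem?_set]
    split_ifs with h1 h2 <;> first | rfl | omega
  have gZ2 : ∀ i, Z2[i]? = if n = i then some (f n) else Z1[i]? := by
    intro i; rw [hZ2, List.getElem?_set]
    have : Z1.length = n + 1 := by simp [hZ1, lX3]
    split_ifs with h1 h2 <;> first | rfl | omega
  have gW : ∀ i, W[i]? = if i < n then T3[i]? else if i = n then some (f n) else none := by
    intro i; rw [hW, List.getElem?_append]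
    have : (T3.take n).length = n := by rw [List.length_take]; omega
    rw [this]
    split_ifs with h1 h2
    · rw [List.getElem?_take]; simp [h1]
    · subst h2; simp
    · rw [List.getElem?_eq_none]; simp; omega
  have gV1 : ∀ i, V1[i]? = if n = i then some (g n) else T3[i]? := by
    intro i; rw [hV1, List.getElem?_set]
    split_ifs with h1 h2 <;> first | rfl | omega
  have gV2 : ∀ i, V2[i]? = if j = i then some (g j) else V1[i]? := by
    intro i; rw [hV2, List.getElem?_set]
    have : V1.length = T3.length := by simp [hV1]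
    split_ifs with h1 h2 <;> first | rfl | omega
  have gV3 : ∀ i, V3[i]? = if j = i then some (g j) else T3[i]? := by
    intro i; rw [hV3, List.getElem?_set]
    split_ifs with h1 h2 <;> first | rfl | omega
  have oZ1 : ∀ (i : ℕ) σ, Z1[i]? = some σ → nrm lock σ ∨ isMk ρ false i σ := by
    intro i σ h; rw [gZ1] at h
    split_ifs at h with h1
    · subst h1; right; rw [← Option.some.inj h]; exact fM _ hℓK
    · exact Or.inl (nX i σ h (by omega))
  have oZ2 : ∀ (i : ℕ) σ, Z2[i]? = some σ → nrm lock σ ∨ isMk ρ false i σ := by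
    intro i σ h; rw [gZ2] at h
    split_ifs at h with h1
    · subst h1; right; rw [← Option.some.inj h]; exact fM _ hnK
    · exact oZ1 i σ h
  have oW : ∀ (i : ℕ) σ, W[i]? = some σ → nrm lock σ ∨ isMk ρ false i σ := by
    intro i σ h; rw [gW] at h
    split_ifs at h with h1 h2
    · exact Or.inl (nT i σ h)
    · subst h2; right; rw [← Option.some.inj h]; exact fM _ hnK
  have oV1 : ∀ (i : ℕ) σ, V1[i]? = some σ → nrm lock σ ∨ isMk ρ true i σ := by
    intro i σ h; rw [gV1] at h
    split_ifs at h with h1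
    · subst h1; right; rw [← Option.some.inj h]; exact gM _ hnK
    · exact Or.inl (nT i σ h)
  have oV2 : ∀ (i : ℕ) σ, V2[i]? = some σ → nrm lock σ ∨ isMk ρ true i σ := by
    intro i σ h; rw [gV2] at h
    split_ifs at h with h1
    · subst h1; right; rw [← Option.some.inj h]; exact gM _ hjK
    · exact oV1 i σ h
  have oV3 : ∀ (i : ℕ) σ, V3[i]? = some σ → nrm lock σ ∨ isMk ρ true i σ := by
    intro i σ h; rw [gV3] at h
    split_ifs at h with h1
    · subst h1; right; rw [← Option.some.inj h]; exact gM _ hjK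
    · exact Or.inl (nT i σ h)
  have LZ1 : Z1.length = G.len ρ false := by rw [lenF, hZ1, List.length_set, lX3]
  have LZ2 : Z2.length = G.len ρ false := by rw [hZ2, List.length_set, LZ1]
  have LW : W.length = G.len ρ false := by
    rw [lenF, hW, List.length_append, List.length_take]; simp; omega
  have LV1 : V1.length = G.len ρ true := by rw [lenT, hV1, List.length_set]
  have LV2 : V2.length = G.len ρ true := by rw [hV2, List.length_set, LV1]
  have LV3 : V3.length = G.len ρ true := by rw [lenT, hV3, List.length_set]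
  have hℓn : ℓ ≤ n := by omega
  have pZ1 : G.Ph ρ false Z1 := ⟨LZ1, oZ1, ℓ, f ℓ, by rw [gZ1]; simp, fM _ hℓK⟩
  have pW : G.Ph ρ false W := ⟨LW, oW, n, f n, by rw [gW]; simp, fM _ hnK⟩
  have pV1 : G.Ph ρ true V1 := ⟨LV1, oV1, n, g n, by rw [gV1]; simp, gM _ hnK⟩
  have pV3 : G.Ph ρ true V3 := ⟨LV3, oV3, j, g j, by rw [gV3]; simp, gM _ hjK⟩
  refine ⟨Z1, ?_, ?_⟩
  · refine ⟨?_, ρ, Or.inl ⟨rfl, pZ1⟩⟩
    refine ⟨A3, B3, [f ℓ], .inl (G.a ρ), by simp, ?_, ?_⟩
    · rw [eX]; simp [hX3]
    · rw [hZ1, hX3, ← lA3]; simp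
  · have c12 : Relation.ReflTransGen G.HR Z1 Z2 := by
      refine phase_rewrite G ρ false Z1 Z2 LZ1 LZ2 oZ1 oZ2 ℓ (f ℓ) (fM _ hℓK) (by rw [gZ1]; simp) ?_ ?_
      · rw [gZ2]; split_ifs with h
        · rw [h]
        · rw [gZ1]; simp
      · intro i σ h
        rw [gZ2]
        split_ifs with h1
        · right
          subst h1
          rw [gZ1] at h
          split_ifs at h with h2
          · obtain ⟨n', hn'⟩ := fN ℓ
            exact ⟨n', by rw [← Option.some.inj h]; exact hn'⟩
          · rw [hnl] at h; exact ⟨nl, (Option.some.inj h).symm⟩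
        · left; exact h
    have c2W : Relation.ReflTransGen G.HR Z2 W := by
      refine phase_rewrite G ρ false Z2 W LZ2 LW oZ2 oW n (f n) (fM _ hnK) (by rw [gZ2]; simp)
        (by rw [gW]; simp) ?_
      intro i σ h
      have hi : i < Z2.length := by
        by_contra hc
        rw [List.getElem?_eq_none (by omega)] at h; exact absurd h (by simp)
      rw [gZ2] at h
      split_ifs at h with h1
      · obtain ⟨n', hn'⟩ := fN n
        right; exact ⟨n', by rw [← Option.some.inj h]; exact hn'⟩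
      · rw [gZ1] at h
        split_ifs at h with h2
        · obtain ⟨n', hn'⟩ := fN ℓ
          right; exact ⟨n', by rw [← Option.some.inj h]; exact hn'⟩
        · rcases cX i σ h with h3 | h3
          · exact Or.inr h3
          · left; rw [gW, if_pos (by omega)]; exact h3
    have cWV : G.HR W V1 := by
      refine ⟨?_, ρ, Or.inr (Or.inr (Or.inl ⟨pW, pV1⟩))⟩
      obtain ⟨n', hn'⟩ := fN n
      refine ⟨T3.take n, [], g n :: T3.drop (n+1), n', by simp, ?_, ?_⟩
      · rw [hW, hn']; simp
      · rw [hV1, List.set_eq_take_append_cons_drop]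
        rw [if_pos (by omega)]; simp
    have c12' : Relation.ReflTransGen G.HR V1 V2 := by
      refine phase_rewrite G ρ true V1 V2 LV1 LV2 oV1 oV2 n (g n) (gM _ hnK) (by rw [gV1]; simp) ?_ ?_
      · rw [gV2]; split_ifs with h
        · rw [h]
        · rw [gV1]; simp
      · intro i σ h
        rw [gV2]
        split_ifs with h1
        · right
          subst h1
          rw [gV1] at h
          split_ifs at h with h2
          · obtain ⟨n', hn'⟩ := gN n
            exact ⟨n', by rw [← Option.some.inj h]; exact hn'⟩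
          · have : T3[j]? = some (Symbol.nonterminal (.inl m0)) := by
              rw [hT3, List.getElem?_append, lC3]; simp
            rw [this] at h; exact ⟨_, (Option.some.inj h).symm⟩
        · left; exact h
    have c23 : Relation.ReflTransGen G.HR V2 V3 := by
      refine phase_rewrite G ρ true V2 V3 LV2 LV3 oV2 oV3 j (g j) (gM _ hjK) (by rw [gV2]; simp)
        (by rw [gV3]; simp) ?_
      intro i σ h
      rw [gV2] at h
      split_ifs at h with h1
      · obtain ⟨n', hn'⟩ := gN j
        right; exact ⟨n', by rw [← Option.some.inj h]; exact hn'⟩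
      · rw [gV1] at h
        split_ifs at h with h2
        · obtain ⟨n', hn'⟩ := gN n
          right; exact ⟨n', by rw [← Option.some.inj h]; exact hn'⟩
        · left; rw [gV3, if_neg h1]; exact h
    have cend : G.HR V3 ((G.Y ρ).map e) := by
      refine ⟨?_, ρ, Or.inr (Or.inr (Or.inr (Or.inr ⟨pV3, rfl⟩)))⟩
      obtain ⟨n', hn'⟩ := gN j
      refine ⟨C3, D3, [e (G.c ρ)], n', by simp, ?_, ?_⟩
      · rw [hV3, hT3, ← lC3, ← hn', lC3]
        rw [← lC3]; simp
      · simp [LData.Y, hC3, hD3]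
    exact (((c12.trans c2W).tail cWV).trans (c12'.trans c23)).tail cend

lemma simulate (m0 : N) (hm0 : ¬ lock m0) {w w' : List (Symbol T N)} (h : JStep G.R2 w w') :
    Relation.ReflTransGen (JStep G.HR) (w.map e) (w'.map e) := by
  obtain ⟨l, r, ⟨ρ, rfl, rfl⟩, u, v, u', v', rfl, rfl, huv⟩ := h
  obtain ⟨Z1, h1, h2⟩ := rule_chain G m0 hm0 ρ
  have s1 : JStep G.HR ((u ++ G.X ρ ++ v).map e) (u'.map e ++ Z1 ++ v'.map e) := by
    refine ⟨_, _, h1, u.map e, v.map e, u'.map e, v'.map e, by simp, rfl, ?_⟩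
    rw [← List.map_append, huv, List.map_append]
  have s2 := block_chain (u'.map e) (v'.map e) h2
  have : (u' ++ G.Y ρ ++ v').map e = u'.map (e : _ → Symbol T (N3 N R K)) ++ (G.Y ρ).map e ++ v'.map e := by simp
  rw [this]
  exact (Relation.ReflTransGen.single s1).trans s2

lemma complete (m0 : N) (hm0 : ¬ lock m0) {w w' : List (Symbol T N)}
    (h : Relation.ReflTransGen (JStep G.R2) w w') :
    Relation.ReflTransGen (JStep G.HR) (w.map e) (w'.map e) := by
  induction h with
  | refl => exact .refl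
  | tail _ h2 ih => exact ih.trans (simulate G m0 hm0 h2)


open Classical in
noncomputable def cnt (lock : N → Prop) (w : List (Symbol T N)) : ℕ := w.countP (fun σ => decide (isL lock σ))

lemma cnt_append (u v : List (Symbol T N)) : cnt lock (u ++ v) = cnt lock u + cnt lock v := by
  simp [cnt, List.countP_append]

lemma cnt_zero {u : List (Symbol T N)} : cnt lock u = 0 ↔ ∀ σ ∈ u, ¬ isL lock σ := by
  simp [cnt, List.countP_eq_zero]

open Classical in
lemma cnt_cons (σ : Symbol T N) (u : List (Symbol T N)) :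
    cnt lock (σ :: u) = (if isL lock σ then 1 else 0) + cnt lock u := by
  unfold cnt
  rw [List.countP_cons]
  split_ifs <;> simp_all <;> omega

lemma cnt_X (ρ : R) : cnt lock (G.X ρ) = 1 := by
  rw [LData.X, cnt_append, cnt_cons, cnt_zero.2 (G.hA ρ), cnt_zero.2 (G.hB ρ)]
  have : isL (T := T) lock (Symbol.nonterminal (G.a ρ)) := G.ha ρ
  rw [if_pos this]

lemma cnt_Y (ρ : R) : cnt lock (G.Y ρ) ≤ 1 := by
  rw [LData.Y, cnt_append, cnt_cons, cnt_zero.2 (G.hC ρ), cnt_zero.2 (G.hD ρ)]
  split_ifs <;> omega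

/-- soundness -/
lemma sound {w0 : List (Symbol T N)} (h0 : cnt lock w0 ≤ 1) {w : List (Symbol T (N3 N R K))}
    (h : Relation.ReflTransGen (JStep G.HR) (w0.map e) w) :
    (∃ g, w = g.map e ∧ Relation.ReflTransGen (JStep G.R2) w0 g ∧ cnt lock g ≤ 1) ∨
    (∃ ρ b u v u' v' Z, Relation.ReflTransGen (JStep G.R2) w0 (u ++ G.X ρ ++ v) ∧
      cnt lock (u ++ v) = 0 ∧ u ++ v = u' ++ v' ∧ w = u'.map e ++ Z ++ v'.map e ∧ G.Ph ρ b Z) := by
  induction h with
  | refl => exact Or.inl ⟨w0, rfl, .refl, h0⟩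
  | @tail w1 w2 _ hs ih =>
    obtain ⟨l, r, ⟨hcs, ρ, hρ⟩, p, q, p', q', hw1, hw2, hpq⟩ := hs
    rcases ih with ⟨g, rfl, hg, hc⟩ | ⟨ρ1, b1, u, v, u', v', Z, hg, hc, huv, rfl, hPh⟩
    · -- a form of the locked system
      have hnoPh : ∀ b, ¬ G.Ph ρ b l := by
        rintro b ⟨_, _, i, σ, hi, hK, rfl⟩
        have : mk ρ b ⟨i, hK⟩ ∈ g.map (e : _ → Symbol T (N3 N R K)) := by
          rw [hw1]; simp [List.mem_of_getElem? hi]
        obtain ⟨τ, _, hτ⟩ := List.mem_map.1 this
        exact e_ne_mk _ _ _ _ hτ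
      have hl : l = (G.X ρ).map e ∧ G.Ph ρ false r := by
        rcases hρ with h | h | h | h | h
        · exact h
        · exact absurd h.1 (hnoPh _)
        · exact absurd h.1 (hnoPh _)
        · exact absurd h.1 (hnoPh _)
        · exact absurd h.1 (hnoPh _)
      obtain ⟨rfl, hr⟩ := hl
      -- decompose g
      have h1 : g.map e = (p ++ (G.X ρ).map e) ++ q := hw1
      obtain ⟨g1, v1, rfl, hg1, hv1⟩ := List.map_eq_append_iff.1 h1
      obtain ⟨u1, x1, rfl, hu1, hx1⟩ := List.map_eq_append_iff.1 hg1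
      have hx : x1 = G.X ρ := by
        have : Function.Injective (e : Symbol T N → Symbol T (N3 N R K)) := fun s t h => e_inj h
        exact List.map_injective_iff.2 this hx1
      subst hx
      have h2 : (u1 ++ v1).map e = p' ++ q' := by
        rw [List.map_append, hu1, hv1, hpq]
      obtain ⟨u2, v2, h3, hu2, hv2⟩ := List.map_eq_append_iff.1 h2
      right
      refine ⟨ρ, false, u1, v1, u2, v2, r, hg, ?_, h3, ?_, hr⟩
      · rw [cnt_append, cnt_append, cnt_X] at hc
        rw [cnt_append]; omega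
      · rw [hw2, hu2, hv2]
    · -- intermediate form
      have hc' : cnt lock (u' ++ v') = 0 := by rw [← huv]; exact hc
      have hnu : ∀ σ ∈ u', ¬ isL lock σ := fun σ hσ => cnt_zero.1 hc' σ (by simp [hσ])
      have hnv : ∀ σ ∈ v', ¬ isL lock σ := fun σ hσ => cnt_zero.1 hc' σ (by simp [hσ])
      obtain ⟨hZl, hZo, hZm⟩ := hPh
      -- lookup in the current word
      have hlook : ∀ (i : ℕ) (σ : Symbol T (N3 N R K)),
          (u'.map e ++ Z ++ v'.map e)[i]? = some σ →
          nrm lock σ ∨ (∃ k, i = u'.length + k ∧ Z[k]? = some σ ∧ isMk ρ1 b1 k σ) := by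
        intro i σ hi
        rw [List.append_assoc, List.getElem?_append] at hi
        split_ifs at hi with h1
        · exact Or.inl (nrm_map hnu σ (List.mem_of_getElem? hi))
        · rw [List.getElem?_append] at hi
          split_ifs at hi with h2
          · rw [List.length_map] at hi h1
            rcases hZo _ σ hi with h3 | h3
            · exact Or.inl h3
            · right; exact ⟨i - u'.length, by omega, hi, h3⟩
          · exact Or.inl (nrm_map hnv σ (List.mem_of_getElem? hi))
      have hmem : ∀ σ ∈ l, nrm lock σ ∨ ∃ k, isMk ρ1 b1 k σ := by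
        intro σ hσ
        have : σ ∈ u'.map e ++ Z ++ v'.map e := by rw [hw1]; simp [hσ]
        obtain ⟨i, hi⟩ := List.mem_iff_getElem?.1 this
        rcases hlook i σ hi with h | ⟨k, _, _, h⟩
        · exact Or.inl h
        · exact Or.inr ⟨k, h⟩
      have hnotX : l ≠ (G.X ρ).map e := by
        rintro rfl
        have h1 : (e (Symbol.nonterminal (G.a ρ)) : Symbol T (N3 N R K)) ∈ (G.X ρ).map e :=
          List.mem_map_of_mem (by simp [LData.X])
        rcases hmem _ h1 with ⟨τ, hτ, h2⟩ | ⟨k, hk, h2⟩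
        · have := e_inj h2
          subst this
          exact hτ (G.ha ρ)
        · exact e_ne_mk _ _ _ _ h2
      have halign : ∀ b, G.Ph ρ b l → ρ = ρ1 ∧ b = b1 ∧ p = u'.map e ∧ l = Z ∧ q = v'.map e := by
        rintro b ⟨hll, _, i, σ, hi, hK, rfl⟩
        have h1 : (u'.map e ++ Z ++ v'.map e)[p.length + i]? = some (mk ρ b ⟨i, hK⟩) := by
          rw [hw1, List.append_assoc, List.getElem?_append_right (by omega),
            List.getElem?_append_left]
          · rw [Nat.add_sub_cancel_left]; exact hi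
          · rw [Nat.add_sub_cancel_left]
            by_contra hc2
            rw [List.getElem?_eq_none (by omega)] at hi; simp at hi
        rcases hlook _ _ h1 with ⟨τ, _, hτ⟩ | ⟨k, hk, _, hK', hmk⟩
        · exact absurd hτ.symm (e_ne_mk _ _ _ _)
        · simp only [mk, Symbol.nonterminal.injEq, Sum.inr.injEq, Prod.mk.injEq, Fin.mk.injEq] at hmk
          obtain ⟨rfl, rfl, rfl⟩ := hmk
          have hpl : p.length = (u'.map (e : _ → Symbol T (N3 N R K))).length := by
            rw [List.length_map]; omega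
          have h2 : (u'.map e ++ Z) ++ v'.map e = (p ++ l) ++ q := hw1
          have h3 := List.append_inj h2 (by rw [List.length_append, List.length_append, hpl, hll, hZl])
          have h4 := List.append_inj h3.1 hpl.symm
          exact ⟨rfl, rfl, h4.1.symm, h4.2.symm, h3.2.symm⟩
      -- split of the rest
      have hrest : (p = u'.map e ∧ q = v'.map e) → ∃ u2 v2, u' ++ v' = u2 ++ v2 ∧
          p' = u2.map e ∧ q' = v2.map e := by
        rintro ⟨rfl, rfl⟩
        have h2 : (u' ++ v').map e = p' ++ q' := by rw [List.map_append, hpq]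
        obtain ⟨u2, v2, h3, hu2, hv2⟩ := List.map_eq_append_iff.1 h2
        exact ⟨u2, v2, h3, hu2.symm, hv2.symm⟩
      have hcont : ∀ b b', G.Ph ρ b l → G.Ph ρ b' r →
          (∃ ρ b u v u' v' Z, Relation.ReflTransGen (JStep G.R2) w0 (u ++ G.X ρ ++ v) ∧
      cnt lock (u ++ v) = 0 ∧ u ++ v = u' ++ v' ∧ w2 = u'.map e ++ Z ++ v'.map e ∧ G.Ph ρ b Z) := by
        intro b b' hb hb'
        obtain ⟨rfl, rfl, hp, rfl, hq⟩ := halign b hb
        obtain ⟨u2, v2, h3, hu2, hv2⟩ := hrest ⟨hp, hq⟩
        refine ⟨ρ, b', u, v, u2, v2, r, hg, hc, by rw [huv, h3], ?_, hb'⟩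
        rw [hw2, hu2, hv2]
      rcases hρ with h | h | h | h | h
      · exact absurd h.1 hnotX
      · exact Or.inr (hcont _ _ h.1 h.2)
      · exact Or.inr (hcont _ _ h.1 h.2)
      · exact Or.inr (hcont _ _ h.1 h.2)
      · obtain ⟨rfl, rfl, hp, rfl, hq⟩ := halign _ h.1
        obtain ⟨u2, v2, h3, hu2, hv2⟩ := hrest ⟨hp, hq⟩
        left
        refine ⟨u2 ++ G.Y ρ ++ v2, ?_, hg.tail ⟨_, _, ⟨ρ, rfl, rfl⟩, u, v, u2, v2, rfl, rfl, by rw [huv, h3]⟩, ?_⟩
        · rw [hw2, hu2, hv2, h.2]; simp
        · rw [h3] at hc'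
          rw [cnt_append] at hc'
          rw [cnt_append, cnt_append]
          have := cnt_Y G ρ
          omega

/-- language equality -/
lemma language (m0 : N) (hm0 : ¬ lock m0) (s : N) (w : List T) :
    Relation.ReflTransGen (JStep G.HR) [e (Symbol.nonterminal s)] (w.map Symbol.terminal) ↔
    Relation.ReflTransGen (JStep G.R2) [Symbol.nonterminal s] (w.map Symbol.terminal) := by
  have he : (w.map Symbol.terminal : List (Symbol T N)).map (e : _ → Symbol T (N3 N R K)) =
      w.map Symbol.terminal := by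
    rw [List.map_map]; rfl
  constructor
  · intro h
    have h0 : cnt lock ([Symbol.nonterminal s] : List (Symbol T N)) ≤ 1 := by
      rw [cnt_cons]; have : cnt lock ([] : List (Symbol T N)) = 0 := by simp [cnt]
      split_ifs <;> omega
    rcases sound G h0 (w := w.map Symbol.terminal) (by simpa using h) with
      ⟨g, hg, h1, _⟩ | ⟨ρ, b, u, v, u', v', Z, _, _, _, hw, _, _, i, σ, hi, hK, rfl⟩
    · rw [← he] at hg
      have : Function.Injective (e : Symbol T N → Symbol T (N3 N R K)) := fun s t h => e_inj h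
      have := List.map_injective_iff.2 this hg
      rw [this]; exact h1
    · exfalso
      have : (mk ρ b ⟨i, hK⟩ : Symbol T (N3 N R K)) ∈ w.map Symbol.terminal := by
        rw [hw]; simp [List.mem_of_getElem? hi]
      obtain ⟨t, _, ht⟩ := List.mem_map.1 this
      simp [mk] at ht
  · intro h
    have := complete G m0 hm0 h
    rw [he] at this
    simpa using this

end Pool.Agent.H21.Jcs
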