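import Pool.Agent.H21.Jcs1
set_option autoImplicit false
set_option linter.all false
namespace Pool.Agent.H21.Jcs

/-- nonterminals of the locked system -/
inductive M2 (T N : Type) (K : ℕ)
  | pl (v : Symbol T N)
  | lk (v : Symbol T N)
  | fl (Y : {l : List (Symbol T (Symbol T N)) // l.length ≤ K})
  | pk (x : {l : List (Symbol T N) // l.length ≤ K})

variable {T N : Type} {K : ℕ}

instance [Finite T] [Finite N] : Finite (Symbol T N) := by
  have : Function.Injective (fun s : Symbol T N => match s with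
    | .terminal t => (Sum.inl t : T ⊕ N)
    | .nonterminal n => Sum.inr n) := by
    intro a b h; cases a <;> cases b <;> simp_all
  exact Finite.of_injective _ this

instance {α : Type} [Finite α] (K : ℕ) : Finite {l : List α // l.length ≤ K} :=
  (List.finite_length_le α K).to_subtype

instance [Finite T] [Finite N] : Finite (M2 T N K) := by
  have : Function.Injective (fun s : M2 T N K => match s with
    | .pl v => (Sum.inl v : Symbol T N ⊕ (Symbol T N ⊕
        ({l : List (Symbol T (Symbol T N)) // l.length ≤ K} ⊕ {l : List (Symbol T N) // l.length ≤ K})))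
    | .lk v => Sum.inr (Sum.inl v)
    | .fl Y => Sum.inr (Sum.inr (Sum.inl Y))
    | .pk x => Sum.inr (Sum.inr (Sum.inr x))) := by
    intro a b h; cases a <;> cases b <;> simp_all
  exact Finite.of_injective _ this

def lock2 : M2 T N K → Prop
  | .pl _ => False
  | _ => True

def pj : Symbol T (Symbol T N) → Symbol T N
  | .terminal t => .terminal t
  | .nonterminal v => v

def io : Symbol T (Symbol T N) → Symbol T (M2 T N K)
  | .terminal t => .terminal t
  | .nonterminal v => .nonterminal (.pl v)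

def plain (v : Symbol T N) : Symbol T (M2 T N K) := .nonterminal (.pl v)

abbrev nt (v : Symbol T N) : Symbol T (Symbol T N) := .nonterminal v

lemma io_inj {s t : Symbol T (Symbol T N)} (h : (io s : Symbol T (M2 T N K)) = io t) : s = t := by
  cases s <;> cases t <;> simp_all [io]

lemma io_inj' : Function.Injective (io : Symbol T (Symbol T N) → Symbol T (M2 T N K)) :=
  fun _ _ h => io_inj h

lemma io_nl (s : Symbol T (Symbol T N)) : ¬ isL lock2 (io s : Symbol T (M2 T N K)) := by
  cases s <;> simp [io, isL, lock2]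

lemma plain_nl (s : Symbol T N) : ¬ isL lock2 (plain s : Symbol T (M2 T N K)) := by
  simp [plain, isL, lock2]

lemma map_plain (x : List (Symbol T N)) :
    x.map (plain : _ → Symbol T (M2 T N K)) = (x.map nt).map io := by
  rw [List.map_map]; rfl

lemma pj_nt (x : List (Symbol T N)) : (x.map nt).map pj = x := by
  rw [List.map_map]; exact List.map_id x

lemma of_map_plain {u : List (Symbol T (Symbol T N))} {x : List (Symbol T N)}
    (h : u.map (io : _ → Symbol T (M2 T N K)) = x.map plain) : u = x.map nt := by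
  rw [map_plain] at h
  exact List.map_injective_iff.2 io_inj' h

/-- left-hand versions -/
def LH (x : List (Symbol T N)) (l : List (Symbol T (M2 T N K))) : Prop :=
  (∃ A0 s B0, x = A0 ++ s :: B0 ∧ l = A0.map plain ++ Symbol.nonterminal (.lk s) :: B0.map plain) ∨
  (∃ s B0, ∃ hx : x.length ≤ K, x = s :: B0 ∧ l = Symbol.nonterminal (.pk ⟨x, hx⟩) :: B0.map plain)

def RH (Y : List (Symbol T (Symbol T N))) (r : List (Symbol T (M2 T N K))) : Prop :=
  (∃ C0 s D0, Y = C0 ++ nt s :: D0 ∧ r = C0.map io ++ Symbol.nonterminal (.lk s) :: D0.map io) ∨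
  (∃ y0 D0, ∃ hY : Y.length ≤ K, Y = y0 :: D0 ∧ r = Symbol.nonterminal (.fl ⟨Y, hY⟩) :: D0.map io) ∨
  (Y ≠ [] ∧ r = Y.map io)

/-- rules of the locked system -/
def Rule2 (P : Set (List (Symbol T N) × List (Symbol T N))) (l r : List (Symbol T (M2 T N K))) : Prop :=
  (∃ x y Y, (x, y) ∈ P ∧ Y.map pj = y ∧ LH x l ∧ RH Y r) ∨
  (∃ y0 D0 s B0, ∃ (hY : (y0 :: D0).length ≤ K) (hx : (s :: B0).length ≤ K),
    l = Symbol.nonterminal (.fl ⟨y0 :: D0, hY⟩) :: D0.map io ++ (s :: B0).map plain ∧
    r = (y0 :: D0).map io ++ Symbol.nonterminal (.pk ⟨s :: B0, hx⟩) :: B0.map plain)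

lemma align {α : Type} (Q : α → Prop) : ∀ (u p v q : List α) (x y : α), (∀ σ ∈ u, ¬ Q σ) →
    (∀ σ ∈ v, ¬ Q σ) → Q y → u ++ x :: v = p ++ y :: q → u = p ∧ x = y ∧ v = q
  | [], [], v, q, x, y, _, _, _, h => by simp at h; exact ⟨rfl, h.1, h.2⟩
  | [], p0 :: p, v, q, x, y, _, hv, hy, h => by
    simp at h
    exact absurd hy (hv y (by rw [h.2]; simp))
  | u0 :: u, [], v, q, x, y, hu, _, hy, h => by
    simp at h
    exact absurd hy (by rw [← h.1]; exact hu u0 (by simp))
  | u0 :: u, p0 :: p, v, q, x, y, hu, hv, hy, h => by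
    simp at h
    obtain ⟨h1, h2, h3⟩ := align Q u p v q x y (fun σ hσ => hu σ (by simp [hσ])) hv hy h.2
    exact ⟨by rw [h.1, h1], h2, h3⟩

variable (P : Set (List (Symbol T N) × List (Symbol T N))) (S : N)

def GR (g : List (Symbol T N)) : Prop :=
  Relation.ReflTransGen (JStep (fun l r => (l, r) ∈ P)) [Symbol.nonterminal S] g

def Inv (w : List (Symbol T (M2 T N K))) : Prop :=
  (∃ (u : List (Symbol T (Symbol T N))) (s : Symbol T N) (v : List (Symbol T (Symbol T N))), w = u.map io ++ Symbol.nonterminal (.lk s) :: v.map io ∧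
    GR P S (u.map pj ++ s :: v.map pj)) ∨
  (∃ (y0 : Symbol T (Symbol T N)) (D0 u v : List (Symbol T (Symbol T N))), ∃ hY : (y0 :: D0).length ≤ K,
    w = u.map io ++ Symbol.nonterminal (.fl ⟨y0 :: D0, hY⟩) :: (D0 ++ v).map io ∧
    ∀ u' v', u' ++ v' = u ++ v → GR P S ((u' ++ (y0 :: D0) ++ v').map pj)) ∨
  (∃ (s : Symbol T N) (B0 : List (Symbol T N)) (u v : List (Symbol T (Symbol T N))), ∃ hx : (s :: B0).length ≤ K,
    w = u.map io ++ Symbol.nonterminal (.pk ⟨s :: B0, hx⟩) :: (B0.map nt ++ v).map io ∧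
    ∃ a b : List (Symbol T (Symbol T N)), a ++ b = u ++ v ∧ GR P S (a.map pj ++ (s :: B0) ++ b.map pj)) ∨
  (∃ u : List (Symbol T (Symbol T N)), w = u.map io ∧ GR P S (u.map pj))

lemma afterR {x y : List (Symbol T N)} {Y : List (Symbol T (Symbol T N))} (hP : (x, y) ∈ P)
    (hY : Y.map pj = y) {r : List (Symbol T (M2 T N K))} (hr : RH Y r)
    {a b u v : List (Symbol T (Symbol T N))} (hg : GR P S (a.map pj ++ x ++ b.map pj))
    (hab : a ++ b = u ++ v) : Inv P S (u.map io ++ r ++ v.map io) := by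
  have H : ∀ u' v', u' ++ v' = u ++ v → GR P S ((u' ++ Y ++ v').map pj) := by
    intro u' v' h
    refine Relation.ReflTransGen.tail hg ⟨x, y, hP, a.map pj, b.map pj, u'.map pj, v'.map pj, rfl, ?_, ?_⟩
    · simp [hY]
    · rw [← List.map_append, ← List.map_append, hab, h]
  rcases hr with ⟨C0, s, D0, rfl, rfl⟩ | ⟨y0, D0, hK, rfl, rfl⟩ | ⟨_, rfl⟩
  · left
    refine ⟨u ++ C0, s, D0 ++ v, by simp, ?_⟩
    have := H u v rfl
    simpa [pj] using this
  · right; left
    exact ⟨y0, D0, u, v, hK, by simp, H⟩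
  · right; right; right
    exact ⟨u ++ Y ++ v, by simp, H u v rfl⟩

lemma nl_map (u : List (Symbol T (Symbol T N))) :
    ∀ σ ∈ u.map (io : _ → Symbol T (M2 T N K)), ¬ isL lock2 σ := by
  intro σ hσ
  obtain ⟨τ, _, rfl⟩ := List.mem_map.1 hσ
  exact io_nl τ

lemma lock_lk (s : Symbol T N) : isL lock2 (Symbol.nonterminal (.lk s) : Symbol T (M2 T N K)) := trivial
lemma lock_pk (s) : isL lock2 (Symbol.nonterminal (.pk s) : Symbol T (M2 T N K)) := trivial
lemma lock_fl (s) : isL lock2 (Symbol.nonterminal (.fl s) : Symbol T (M2 T N K)) := trivial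

lemma split_rest {u v : List (Symbol T (Symbol T N))} {p q : List (Symbol T (M2 T N K))}
    (h : (u ++ v).map io = p ++ q) : ∃ u3 v3, u3 ++ v3 = u ++ v ∧ p = u3.map io ∧ q = v3.map io := by
  obtain ⟨u3, v3, h1, h2, h3⟩ := List.map_eq_append_iff.1 h
  exact ⟨u3, v3, h1.symm, h2.symm, h3.symm⟩

lemma inv_step {w w' : List (Symbol T (M2 T N K))} (hw : Inv P S w) (hs : JStep (Rule2 P) w w') :
    Inv P S w' := by
  obtain ⟨l, r, hR, p, q, p', q', rfl, rfl, hpq⟩ := hs
  rcases hR with ⟨x, y, Y, hP, hY, hl, hr⟩ | ⟨y0, D0, s, B0, hY, hx, rfl, rfl⟩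
  · rcases hl with ⟨A0, s, B0, rfl, rfl⟩ | ⟨s, B0, hx, rfl, rfl⟩
    · -- O rule
      have hre : ∀ (t : List (Symbol T (M2 T N K))), p ++ (A0.map plain ++ Symbol.nonterminal (.lk s) :: B0.map plain) ++ q
          = (p ++ A0.map plain) ++ Symbol.nonterminal (.lk s) :: (B0.map plain ++ q) := by intro t; simp
      have hre := hre []
      rw [hre] at hw
      rcases hw with ⟨u, s1, v, h, hg⟩ | ⟨y0, D0, u, v, hK, h, hg⟩ | ⟨s1, B1, u, v, hK, h, hg⟩ | ⟨u, h, hg⟩
      · obtain ⟨h1, h2, h3⟩ := align (isL lock2) _ _ _ _ _ _ (nl_map u) (nl_map v) (lock_lk s) h.symm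
        injection h2 with h2; injection h2 with h2; subst h2
        obtain ⟨u1, u2, rfl, hu1, hu2⟩ := List.map_eq_append_iff.1 h1
        obtain ⟨v1, v2, rfl, hv1, hv2⟩ := List.map_eq_append_iff.1 h3
        have hu2' := of_map_plain hu2
        have hv1' := of_map_plain hv1
        subst hu2' hv1'
        obtain ⟨u3, v3, h4, rfl, rfl⟩ := split_rest (u := u1) (v := v2) (p := p') (q := q')
          (by rw [List.map_append, hu1, hv2, hpq])
        refine afterR P S hP hY hr (a := u1) (b := v2) ?_ h4.symm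
        have : (A0.map nt).map pj = A0 := pj_nt A0
        have h5 : (B0.map nt).map pj = B0 := pj_nt B0
        rw [List.map_append, List.map_append, this, h5] at hg
        simpa using hg
      · obtain ⟨h1, h2, h3⟩ := align (isL lock2) _ _ _ _ _ _ (nl_map u) (nl_map _) (lock_lk s) h.symm
        simp at h2
      · obtain ⟨h1, h2, h3⟩ := align (isL lock2) _ _ _ _ _ _ (nl_map u) (nl_map _) (lock_lk s) h.symm
        simp at h2
      · exfalso
        have : (Symbol.nonterminal (.lk s) : Symbol T (M2 T N K)) ∈ u.map io := by rw [← h]; simp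
        exact nl_map u _ this (lock_lk s)
    · -- P rule
      have hre : p ++ (Symbol.nonterminal (.pk ⟨s :: B0, hx⟩) :: B0.map plain) ++ q
          = p ++ Symbol.nonterminal (.pk ⟨s :: B0, hx⟩) :: (B0.map plain ++ q) := by simp
      rw [hre] at hw
      rcases hw with ⟨u, s1, v, h, hg⟩ | ⟨y0, D0, u, v, hK, h, hg⟩ | ⟨s1, B1, u, v, hK, h, a, b, hab, hg⟩ | ⟨u, h, hg⟩
      · obtain ⟨h1, h2, h3⟩ := align (isL lock2) _ _ _ _ _ _ (nl_map u) (nl_map _) (lock_pk _) h.symm
        simp at h2
      · obtain ⟨h1, h2, h3⟩ := align (isL lock2) _ _ _ _ _ _ (nl_map u) (nl_map _) (lock_pk _) h.symm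
        simp at h2
      · obtain ⟨h1, h2, h3⟩ := align (isL lock2) _ _ _ _ _ _ (nl_map u) (nl_map _) (lock_pk _) h.symm
        simp at h2
        obtain ⟨rfl, rfl⟩ := h2
        rw [List.map_append, ← map_plain] at h3
        have h3' := List.append_cancel_left h3
        obtain ⟨u3, v3, h4, rfl, rfl⟩ := split_rest (u := u) (v := v) (p := p') (q := q')
          (by rw [List.map_append, h1, h3', hpq])
        exact afterR P S hP hY hr hg (by rw [hab, h4])
      · exfalso
        have : (Symbol.nonterminal (.pk ⟨s :: B0, hx⟩) : Symbol T (M2 T N K)) ∈ u.map io := by rw [← h]; simp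
        exact nl_map u _ this (lock_pk _)
  · -- T rule
    have hre : p ++ (Symbol.nonterminal (.fl ⟨y0 :: D0, hY⟩) :: D0.map io ++ (s :: B0).map plain) ++ q
        = p ++ Symbol.nonterminal (.fl ⟨y0 :: D0, hY⟩) :: (D0.map io ++ ((s :: B0).map plain ++ q)) := by simp
    rw [hre] at hw
    rcases hw with ⟨u, s1, v, h, hg⟩ | ⟨y1, D1, u, v, hK, h, hg⟩ | ⟨s1, B1, u, v, hK, h, a, b, hab, hg⟩ | ⟨u, h, hg⟩
    · obtain ⟨h1, h2, h3⟩ := align (isL lock2) _ _ _ _ _ _ (nl_map u) (nl_map _) (lock_fl _) h.symm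
      simp at h2
    · obtain ⟨h1, h2, h3⟩ := align (isL lock2) _ _ _ _ _ _ (nl_map u) (nl_map _) (lock_fl _) h.symm
      simp at h2
      obtain ⟨rfl, rfl⟩ := h2
      rw [List.map_append] at h3
      have h3' := List.append_cancel_left h3
      obtain ⟨v1, v2, rfl, hv1, hv2⟩ := List.map_eq_append_iff.1 h3'
      have hv1' := of_map_plain hv1
      subst hv1'
      obtain ⟨u3, v3, h4, rfl, rfl⟩ := split_rest (u := u) (v := v2) (p := p') (q := q')
        (by rw [List.map_append, h1, hv2, hpq])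
      right; right; left
      refine ⟨s, B0, u3 ++ (y1 :: D1), v3, hx, ?_, ?_⟩
      · rw [map_plain]; simp
      · rcases List.append_eq_append_iff.1 h4 with ⟨t, ht1, ht2⟩ | ⟨t, ht1, ht2⟩
        · -- u = u3 ++ t, v3 = t ++ v2
          subst ht1 ht2
          refine ⟨u3 ++ (y1 :: D1) ++ t, v2, by simp, ?_⟩
          have := hg u3 (t ++ ((s :: B0).map nt ++ v2)) (by simp)
          have h5 : ((s :: B0).map nt).map pj = s :: B0 := pj_nt _
          rw [List.map_append, List.map_append, List.map_append, List.map_append, h5] at this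
          simpa using this
        · subst ht1 ht2
          refine ⟨u, t ++ (y1 :: D1) ++ v3, by simp, ?_⟩
          have := hg (u ++ (s :: B0).map nt ++ t) v3 (by simp)
          have h5 : ((s :: B0).map nt).map pj = s :: B0 := pj_nt _
          simp only [List.map_append] at this
          rw [h5] at this
          simpa using this
    · obtain ⟨h1, h2, h3⟩ := align (isL lock2) _ _ _ _ _ _ (nl_map u) (nl_map _) (lock_fl _) h.symm
      simp at h2
    · exfalso
      have : (Symbol.nonterminal (.fl ⟨y0 :: D0, hY⟩) : Symbol T (M2 T N K)) ∈ u.map io := by rw [← h]; simp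
      exact nl_map u _ this (lock_fl _)

lemma sound2 (t : List T)
    (h : Relation.ReflTransGen (JStep (Rule2 P))
      ([Symbol.nonterminal (.lk (Symbol.nonterminal S))] : List (Symbol T (M2 T N K))) (t.map Symbol.terminal)) :
    GR P S (t.map Symbol.terminal) := by
  have key : ∀ w, Relation.ReflTransGen (JStep (Rule2 P))
      ([Symbol.nonterminal (.lk (Symbol.nonterminal S))] : List (Symbol T (M2 T N K))) w → Inv P S w := by
    intro w hw
    induction hw with
    | refl => left; exact ⟨[], _, [], rfl, .refl⟩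
    | tail _ h2 ih => exact inv_step P S ih h2
  have hnl : ∀ σ : Symbol T (M2 T N K), isL lock2 σ → σ ∉ (t.map Symbol.terminal : List (Symbol T (M2 T N K))) := by
    intro σ hσ hm
    obtain ⟨a, _, rfl⟩ := List.mem_map.1 hm
    exact hσ
  rcases key _ h with ⟨u, s1, v, h, hg⟩ | ⟨y0, D0, u, v, hK, h, hg⟩ | ⟨s1, B1, u, v, hK, h, hg⟩ | ⟨u, h, hg⟩
  · exact absurd (by rw [h]; simp) (hnl _ (lock_lk s1))
  · exact absurd (by rw [h]; simp) (hnl _ (lock_fl ⟨y0 :: D0, hK⟩))
  · exact absurd (by rw [h]; simp) (hnl _ (lock_pk ⟨s1 :: B1, hK⟩))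
  · have : u = t.map Symbol.terminal := by
      have h' : (t.map Symbol.terminal : List (Symbol T (Symbol T N))).map (io : _ → Symbol T (M2 T N K))
        = u.map io := by rw [← h, List.map_map]; rfl
      exact (List.map_injective_iff.2 io_inj' h').symm
    subst this
    have h2 : (t.map Symbol.terminal : List (Symbol T (Symbol T N))).map pj = t.map Symbol.terminal := by
      rw [List.map_map]; rfl
    rw [h2] at hg
    exact hg

end Pool.Agent.H21.Jcs
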