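import Pool.Agent.H21.Jcs2
set_option autoImplicit false
set_option linter.all false
namespace Pool.Agent.H21.Jcs

variable {T N : Type} {K : ℕ} (P : Set (List (Symbol T N) × List (Symbol T N)))

def D2 (K : ℕ) (t : List T) (w : List (Symbol T (M2 T N K))) : Prop :=
  Relation.ReflTransGen (JStep (Rule2 P)) w (t.map Symbol.terminal)

def Fin2 (K : ℕ) (t : List T) (u Y v : List (Symbol T (Symbol T N))) : Prop :=
  ∃ r, RH (K := K) Y r ∧ ∃ u0 v0, u0 ++ v0 = u ++ v ∧ D2 P K t (u0.map io ++ r ++ v0.map io)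

lemma rstep {t : List T} {x y : List (Symbol T N)} {Y : List (Symbol T (Symbol T N))}
    (hP : (x, y) ∈ P) (hY : Y.map pj = y) {a b : List (Symbol T (Symbol T N))}
    (hF : Fin2 P K t a Y b) {l : List (Symbol T (M2 T N K))} (hl : LH x l)
    {p q : List (Symbol T (Symbol T N))} (hpq : p ++ q = a ++ b) :
    D2 P K t (p.map io ++ l ++ q.map io) := by
  obtain ⟨r, hr, u0, v0, h0, hD⟩ := hF
  refine Relation.ReflTransGen.head ⟨l, r, Or.inl ⟨x, y, Y, hP, hY, hl, hr⟩, p.map io, q.map io,
    u0.map io, v0.map io, rfl, rfl, ?_⟩ hD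
  rw [← List.map_append, ← List.map_append, hpq, h0]

lemma fin_left {t : List T} {s : Symbol T N} {B0 y : List (Symbol T N)}
    {Yh : List (Symbol T (Symbol T N))}
    (hP : (s :: B0, y) ∈ P) (hY : Yh.map pj = y) (hx : (s :: B0).length ≤ K)
    {a' b' : List (Symbol T (Symbol T N))} (hF : Fin2 P K t a' Yh b')
    {y0 : Symbol T (Symbol T N)} {D0 : List (Symbol T (Symbol T N))}
    (hYK : (y0 :: D0).length ≤ K)
    {p q p' q' : List (Symbol T (Symbol T N))}
    (h1 : p ++ q = p' ++ q') (h2 : p' ++ (y0 :: D0) ++ q' = a' ++ b') :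
    D2 P K t (p.map io ++ (Symbol.nonterminal (.fl ⟨y0 :: D0, hYK⟩) :: D0.map io) ++
      ((s :: B0).map nt ++ q).map io) := by
  have hD : D2 P K t ((p' ++ (y0 :: D0)).map io ++ (Symbol.nonterminal (.pk ⟨s :: B0, hx⟩) :: B0.map plain)
      ++ q'.map io) :=
    rstep P hP hY hF (Or.inr ⟨s, B0, hx, rfl, rfl⟩) (by rw [← h2])
  refine Relation.ReflTransGen.head ⟨_, _, Or.inr ⟨y0, D0, s, B0, hYK, hx, rfl, rfl⟩, p.map io, q.map io,
    p'.map io, q'.map io, ?_, ?_, ?_⟩ hD
  · rw [map_plain]; simp
  · simp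
  · rw [← List.map_append, ← List.map_append, h1]

lemma complete_aux (t : List T) (hK : ∀ x y, (x, y) ∈ P → x.length ≤ K ∧ y.length ≤ K ∧ x ≠ [] ∧ y ≠ [])
    {g : List (Symbol T N)}
    (h : Relation.ReflTransGen (JStep (fun l r => (l, r) ∈ P)) g (t.map Symbol.terminal)) :
    ∃ gh : List (Symbol T (Symbol T N)), gh.map pj = g ∧
      ∀ u Y v, gh = u ++ Y ++ v → Y ≠ [] → Y.length ≤ K → Fin2 P K t u Y v := by
  induction h using Relation.ReflTransGen.head_induction_on with
  | refl =>
    refine ⟨t.map Symbol.terminal, by rw [List.map_map]; rfl, ?_⟩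
    intro u Y v hu hY _
    refine ⟨Y.map io, Or.inr (Or.inr ⟨hY, rfl⟩), u, v, rfl, ?_⟩
    have : u.map io ++ Y.map io ++ v.map io = (t.map Symbol.terminal : List (Symbol T (M2 T N K))) := by
      rw [← List.map_append, ← List.map_append, ← hu, List.map_map]; rfl
    rw [this]; exact .refl
  | @head g g' hs _ ih =>
    obtain ⟨x, y, hP, a, b, a', b', rfl, rfl, hab⟩ := hs
    obtain ⟨gh', hg', ih⟩ := ih
    obtain ⟨hxK, hyK, hx0, hy0⟩ := hK x y hP
    obtain ⟨g1, bh', rfl, hg1, hbh'⟩ := List.map_eq_append_iff.1 hg'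
    obtain ⟨ah', Yh, rfl, hah', hYh⟩ := List.map_eq_append_iff.1 hg1
    have hYh0 : Yh ≠ [] := by rintro rfl; exact hy0 hYh.symm
    have hF : Fin2 P K t ah' Yh bh' := ih ah' Yh bh' rfl hYh0 (by
      rw [← List.length_map (f := pj), hYh]; exact hyK)
    have hr : (ah' ++ bh').map pj = a ++ b := by rw [List.map_append, hah', hbh', hab]
    obtain ⟨ah, bh, hr2, hah, hbh⟩ := List.map_eq_append_iff.1 hr
    obtain ⟨s0, B00, rfl⟩ : ∃ s B, x = s :: B := by
      cases x with
      | nil => exact absurd rfl hx0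
      | cons s B => exact ⟨s, B, rfl⟩
    refine ⟨ah ++ (s0 :: B00).map nt ++ bh, ?_, ?_⟩
    · rw [List.map_append, List.map_append, hah, hbh, pj_nt]
    · intro u Y v hu hY hYK
      obtain ⟨y0, D0, rfl⟩ : ∃ y0 D0, Y = y0 :: D0 := by
        cases Y with
        | nil => exact absurd rfl hY
        | cons s B => exact ⟨s, B, rfl⟩
      -- left case
      have left : ∀ v1, ah = u ++ (y0 :: D0) ++ v1 → v = v1 ++ ((s0 :: B00).map nt ++ bh) →
          Fin2 P K t u (y0 :: D0) v := by
        intro v1 e1 e2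
        refine ⟨_, Or.inr (Or.inl ⟨y0, D0, hYK, rfl, rfl⟩), u ++ v1, (s0 :: B00).map nt ++ bh, by
          rw [e2]; simp, ?_⟩
        exact fin_left P hP hYh hxK hF hYK (p := u ++ v1) (q := bh) (p' := u) (q' := v1 ++ bh)
          (by simp) (by rw [hr2, e1]; simp)
      have right : ∀ u2, u = ah ++ (s0 :: B00).map nt ++ u2 → bh = u2 ++ (y0 :: D0) ++ v →
          Fin2 P K t u (y0 :: D0) v := by
        intro u2 e1 e2
        refine ⟨_, Or.inr (Or.inl ⟨y0, D0, hYK, rfl, rfl⟩), ah, (s0 :: B00).map nt ++ (u2 ++ v), by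
          rw [e1]; simp, ?_⟩
        exact fin_left P hP hYh hxK hF hYK (p := ah) (q := u2 ++ v) (p' := ah ++ u2) (q' := v)
          (by simp) (by rw [hr2, e2]; simp)
      have ovl : ∀ (A0 : List (Symbol T N)) (s : Symbol T N) (B0 : List (Symbol T N))
          (C0 D1 : List (Symbol T (Symbol T N))), s0 :: B00 = A0 ++ s :: B0 →
          y0 :: D0 = C0 ++ nt s :: D1 → u ++ C0 = ah ++ A0.map nt → D1 ++ v = B0.map nt ++ bh →
          Fin2 P K t u (y0 :: D0) v := by
        intro A0 s B0 C0 D1 e1 e2 e3 e4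
        refine ⟨_, Or.inl ⟨C0, s, D1, e2, rfl⟩, u, v, rfl, ?_⟩
        have := rstep P hP hYh hF (Or.inl ⟨A0, s, B0, e1, rfl⟩) (p := ah) (q := bh) (by rw [hr2])
        have h5 : u.map io ++ (C0.map io ++ Symbol.nonterminal (.lk s) :: D1.map io) ++ v.map io
            = ah.map io ++ (A0.map plain ++ Symbol.nonterminal (.lk s) :: B0.map plain) ++
              (bh.map io : List (Symbol T (M2 T N K))) := by
          have f1 : (u ++ C0).map io = ((ah ++ A0.map nt).map io : List (Symbol T (M2 T N K))) := by rw [e3]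
          have f2 : (D1 ++ v).map io = ((B0.map nt ++ bh).map io : List (Symbol T (M2 T N K))) := by rw [e4]
          rw [List.map_append, List.map_append] at f1 f2
          rw [map_plain, map_plain]
          calc _ = (u.map io ++ C0.map io) ++ Symbol.nonterminal (.lk s) :: (D1.map io ++ v.map io) := by simp
            _ = _ := by rw [f1, f2]; simp
        rw [h5]; exact this
      have hu' : ah ++ ((s0 :: B00).map nt ++ bh) = u ++ ((y0 :: D0) ++ v) := by
        rw [← List.append_assoc, hu]; simp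
      rcases List.append_eq_append_iff.1 hu' with ⟨c, hc1, hc2⟩ | ⟨c, hc1, hc2⟩
      · -- u = ah ++ c
        rcases List.append_eq_append_iff.1 hc2 with ⟨d, hd1, hd2⟩ | ⟨d, hd1, hd2⟩
        · -- c = x' ++ d
          exact right d (by rw [hc1, hd1]; simp) (by rw [hd2]; simp)
        · -- x' = c ++ d, Y ++ v = d ++ bh
          cases d with
          | nil =>
            exact right [] (by rw [hc1, hd1]; simp) (by simpa using hd2.symm)
          | cons d0 d1 =>
            obtain ⟨A0, x2, e1, e2, e3⟩ := List.map_eq_append_iff.1 hd1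
            obtain ⟨s, B0, rfl, e4, e5⟩ := List.map_eq_cons_iff.1 e3
            simp only [List.cons_append, List.cons.injEq] at hd2
            refine ovl A0 s B0 [] D0 e1 ?_ ?_ ?_
            · rw [hd2.1, ← e4]; rfl
            · rw [hc1, ← e2]; simp
            · rw [hd2.2, ← e5]
      · -- ah = u ++ c, Y ++ v = c ++ (x' ++ bh)
        rcases List.append_eq_append_iff.1 hc2 with ⟨d, hd1, hd2⟩ | ⟨d, hd1, hd2⟩
        · -- c = Y ++ d
          exact left d (by rw [hc1, hd1]; simp) (by rw [hd2])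
        · -- Y = c ++ d, x' ++ bh = d ++ v
          cases d with
          | nil =>
            refine left [] ?_ (by simpa using hd2.symm)
            rw [hc1, hd1]; simp
          | cons d0 d1 =>
            simp only [List.map_cons, List.cons_append, List.cons.injEq] at hd2
            refine ovl [] s0 B00 c d1 rfl ?_ ?_ ?_
            · rw [hd1, ← hd2.1]
            · rw [hc1]; simp
            · exact hd2.2.symm

lemma complete2 (S : N) (t : List T)
    (hK : ∀ x y, (x, y) ∈ P → x.length ≤ K ∧ y.length ≤ K ∧ x ≠ [] ∧ y ≠ [])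
    (h : GR P S (t.map Symbol.terminal)) :
    D2 P K t [Symbol.nonterminal (.lk (Symbol.nonterminal S))] := by
  rcases Relation.ReflTransGen.cases_head h with h0 | ⟨g', hs, h'⟩
  · exfalso
    cases t with
    | nil => simp at h0
    | cons a t => simp at h0
  · obtain ⟨x, y, hP, a, b, a', b', h1, rfl, hab⟩ := hs
    obtain ⟨hxK, hyK, hx0, hy0⟩ := hK x y hP
    have hlen := congrArg List.length h1
    simp only [List.length_append, List.length_singleton] at hlen
    have hx1 : 1 ≤ x.length := List.length_pos_iff.2 hx0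
    have ha : a = [] := List.length_eq_zero_iff.1 (by omega)
    have hb : b = [] := List.length_eq_zero_iff.1 (by omega)
    subst ha hb
    simp at h1 hab
    obtain ⟨rfl, rfl⟩ := hab
    subst h1
    obtain ⟨gh, hg, hF⟩ := complete_aux P t hK h'
    simp at hg
    have hgne : gh ≠ [] := by rintro rfl; exact hy0 (by simpa using hg.symm)
    have hF' := hF [] gh [] (by simp) hgne (by rw [← List.length_map (f := pj), hg]; exact hyK)
    have := rstep P hP hg hF' (l := [Symbol.nonterminal (.lk (Symbol.nonterminal S))])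
      (Or.inl ⟨[], Symbol.nonterminal S, [], rfl, rfl⟩) (p := []) (q := []) rfl
    simpa using this

end Pool.Agent.H21.Jcs
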