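import Pool.Agent.H21.Jcs3
set_option autoImplicit false
set_option linter.all false
namespace Pool.Agent.H21.Jcs

variable {T N : Type} {K : ℕ}

abbrev S2 (T N : Type) (K : ℕ) := Symbol T (M2 T N K)

/-- a tuple `(A, a, B, C, c, D)` coding a rule `A a B → C c D` -/
abbrev Tup (T N : Type) (K : ℕ) :=
  List (S2 T N K) × M2 T N K × List (S2 T N K) × List (S2 T N K) × S2 T N K × List (S2 T N K)

def IsR (P : Set (List (Symbol T N) × List (Symbol T N))) (p : Tup T N K) : Prop :=
  lock2 p.2.1 ∧ (∀ σ ∈ p.1, ¬ isL lock2 σ) ∧ (∀ σ ∈ p.2.2.1, ¬ isL lock2 σ) ∧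
  (∀ σ ∈ p.2.2.2.1, ¬ isL lock2 σ) ∧ (∀ σ ∈ p.2.2.2.2.2, ¬ isL lock2 σ) ∧
  p.1.length + 1 + p.2.2.1.length ≤ p.2.2.2.1.length + 1 + p.2.2.2.2.2.length ∧
  p.2.2.2.1.length + 1 + p.2.2.2.2.2.length ≤ 2 * K ∧
  (∀ (i : ℕ) σ, (p.1 ++ Symbol.nonterminal p.2.1 :: p.2.2.1)[i]? = some σ →
    (∃ n, σ = Symbol.nonterminal n) ∨
      (i ≠ p.2.2.2.1.length ∧ (p.2.2.2.1 ++ p.2.2.2.2.1 :: p.2.2.2.2.2)[i]? = some σ)) ∧
  (∃ n, (p.1 ++ Symbol.nonterminal p.2.1 :: p.2.2.1)[p.1.length + p.2.2.1.length]? =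
    some (Symbol.nonterminal n)) ∧
  Rule2 P (p.1 ++ Symbol.nonterminal p.2.1 :: p.2.2.1) (p.2.2.2.1 ++ p.2.2.2.2.1 :: p.2.2.2.2.2)

def Rt (K : ℕ) (P : Set (List (Symbol T N) × List (Symbol T N))) : Type := {p : Tup T N K // IsR P p}

instance [Finite T] [Finite N] (P : Set (List (Symbol T N) × List (Symbol T N))) : Finite (Rt K P) := by
  have h := List.finite_length_le (S2 T N K) (2 * K)
  have h2 := h.prod ((Set.finite_univ (α := M2 T N K)).prod (h.prod (h.prod ((Set.finite_univ (α := S2 T N K)).prod h))))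
  have h3 : {p : Tup T N K | IsR P p}.Finite := by
    refine h2.subset ?_
    rintro ⟨A, a, B, C, c, D⟩ ⟨_, _, _, _, _, h3, h4, _⟩
    simp only at h3 h4
    refine ⟨?_, trivial, ?_, ?_, trivial, ?_⟩ <;> (simp only [Set.mem_setOf_eq]; omega)
  exact h3.to_subtype

def GG (K : ℕ) (P : Set (List (Symbol T N) × List (Symbol T N))) :
    LData T (M2 T N K) lock2 (Rt K P) (2 * K) where
  A ρ := ρ.1.1
  a ρ := ρ.1.2.1
  B ρ := ρ.1.2.2.1
  C ρ := ρ.1.2.2.2.1
  c ρ := ρ.1.2.2.2.2.1
  D ρ := ρ.1.2.2.2.2.2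
  ha ρ := ρ.2.1
  hA ρ := ρ.2.2.1
  hB ρ := ρ.2.2.2.1
  hC ρ := ρ.2.2.2.2.1
  hD ρ := ρ.2.2.2.2.2.1
  hlen ρ := ρ.2.2.2.2.2.2.1
  hK ρ := ρ.2.2.2.2.2.2.2.1
  compat ρ := ρ.2.2.2.2.2.2.2.2.1
  last ρ := ρ.2.2.2.2.2.2.2.2.2.1

lemma nl_plain (x : List (Symbol T N)) :
    ∀ σ ∈ x.map (plain : _ → Symbol T (M2 T N K)), ¬ isL lock2 σ := by
  intro σ hσ
  obtain ⟨τ, _, rfl⟩ := List.mem_map.1 hσ
  exact plain_nl τ

lemma nt_plain (x : List (Symbol T N)) :
    ∀ σ ∈ x.map (plain : _ → Symbol T (M2 T N K)), ∃ n, σ = Symbol.nonterminal n := by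
  intro σ hσ
  obtain ⟨τ, _, rfl⟩ := List.mem_map.1 hσ
  exact ⟨_, rfl⟩

lemma LH_dec {x : List (Symbol T N)} {l : List (S2 T N K)} (h : LH x l) :
    ∃ A a B, l = A ++ Symbol.nonterminal a :: B ∧ lock2 a ∧ (∀ σ ∈ A, ¬ isL lock2 σ) ∧
      (∀ σ ∈ B, ¬ isL lock2 σ) ∧ (∀ σ ∈ l, ∃ n, σ = Symbol.nonterminal n) ∧ l.length = x.length := by
  rcases h with ⟨A0, s, B0, rfl, rfl⟩ | ⟨s, B0, hx, rfl, rfl⟩
  · refine ⟨_, _, _, rfl, trivial, nl_plain A0, nl_plain B0, ?_, by simp⟩
    intro σ hσ
    rcases List.mem_append.1 hσ with h | h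
    · exact nt_plain _ σ h
    · rcases List.mem_cons.1 h with rfl | h
      · exact ⟨_, rfl⟩
      · exact nt_plain _ σ h
  · refine ⟨[], _, _, rfl, trivial, by simp, nl_plain B0, ?_, by simp⟩
    intro σ h
    rcases List.mem_cons.1 h with rfl | h
    · exact ⟨_, rfl⟩
    · exact nt_plain _ σ h

lemma RH_dec {Y : List (Symbol T (Symbol T N))} {r : List (S2 T N K)} (h : RH Y r) :
    ∃ C c D, r = C ++ c :: D ∧ (∀ σ ∈ C, ¬ isL lock2 σ) ∧
      (∀ σ ∈ D, ¬ isL lock2 σ) ∧ r.length = Y.length := by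
  rcases h with ⟨C0, s, D0, rfl, rfl⟩ | ⟨y0, D0, hY, rfl, rfl⟩ | ⟨hY, rfl⟩
  · exact ⟨_, _, _, rfl, nl_map C0, nl_map D0, by simp⟩
  · exact ⟨[], _, _, rfl, by simp, nl_map D0, by simp⟩
  · cases Y with
    | nil => exact absurd rfl hY
    | cons y0 D0 => exact ⟨[], io y0, D0.map io, rfl, by simp, nl_map D0, by simp⟩

lemma R2_iff (P : Set (List (Symbol T N) × List (Symbol T N)))
    (hK : ∀ x y, (x, y) ∈ P → x.length ≤ y.length ∧ y.length ≤ K)
    (l r : List (S2 T N K)) : (GG K P).R2 l r ↔ Rule2 P l r := by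
  constructor
  · rintro ⟨ρ, rfl, rfl⟩
    exact ρ.2.2.2.2.2.2.2.2.2.2
  · intro h
    have h' := h
    rcases h with ⟨x, y, Y, hP, hY, hl, hr⟩ | ⟨y0, D0, s, B0, hY, hx, rfl, rfl⟩
    · obtain ⟨A, a, B, rfl, ha, hA, hB, hnt, hll⟩ := LH_dec hl
      obtain ⟨C, c, D, rfl, hC, hD, hrl⟩ := RH_dec hr
      obtain ⟨k1, k2⟩ := hK x y hP
      have hYl : Y.length = y.length := by rw [← hY, List.length_map]
      simp only [List.length_append, List.length_cons] at hll hrl
      refine ⟨⟨(A, a, B, C, c, D), ha, hA, hB, hC, hD, ?_, ?_, ?_, ?_, h'⟩, rfl, rfl⟩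
      · simp only; omega
      · simp only; omega
      · intro i σ hi
        exact Or.inl (hnt σ (List.mem_of_getElem? hi))
      · have hlt : A.length + B.length < (A ++ Symbol.nonterminal a :: B).length := by
          simp only [List.length_append, List.length_cons]; omega
        obtain ⟨n, hn⟩ := hnt _ (List.getElem_mem hlt)
        exact ⟨n, by simp only; rw [List.getElem?_eq_getElem hlt, hn]⟩
    · refine ⟨⟨([], .fl ⟨y0 :: D0, hY⟩, D0.map io ++ (s :: B0).map plain, (y0 :: D0).map io, Symbol.nonterminal (.pk ⟨s :: B0, hx⟩), B0.map plain), ?_, ?_, ?_, ?_, ?_, ?_, ?_, ?_, ?_, ?_⟩, ?_, ?_⟩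
      rotate_left 10
      · rfl
      · rfl
      · trivial
      · simp
      · intro σ hσ
        rcases List.mem_append.1 hσ with h | h
        · exact nl_map _ σ h
        · exact nl_plain _ σ h
      · exact nl_map _
      · exact nl_plain _
      · simp; omega
      · simp only [List.length_cons] at hY hx
        simp; omega
      · intro i σ hi
        simp only [List.nil_append] at hi
        cases i with
        | zero =>
          left; simp at hi; exact ⟨_, hi.symm⟩
        | succ k =>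
          rw [List.getElem?_cons_succ, List.getElem?_append] at hi
          split_ifs at hi with hk
          · right
            rw [List.length_map] at hk
            refine ⟨by simp; omega, ?_⟩
            simp only
            rw [List.getElem?_append_left (by simp; omega)]
            simpa using hi
          · left; exact nt_plain _ σ (List.mem_of_getElem? hi)
      · have hlt : D0.length + B0.length - (D0.map (io : _ → S2 T N K)).length < ((s :: B0).map (plain : _ → S2 T N K)).length := by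
          simp
        obtain ⟨n, hn⟩ := nt_plain (K := K) (s :: B0) _ (List.getElem_mem hlt)
        refine ⟨n, ?_⟩
        simp only [List.nil_append, List.length_nil, List.length_append, List.length_map, List.length_cons, Nat.zero_add]
        rw [← Nat.add_assoc, List.getElem?_cons_succ, List.getElem?_append_right (by simp)]
        rw [List.getElem?_eq_getElem hlt, hn]
      · simpa using h'

lemma HR_bound (P : Set (List (Symbol T N) × List (Symbol T N))) {l r}
    (h : (GG K P).HR l r) : l.length ≤ 2 * K ∧ r.length ≤ 2 * K := by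
  obtain ⟨_, ρ, h⟩ := h
  have hY : ((GG K P).Y ρ).length ≤ 2 * K := by
    have := (GG K P).hK ρ
    rw [LData.Y]; simp only [List.length_append, List.length_cons]; omega
  have hX : ((GG K P).X ρ).length ≤ 2 * K := by
    have := (GG K P).hlen ρ
    have := (GG K P).hK ρ
    rw [LData.X]; simp only [List.length_append, List.length_cons]; omega
  have hl : ∀ b, (GG K P).len ρ b ≤ 2 * K := by
    intro b; unfold LData.len; split_ifs <;> assumption
  have hph : ∀ b Z, (GG K P).Ph ρ b Z → Z.length ≤ 2 * K := fun b Z h => by rw [h.1]; exact hl b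
  rcases h with h | h | h | h | h
  · rw [h.1, List.length_map]; exact ⟨hX, hph _ _ h.2⟩
  · exact ⟨hph _ _ h.1, hph _ _ h.2⟩
  · exact ⟨hph _ _ h.1, hph _ _ h.2⟩
  · exact ⟨hph _ _ h.1, hph _ _ h.2⟩
  · rw [h.2, List.length_map]; exact ⟨hph _ _ h.1, hY⟩

/-- main statement -/
theorem main [Finite T] [Finite N] (S : N) (P : Finset (List (Symbol T N) × List (Symbol T N)))
    (hmon : ∀ r ∈ P, (∃ A : N, Symbol.nonterminal A ∈ r.1) ∧ r.1.length ≤ r.2.length) :
    ∃ (N' : Type) (_ : Fintype N') (S' : N') (P' : Finset (List (Symbol T N') × List (Symbol T N'))),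
      (∀ r ∈ P', CS r.1 r.2) ∧ ∀ w : List T,
      Relation.ReflTransGen (JStep (fun l r => (l, r) ∈ P)) [Symbol.nonterminal S] (w.map Symbol.terminal) ↔
      Relation.ReflTransGen (JStep (fun l r => (l, r) ∈ P')) [Symbol.nonterminal S'] (w.map Symbol.terminal) := by
  set K := P.sup (fun r => r.2.length) with hK0
  have hKy : ∀ x y, (x, y) ∈ P → y.length ≤ K := fun x y h => by
    have := Finset.le_sup (f := fun r : List (Symbol T N) × List (Symbol T N) => r.2.length) h
    exact this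
  have hb : ∀ x y, (x, y) ∈ (P : Set (List (Symbol T N) × List (Symbol T N))) →
      x.length ≤ y.length ∧ y.length ≤ K := fun x y h => ⟨(hmon _ h).2, hKy x y h⟩
  have hb2 : ∀ x y, (x, y) ∈ (P : Set (List (Symbol T N) × List (Symbol T N))) →
      x.length ≤ K ∧ y.length ≤ K ∧ x ≠ [] ∧ y ≠ [] := by
    intro x y h
    obtain ⟨⟨A, hA⟩, h2⟩ := hmon _ h
    have h1 := hb x y h
    have hx : x ≠ [] := by rintro rfl; simp at hA
    refine ⟨h1.1.trans h1.2, h1.2, hx, ?_⟩
    rintro rfl
    have := List.length_pos_iff.2 hx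
    have := h1.1
    simp at this; exact hx this
  let G := GG K (P : Set (List (Symbol T N) × List (Symbol T N)))
  let N' := N3 (M2 T N K) (Rt K (P : Set (List (Symbol T N) × List (Symbol T N)))) (2 * K)
  haveI : Finite N' := inferInstanceAs (Finite (_ ⊕ _))
  have hfin : {p : List (Symbol T N') × List (Symbol T N') | G.HR p.1 p.2}.Finite := by
    have h := List.finite_length_le (Symbol T N') (2 * K)
    refine (h.prod h).subset ?_
    rintro ⟨l, r⟩ h
    exact HR_bound _ h
  refine ⟨N', Fintype.ofFinite _, .inl (.lk (Symbol.nonterminal S)), hfin.toFinset, ?_, ?_⟩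
  · intro r hr
    exact ((hfin.mem_toFinset).1 hr).1
  · intro w
    have e1 : (JStep fun l r => (l, r) ∈ hfin.toFinset) = JStep G.HR := by
      have : (fun l r => (l, r) ∈ hfin.toFinset) = G.HR := by
        funext l r; simp
      rw [this]
    rw [e1]
    have h1 := language G (.pl (Symbol.nonterminal S)) (by simp [lock2]) (.lk (Symbol.nonterminal S)) w
    have e2 : JStep G.R2 = JStep (Rule2 (P : Set (List (Symbol T N) × List (Symbol T N)))) := by
      have : G.R2 = Rule2 (P : Set (List (Symbol T N) × List (Symbol T N))) := by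
        funext l r; exact propext (R2_iff _ hb l r)
      rw [this]
    rw [e2] at h1
    have e3 : (e (Symbol.nonterminal (M2.lk (Symbol.nonterminal S))) : Symbol T N') =
      Symbol.nonterminal (.inl (.lk (Symbol.nonterminal S))) := rfl
    rw [e3] at h1
    rw [h1]
    constructor
    · intro h
      exact complete2 _ S w hb2 h
    · intro h
      exact sound2 _ S w h

end Pool.Agent.H21.Jcs
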