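import Mathlib

namespace Pool.Agent.H21.Nitecki

/-- The achievement set of a sequence `x` of reals (indexed from `0`): the set of all sums
`∑_{j ∈ A} x j`, where `A` runs over all sets of indices. -/
def achievementSet (x : ℕ → ℝ) : Set ℝ :=
  {s | ∃ A : Set ℕ, s = ∑' j, A.indicator x j}

/-- The multigeometric sequence `(k₁, …, k_m; 1/n)`: its terms are
`k₁/n, …, k_m/n, k₁/n², …, k_m/n², k₁/n³, …`.  Term number `j` (with `j = 0, 1, 2, …`) is
`k_{(j mod m)+1} / n ^ (⌊j/m⌋ + 1)`; the `k_i` are indexed here by `Fin m`. -/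
noncomputable def multigeometric {m : ℕ} (hm : 0 < m) (k : Fin m → ℕ) (n : ℕ) (j : ℕ) : ℝ :=
  (k ⟨j % m, Nat.mod_lt j hm⟩ : ℝ) / (n : ℝ) ^ (j / m + 1)

/-- The set `Σ` of all (distinct) subsums of `k₁, …, k_m`. -/
def subsums {m : ℕ} (k : Fin m → ℕ) : Finset ℕ :=
  (Finset.univ : Finset (Finset (Fin m))).image (fun S => ∑ i ∈ S, k i)

end Pool.Agent.H21.Nitecki
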