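import Pool.Agent.H21.NiteckiDefs

open MeasureTheory
open scoped Pointwise

namespace Pool.Agent.H21.Nitecki

/-- the four integers -/
def kk : Fin 4 → ℕ := ![1, 8, 16, 16]

noncomputable def xx (j : ℕ) : ℝ := multigeometric (m := 4) (by norm_num) kk 12 j

lemma xx_block (b : ℕ) (i : Fin 4) : xx (4 * b + i) = (kk i : ℝ) / 12 ^ (b + 1) := by
  unfold xx multigeometric
  have h1 : (4 * b + (i : ℕ)) % 4 = i := by omega
  have h2 : (4 * b + (i : ℕ)) / 4 = b := by omega
  rw [h2]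
  have : (⟨(4 * b + (i : ℕ)) % 4, Nat.mod_lt _ (by norm_num)⟩ : Fin 4) = i := by
    ext; exact h1
  rw [this]
  norm_num

/-- finite sums using the first `4K` terms -/
def G (K : ℕ) : Set ℝ := {s | ∃ A : Finset ℕ, (∀ j ∈ A, j < 4 * K) ∧ s = ∑ j ∈ A, xx j}

lemma G_sub (K : ℕ) : G K ⊆ achievementSet xx := by
  rintro s ⟨A, -, rfl⟩
  refine ⟨(A : Set ℕ), ?_⟩
  rw [tsum_eq_sum (s := A)]
  · exact Finset.sum_congr rfl (fun j hj => by simp [hj])
  · intro j hj; simp [hj]

lemma G_step (K : ℕ) (s : ℝ) (hs : s ∈ G K) (T : Finset (Fin 4)) :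
    s + ((∑ i ∈ T, kk i : ℕ) : ℝ) / 12 ^ (K + 1) ∈ G (K + 1) := by
  obtain ⟨A, hA, rfl⟩ := hs
  let e : Fin 4 ↪ ℕ := ⟨fun i => 4 * K + i, fun i j h => by ext; simpa using h⟩
  refine ⟨A ∪ T.map e, ?_, ?_⟩
  · intro j hj
    rcases Finset.mem_union.1 hj with h | h
    · have := hA j h; omega
    · obtain ⟨i, -, rfl⟩ := Finset.mem_map.1 h
      have := i.2
      show 4 * K + (i : ℕ) < _
      omega
  · rw [Finset.sum_union]
    · congr 1
      rw [Finset.sum_map]
      push_cast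
      rw [Finset.sum_div]
      exact Finset.sum_congr rfl (fun i _ => (xx_block K i).symm)
    · rw [Finset.disjoint_left]
      intro j hj hj'
      obtain ⟨i, -, rfl⟩ := Finset.mem_map.1 hj'
      have := hA _ hj
      change 4 * K + (i : ℕ) < _ at this
      omega

/-- the digit lemma: every number `a + 8 c + 24 e` is a subsum. -/
lemma digit (a c e : ℕ) (ha : a < 2) (hc : c < 3) (he : e < 2) :
    ∃ T : Finset (Fin 4), ∑ i ∈ T, kk i = a + 8 * c + 24 * e := by
  have : ∀ a : Fin 2, ∀ c : Fin 3, ∀ e : Fin 2, ∃ T : Finset (Fin 4),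
      ∑ i ∈ T, kk i = (a : ℕ) + 8 * (c : ℕ) + 24 * (e : ℕ) := by decide
  simpa using this ⟨a, ha⟩ ⟨c, hc⟩ ⟨e, he⟩

lemma residue (N : ℤ) : ∃ (a c e : ℕ) (M : ℤ), a < 2 ∧ c < 3 ∧ e < 2 ∧
    N = a + 8 * c + 2 * e + 12 * M := by
  have h : ∀ r : Fin 12, ∃ a : Fin 2, ∃ c : Fin 3, ∃ e : Fin 2, ∃ q : Fin 2,
      ((a : ℕ) + 8 * (c : ℕ) + 2 * (e : ℕ)) = (r : ℕ) + 12 * (q : ℕ) := by decide
  have hr : (N % 12).toNat < 12 := by omega
  obtain ⟨a, c, e, q, h1⟩ := h ⟨(N % 12).toNat, hr⟩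
  refine ⟨a, c, e, N / 12 - q, a.2, c.2, e.2, ?_⟩
  simp only at h1
  omega

lemma key (K : ℕ) : ∀ N : ℤ, ∃ (z : ℤ) (s : ℝ) (e : ℕ), s ∈ G K ∧ e < 2 ∧
    (N : ℝ) / 12 ^ K = z + s + 2 * e / 12 ^ K := by
  induction K with
  | zero =>
    intro N
    refine ⟨N, 0, 0, ⟨∅, by simp, by simp⟩, by norm_num, by simp⟩
  | succ K ih =>
    intro N
    obtain ⟨a, c, e, M, ha, hc, he, hN⟩ := residue N
    obtain ⟨z, s, e', hs, he', h⟩ := ih M
    obtain ⟨T, hT⟩ := digit a c e' ha hc he'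
    refine ⟨z, s + ((∑ i ∈ T, kk i : ℕ) : ℝ) / 12 ^ (K + 1), e, G_step K s hs T, he, ?_⟩
    rw [hT]
    have hp : (12 : ℝ) ^ K ≠ 0 := by positivity
    rw [div_eq_iff hp] at h
    have hM : (M : ℝ) = (z + s) * 12 ^ K + 2 * e' := by
      rw [h]; field_simp
    rw [hN]
    push_cast
    rw [hM, pow_succ]
    field_simp
    ring

lemma key2 (K : ℕ) (N : ℤ) : ∃ (z : ℤ) (s : ℝ), s ∈ achievementSet xx ∧
    (N : ℝ) / 12 ^ K = z + s := by
  obtain ⟨z, s, e, hs, he, h⟩ := key K N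
  obtain ⟨T, hT⟩ := digit 0 0 e (by norm_num) (by norm_num) he
  refine ⟨z, _, G_sub _ (G_step K s hs T), ?_⟩
  rw [hT, h]
  push_cast
  rw [pow_succ]
  field_simp
  ring

lemma xx_bound (j : ℕ) : ‖xx j‖ ≤ 16 * (1 / 12 : ℝ) ^ (j / 4) := by
  unfold xx multigeometric
  have h : (kk ⟨j % 4, Nat.mod_lt j (by norm_num)⟩ : ℝ) ≤ 16 := by
    have : ∀ i : Fin 4, kk i ≤ 16 := by decide
    exact_mod_cast this _
  rw [Real.norm_of_nonneg (by positivity), one_div, inv_pow, ← div_eq_mul_inv]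
  push_cast
  apply div_le_div₀ (by norm_num) h (by positivity)
  exact pow_le_pow_right₀ (by norm_num) (by omega)

lemma xx_summable_bound : Summable (fun j : ℕ => 16 * (1 / 12 : ℝ) ^ (j / 4)) := by
  apply Summable.mul_left
  have h : ∀ j : ℕ, (1 / 12 : ℝ) ^ (j / 4) ≤ 5 * ((3 / 5 : ℝ)) ^ j := by
    intro j
    have h2 : ((3 / 5 : ℝ)) ^ (4 * (j / 4) + 3) ≤ ((3 / 5 : ℝ)) ^ j := by
      apply pow_le_pow_of_le_one (by norm_num) (by norm_num); omega
    have h3 : ((3 / 5 : ℝ)) ^ (4 * (j / 4) + 3) = (27 / 125) * ((81 / 625 : ℝ)) ^ (j / 4) := by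
      rw [pow_add, pow_mul]; norm_num [mul_comm]
    have h4 : (1 / 12 : ℝ) ^ (j / 4) ≤ (81 / 625 : ℝ) ^ (j / 4) :=
      pow_le_pow_left₀ (by norm_num) (by norm_num) _
    have h5 : (0 : ℝ) ≤ (81 / 625 : ℝ) ^ (j / 4) := by positivity
    nlinarith
  exact Summable.of_nonneg_of_le (fun j => by positivity) h
    ((summable_geometric_of_lt_one (by norm_num) (by norm_num)).mul_left 5)

lemma compactE : IsCompact (achievementSet xx) := by
  have h : achievementSet xx =
      Set.range (fun ε : ℕ → Bool => ∑' j, (if ε j then xx j else 0)) := by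
    ext s
    constructor
    · rintro ⟨A, rfl⟩
      classical
      refine ⟨fun j => decide (j ∈ A), ?_⟩
      refine tsum_congr (fun j => ?_)
      simp [Set.indicator_apply]
    · rintro ⟨ε, rfl⟩
      refine ⟨{j | ε j = true}, ?_⟩
      refine tsum_congr (fun j => ?_)
      simp [Set.indicator_apply]
  rw [h]
  apply isCompact_range
  apply continuous_tsum (u := fun j : ℕ => 16 * (1 / 12 : ℝ) ^ (j / 4))
  · intro j
    have : Continuous (fun b : Bool => if b then xx j else 0) := continuous_of_discreteTopology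
    exact this.comp (continuous_apply j)
  · exact xx_summable_bound
  · intro j ε
    split_ifs
    · exact xx_bound j
    · simp

lemma cover : (⋃ z : ℤ, (fun s : ℝ => (z : ℝ) + s) '' achievementSet xx) = Set.univ := by
  have hcl : IsClosed (Set.range ((↑) : ℤ → ℝ) + achievementSet xx) :=
    (Int.isClosedEmbedding_coe_real.isClosed_range).add_right_of_isCompact compactE
  have hsub : ∀ (K : ℕ) (N : ℤ), (N : ℝ) / 12 ^ K ∈ Set.range ((↑) : ℤ → ℝ) + achievementSet xx := by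
    intro K N
    obtain ⟨z, s, hs, h⟩ := key2 K N
    rw [h]
    exact Set.add_mem_add ⟨z, rfl⟩ hs
  have hall : Set.range ((↑) : ℤ → ℝ) + achievementSet xx = Set.univ := by
    apply Set.eq_univ_of_forall
    intro x
    have hlim : Filter.Tendsto (fun K : ℕ => ((⌊x * 12 ^ K⌋ : ℤ) : ℝ) / 12 ^ K) Filter.atTop
        (nhds x) := by
      have h0 : Filter.Tendsto (fun K : ℕ => ((1 / 12 : ℝ)) ^ K) Filter.atTop (nhds 0) :=
        tendsto_pow_atTop_nhds_zero_of_lt_one (by norm_num) (by norm_num)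
      have h1 : Filter.Tendsto (fun K : ℕ => x - ((1 / 12 : ℝ)) ^ K) Filter.atTop (nhds x) := by
        simpa using h0.const_sub x
      refine tendsto_of_tendsto_of_tendsto_of_le_of_le h1 tendsto_const_nhds ?_ ?_
      · intro K
        have hp : (0 : ℝ) < 12 ^ K := by positivity
        have := Int.lt_floor_add_one (x * 12 ^ K)
        show x - (1 / 12 : ℝ) ^ K ≤ _
        rw [le_div_iff₀ hp, sub_mul, one_div, inv_pow, inv_mul_cancel₀ hp.ne']
        linarith
      · intro K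
        have hp : (0 : ℝ) < 12 ^ K := by positivity
        show _ ≤ x
        rw [div_le_iff₀ hp]
        exact Int.floor_le _
    exact hcl.mem_of_tendsto hlim (Filter.Eventually.of_forall (fun K => hsub K _))
  apply Set.eq_univ_of_forall
  intro x
  have : x ∈ Set.range ((↑) : ℤ → ℝ) + achievementSet xx := by rw [hall]; trivial
  obtain ⟨_, ⟨z, rfl⟩, s, hs, rfl⟩ := Set.mem_add.1 this
  exact Set.mem_iUnion.2 ⟨z, s, hs, rfl⟩

lemma positive : 0 < volume (achievementSet xx) := by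
  rw [pos_iff_ne_zero]
  intro h0
  have : volume (⋃ z : ℤ, (fun s : ℝ => (z : ℝ) + s) '' achievementSet xx) = 0 := by
    apply measure_iUnion_null
    intro z
    rw [Set.image_add_left, measure_preimage_add, h0]
  rw [cover, Real.volume_univ] at this
  exact ENNReal.top_ne_zero this

end Pool.Agent.H21.Nitecki
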