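import Pool.Agent.H21.PrefTree

set_option autoImplicit false

namespace Pool.Agent.H21.Tree

open Pool.Agent.H21.Reg

variable {A σ : Type} {G : Type*} [Group G]

theorem pd_split (a b : ℕ) (x : List A) : pd (a + b) x = pd a x ++ pd b (x.drop a) := by
  unfold pd
  rw [List.range_add, List.map_append]
  congr 1
  rw [List.map_map]
  apply List.map_congr_left
  intro i _
  simp [List.getElem?_drop]

theorem pd_take_append {N : ℕ} {c X : List A} (h : N ≤ c.length) :
    pd N (c.take N ++ X) = pd N c := by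
  unfold pd
  apply List.map_congr_left
  intro i hi
  rw [List.mem_range] at hi
  rw [List.getElem?_append_left (by simp; omega), List.getElem?_take_of_lt hi]

theorem pd_succ_cons (n : ℕ) (b : A) (u : List A) : pd (n + 1) (b :: u) = some b :: pd n u := by
  unfold pd
  rw [List.range_succ_eq_map]
  simp [List.map_map, Function.comp_def]

theorem pd_succ_nil (n : ℕ) : pd (n + 1) ([] : List A) = none :: pd n [] := by
  unfold pd
  rw [List.range_succ_eq_map]
  simp [List.map_map, Function.comp_def]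

/-- one track of the block transducer -/
def tr (N : ℕ) : List A → List (Option (Bl A σ N)) → List (Option A)
  | p, [] => pd N p
  | p, none :: l => pd N p ++ tr N [] l
  | _, some b :: l => pd N b.2.1 ++ tr N (b.2.1.drop N) l

theorem tr_nil_pd (N : ℕ) (n : ℕ) : ∀ p : List A, p.length ≤ N →
    tr (σ := σ) N p (pd n []) = pd ((n + 1) * N) p := by
  induction n with
  | zero => intro p hp; simp [pd, tr]
  | succ n ih =>
    intro p hp
    rw [pd_succ_nil, tr, ih [] (by simp), show (n + 1 + 1) * N = N + (n + 1) * N by ring,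
      pd_split N ((n + 1) * N) p, List.drop_eq_nil_of_le hp]

theorem tr_pad {M : DFA A σ} {t : σ → List A} {N : ℕ} :
    ∀ (u : List (Bl A σ N)) (p : List A) (fst : Bool) (q : σ) (n : ℕ), acc M t N fst q u →
      p.length ≤ N → u.length ≤ n → (dec N p u).length ≤ (n + 1) * N ∧
      tr N p (pd n u) = pd ((n + 1) * N) (dec N p u) := by
  intro u
  induction u with
  | nil =>
    intro p fst q n _ hp _
    refine ⟨?_, tr_nil_pd N n p hp⟩
    simp only [dec]
    nlinarith [Nat.zero_le (n * N)]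
  | cons b u ih =>
    intro p fst q n h hp hn
    obtain ⟨n, rfl⟩ : ∃ n', n = n' + 1 := ⟨n - 1, by simp at hn; omega⟩
    have hb := b.2.2
    have hn' : u.length ≤ n := by simpa using hn
    rw [pd_succ_cons, tr, show (n + 1 + 1) * N = N + (n + 1) * N by ring]
    rw [acc_cons] at h
    obtain ⟨h1, h2, h3, h4, h5⟩ := h
    rcases h5 with rfl | ⟨h6, h7, h8⟩
    · refine ⟨?_, ?_⟩
      · simp only [dec, List.take_append_drop]
        nlinarith [Nat.zero_le (n * N)]
      · simp only [dec, List.take_append_drop]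
        rw [tr_nil_pd N n _ (by simp; omega), ← pd_split]
    · obtain ⟨i1, i2⟩ := ih (b.2.1.drop N) false _ n h8 (by simp; omega) hn'
      refine ⟨?_, ?_⟩
      · simp only [dec, List.length_append, List.length_take]
        omega
      · simp only [dec]
        rw [i2, pd_split, pd_take_append h6]
        congr 2
        rw [List.drop_append_of_le_length (by simp; omega)]
        simp

/-- the letter currently written -/
def cur {N : ℕ} (p : List A) : Option (Bl A σ N) → List A
  | none => p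
  | some b => b.2.1

/-- pending tail -/
def nxt {N : ℕ} (_p : List A) : Option (Bl A σ N) → List A
  | none => []
  | some b => b.2.1.drop N

theorem tr_cons (N : ℕ) (p : List A) (β : Option (Bl A σ N)) (l : List (Option (Bl A σ N))) :
    tr N p (β :: l) = pd N (cur p β) ++ tr N (nxt p β) l := by
  cases β <;> rfl

/-- states of the transducer -/
abbrev TS (A : Type) (N : ℕ) := {l : List A // l.length ≤ N}

theorem nxt_len {N : ℕ} (p : List A) (β : Option (Bl A σ N)) : (nxt p β).length ≤ N := by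
  cases β with
  | none => simp [nxt]
  | some b =>
    have := b.2.2
    simp only [nxt, List.length_drop]; omega

/-- pair run -/
def runP (N : ℕ) : TS A N × TS A N → List (Option (Bl A σ N) × Option (Bl A σ N)) →
    List (Option A × Option A)
  | s, [] => cv N s.1.1 s.2.1
  | s, β :: l => cv N (cur s.1.1 β.1) (cur s.2.1 β.2) ++
      runP N (⟨nxt s.1.1 β.1, nxt_len _ _⟩, ⟨nxt s.2.1 β.2, nxt_len _ _⟩) l

theorem runP_fst (N : ℕ) (l : List (Option (Bl A σ N) × Option (Bl A σ N))) :
    ∀ s : TS A N × TS A N, (runP N s l).map Prod.fst = tr N s.1.1 (l.map Prod.fst) := by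
  induction l with
  | nil => intro s; simp [runP, cv_fst, tr]
  | cons β l ih =>
    intro s
    rw [runP, List.map_append, cv_fst, ih, List.map_cons, tr_cons]

theorem runP_snd (N : ℕ) (l : List (Option (Bl A σ N) × Option (Bl A σ N))) :
    ∀ s : TS A N × TS A N, (runP N s l).map Prod.snd = tr N s.2.1 (l.map Prod.snd) := by
  induction l with
  | nil => intro s; simp [runP, cv_snd, tr]
  | cons β l ih =>
    intro s
    rw [runP, List.map_append, cv_snd, ih, List.map_cons, tr_cons]

theorem runP_reg [Finite A] (N : ℕ) {K : Language (Option A × Option A)} (h : K.IsRegular)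
    (s : TS A N × TS A N) :
    Language.IsRegular ({p | runP N s p ∈ K} :
      Language (Option (Bl A σ N) × Option (Bl A σ N))) := by
  have : Finite (TS A N) := (List.finite_length_le A N).to_subtype
  exact transd h (fun s β => (⟨nxt s.1.1 β.1, nxt_len _ _⟩, ⟨nxt s.2.1 β.2, nxt_len _ _⟩))
    (fun s β => cv N (cur s.1.1 β.1) (cur s.2.1 β.2)) (fun s => cv N s.1.1 s.2.1) (runP N)
    (fun _ => rfl) (fun _ _ _ => rfl) s

/-- transfer of relations to the block tree -/
theorem transfer [Finite A] [Finite σ] {M : DFA A σ} {t : σ → List A} {N : ℕ} {p₀ : List A}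
    (hp₀ : p₀.length ≤ N)
    {S : List A → List A → Prop} (hS : (Ext S).IsRegular) :
    (Ext (fun u v : List (Bl A σ N) => u ∈ (T M t N).accepts ∧ v ∈ (T M t N).accepts ∧
      S (dec N p₀ u) (dec N p₀ v))).IsRegular := by
  have := Fintype.ofFinite σ
  have hT : (T M t N).accepts.IsRegular := ⟨_, inferInstance, T M t N, rfl⟩
  have hac : ∀ u, u ∈ (T M t N).accepts ↔ acc M t N true M.start u := fun u => Iff.rfl
  have h := (runP_reg (σ := σ) N hS (⟨p₀, hp₀⟩, ⟨p₀, hp₀⟩)).inf
    ((comap (padL hT) (Prod.fst : Option (Bl A σ N) × Option (Bl A σ N) → _)).inf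
    (comap (padL hT) (Prod.snd : Option (Bl A σ N) × Option (Bl A σ N) → _)))
  have key : ∀ (n : ℕ) (u v : List (Bl A σ N)), acc M t N true M.start u →
      acc M t N true M.start v → u.length ≤ n → v.length ≤ n →
      (dec N p₀ u).length ≤ (n + 1) * N ∧ (dec N p₀ v).length ≤ (n + 1) * N ∧
      runP N (⟨p₀, hp₀⟩, ⟨p₀, hp₀⟩) (cv n u v) = cv ((n + 1) * N) (dec N p₀ u) (dec N p₀ v) := by
    intro n u v hu hv hun hvn
    obtain ⟨a1, a2⟩ := tr_pad u p₀ true M.start n hu hp₀ hun
    obtain ⟨b1, b2⟩ := tr_pad v p₀ true M.start n hv hp₀ hvn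
    refine ⟨a1, b1, eq_cv_of ?_ ?_⟩
    · rw [runP_fst, cv_fst]; exact a2
    · rw [runP_snd, cv_snd]; exact b2
  refine isReg_congr h (fun p => ?_)
  rw [mem_Ext]
  constructor
  · rintro ⟨u, v, ⟨h1, h2, h3⟩, hu, hv, hp⟩
    refine ⟨?_, ⟨u, h1, by simpa using hu, ?_⟩, ⟨v, h2, by simpa using hv, ?_⟩⟩
    · obtain ⟨k1, k2, k3⟩ := key p.length u v ((hac u).1 h1) ((hac v).1 h2) hu hv
      show runP N _ p ∈ Ext S
      rw [hp, k3, mem_Ext]
      exact ⟨_, _, h3, by simpa using k1, by simpa using k2, by simp⟩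
    · rw [List.length_map, ← cv_fst p.length u v, ← hp]
    · rw [List.length_map, ← cv_snd p.length u v, ← hp]
  · rintro ⟨h0, ⟨u, h1, hu, e1⟩, ⟨v, h2, hv, e2⟩⟩
    rw [List.length_map] at hu hv e1 e2
    have hp : p = cv p.length u v := eq_cv_of e1 e2
    obtain ⟨k1, k2, k3⟩ := key p.length u v ((hac u).1 h1) ((hac v).1 h2) hu hv
    refine ⟨u, v, ⟨h1, h2, ?_⟩, hu, hv, hp⟩
    have h0' : runP N (⟨p₀, hp₀⟩, ⟨p₀, hp₀⟩) p ∈ Ext S := h0
    rw [hp, k3, mem_Ext] at h0'
    obtain ⟨z, z', hz, l1, l2, e⟩ := h0'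
    simp only [cv_length] at l1 l2 e
    have ez : dec N p₀ u = z := by
      apply pd_inj k1 l1
      rw [← cv_fst _ (dec N p₀ u) (dec N p₀ v), e, cv_fst]
    have ez' : dec N p₀ v = z' := by
      apply pd_inj k2 l2
      rw [← cv_snd _ (dec N p₀ u) (dec N p₀ v), e, cv_snd]
    rw [ez, ez']; exact hz

/-- an automatic structure, in terms of regular languages of padded pairs -/
def IsAut {B : Type} (f : B → G) (L : Language B) : Prop :=
  L.IsRegular ∧ (∀ g : G, ∃ w ∈ L, ev f w = g) ∧
    (Ext (fun u v => u ∈ L ∧ v ∈ L ∧ ev f u = ev f v)).IsRegular ∧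
    ∀ b : B, (Ext (fun u v => u ∈ L ∧ v ∈ L ∧ ev f u * f b = ev f v)).IsRegular

theorem mulReg {f : A → G} {L : Language A} (h : IsAut f L) (g : G) :
    (Ext (fun u v => u ∈ L ∧ v ∈ L ∧ ev f u * g = ev f v)).IsRegular := by
  obtain ⟨h1, h2, h3, h4⟩ := h
  obtain ⟨w, -, rfl⟩ := h2 g
  induction w using List.reverseRecOn with
  | nil =>
    simpa [ev] using h3
  | append_singleton w a ih =>
    refine isReg_congr (comp ih (h4 a)) (fun p => ?_)
    have : (fun u v => u ∈ L ∧ v ∈ L ∧ ev f u * ev f (w ++ [a]) = ev f v) =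
        (fun u x => ∃ v, (u ∈ L ∧ v ∈ L ∧ ev f u * ev f w = ev f v) ∧
          (v ∈ L ∧ x ∈ L ∧ ev f v * f a = ev f x)) := by
      funext u x
      apply propext
      constructor
      · rintro ⟨hu, hx, he⟩
        obtain ⟨v, hv, hv2⟩ := h2 (ev f u * ev f w)
        refine ⟨v, ⟨hu, hv, hv2.symm⟩, hv, hx, ?_⟩
        rw [hv2, ← he, ev_append, mul_assoc]
        simp [ev]
      · rintro ⟨v, ⟨hu, hv, e1⟩, -, hx, e2⟩
        refine ⟨hu, hx, ?_⟩
        rw [← e2, ← e1, ev_append, mul_assoc]
        simp [ev]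
    rw [this]

theorem main [Finite A] (f : A → G) (L : Language A) (h : IsAut f L) :
    ∃ (B : Type) (_ : Finite B) (g : B → G) (L' : Language B), IsAut g L' ∧
      (∀ u v : List B, u ++ v ∈ L' → u ∈ L') ∧
      (∀ u ∈ L', ∀ v ∈ L', ev g u = ev g v → u = v) := by
  classical
  obtain ⟨L₁, hL₁, hsub, hsurj, huniq⟩ := exists_unique_reps (ev f) h.1 h.2.1 h.2.2.1
  obtain ⟨σ, hσ, M, rfl⟩ := hL₁
  obtain ⟨z₀, hz₀, hz₀1⟩ := hsurj 1
  -- choice of the words `t q`
  have hch : ∀ q : σ, ∃ w : List A, (∀ w', M.evalFrom q w' ∈ M.accept → M.evalFrom q w ∈ M.accept) ∧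
      (q = M.start → w = z₀) := by
    intro q
    by_cases hq : q = M.start
    · subst hq
      exact ⟨z₀, fun _ _ => hz₀, fun _ => rfl⟩
    · by_cases hw : ∃ w, M.evalFrom q w ∈ M.accept
      · obtain ⟨w, hw⟩ := hw
        exact ⟨w, fun _ _ => hw, fun h => absurd h hq⟩
      · exact ⟨[], fun w' h => absurd ⟨w', h⟩ hw, fun h => absurd h hq⟩
  choose t ht ht₀ using hch
  have ht₀' : t M.start = z₀ := ht₀ _ rfl
  obtain ⟨N, hN⟩ : ∃ N : ℕ, ∀ q, (t q).length < N := by
    refine ⟨(∑ q, (t q).length) + 1, fun q => ?_⟩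
    have := Finset.single_le_sum (f := fun q => (t q).length) (fun _ _ => Nat.zero_le _)
      (Finset.mem_univ q)
    omega
  have hfin : Finite {c : List A // c.length < 2 * N} :=
    (List.finite_length_lt A (2 * N)).to_subtype
  have hac : ∀ u, u ∈ (T M t N).accepts ↔ acc M t N true M.start u := fun u => Iff.rfl
  have hval : ∀ u ∈ (T M t N).accepts, ev (fB f t N) u = ev f (dec N z₀ u) := by
    intro u hu
    have := value (f := f) ((hac u).1 hu)
    rw [ht₀', hz₀1, inv_one, one_mul] at this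
    exact this
  have hmem : ∀ u ∈ (T M t N).accepts, dec N z₀ u ∈ M.accepts := by
    intro u hu
    by_cases hu0 : u = []
    · subst hu0; exact hz₀
    · exact dec_mem ((hac u).1 hu) hu0 z₀
  have hreg : ∀ g : G, (Ext (fun u v => u ∈ (T M t N).accepts ∧ v ∈ (T M t N).accepts ∧
      ev (fB f t N) u * g = ev (fB f t N) v)).IsRegular := by
    intro g
    have h1 := transfer (M := M) (t := t) (N := N) (p₀ := z₀) (by rw [← ht₀']; exact (hN _).le)
      (mulReg h g)
    refine isReg_congr h1 (fun p => ?_)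
    rw [mem_Ext, mem_Ext]
    constructor
    · rintro ⟨u, v, ⟨a, b, c⟩, d⟩
      refine ⟨u, v, ⟨a, b, hsub _ (hmem u a), hsub _ (hmem v b), ?_⟩, d⟩
      rw [← hval u a, ← hval v b]; exact c
    · rintro ⟨u, v, ⟨a, b, -, -, c⟩, d⟩
      refine ⟨u, v, ⟨a, b, ?_⟩, d⟩
      rw [hval u a, hval v b]; exact c
  refine ⟨Bl A σ N, inferInstance, fB f t N, (T M t N).accepts,
    ⟨⟨_, inferInstance, T M t N, rfl⟩, ?_, ?_, fun b => hreg _⟩, ?_, ?_⟩
  · intro g
    obtain ⟨z, hz, rfl⟩ := hsurj g
    obtain ⟨u, hu, hd⟩ := dec_surj' hN (fun q w hw => ht q w hw) M.start z hz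
    refine ⟨u, hu, ?_⟩
    rw [hval u hu, ← ht₀', hd]
  · have := hreg 1
    simpa using this
  · intro u v huv
    exact acc_prefix huv
  · intro u hu v hv he
    rw [hval u hu, hval v hv] at he
    have := huniq _ (hmem u hu) _ (hmem v hv) he
    rw [← ht₀'] at this
    exact dec_inj hN hu hv this

/-- conversion between automata on convolutions and `Ext` -/
theorem can_iff {B : Type} (R : List B → List B → Prop) :
    (∃ (σ : Type) (_ : Finite σ) (M : DFA (Option B × Option B) σ),
        ∀ p : List (Option B × Option B), p ∈ M.accepts ↔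
          ∃ u v, R u v ∧
            p = List.ofFn (fun i : Fin (max u.length v.length) => (u[(i : ℕ)]?, v[(i : ℕ)]?))) ↔
    (Ext R).IsRegular := by
  have hcv : ∀ u v : List B,
      List.ofFn (fun i : Fin (max u.length v.length) => (u[(i : ℕ)]?, v[(i : ℕ)]?)) =
      cv (max u.length v.length) u v := by
    intro u v
    apply List.ext_getElem
    · simp
    · intro i h1 h2
      simp [cv]
  constructor
  · rintro ⟨σ, hσ, M, hM⟩
    have := Fintype.ofFinite σ
    apply ext_of_can
    refine isReg_congr (K := M.accepts) ⟨σ, inferInstance, M, rfl⟩ (fun p => ?_)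
    rw [hM, mem_Can]
    simp only [hcv]
  · intro h
    obtain ⟨σ, hσ, M, hM⟩ := can_of_ext h
    refine ⟨σ, inferInstance, M, fun p => ?_⟩
    rw [hM, mem_Can]
    simp only [hcv]

end Pool.Agent.H21.Tree
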