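import Pool.Agent.H21.RegMin

set_option autoImplicit false

/-! The block tree: from an automatic structure with uniqueness to a prefix-closed one. -/

namespace Pool.Agent.H21.Tree

open Pool.Agent.H21.Reg

variable {A σ : Type} {G : Type*} [Group G]

/-- evaluation of words -/
def ev (f : A → G) (w : List A) : G := (w.map f).prod

theorem ev_append (f : A → G) (u v : List A) : ev f (u ++ v) = ev f u * ev f v := by
  simp [ev]

/-- new alphabet -/
abbrev Bl (A σ : Type) (N : ℕ) := σ × {c : List A // c.length < 2 * N}

variable (f : A → G) (M : DFA A σ) (t : σ → List A) (N : ℕ)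

/-- value of a new letter -/
def fB (b : Bl A σ N) : G := (ev f (t b.1))⁻¹ * ev f b.2.1

open Classical in
/-- transition function of the tree automaton -/
noncomputable def tstep : Option (Option (Bool × σ)) → Bl A σ N → Option (Option (Bool × σ))
  | some (some (fst, q)), b =>
    if b.1 = q ∧ M.evalFrom q b.2.1 ∈ M.accept ∧
        (fst = true → b.2.1 ≠ t q) ∧ (fst = false → N ≤ b.2.1.length) then
      if N ≤ b.2.1.length ∧ b.2.1 = b.2.1.take N ++ t (M.evalFrom q (b.2.1.take N)) then
        some (some (false, M.evalFrom q (b.2.1.take N)))
      else some none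
    else none
  | _, _ => none

/-- the tree automaton -/
noncomputable def T : DFA (Bl A σ N) (Option (Option (Bool × σ))) :=
  ⟨tstep M t N, some (some (true, M.start)), {s | s ≠ none}⟩

/-- acceptance from a running state -/
def acc (b : Bool) (q : σ) (u : List (Bl A σ N)) : Prop :=
  (T M t N).evalFrom (some (some (b, q))) u ≠ none

theorem evalFrom_none (u : List (Bl A σ N)) : (T M t N).evalFrom none u = none := by
  induction u with
  | nil => rfl
  | cons a u ih => rw [DFA.evalFrom_cons]; exact ih

theorem evalFrom_leaf (u : List (Bl A σ N)) :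
    (T M t N).evalFrom (some none) u ≠ none ↔ u = [] := by
  cases u with
  | nil => simp
  | cons a u =>
    rw [DFA.evalFrom_cons]
    show ¬ (T M t N).evalFrom none u = none ↔ _
    rw [evalFrom_none]
    simp

theorem acc_nil (b : Bool) (q : σ) : acc M t N b q [] := by simp [acc]

theorem acc_cons (fst : Bool) (q : σ) (b : Bl A σ N) (u : List (Bl A σ N)) :
    acc M t N fst q (b :: u) ↔
      b.1 = q ∧ M.evalFrom q b.2.1 ∈ M.accept ∧ (fst = true → b.2.1 ≠ t q) ∧
        (fst = false → N ≤ b.2.1.length) ∧
      (u = [] ∨ (N ≤ b.2.1.length ∧
        b.2.1 = b.2.1.take N ++ t (M.evalFrom q (b.2.1.take N)) ∧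
        acc M t N false (M.evalFrom q (b.2.1.take N)) u)) := by
  classical
  unfold acc
  rw [DFA.evalFrom_cons]
  show (T M t N).evalFrom (tstep M t N (some (some (fst, q))) b) u ≠ none ↔ _
  unfold tstep
  dsimp only
  by_cases h1 : b.1 = q ∧ M.evalFrom q b.2.1 ∈ M.accept ∧
        (fst = true → b.2.1 ≠ t q) ∧ (fst = false → N ≤ b.2.1.length)
  · rw [if_pos h1]
    by_cases h2 : N ≤ b.2.1.length ∧ b.2.1 = b.2.1.take N ++ t (M.evalFrom q (b.2.1.take N))
    · rw [if_pos h2]
      constructor
      · intro h
        exact ⟨h1.1, h1.2.1, h1.2.2.1, h1.2.2.2, Or.inr ⟨h2.1, h2.2, h⟩⟩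
      · rintro ⟨-, -, -, -, h | ⟨-, -, h⟩⟩
        · subst h; simp
        · exact h
    · rw [if_neg h2, evalFrom_leaf]
      constructor
      · intro h
        exact ⟨h1.1, h1.2.1, h1.2.2.1, h1.2.2.2, Or.inl h⟩
      · rintro ⟨-, -, -, -, h | ⟨h3, h4, h⟩⟩
        · exact h
        · exact absurd ⟨h3, h4⟩ h2
  · rw [if_neg h1, evalFrom_none]
    constructor
    · intro h; exact absurd rfl h
    · rintro ⟨a, b, c, d, -⟩
      exact absurd ⟨a, b, c, d⟩ h1

/-- decoding -/
def dec : List A → List (Bl A σ N) → List A
  | p, [] => p
  | _, b :: u => b.2.1.take N ++ dec (b.2.1.drop N) u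

variable {f M t N}

theorem acc_prefix {fst : Bool} {q : σ} {u v : List (Bl A σ N)}
    (h : acc M t N fst q (u ++ v)) : acc M t N fst q u := by
  unfold acc at *
  rw [DFA.evalFrom_of_append] at h
  intro h2
  rw [h2, evalFrom_none] at h
  exact h rfl

theorem value {fst : Bool} {q : σ} {u : List (Bl A σ N)} (h : acc M t N fst q u) :
    (u.map (fB f t N)).prod = (ev f (t q))⁻¹ * ev f (dec N (t q) u) := by
  induction u generalizing fst q with
  | nil => simp [dec]
  | cons b u ih =>
    rw [acc_cons] at h
    obtain ⟨h1, h2, -, -, h5⟩ := h
    rw [List.map_cons, List.prod_cons]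
    rcases h5 with rfl | ⟨h6, h7, h8⟩
    · simp [dec, fB, h1, List.take_append_drop]
    · rw [ih h8]
      have hd : b.2.1.drop N = t (M.evalFrom q (b.2.1.take N)) := by
        conv_lhs => rw [h7]
        rw [List.drop_append_of_le_length (by simp; omega)]
        simp
      have he : ev f b.2.1 = ev f (b.2.1.take N) * ev f (t (M.evalFrom q (b.2.1.take N))) := by
        rw [← ev_append, ← h7]
      simp only [dec, fB, h1, he, hd, ev_append]
      group

theorem dec_mem {fst : Bool} {q : σ} {u : List (Bl A σ N)} (h : acc M t N fst q u)
    (hu : u ≠ []) (p : List A) : M.evalFrom q (dec N p u) ∈ M.accept := by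
  induction u generalizing fst q p with
  | nil => exact absurd rfl hu
  | cons b u ih =>
    rw [acc_cons] at h
    obtain ⟨h1, h2, -, -, h5⟩ := h
    rcases h5 with rfl | ⟨h6, h7, h8⟩
    · simpa [dec, List.take_append_drop] using h2
    · by_cases hu' : u = []
      · subst hu'; simpa [dec, List.take_append_drop] using h2
      · simp only [dec]
        rw [DFA.evalFrom_of_append]
        exact ih h8 hu' _

theorem dec_len {q : σ} {u : List (Bl A σ N)} (h : acc M t N false q u)
    (hu : u ≠ []) (p : List A) : N ≤ (dec N p u).length := by
  cases u with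
  | nil => exact absurd rfl hu
  | cons b u =>
    rw [acc_cons] at h
    obtain ⟨-, -, -, h4, -⟩ := h
    have := h4 rfl
    simp only [dec, List.length_append, List.length_take]
    omega

theorem dec_inj (hN : ∀ q, (t q).length < N) {fst : Bool} {q : σ} {u v : List (Bl A σ N)}
    (hu : acc M t N fst q u) (hv : acc M t N fst q v) (h : dec N (t q) u = dec N (t q) v) :
    u = v := by
  -- a nonempty word never decodes to `t q`
  have aux : ∀ (fst : Bool) (q : σ) (w : List (Bl A σ N)), acc M t N fst q w → w ≠ [] →
      dec N (t q) w ≠ t q := by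
    intro fst q w hw hne he
    cases w with
    | nil => exact hne rfl
    | cons b w =>
      have hlen := hN q
      by_cases hw' : w = []
      · subst hw'
        rw [acc_cons] at hw
        simp only [dec, List.take_append_drop] at he
        cases fst with
        | true => exact hw.2.2.1 rfl he
        | false =>
          have := hw.2.2.2.1 rfl
          rw [he] at this; omega
      · rw [acc_cons] at hw
        obtain ⟨-, -, -, -, h5⟩ := hw
        rcases h5 with h5 | ⟨h6, -, -⟩
        · exact hw' h5
        · have : N ≤ (dec N (t q) (b :: w)).length := by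
            simp only [dec, List.length_append, List.length_take]; omega
          rw [he] at this; omega
  induction u generalizing fst q v with
  | nil =>
    by_contra hne
    exact aux fst q v hv (fun h => hne h.symm) h.symm
  | cons b u ih =>
    cases v with
    | nil => exact absurd h (aux fst q _ hu (by simp))
    | cons c v =>
      rw [acc_cons] at hu hv
      obtain ⟨h1, -, -, -, h5⟩ := hu
      obtain ⟨k1, -, -, -, k5⟩ := hv
      have hb := b.2.2
      have hc := c.2.2
      by_cases hu0 : u = []
      · by_cases hv0 : v = []
        · subst hu0 hv0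
          simp only [dec, List.take_append_drop] at h
          have : b = c := Prod.ext (h1.trans k1.symm) (Subtype.ext h)
          rw [this]
        · exfalso
          subst hu0
          rcases k5 with k5 | ⟨k6, k7, k8⟩
          · exact hv0 k5
          · have := dec_len k8 hv0 (c.2.1.drop N)
            have hl := congrArg List.length h
            simp only [dec, List.take_append_drop, List.length_append, List.length_take] at hl
            omega
      · rcases h5 with h5 | ⟨h6, h7, h8⟩
        · exact absurd h5 hu0
        by_cases hv0 : v = []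
        · exfalso
          subst hv0
          have := dec_len h8 hu0 (b.2.1.drop N)
          have hl := congrArg List.length h
          simp only [dec, List.take_append_drop, List.length_append, List.length_take] at hl
          omega
        · rcases k5 with k5 | ⟨k6, k7, k8⟩
          · exact absurd k5 hv0
          simp only [dec] at h
          obtain ⟨e1, e2⟩ := List.append_inj h (by simp; omega)
          rw [← e1] at k7 k8
          have hbc : b.2.1 = c.2.1 := by rw [h7, k7]
          rw [← hbc] at e2
          have hd : b.2.1.drop N = t (M.evalFrom q (b.2.1.take N)) := by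
            conv_lhs => rw [h7]
            rw [List.drop_append_of_le_length (by simp; omega)]
            simp
          rw [hd] at e2
          have := ih h8 k8 e2
          rw [this]
          congr 1
          exact Prod.ext (h1.trans k1.symm) (Subtype.ext hbc)

theorem dec_surj (hN : ∀ q, (t q).length < N)
    (ht : ∀ q w, M.evalFrom q w ∈ M.accept → M.evalFrom q (t q) ∈ M.accept) :
    ∀ (n : ℕ) (q : σ) (z : List A), z.length ≤ n → N ≤ z.length → M.evalFrom q z ∈ M.accept →
      ∀ fst : Bool, ∃ u : List (Bl A σ N), u ≠ [] ∧ acc M t N fst q u ∧ dec N (t q) u = z := by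
  intro n
  induction n using Nat.strong_induction_on with
  | _ n ih =>
    intro q z hzn hNz hz fst
    have hNpos : 0 < N := lt_of_le_of_lt (Nat.zero_le _) (hN q)
    by_cases hlt : z.length < 2 * N
    · refine ⟨[(q, ⟨z, hlt⟩)], by simp, ?_, by simp [dec, List.take_append_drop]⟩
      rw [acc_cons]
      refine ⟨rfl, hz, ?_, fun _ => hNz, Or.inl rfl⟩
      intro _ he
      have he' : z = t q := he
      have := hN q
      rw [← he'] at this; omega
    · push Not at hlt
      have hsplit : z.take N ++ z.drop N = z := List.take_append_drop _ _
      have hz2 : M.evalFrom (M.evalFrom q (z.take N)) (z.drop N) ∈ M.accept := by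
        rw [← DFA.evalFrom_of_append, hsplit]; exact hz
      obtain ⟨u, hu0, hu, hdec⟩ := ih (z.drop N).length (by simp; omega)
        (M.evalFrom q (z.take N)) (z.drop N) le_rfl (by simp; omega) hz2 false
      have hq1 := hN (M.evalFrom q (z.take N))
      have hlen : (z.take N ++ t (M.evalFrom q (z.take N))).length < 2 * N := by
        simp; omega
      have htake : (z.take N ++ t (M.evalFrom q (z.take N))).take N = z.take N := by
        rw [List.take_append_of_le_length (by simp; omega)]
        simp
      have hdrop : (z.take N ++ t (M.evalFrom q (z.take N))).drop N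
          = t (M.evalFrom q (z.take N)) := by
        rw [List.drop_append_of_le_length (by simp; omega)]
        simp
      have hNlen : N ≤ (z.take N ++ t (M.evalFrom q (z.take N))).length := by
        simp; omega
      refine ⟨(q, ⟨z.take N ++ t (M.evalFrom q (z.take N)), hlen⟩) :: u, by simp, ?_, ?_⟩
      · rw [acc_cons]
        refine ⟨rfl, ?_, ?_, fun _ => hNlen, Or.inr ⟨hNlen, ?_, ?_⟩⟩
        · show M.evalFrom q (z.take N ++ _) ∈ M.accept
          rw [DFA.evalFrom_of_append]
          exact ht _ _ hz2
        · intro _ he
          have he' : z.take N ++ t (M.evalFrom q (z.take N)) = t q := he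
          have := hN q
          rw [← he'] at this; omega
        · show z.take N ++ t (M.evalFrom q (z.take N)) = _
          simp only [htake]
        · simp only [htake]; exact hu
      · simp only [dec, htake, hdrop, hdec, hsplit]

theorem dec_surj' (hN : ∀ q, (t q).length < N)
    (ht : ∀ q w, M.evalFrom q w ∈ M.accept → M.evalFrom q (t q) ∈ M.accept)
    (q : σ) (z : List A) (hz : M.evalFrom q z ∈ M.accept) :
    ∃ u : List (Bl A σ N), acc M t N true q u ∧ dec N (t q) u = z := by
  by_cases h1 : N ≤ z.length
  · obtain ⟨u, -, hu, hd⟩ := dec_surj hN ht z.length q z le_rfl h1 hz true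
    exact ⟨u, hu, hd⟩
  · by_cases h2 : z = t q
    · exact ⟨[], acc_nil _ _ _ _ _, by simp [dec, h2]⟩
    · push Not at h1
      refine ⟨[(q, ⟨z, by omega⟩)], ?_, by simp [dec, List.take_append_drop]⟩
      rw [acc_cons]
      exact ⟨rfl, hz, fun _ => h2, fun h => by simp at h, Or.inl rfl⟩

end Pool.Agent.H21.Tree
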