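import Pool.Agent.H21.RegRel

set_option autoImplicit false

namespace Pool.Agent.H21.Reg

variable {A : Type}

theorem lex_snoc (r : A → A → Prop) : ∀ {x y : List A} (_ : x.length = y.length) (a b : A),
    List.Lex r (x ++ [a]) (y ++ [b]) ↔ List.Lex r x y ∨ (x = y ∧ r a b) := by
  intro x
  induction x with
  | nil =>
    intro y h a b
    have : y = [] := by simpa using h.symm
    subst this
    simp only [List.nil_append]
    constructor
    · intro h
      cases h with
      | rel h => exact Or.inr ⟨trivial, h⟩
      | cons h => cases h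
    · rintro (h | ⟨_, h⟩)
      · cases h
      · exact List.Lex.rel h
  | cons c x ih =>
    intro y h a b
    cases y with
    | nil => simp at h
    | cons d y =>
      have hl : x.length = y.length := by simpa using h
      simp only [List.cons_append]
      constructor
      · intro h
        cases h with
        | rel h => exact Or.inl (List.Lex.rel h)
        | cons h =>
          rcases (ih hl a b).1 h with h | ⟨h1, h2⟩
          · exact Or.inl (List.Lex.cons h)
          · exact Or.inr ⟨by rw [h1], h2⟩
      · rintro (h | ⟨h1, h2⟩)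
        · cases h with
          | rel h => exact List.Lex.rel h
          | cons h => exact List.Lex.cons ((ih hl a b).2 (Or.inl h))
        · simp only [List.cons.injEq] at h1
          obtain ⟨rfl, rfl⟩ := h1
          exact List.Lex.cons ((ih rfl a b).2 (Or.inr ⟨rfl, h2⟩))

theorem shortlex_reg (r : A → A → Prop) :
    ∃ K : Language (Option A × Option A), K.IsRegular ∧
      ∀ n u v, u.length ≤ n → v.length ≤ n → (cv n u v ∈ K ↔ List.Shortlex r u v) := by
  classical
  let step : Prop × Prop → Option A × Option A → Prop × Prop := fun s c =>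
    match c with
    | (some a, some b) => (s.1 ∨ (s.2 ∧ r a b), s.2 ∧ a = b)
    | (some _, none) => (False, False)
    | (none, some _) => (True, False)
    | (none, none) => s
  let N : DFA (Option A × Option A) (Prop × Prop) := ⟨step, (False, True), {s | s.1}⟩
  have key : ∀ (n : ℕ) (u v : List A),
      ((N.eval (cv n u v)).1 ↔ List.Shortlex r (u.take n) (v.take n)) ∧
      ((N.eval (cv n u v)).2 ↔ u.take n = v.take n) := by
    intro n
    induction n with
    | zero =>
      intro u v
      simp [cv, N, DFA.eval, List.shortlex_def]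
    | succ n ih =>
      intro u v
      obtain ⟨h1, h2⟩ := ih u v
      have e : cv (n + 1) u v = cv n u v ++ [(u[n]?, v[n]?)] := by
        simp [cv, List.range_succ]
      rw [e, DFA.eval_append_singleton]
      rcases hu : u[n]? with _ | a <;> rcases hv : v[n]? with _ | b
      · have hu' := List.getElem?_eq_none_iff.1 hu
        have hv' := List.getElem?_eq_none_iff.1 hv
        rw [List.take_of_length_le (show u.length ≤ n + 1 by omega),
          List.take_of_length_le (show v.length ≤ n + 1 by omega)]
        rw [List.take_of_length_le hu', List.take_of_length_le hv'] at h1 h2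
        exact ⟨h1, h2⟩
      · have hu' := List.getElem?_eq_none_iff.1 hu
        have hv' : n < v.length := by
          by_contra hc
          rw [List.getElem?_eq_none (by omega)] at hv
          cases hv
        have hlt : (u.take (n + 1)).length < (v.take (n + 1)).length := by
          simp; omega
        constructor
        · show True ↔ _
          exact ⟨fun _ => List.Shortlex.of_length_lt hlt, fun _ => trivial⟩
        · show False ↔ _
          refine ⟨False.elim, fun h => ?_⟩
          rw [h] at hlt; omega
      · have hv' := List.getElem?_eq_none_iff.1 hv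
        have hu' : n < u.length := by
          by_contra hc
          rw [List.getElem?_eq_none (by omega)] at hu
          cases hu
        have hlt : (v.take (n + 1)).length < (u.take (n + 1)).length := by
          simp; omega
        constructor
        · show False ↔ _
          refine ⟨False.elim, fun h => ?_⟩
          rw [List.shortlex_def] at h
          omega
        · show False ↔ _
          refine ⟨False.elim, fun h => ?_⟩
          rw [h] at hlt; omega
      · have hv' : n < v.length := by
          by_contra hc
          rw [List.getElem?_eq_none (by omega)] at hv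
          cases hv
        have hu' : n < u.length := by
          by_contra hc
          rw [List.getElem?_eq_none (by omega)] at hu
          cases hu
        have eu : u.take (n + 1) = u.take n ++ [a] := by rw [List.take_add_one, hu]; rfl
        have ev : v.take (n + 1) = v.take n ++ [b] := by rw [List.take_add_one, hv]; rfl
        have hl : (u.take n).length = (v.take n).length := by simp; omega
        rw [eu, ev]
        constructor
        · show ((N.eval (cv n u v)).1 ∨ ((N.eval (cv n u v)).2 ∧ r a b)) ↔ _
          rw [h1, h2, List.shortlex_iff_lex hl, List.shortlex_iff_lex (by simp; omega),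
            lex_snoc r hl]
        · show ((N.eval (cv n u v)).2 ∧ a = b) ↔ _
          rw [h2]
          constructor
          · rintro ⟨h, rfl⟩; rw [h]
          · intro h
            obtain ⟨h3, h4⟩ := List.append_inj' h rfl
            exact ⟨h3, by simpa using h4⟩
  refine ⟨N.accepts, ⟨_, inferInstance, N, rfl⟩, ?_⟩
  intro n u v hu hv
  have := (key n u v).1
  rw [List.take_of_length_le hu, List.take_of_length_le hv] at this
  exact this

/-- passing to unique representatives -/
theorem exists_unique_reps [Finite A] {G : Type*} (ev : List A → G) {L : Language A}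
    (hL : L.IsRegular) (hs : ∀ g, ∃ w ∈ L, ev w = g)
    (hE : (Ext (fun u v => u ∈ L ∧ v ∈ L ∧ ev u = ev v)).IsRegular) :
    ∃ L' : Language A, L'.IsRegular ∧ (∀ w ∈ L', w ∈ L) ∧ (∀ g, ∃ w ∈ L', ev w = g) ∧
      (∀ u ∈ L', ∀ v ∈ L', ev u = ev v → u = v) := by
  classical
  obtain ⟨n, ⟨e⟩⟩ := Finite.exists_equiv_fin A
  let r : A → A → Prop := fun a b => e a < e b
  have hrt : Std.Trichotomous r := ⟨by
    intro a b h1 h2
    have h1' : ¬ e a < e b := h1
    have h2' : ¬ e b < e a := h2
    exact e.injective (le_antisymm (not_lt.1 h2') (not_lt.1 h1'))⟩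
  have hwf : WellFounded r := InvImage.wf e (wellFounded_lt)
  obtain ⟨K, hK, hKs⟩ := shortlex_reg r
  have hE2 : (Ext (fun u v => (u ∈ L ∧ v ∈ L ∧ ev u = ev v) ∧ List.Shortlex r u v)).IsRegular := by
    refine isReg_congr (hE.inf hK) (fun p => ?_)
    show _ ↔ p ∈ Ext _ ∧ p ∈ K
    rw [mem_Ext, mem_Ext]
    constructor
    · rintro ⟨u, v, ⟨h1, h2⟩, hu, hv, hp⟩
      refine ⟨⟨u, v, h1, hu, hv, hp⟩, ?_⟩
      rw [hp]; exact (hKs _ u v hu hv).2 h2
    · rintro ⟨⟨u, v, h1, hu, hv, hp⟩, h2⟩
      refine ⟨u, v, ⟨h1, ?_⟩, hu, hv, hp⟩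
      rw [hp] at h2; exact (hKs _ u v hu hv).1 h2
  have hbad := snd_regular hE2
  let Bad : Language A := {v | ∃ u, (u ∈ L ∧ v ∈ L ∧ ev u = ev v) ∧ List.Shortlex r u v}
  have hmem : ∀ w, w ∈ L ⊓ Badᶜ ↔ w ∈ L ∧ ¬ ∃ u, (u ∈ L ∧ w ∈ L ∧ ev u = ev w) ∧
    List.Shortlex r u w := fun w => Iff.rfl
  refine ⟨L ⊓ Badᶜ, hL.inf hbad.compl, fun w h => h.1, ?_, ?_⟩
  · intro g
    have hne : {w | w ∈ L ∧ ev w = g}.Nonempty := by
      obtain ⟨w, h1, h2⟩ := hs g; exact ⟨w, h1, h2⟩
    have hw := List.Shortlex.wf hwf
    obtain ⟨w0, hw0, hmin⟩ : ∃ w0 ∈ {w | w ∈ L ∧ ev w = g}, ∀ u ∈ {w | w ∈ L ∧ ev w = g},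
        ¬ List.Shortlex r u w0 := hw.has_min _ hne
    refine ⟨w0, (hmem w0).2 ⟨hw0.1, ?_⟩, hw0.2⟩
    rintro ⟨u, ⟨h1, h2, h3⟩, h4⟩
    exact hmin u ⟨h1, by rw [h3]; exact hw0.2⟩ h4
  · intro u hu v hv he
    obtain ⟨hu, hu'⟩ := (hmem u).1 hu
    obtain ⟨hv, hv'⟩ := (hmem v).1 hv
    by_contra hne
    by_cases h1 : List.Shortlex r u v
    · exact hv' ⟨u, ⟨hu, hv, he⟩, h1⟩
    · by_cases h2 : List.Shortlex r v u
      · exact hu' ⟨v, ⟨hv, hu, he.symm⟩, h2⟩
      · exact hne ((List.Shortlex.trichotomous (r := r)).trichotomous u v h1 h2)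

end Pool.Agent.H21.Reg
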