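import Pool.Agent.H21.RegMin

set_option autoImplicit false

namespace Pool.Agent.H21.Reg

variable {A C : Type}

theorem nilReg : Language.IsRegular ({p | p = []} : Language C) := by
  classical
  let N : DFA C Prop := ⟨fun _ _ => False, True, {s | s}⟩
  refine ⟨Prop, inferInstance, N, ?_⟩
  ext p
  show N.eval p ↔ p = []
  induction p using List.reverseRecOn with
  | nil => simp [N, DFA.eval]
  | append_singleton p x ih =>
    rw [DFA.eval_append_singleton]
    show False ↔ _
    simp

theorem appendLetter {K : Language C} (h : K.IsRegular) (c : C) :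
    Language.IsRegular ({p | ∃ w ∈ K, p = w ++ [c]} : Language C) := by
  classical
  obtain ⟨σ, _, M, rfl⟩ := h
  let N : DFA C (σ × Prop) := ⟨fun s x => (M.step s.1 x, x = c ∧ s.1 ∈ M.accept),
    (M.start, False), {s | s.2}⟩
  have key : ∀ p : List C, (N.eval p).1 = M.eval p ∧
      ((N.eval p).2 ↔ ∃ w ∈ M.accepts, p = w ++ [c]) := by
    intro p
    induction p using List.reverseRecOn with
    | nil => simp [N, DFA.eval]
    | append_singleton p x ih =>
      rw [DFA.eval_append_singleton, DFA.eval_append_singleton]
      refine ⟨by rw [← ih.1], ?_⟩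
      show (x = c ∧ (N.eval p).1 ∈ M.accept) ↔ _
      rw [ih.1]
      constructor
      · rintro ⟨rfl, h⟩; exact ⟨p, h, rfl⟩
      · rintro ⟨w, hw, h⟩
        obtain ⟨h1, h2⟩ := List.append_inj' h rfl
        subst h1
        exact ⟨by simpa using h2, hw⟩
  refine ⟨σ × Prop, inferInstance, N, ?_⟩
  ext p
  exact (key p).2

theorem appendWord {K : Language C} (h : K.IsRegular) (v : List C) :
    Language.IsRegular ({p | ∃ w ∈ K, p = w ++ v} : Language C) := by
  induction v using List.reverseRecOn with
  | nil => exact isReg_congr h (fun p => by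
      constructor
      · rintro ⟨w, hw, h⟩; rw [h, List.append_nil]; exact hw
      · intro hp; exact ⟨p, hp, by simp⟩)
  | append_singleton v x ih =>
    refine isReg_congr (appendLetter ih x) (fun p => ?_)
    constructor
    · rintro ⟨w, hw, h⟩
      exact ⟨w ++ v, ⟨w, hw, rfl⟩, by rw [h, List.append_assoc]⟩
    · rintro ⟨w', ⟨w, hw, rfl⟩, h⟩
      exact ⟨w, hw, by rw [h, List.append_assoc]⟩

/-- appending an even power of a letter -/
theorem appendEven {K : Language C} (h : K.IsRegular) (c : C) :
    Language.IsRegular ({p | ∃ w ∈ K, ∃ m, p = w ++ List.replicate (2 * m) c} : Language C) := by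
  classical
  obtain ⟨σ, _, M, rfl⟩ := h
  let N : DFA C (σ × Prop × Prop) := ⟨fun s x => (M.step s.1 x,
      (x = c ∧ (s.1 ∈ M.accept ∨ s.2.2)), (x = c ∧ s.2.1)),
    (M.start, False, False), {s | s.1 ∈ M.accept ∨ s.2.2}⟩
  have key : ∀ p : List C, (N.eval p).1 = M.eval p ∧
      ((N.eval p).2.1 ↔ ∃ w ∈ M.accepts, ∃ m, p = w ++ List.replicate (2 * m + 1) c) ∧
      ((N.eval p).2.2 ↔ ∃ w ∈ M.accepts, ∃ m, p = w ++ List.replicate (2 * m + 2) c) := by
    intro p
    induction p using List.reverseRecOn with
    | nil => simp [N, DFA.eval]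
    | append_singleton p x ih =>
      obtain ⟨i1, i2, i3⟩ := ih
      rw [DFA.eval_append_singleton, DFA.eval_append_singleton]
      refine ⟨by rw [← i1], ?_, ?_⟩
      · show (x = c ∧ ((N.eval p).1 ∈ M.accept ∨ (N.eval p).2.2)) ↔ _
        rw [i1, i3]
        constructor
        · rintro ⟨rfl, h | ⟨w, hw, m, rfl⟩⟩
          · exact ⟨p, h, 0, by simp⟩
          · refine ⟨w, hw, m + 1, ?_⟩
            rw [List.append_assoc]
            congr 1
            exact (List.replicate_succ' (n := 2 * m + 2) (a := x)).symm
        · rintro ⟨w, hw, m, h⟩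
          rw [List.replicate_succ', ← List.append_assoc] at h
          obtain ⟨h1, h2⟩ := List.append_inj' h rfl
          refine ⟨by simpa using h2, ?_⟩
          cases m with
          | zero => left; simp at h1; rw [h1]; exact hw
          | succ m => right; exact ⟨w, hw, m, h1⟩
      · show (x = c ∧ (N.eval p).2.1) ↔ _
        rw [i2]
        constructor
        · rintro ⟨rfl, w, hw, m, rfl⟩
          refine ⟨w, hw, m, ?_⟩
          rw [List.append_assoc]
          congr 1
          exact (List.replicate_succ' (n := 2 * m + 1) (a := x)).symm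
        · rintro ⟨w, hw, m, h⟩
          rw [List.replicate_succ', ← List.append_assoc] at h
          obtain ⟨h1, h2⟩ := List.append_inj' h rfl
          exact ⟨by simpa using h2, w, hw, m, h1⟩
  refine ⟨_, inferInstance, N, ?_⟩
  ext p
  show (N.eval p).1 ∈ M.accept ∨ (N.eval p).2.2 ↔ _
  rw [(key p).1, (key p).2.2]
  constructor
  · rintro (h | ⟨w, hw, m, h⟩)
    · exact ⟨p, h, 0, by simp⟩
    · exact ⟨w, hw, m + 1, h⟩
  · rintro ⟨w, hw, m, h⟩
    cases m with
    | zero => left; simp at h; rw [h]; exact hw
    | succ m => right; exact ⟨w, hw, m, h⟩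

theorem emptyReg : Language.IsRegular ({p | False} : Language C) :=
  ⟨Unit, inferInstance, ⟨fun _ _ => (), (), ∅⟩, by ext p; rfl⟩

theorem iUnionReg {ι : Type} [Finite ι] (K : ι → Language C) (h : ∀ i, (K i).IsRegular) :
    Language.IsRegular ({p | ∃ i, p ∈ K i} : Language C) := by
  classical
  have := Fintype.ofFinite ι
  have key : ∀ s : Finset ι, Language.IsRegular ({p | ∃ i ∈ s, p ∈ K i} : Language C) := by
    intro s
    induction s using Finset.induction_on with
    | empty => exact isReg_congr emptyReg (fun p => by
        constructor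
        · rintro ⟨i, hi, _⟩; simp at hi
        · intro h; exact h.elim)
    | insert a s ha ih =>
      refine isReg_congr ((h a).add ih) (fun p => ?_)
      show _ ↔ (p ∈ K a ∨ ∃ i ∈ s, p ∈ K i)
      constructor
      · rintro ⟨i, hi, hp⟩
        rcases Finset.mem_insert.1 hi with rfl | hi
        · exact Or.inl hp
        · exact Or.inr ⟨i, hi, hp⟩
      · rintro (hp | ⟨i, hi, hp⟩)
        · exact ⟨a, Finset.mem_insert_self _ _, hp⟩
        · exact ⟨i, Finset.mem_insert_of_mem hi, hp⟩
  refine isReg_congr (key Finset.univ) (fun p => ?_)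
  constructor
  · rintro ⟨i, hp⟩; exact ⟨i, Finset.mem_univ _, hp⟩
  · rintro ⟨i, -, hp⟩; exact ⟨i, hp⟩

section FT

variable {G : Type} [Group G]

/-- evaluation of words -/
def evw (f : A → G) (w : List A) : G := (w.map f).prod

theorem evw_append (f : A → G) (u v : List A) : evw f (u ++ v) = evw f u * evw f v := by
  simp [evw]

theorem take_add_one' (l : List A) (n : ℕ) : l.take (n + 1) = l.take n ++ (l[n]?).toList := by
  rw [List.take_add_one]

/-- value of an optional letter -/
def ov (f : A → G) : Option A → G
  | none => 1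
  | some a => f a

theorem evw_take_succ (f : A → G) (l : List A) (n : ℕ) :
    evw f (l.take (n + 1)) = evw f (l.take n) * ov f l[n]? := by
  rw [take_add_one', evw_append]
  cases l[n]? <;> simp [evw, ov]

theorem cv_succ {B D : Type} (n : ℕ) (u : List B) (v : List D) :
    cv (n + 1) u v = cv n u v ++ [(u[n]?, v[n]?)] := by
  simp [cv, List.range_succ]

/-- fellow travelling implies synchronous regularity -/
theorem regular_of_ft (f : A → G) {L : Language A} (hL : L.IsRegular) (B : Set G)
    (hB : B.Finite) (x : G)
    (hft : ∀ u ∈ L, ∀ v ∈ L, evw f u * x = evw f v → ∀ n,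
      (evw f (u.take n))⁻¹ * evw f (v.take n) ∈ B) :
    (Ext (fun u v => u ∈ L ∧ v ∈ L ∧ evw f u * x = evw f v)).IsRegular := by
  classical
  have hBf : Finite B := hB
  have : Fintype B := Fintype.ofFinite B
  -- difference automaton
  let step : Option B → Option A × Option A → Option B := fun s c =>
    match s with
    | none => none
    | some d => if h : (ov f c.1)⁻¹ * d.1 * ov f c.2 ∈ B then some ⟨_, h⟩ else none
  by_cases h1 : (1 : G) ∈ B
  · let N : DFA (Option A × Option A) (Option B) := ⟨step, some ⟨1, h1⟩,
      {s | ∃ d, s = some d ∧ d.1 = x}⟩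
    have key : ∀ (u v : List A) (n : ℕ),
        (∀ d, N.eval (cv n u v) = some d → d.1 = (evw f (u.take n))⁻¹ * evw f (v.take n)) ∧
        ((∀ m ≤ n, (evw f (u.take m))⁻¹ * evw f (v.take m) ∈ B) →
          ∃ d, N.eval (cv n u v) = some d) := by
      intro u v n
      induction n with
      | zero =>
        refine ⟨fun d hd => ?_, fun _ => ⟨⟨1, h1⟩, by simp [cv, N, DFA.eval]⟩⟩
        have : d = ⟨1, h1⟩ := by simpa [cv, N, DFA.eval] using hd.symm
        rw [this]; simp [evw]
      | succ n ih =>
        obtain ⟨i1, i2⟩ := ih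
        rw [cv_succ, DFA.eval_append_singleton]
        have hstep : ∀ d : B, d.1 = (evw f (u.take n))⁻¹ * evw f (v.take n) →
            (ov f u[n]?)⁻¹ * d.1 * ov f v[n]? =
            (evw f (u.take (n + 1)))⁻¹ * evw f (v.take (n + 1)) := by
          intro d hd
          rw [evw_take_succ, evw_take_succ, hd]
          group
        constructor
        · intro d hd
          rcases he : N.eval (cv n u v) with _ | d'
          · rw [he] at hd; exact absurd hd (by simp [N, step])
          · rw [he] at hd
            have hd2 : step (some d') (u[n]?, v[n]?) = some d := hd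
            simp only [step] at hd2
            split_ifs at hd2 with hh
            simp only [Option.some.injEq] at hd2
            rw [← hd2]
            exact hstep d' (i1 d' he)
        · intro hall
          obtain ⟨d', he⟩ := i2 (fun m hm => hall m (by omega))
          rw [he]
          have hh : (ov f u[n]?)⁻¹ * d'.1 * ov f v[n]? ∈ B := by
            rw [hstep d' (i1 d' he)]; exact hall (n + 1) le_rfl
          refine ⟨⟨_, hh⟩, ?_⟩
          show step (some d') (u[n]?, v[n]?) = _
          simp only [step]
          rw [dif_pos hh]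
    have hN : Language.IsRegular (N.accepts) := ⟨_, inferInstance, N, rfl⟩
    have hp := padL hL
    refine isReg_congr (hN.inf ((comap hp (Prod.fst : Option A × Option A → Option A)).inf
      (comap hp (Prod.snd : Option A × Option A → Option A)))) (fun p => ?_)
    rw [mem_Ext]
    constructor
    · rintro ⟨u, v, ⟨hu, hv, he⟩, hul, hvl, hpc⟩
      refine ⟨?_, ⟨u, hu, by simpa using hul, ?_⟩, ⟨v, hv, by simpa using hvl, ?_⟩⟩
      · obtain ⟨d, hd⟩ := (key u v p.length).2 (fun m _ => hft u hu v hv he m)
        have hd' := (key u v p.length).1 d hd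
        show N.eval p ∈ N.accept
        rw [hpc, hd]
        refine ⟨d, rfl, ?_⟩
        rw [hd', List.take_of_length_le hul, List.take_of_length_le hvl, ← he]
        group
      · rw [List.length_map, ← cv_fst p.length u v, ← hpc]
      · rw [List.length_map, ← cv_snd p.length u v, ← hpc]
    · rintro ⟨h0, ⟨u, hu, hul, e1⟩, ⟨v, hv, hvl, e2⟩⟩
      rw [List.length_map] at hul hvl e1 e2
      have hpc : p = cv p.length u v := eq_cv_of e1 e2
      have h0' : N.eval p ∈ N.accept := h0
      obtain ⟨d, hd, hdx⟩ := h0'
      rw [hpc] at hd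
      have hd' := (key u v p.length).1 d hd
      rw [List.take_of_length_le hul, List.take_of_length_le hvl, hdx] at hd'
      refine ⟨u, v, ⟨hu, hv, ?_⟩, hul, hvl, hpc⟩
      rw [hd']; group
  · refine isReg_congr emptyReg (fun p => ?_)
    rw [mem_Ext]
    constructor
    · rintro ⟨u, v, ⟨hu, hv, he⟩, -⟩
      have := hft u hu v hv he 0
      exact absurd this (by simpa [evw] using h1)
    · intro h; exact h.elim

/-- a DFA with `k` states: from every co-accessible state a short word leads to acceptance -/
theorem short_accept {σ : Type} [Fintype σ] (M : DFA C σ) (s : σ) (r : List C)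
    (h : M.evalFrom s r ∈ M.accept) :
    ∃ r', r'.length ≤ Fintype.card σ ∧ M.evalFrom s r' ∈ M.accept := by
  induction hn : r.length using Nat.strong_induction_on generalizing r with
  | _ n ih =>
    by_cases hle : r.length ≤ Fintype.card σ
    · exact ⟨r, hle, h⟩
    · obtain ⟨q, a, b, c, hr, -, hb, h1, h2, h3⟩ := M.evalFrom_split (by omega :
        Fintype.card σ ≤ r.length) (rfl : M.evalFrom s r = _)
      refine ih (a ++ c).length ?_ (a ++ c) ?_ rfl
      · have hlen := congrArg List.length hr
        have hbl : 0 < b.length := List.length_pos_of_ne_nil hb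
        simp only [List.length_append] at hlen ⊢
        omega
      · rw [DFA.evalFrom_of_append, h1, h3]; exact h

/-- synchronous regularity implies fellow travelling -/
theorem ft_of_regular (f : A → G) {L : Language A} (x : G)
    (h : (Ext (fun u v => u ∈ L ∧ v ∈ L ∧ evw f u * x = evw f v)).IsRegular) :
    ∃ N : ℕ, ∀ u ∈ L, ∀ v ∈ L, evw f u * x = evw f v → ∀ n,
      ∃ s s' : List A, s.length ≤ N ∧ s'.length ≤ N ∧
        (evw f (u.take n)) * evw f s * x = evw f (v.take n) * evw f s' := by
  obtain ⟨σ, _, M, hM⟩ := h
  refine ⟨Fintype.card σ, ?_⟩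
  intro u hu v hv he n
  set n0 := max n (max u.length v.length) with hn0
  have hp : cv n0 u v ∈ M.accepts := by
    rw [hM, mem_Ext]
    exact ⟨u, v, ⟨hu, hv, he⟩, by simp; omega, by simp; omega, by simp⟩
  -- split at `n`
  have hsplit : cv n0 u v = cv n u v ++ (cv n0 u v).drop n := by
    have h1 : (cv n0 u v).take n = cv n u v := by
      unfold cv
      rw [← List.map_take, List.take_range, min_eq_left (by omega)]
    rw [← h1, List.take_append_drop]
  rw [hsplit] at hp
  have hp' : M.evalFrom (M.evalFrom M.start (cv n u v)) ((cv n0 u v).drop n) ∈ M.accept := by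
    rw [← DFA.evalFrom_of_append]; exact hp
  obtain ⟨r, hr, hacc⟩ := short_accept M _ _ hp'
  have hq : cv n u v ++ r ∈ M.accepts := by
    show M.evalFrom M.start (cv n u v ++ r) ∈ M.accept
    rw [DFA.evalFrom_of_append]; exact hacc
  rw [hM, mem_Ext] at hq
  obtain ⟨t, t', ⟨ht, ht', hte⟩, hl, hl', hc⟩ := hq
  simp only [List.length_append, cv_length] at hl hl' hc
  have hnth : ∀ i < n, t[i]? = u[i]? ∧ t'[i]? = v[i]? := by
    intro i hi
    have e := congrArg (fun l => l[i]?) hc
    simp only [List.getElem?_append_left (show i < (cv n u v).length by simpa using hi)] at e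
    simp only [cv, List.getElem?_map, List.getElem?_range hi,
      List.getElem?_range (show i < n + r.length by omega), Option.map_some, Option.some.injEq,
      Prod.mk.injEq] at e
    exact ⟨e.1.symm, e.2.symm⟩
  have htake : t.take n = u.take n := by
    apply List.ext_getElem?
    intro i
    by_cases hi : i < n
    · rw [List.getElem?_take_of_lt hi, List.getElem?_take_of_lt hi, (hnth i hi).1]
    · rw [List.getElem?_take_eq_none (by omega), List.getElem?_take_eq_none (by omega)]
  have htake' : t'.take n = v.take n := by
    apply List.ext_getElem?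
    intro i
    by_cases hi : i < n
    · rw [List.getElem?_take_of_lt hi, List.getElem?_take_of_lt hi, (hnth i hi).2]
    · rw [List.getElem?_take_eq_none (by omega), List.getElem?_take_eq_none (by omega)]
  refine ⟨t.drop n, t'.drop n, by simp; omega, by simp; omega, ?_⟩
  rw [← htake, ← htake', ← evw_append, ← evw_append, List.take_append_drop,
    List.take_append_drop]
  exact hte

end FT

end Pool.Agent.H21.Reg
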