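import Pool.Agent.H21.RegTools

set_option autoImplicit false

namespace Pool.Agent.H21.Reg

variable {A B D : Type}

/-- the word `u` padded to length `n` -/
def pd (n : ℕ) (u : List A) : List (Option A) := (List.range n).map (fun i => u[i]?)

/-- the pair `(u, v)` padded to length `n` -/
def cv (n : ℕ) (u : List A) (v : List B) : List (Option A × Option B) :=
  (List.range n).map (fun i => (u[i]?, v[i]?))

@[simp] theorem pd_length (n : ℕ) (u : List A) : (pd n u).length = n := by simp [pd]
@[simp] theorem cv_length (n : ℕ) (u : List A) (v : List B) : (cv n u v).length = n := by simp [cv]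

theorem cv_fst (n : ℕ) (u : List A) (v : List B) : (cv n u v).map Prod.fst = pd n u := by
  simp [cv, pd, List.map_map, Function.comp_def]
theorem cv_snd (n : ℕ) (u : List A) (v : List B) : (cv n u v).map Prod.snd = pd n v := by
  simp [cv, pd, List.map_map, Function.comp_def]

theorem pd_inj {n : ℕ} {u v : List A} (hu : u.length ≤ n) (hv : v.length ≤ n)
    (h : pd n u = pd n v) : u = v := by
  apply List.ext_getElem?
  intro i
  by_cases hi : i < n
  · have := congrArg (fun l => l[i]?) h
    simpa [pd, hi] using this
  · rw [List.getElem?_eq_none (by omega), List.getElem?_eq_none (by omega)]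

theorem eq_cv_of {n : ℕ} {u : List A} {v : List B} {p : List (Option A × Option B)}
    (h1 : p.map Prod.fst = pd n u) (h2 : p.map Prod.snd = pd n v) : p = cv n u v := by
  have hl : p.length = n := by simpa using congrArg List.length h1
  apply List.ext_getElem?
  intro i
  by_cases hi : i < n
  · have e1 := congrArg (fun l => l[i]?) h1
    have e2 := congrArg (fun l => l[i]?) h2
    have hi' : i < p.length := by omega
    simp [pd, hi, hi', List.getElem?_eq_getElem] at e1 e2
    simp [cv, hi, hi', List.getElem?_eq_getElem]
    exact Prod.ext e1 e2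
  · rw [List.getElem?_eq_none (by omega), List.getElem?_eq_none (by simp; omega)]

theorem pd_add {n m : ℕ} {u : List A} (hu : u.length ≤ n) :
    pd (n + m) u = pd n u ++ List.replicate m none := by
  unfold pd
  rw [List.range_add, List.map_append]
  congr 1
  rw [List.eq_replicate_iff]
  constructor
  · simp
  · intro b hb
    simp only [List.mem_map, List.mem_range] at hb
    obtain ⟨a, ⟨i, hi, rfl⟩, rfl⟩ := hb
    exact List.getElem?_eq_none (by omega)

theorem cv_add {n m : ℕ} {u : List A} {v : List B} (hu : u.length ≤ n) (hv : v.length ≤ n) :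
    cv (n + m) u v = cv n u v ++ List.replicate m (none, none) := by
  unfold cv
  rw [List.range_add, List.map_append]
  congr 1
  rw [List.eq_replicate_iff]
  constructor
  · simp
  · intro b hb
    simp only [List.mem_map, List.mem_range] at hb
    obtain ⟨a, ⟨i, hi, rfl⟩, rfl⟩ := hb
    rw [List.getElem?_eq_none (by omega), List.getElem?_eq_none (by omega)]

/-- if `p` followed by padding is the padded pair, so is `p`. -/
theorem cv_strip {n m : ℕ} {u : List A} {v : List B} {p : List (Option A × Option B)}
    (hu : u.length ≤ n) (hv : v.length ≤ n)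
    (h : p ++ List.replicate m (none, none) = cv n u v) :
    u.length ≤ p.length ∧ v.length ≤ p.length ∧ p = cv p.length u v := by
  have hl : p.length + m = n := by simpa using congrArg List.length h
  have key : ∀ i, p.length ≤ i → i < n → u[i]? = none ∧ v[i]? = none := by
    intro i h1 h2
    have e := congrArg (fun l => l[i]?) h
    simp only [cv, List.getElem?_append_right h1, List.getElem?_replicate, List.getElem?_map,
      List.getElem?_range h2, Option.map_some] at e
    rw [if_pos (by omega)] at e
    simp only [Option.some.injEq, Prod.mk.injEq] at e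
    exact ⟨e.1.symm, e.2.symm⟩
  have hu' : u.length ≤ p.length := by
    by_contra hc
    push Not at hc
    have := (key p.length le_rfl (by omega)).1
    rw [List.getElem?_eq_none_iff] at this
    omega
  have hv' : v.length ≤ p.length := by
    by_contra hc
    push Not at hc
    have := (key p.length le_rfl (by omega)).2
    rw [List.getElem?_eq_none_iff] at this
    omega
  refine ⟨hu', hv', ?_⟩
  rw [← hl, cv_add hu' hv'] at h
  exact List.append_cancel_right h

/-- all padded versions of pairs in `R` -/
def Ext (R : List A → List B → Prop) : Language (Option A × Option B) :=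
  {p | ∃ u v, R u v ∧ u.length ≤ p.length ∧ v.length ≤ p.length ∧ p = cv p.length u v}

/-- canonical convolutions of pairs in `R` -/
def Can (R : List A → List B → Prop) : Language (Option A × Option B) :=
  {p | ∃ u v, R u v ∧ p = cv (max u.length v.length) u v}

theorem mem_Ext {R : List A → List B → Prop} {p : List (Option A × Option B)} :
    p ∈ Ext R ↔ ∃ u v, R u v ∧ u.length ≤ p.length ∧ v.length ≤ p.length ∧
      p = cv p.length u v := Iff.rfl

theorem mem_Can {R : List A → List B → Prop} {p : List (Option A × Option B)} :
    p ∈ Can R ↔ ∃ u v, R u v ∧ p = cv (max u.length v.length) u v := Iff.rfl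

theorem ext_of_can {R : List A → List B → Prop} (h : (Can R).IsRegular) : (Ext R).IsRegular := by
  have h2 := appendStar h ((none, none) : Option A × Option B)
  refine isReg_congr h2 (fun p => ?_)
  rw [mem_Ext]
  constructor
  · rintro ⟨u, v, hR, hu, hv, hp⟩
    refine ⟨cv (max u.length v.length) u v, ⟨u, v, hR, rfl⟩,
      p.length - max u.length v.length, ?_⟩
    rw [← cv_add (le_max_left _ _) (le_max_right _ _)]
    rw [show max u.length v.length + (p.length - max u.length v.length) = p.length by omega]
    exact hp
  · rintro ⟨w, ⟨u, v, hR, rfl⟩, m, hp⟩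
    rw [← cv_add (le_max_left _ _) (le_max_right _ _)] at hp
    have hl : p.length = max u.length v.length + m := by rw [hp]; simp
    exact ⟨u, v, hR, by omega, by omega, by rw [hl]; exact hp⟩

theorem can_of_ext {R : List A → List B → Prop} (h : (Ext R).IsRegular) : (Can R).IsRegular := by
  have h2 := h.inf (endsWith ((none, none) : Option A × Option B)).compl
  refine isReg_congr h2 (fun p => ?_)
  rw [mem_Can]
  show _ ↔ p ∈ Ext R ∧ ¬ ∃ w, p = w ++ [(none, none)]
  rw [mem_Ext]
  constructor
  · rintro ⟨u, v, hR, hp⟩
    have hl : p.length = max u.length v.length := by rw [hp]; simp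
    refine ⟨⟨u, v, hR, by omega, by omega, by rw [hl]; exact hp⟩, ?_⟩
    rintro ⟨w, hw⟩
    have h1 : cv (max u.length v.length) u v = w ++ List.replicate 1 (none, none) := by
      rw [← hp, hw]; rfl
    obtain ⟨a, b, -⟩ := cv_strip (le_max_left _ _) (le_max_right _ _) h1.symm
    have : p.length = w.length + 1 := by rw [hw]; simp
    omega
  · rintro ⟨⟨u, v, hR, hu, hv, hp⟩, hn⟩
    refine ⟨u, v, hR, ?_⟩
    have : p.length = max u.length v.length := by
      by_contra hc
      apply hn
      have hlt : max u.length v.length < p.length := by omega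
      obtain ⟨k, hk⟩ : ∃ k, p.length = k + 1 := ⟨p.length - 1, by omega⟩
      rw [hk, cv_add (by omega) (by omega)] at hp
      exact ⟨_, hp⟩
    rw [← this]; exact hp

/-- composition -/
theorem comp {R : List A → List B → Prop} {S : List B → List D → Prop}
    (hR : (Ext R).IsRegular) (hS : (Ext S).IsRegular) :
    (Ext (fun u w => ∃ v, R u v ∧ S v w)).IsRegular := by
  have h1 := comap hR (fun t : Option A × Option B × Option D => (t.1, t.2.1))
  have h2 := comap hS (fun t : Option A × Option B × Option D => (t.2.1, t.2.2))
  have h3 := rquot (image (h1.inf h2) (fun t : Option A × Option B × Option D => (t.1, t.2.2)))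
    (none, none)
  refine isReg_congr h3 (fun p => ?_)
  rw [mem_Ext]
  constructor
  · rintro ⟨u, w, ⟨v, hR, hS⟩, hu, hw, hp⟩
    have hn : p.length ≤ max p.length v.length := le_max_left _ _
    refine ⟨max p.length v.length - p.length,
      (List.range (max p.length v.length)).map (fun i => (u[i]?, v[i]?, w[i]?)), ⟨?_, ?_⟩, ?_⟩
    · show List.map _ _ ∈ Ext R
      rw [mem_Ext]
      refine ⟨u, v, hR, by simp; omega, by simp, ?_⟩
      simp [List.map_map, Function.comp_def, cv]
    · show List.map _ _ ∈ Ext S
      rw [mem_Ext]
      refine ⟨v, w, hS, by simp, by simp; omega, ?_⟩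
      simp [List.map_map, Function.comp_def, cv]
    · have e : (max p.length v.length) = p.length + (max p.length v.length - p.length) := by omega
      rw [List.map_map]
      show cv (max p.length v.length) u w = _
      rw [e, cv_add hu hw, ← hp]
      simp
  · rintro ⟨m, q, ⟨h1, h2⟩, h3⟩
    obtain ⟨u, v, hR, hu, hv, e1⟩ := mem_Ext.1 h1
    obtain ⟨v', w, hS, hv', hw, e2⟩ := mem_Ext.1 h2
    simp only [List.length_map] at hu hv hv' hw e1 e2
    have hvv : v = v' := by
      apply pd_inj hv hv'
      rw [← cv_snd q.length u v, ← e1, ← cv_fst q.length v' w, ← e2]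
      simp [List.map_map, Function.comp_def]
    subst hvv
    have e3 : p ++ List.replicate m (none, none) = cv q.length u w := by
      rw [← h3]
      apply eq_cv_of
      · rw [← cv_fst q.length u v, ← e1]
        simp [List.map_map, Function.comp_def]
      · rw [← cv_snd q.length v w, ← e2]
        simp [List.map_map, Function.comp_def]
    obtain ⟨a, b, c⟩ := cv_strip hu hw e3
    exact ⟨u, w, ⟨v, hR, hS⟩, a, b, c⟩

/-- padded words of a regular language -/
theorem padL {L : Language A} (h : L.IsRegular) :
    Language.IsRegular ({l | ∃ u ∈ L, u.length ≤ l.length ∧ l = pd l.length u} :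
      Language (Option A)) := by
  have h2 := appendStar (image h (some : A → Option A)) none
  refine isReg_congr h2 (fun l => ?_)
  have hpd : ∀ u : List A, pd u.length u = u.map some := by
    intro u
    apply List.ext_getElem?
    intro i
    by_cases hi : i < u.length
    · simp [pd, hi]
    · rw [List.getElem?_eq_none (by simp; omega), List.getElem?_eq_none (by simp; omega)]
  constructor
  · rintro ⟨u, hu, hl, he⟩
    refine ⟨u.map some, ⟨u, hu, rfl⟩, l.length - u.length, ?_⟩
    rw [← hpd, ← pd_add le_rfl, show u.length + (l.length - u.length) = l.length by omega]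
    exact he
  · rintro ⟨w, ⟨u, hu, rfl⟩, m, he⟩
    rw [← hpd, ← pd_add le_rfl] at he
    have hl : l.length = u.length + m := by rw [he]; simp
    exact ⟨u, hu, by omega, by rw [hl]; exact he⟩

/-- pairs from `L₁ × L₂` satisfying `R` -/
theorem restrict {R : List A → List B → Prop} (hR : (Ext R).IsRegular)
    {L₁ : Language A} {L₂ : Language B} (h₁ : L₁.IsRegular) (h₂ : L₂.IsRegular) :
    (Ext (fun u v => u ∈ L₁ ∧ v ∈ L₂ ∧ R u v)).IsRegular := by
  have h := hR.inf ((comap (padL h₁) (Prod.fst : Option A × Option B → Option A)).inf
    (comap (padL h₂) (Prod.snd : Option A × Option B → Option B)))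
  refine isReg_congr h (fun p => ?_)
  rw [mem_Ext]
  constructor
  · rintro ⟨u, v, ⟨h1, h2, h3⟩, hu, hv, hp⟩
    refine ⟨⟨u, v, h3, hu, hv, hp⟩, ⟨u, h1, by simpa using hu, ?_⟩, ⟨v, h2, by simpa using hv, ?_⟩⟩
    · rw [List.length_map, ← cv_fst p.length u v, ← hp]
    · rw [List.length_map, ← cv_snd p.length u v, ← hp]
  · rintro ⟨⟨u, v, h3, hu, hv, hp⟩, ⟨u', h1, hu', e1⟩, ⟨v', h2, hv', e2⟩⟩
    rw [List.length_map] at hu' hv' e1 e2
    have e1' : u = u' := by
      apply pd_inj hu hu'
      rw [← cv_fst p.length u v, ← hp, ← e1]
    have e2' : v = v' := by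
      apply pd_inj hv hv'
      rw [← cv_snd p.length u v, ← hp, ← e2]
    subst e1' e2'
    exact ⟨u, v, ⟨h1, h2, h3⟩, hu, hv, hp⟩

/-- the second projection of a regular relation is a regular language -/
theorem snd_regular {R : List A → List B → Prop} (hR : (Ext R).IsRegular) :
    Language.IsRegular ({v | ∃ u, R u v} : Language B) := by
  have h := comap (rquot (image hR (Prod.snd : Option A × Option B → Option B)) none)
    (some : B → Option B)
  refine isReg_congr h (fun v => ?_)
  have hpd : ∀ u : List B, pd u.length u = u.map some := by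
    intro u
    apply List.ext_getElem?
    intro i
    by_cases hi : i < u.length
    · simp [pd, hi]
    · rw [List.getElem?_eq_none (by simp; omega), List.getElem?_eq_none (by simp; omega)]
  constructor
  · rintro ⟨u, hR⟩
    refine ⟨max u.length v.length - v.length, cv (max u.length v.length) u v, ?_, ?_⟩
    · rw [mem_Ext]
      exact ⟨u, v, hR, by simp, by simp, by simp⟩
    · rw [cv_snd, ← hpd, ← pd_add le_rfl,
        show v.length + (max u.length v.length - v.length) = max u.length v.length by omega]
  · rintro ⟨m, q, hq, e⟩
    obtain ⟨u, v', hR, hu, hv, e1⟩ := mem_Ext.1 hq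
    refine ⟨u, ?_⟩
    have : v = v' := by
      rw [e1, cv_snd, ← hpd, ← pd_add le_rfl] at e
      have hl : q.length = v.length + m := by simpa using congrArg List.length e
      rw [hl] at e hv
      exact (pd_inj hv (by omega) e).symm
    rw [this]; exact hR

end Pool.Agent.H21.Reg
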