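import Mathlib

set_option autoImplicit false

namespace Pool.Agent.H21.Reg

variable {C D : Type}

theorem isReg_congr {K K' : Language C} (h : K.IsRegular) (e : ∀ p, p ∈ K' ↔ p ∈ K) :
    K'.IsRegular := by
  have : K' = K := Set.ext e
  rw [this]; exact h

theorem comap {K : Language C} (h : K.IsRegular) (f : D → C) :
    Language.IsRegular ({p : List D | p.map f ∈ K} : Language D) := by
  obtain ⟨σ, _, M, rfl⟩ := h
  refine ⟨σ, inferInstance, M.comap f, ?_⟩
  rw [DFA.accepts_comap]
  rfl

theorem image {K : Language C} (h : K.IsRegular) (f : C → D) :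
    Language.IsRegular ({p : List D | ∃ q ∈ K, q.map f = p} : Language D) := by
  classical
  obtain ⟨σ, _, M, rfl⟩ := h
  let N : NFA D σ := ⟨fun s d => {t | ∃ c, f c = d ∧ M.step s c = t}, {M.start}, M.accept⟩
  have key : ∀ (p : List D) (S : Set σ) (t : σ), t ∈ N.evalFrom S p ↔
      ∃ s ∈ S, ∃ q : List C, q.map f = p ∧ M.evalFrom s q = t := by
    intro p
    induction p with
    | nil => intro S t; simp
    | cons a x ih =>
      intro S t
      rw [NFA.evalFrom_cons, ih]
      constructor
      · rintro ⟨s, hs, q, hq, rfl⟩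
        rw [NFA.mem_stepSet] at hs
        obtain ⟨r, hr, c, hc, hc2⟩ := hs
        exact ⟨r, hr, c :: q, by simp [hc, hq], by rw [DFA.evalFrom_cons, hc2]⟩
      · rintro ⟨s, hs, q, hq, rfl⟩
        cases q with
        | nil => simp at hq
        | cons c q =>
          simp only [List.map_cons, List.cons.injEq] at hq
          refine ⟨M.step s c, ?_, q, hq.2, by rw [DFA.evalFrom_cons]⟩
          rw [NFA.mem_stepSet]
          exact ⟨s, hs, c, hq.1, rfl⟩
  refine ⟨Set σ, inferInstance, N.toDFA, ?_⟩
  rw [NFA.toDFA_correct]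
  ext p
  rw [NFA.mem_accepts]
  constructor
  · rintro ⟨t, ht, h⟩
    obtain ⟨s, hs, q, hq, rfl⟩ := (key _ _ _).1 h
    refine ⟨q, ?_, hq⟩
    have : s = M.start := hs
    subst this
    exact ht
  · rintro ⟨q, hq, hqp⟩
    exact ⟨M.evalFrom M.start q, hq, (key _ _ _).2 ⟨M.start, rfl, q, hqp, rfl⟩⟩

theorem rquot {K : Language C} (h : K.IsRegular) (c : C) :
    Language.IsRegular ({p | ∃ m, p ++ List.replicate m c ∈ K} : Language C) := by
  obtain ⟨σ, _, M, rfl⟩ := h
  refine ⟨σ, inferInstance, ⟨M.step, M.start,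
    {s | ∃ m, M.evalFrom s (List.replicate m c) ∈ M.accept}⟩, ?_⟩
  ext p
  show (∃ m, M.evalFrom (M.evalFrom M.start p) (List.replicate m c) ∈ M.accept) ↔
    ∃ m, M.evalFrom M.start (p ++ List.replicate m c) ∈ M.accept
  simp only [DFA.evalFrom_of_append]

theorem appendStar {K : Language C} (h : K.IsRegular) (c : C) :
    Language.IsRegular ({p | ∃ w ∈ K, ∃ m, p = w ++ List.replicate m c} : Language C) := by
  classical
  obtain ⟨σ, _, M, rfl⟩ := h
  let N : DFA C (σ × Prop) := ⟨fun s x => (M.step s.1 x, x = c ∧ (s.1 ∈ M.accept ∨ s.2)),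
    (M.start, False), {s | s.1 ∈ M.accept ∨ s.2}⟩
  have key : ∀ p : List C, (N.eval p).1 = M.eval p ∧
      ((N.eval p).2 ↔ ∃ w ∈ M.accepts, ∃ m, p = w ++ List.replicate (m + 1) c) := by
    intro p
    induction p using List.reverseRecOn with
    | nil => simp [N, DFA.eval]
    | append_singleton p x ih =>
      rw [DFA.eval_append_singleton, DFA.eval_append_singleton]
      refine ⟨by rw [← ih.1], ?_⟩
      show (x = c ∧ ((N.eval p).1 ∈ M.accept ∨ (N.eval p).2)) ↔ _
      rw [ih.1, ih.2]
      constructor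
      · rintro ⟨rfl, h | ⟨w, hw, m, rfl⟩⟩
        · exact ⟨p, h, 0, by simp⟩
        · exact ⟨w, hw, m + 1, by
            rw [List.replicate_succ' (n := m + 1), List.append_assoc]⟩
      · rintro ⟨w, hw, m, h⟩
        rw [List.replicate_succ', ← List.append_assoc] at h
        obtain ⟨h1, h2⟩ := List.append_inj' h rfl
        have hx : x = c := by simpa using h2
        refine ⟨hx, ?_⟩
        cases m with
        | zero => left; simp at h1; rw [h1]; exact hw
        | succ m => right; exact ⟨w, hw, m, h1⟩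
  refine ⟨σ × Prop, inferInstance, N, ?_⟩
  ext p
  show (N.eval p).1 ∈ M.accept ∨ (N.eval p).2 ↔ _
  rw [(key p).1, (key p).2]
  constructor
  · rintro (h | ⟨w, hw, m, h⟩)
    · exact ⟨p, h, 0, by simp⟩
    · exact ⟨w, hw, m + 1, h⟩
  · rintro ⟨w, hw, m, h⟩
    cases m with
    | zero => left; simp at h; rw [h]; exact hw
    | succ m => right; exact ⟨w, hw, m, h⟩

theorem endsWith (c : C) :
    Language.IsRegular ({p | ∃ w, p = w ++ [c]} : Language C) := by
  let N : DFA C Prop := ⟨fun _ x => x = c, False, {s | s}⟩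
  refine ⟨Prop, inferInstance, N, ?_⟩
  ext p
  show (N.eval p) ↔ _
  induction p using List.reverseRecOn with
  | nil =>
    constructor
    · intro h; exact absurd h (by simp [N, DFA.eval])
    · rintro ⟨w, h⟩; simp at h
  | append_singleton p x ih =>
    rw [DFA.eval_append_singleton]
    show x = c ↔ ∃ w, p ++ [x] = w ++ [c]
    constructor
    · rintro rfl; exact ⟨p, rfl⟩
    · rintro ⟨w, h⟩
      have := (List.append_inj' h rfl).2
      simpa using this

/-- inverse image under a deterministic finite-state transducer -/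
theorem transd {τ : Type} [Finite τ] {K : Language C} (h : K.IsRegular)
    (step : τ → D → τ) (out : τ → D → List C) (fin : τ → List C)
    (run : τ → List D → List C) (hnil : ∀ t, run t [] = fin t)
    (hcons : ∀ t d p, run t (d :: p) = out t d ++ run (step t d) p) (t₀ : τ) :
    Language.IsRegular ({p : List D | run t₀ p ∈ K} : Language D) := by
  classical
  obtain ⟨σ, _, M, rfl⟩ := h
  have : Fintype τ := Fintype.ofFinite τ
  let N : DFA D (τ × σ) := ⟨fun s x => (step s.1 x, M.evalFrom s.2 (out s.1 x)),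
    (t₀, M.start), {s | M.evalFrom s.2 (fin s.1) ∈ M.accept}⟩
  have key : ∀ (p : List D) (t : τ) (s : σ), N.evalFrom (t, s) p ∈ N.accept ↔
      M.evalFrom s (run t p) ∈ M.accept := by
    intro p
    induction p with
    | nil => intro t s; rw [hnil]; rfl
    | cons a x ih =>
      intro t s
      rw [DFA.evalFrom_cons, hcons, DFA.evalFrom_of_append]
      exact ih _ _
  refine ⟨τ × σ, inferInstance, N, ?_⟩
  ext p
  exact key p t₀ M.start

end Pool.Agent.H21.Reg
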