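import Mathlib
set_option autoImplicit false
set_option linter.all false
namespace Pool.Agent.H21.SplitGame

open Set

universe u

/-- one move of the game: `X` is the set the mover holds, `P` and `Q` are the two pieces
into which it is split -/
structure Move (E : Type u) where
  X : Set E
  P : Set E
  Q : Set E

/-- `m` is a legal move after the previous move `prev` (`none` at the beginning): the mover
holds the whole set (at the beginning) or one of the two pieces of the previous move, and splits
it into two disjoint pieces whose union it is -/
def Next {E : Type u} (prev : Option (Move E)) (m : Move E) : Prop :=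
  (match prev with
    | none => m.X = Set.univ
    | some q => m.X = q.P ∨ m.X = q.Q) ∧ m.P ∪ m.Q = m.X ∧ Disjoint m.P m.Q

/-- legal finite histories -/
inductive LegalHist {E : Type u} : List (Move E) → Prop
  | nil : LegalHist []
  | snoc (h : List (Move E)) (m : Move E) : LegalHist h → Next h.getLast? m → LegalHist (h ++ [m])

/-- the first `n` moves of a play -/
def hist {E : Type u} (p : ℕ → Move E) (n : ℕ) : List (Move E) := (List.range n).map p

/-- legal infinite plays -/
def LegalPlay {E : Type u} (p : ℕ → Move E) : Prop := ∀ n, LegalHist (hist p n)

/-- player A (who makes the even moves) has a winning strategy in `G(E)` -/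
def AWins (E : Type u) : Prop :=
  ∃ σ : List (Move E) → Move E,
    (∀ h, LegalHist h → Even h.length → LegalHist (h ++ [σ h])) ∧
    ∀ p : ℕ → Move E, LegalPlay p → (∀ n, Even n → p n = σ (hist p n)) →
      ⋂ n : ℕ, (p (n + 1)).X = ∅

/-- player B (who makes the odd moves) has a winning strategy in `G(E)` -/
def BWins (E : Type u) : Prop :=
  ∃ τ : List (Move E) → Move E,
    (∀ h, LegalHist h → Odd h.length → LegalHist (h ++ [τ h])) ∧
    ∀ p : ℕ → Move E, LegalPlay p → (∀ n, Odd n → p n = τ (hist p n)) →
      (⋂ n : ℕ, (p (n + 1)).X).Nonempty

end Pool.Agent.H21.SplitGame
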