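import Pool.Agent.H21.SplitDefs
set_option autoImplicit false
set_option linter.all false
namespace Pool.Agent.H21.SplitGame

open Set

universe u

section
variable {E : Type u}

lemma hist_succ (p : ℕ → Move E) (n : ℕ) : hist p (n + 1) = hist p n ++ [p n] := by
  simp [hist, List.range_succ]

lemma hist_len (p : ℕ → Move E) (n : ℕ) : (hist p n).length = n := by simp [hist]

lemma hist_last (p : ℕ → Move E) (n : ℕ) : (hist p (n+1)).getLast? = some (p n) := by
  rw [hist_succ]; simp

/-- play generated by two strategies -/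
def gen (σ β : List (Move E) → Move E) : ℕ → List (Move E)
  | 0 => []
  | n + 1 => gen σ β n ++ [if Even n then σ (gen σ β n) else β (gen σ β n)]

def play (σ β : List (Move E) → Move E) (n : ℕ) : Move E :=
  if Even n then σ (gen σ β n) else β (gen σ β n)

lemma hist_play (σ β : List (Move E) → Move E) (n : ℕ) : hist (play σ β) n = gen σ β n := by
  induction n with
  | zero => simp [hist, gen]
  | succ n ih => rw [hist_succ, ih]; rfl

lemma play_even (σ β : List (Move E) → Move E) (n : ℕ) (h : Even n) :
    play σ β n = σ (hist (play σ β) n) := by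
  rw [hist_play, play, if_pos h]

lemma play_odd (σ β : List (Move E) → Move E) (n : ℕ) (h : Odd n) :
    play σ β n = β (hist (play σ β) n) := by
  rw [hist_play, play, if_neg (Nat.not_even_iff_odd.2 h)]

lemma last_of_legal {h : List (Move E)} {m : Move E} (H : LegalHist (h ++ [m])) : Next h.getLast? m := by
  generalize hg : h ++ [m] = g at H
  cases H with
  | nil => simp at hg
  | snoc h' m' h1 h2 =>
    obtain ⟨e1, e2⟩ := List.append_inj' hg rfl
    simp at e2
    subst e1 e2; exact h2

lemma next_of_play {p : ℕ → Move E} (hp : LegalPlay p) (n : ℕ) : Next (some (p n)) (p (n+1)) := by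
  have h := hp (n + 1 + 1)
  rw [hist_succ] at h
  have := last_of_legal h
  rwa [hist_last] at this

/-! ### A has no winning strategy -/

/-- B's move: take a piece and split it along a coordinate -/
def bmove (j : E → ℕ → Bool) (h : List (Move E)) (c : Bool) (k : ℕ) : Move E :=
  match h.getLast? with
  | none => ⟨Set.univ, {x | j x k = true}, {x | j x k = false}⟩
  | some m => ⟨if c then m.P else m.Q, (if c then m.P else m.Q) ∩ {x | j x k = true},
      (if c then m.P else m.Q) ∩ {x | j x k = false}⟩

lemma bmove_next (j : E → ℕ → Bool) (h : List (Move E)) (c : Bool) (k : ℕ) :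
    Next h.getLast? (bmove j h c k) := by
  unfold bmove
  cases h.getLast? with
  | none =>
    refine ⟨rfl, ?_, ?_⟩
    · ext x; simp
    · rw [Set.disjoint_left]; intro x hx hx'; simp at hx hx'; rw [hx] at hx'; cases hx'
  | some m =>
    refine ⟨?_, ?_, ?_⟩
    · simp only; split_ifs <;> simp
    · ext x; simp only [Set.mem_union, Set.mem_inter_iff, Set.mem_setOf_eq]
      cases j x k <;> simp
    · rw [Set.disjoint_left]; rintro x ⟨_, hx⟩ ⟨_, hx'⟩; simp at hx hx'; rw [hx] at hx'; cases hx'

/-- histories reachable by B's coordinate moves -/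
def HH (σ : List (Move E) → Move E) (j : E → ℕ → Bool) : List (Bool × ℕ) → List (Move E)
  | [] => [σ []]
  | (c, k) :: t => HH σ j t ++ [bmove j (HH σ j t) c k] ++ [σ (HH σ j t ++ [bmove j (HH σ j t) c k])]

open Classical in
/-- the unpicked bits -/
noncomputable def bad (σ : List (Move E) → Move E) (j : E → ℕ → Bool) (t : List (Bool × ℕ)) (c : Bool)
    (k : ℕ) : Bool :=
  if (σ (HH σ j t ++ [bmove j (HH σ j t) c k])).X = (bmove j (HH σ j t) c k).P then false else true

theorem not_AWins [Uncountable E] : ¬ AWins E := by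
  rintro ⟨σ, hσ, hwin⟩
  -- an uncountable set with an injection into the Cantor space
  obtain ⟨F, hF, j, hj⟩ : ∃ F : Set E, ¬ F.Countable ∧ ∃ j : E → ℕ → Bool, Set.InjOn j F := by
    have h1 : Cardinal.aleph 1 ≤ Cardinal.mk E := by
      rw [Cardinal.aleph_one_le_iff]
      exact Cardinal.aleph0_lt_mk_iff.2 inferInstance
    obtain ⟨F, hF⟩ := Cardinal.le_mk_iff_exists_set.1 h1
    have h2 : Cardinal.lift.{0} (Cardinal.mk F) ≤ Cardinal.lift.{u} (Cardinal.mk (ℕ → Bool)) := by
      rw [hF]
      simp only [Cardinal.mk_pi, Cardinal.mk_bool, Cardinal.prod_const, Cardinal.mk_nat]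
      simp
      exact Cardinal.aleph0_lt_continuum
    obtain ⟨g⟩ := Cardinal.lift_mk_le'.1 h2
    classical
    refine ⟨F, ?_, fun x => if h : x ∈ F then g ⟨x, h⟩ else fun _ => false, ?_⟩
    · rw [← Cardinal.le_aleph0_iff_set_countable, hF, not_le]
      exact Cardinal.aleph0_lt_aleph_one
    · intro x hx y hy hxy
      simp only [hx, hy, dif_pos] at hxy
      have := g.injective hxy
      simpa using this
  -- a good point
  obtain ⟨x, hxF, hx⟩ : ∃ x ∈ F, ∀ t c, j x ≠ bad σ j t c := by
    by_contra hcon
    push Not at hcon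
    apply hF
    have hc : (Set.range (fun q : List (Bool × ℕ) × Bool => bad σ j q.1 q.2)).Countable :=
      Set.countable_range _
    have h2 : F ⊆ j ⁻¹' (Set.range (fun q : List (Bool × ℕ) × Bool => bad σ j q.1 q.2)) := by
      intro y hy
      obtain ⟨t, c, h⟩ := hcon y hy
      exact ⟨(t, c), h.symm⟩
    have h3 : (j '' F).Countable := by
      apply hc.mono
      rintro _ ⟨y, hy, rfl⟩
      exact h2 hy
    exact Set.countable_of_injective_of_countable_image hj h3
  classical
  -- B's strategy that keeps x
  let β : List (Move E) → Move E := fun h =>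
    if hh : ∃ c k, x ∈ (bmove j h c k).X ∧ x ∈ (σ (h ++ [bmove j h c k])).X
    then bmove j h hh.choose hh.choose_spec.choose else bmove j h true 0
  have hβ : ∀ h, ∃ c k, β h = bmove j h c k := by
    intro h
    simp only [β]
    split_ifs with hh
    · exact ⟨_, _, rfl⟩
    · exact ⟨_, _, rfl⟩
  have hlegal : ∀ n, LegalHist (gen σ β n) ∧ (gen σ β n).length = n := by
    intro n
    induction n with
    | zero => exact ⟨.nil, rfl⟩
    | succ n ih =>
      refine ⟨?_, by simp [gen, ih.2]⟩
      rw [gen]
      split_ifs with he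
      · exact hσ _ ih.1 (by rw [ih.2]; exact he)
      · obtain ⟨c, k, hck⟩ := hβ (gen σ β n)
        rw [hck]
        exact .snoc _ _ ih.1 (bmove_next j _ c k)
  have hplay : LegalPlay (play σ β) := fun n => by rw [hist_play]; exact (hlegal n).1
  have hrep : ∀ n, ∃ t, gen σ β (2 * n + 1) = HH σ j t ∧ x ∈ (play σ β (2*n)).X := by
    intro n
    induction n with
    | zero =>
      refine ⟨[], by simp [gen, HH], ?_⟩
      have h1 := (hlegal 1).1
      rw [gen] at h1
      have h2 := last_of_legal h1
      simp [gen] at h2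
      simp [play, gen, h2.1]
    | succ n ih =>
      obtain ⟨t, ht, hxm⟩ := ih
      have hlast : (gen σ β (2*n+1)).getLast? = some (play σ β (2*n)) := by
        rw [← hist_play, hist_last]
      -- x is in one of the pieces
      have hnx : (play σ β (2*n)).P ∪ (play σ β (2*n)).Q = (play σ β (2*n)).X := by
        have h := hplay (2*n+1)
        rw [hist_succ] at h
        exact (last_of_legal h).2.1
      have hc : ∃ c : Bool, ∀ k, x ∈ (bmove j (gen σ β (2*n+1)) c k).X := by
        rw [← hnx] at hxm
        rcases hxm with h | h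
        · exact ⟨true, fun k => by simp [bmove, hlast, h]⟩
        · exact ⟨false, fun k => by simp [bmove, hlast, h]⟩
      obtain ⟨c, hc⟩ := hc
      have hex : ∃ c k, x ∈ (bmove j (gen σ β (2*n+1)) c k).X ∧
          x ∈ (σ (gen σ β (2*n+1) ++ [bmove j (gen σ β (2*n+1)) c k])).X := by
        refine ⟨c, ?_⟩
        have hb := hx t c
        obtain ⟨k, hk⟩ : ∃ k, j x k ≠ bad σ j t c k := by
          by_contra hcon; push Not at hcon; exact hb (funext hcon)
        refine ⟨k, hc k, ?_⟩
        have hl1 : LegalHist (gen σ β (2*n+1) ++ [bmove j (gen σ β (2*n+1)) c k]) :=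
          .snoc _ _ (hlegal _).1 (bmove_next j _ c k)
        have hl2 := hσ _ hl1 (by simp [(hlegal _).2]; exact ⟨n+1, by ring⟩)
        have hn := last_of_legal hl2
        simp at hn
        have hX := hn.1
        unfold bad at hk
        rw [← ht] at hk
        have hmem := hc k
        have hb1 : x ∈ (bmove j (gen σ β (2*n+1)) c k).P ↔ j x k = true := by
          simp only [bmove, hlast] at hmem ⊢
          simp only [Set.mem_inter_iff, Set.mem_setOf_eq]
          exact ⟨fun h => h.2, fun h => ⟨hmem, h⟩⟩
        have hb2 : x ∈ (bmove j (gen σ β (2*n+1)) c k).Q ↔ j x k = false := by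
          simp only [bmove, hlast] at hmem ⊢
          simp only [Set.mem_inter_iff, Set.mem_setOf_eq]
          exact ⟨fun h => h.2, fun h => ⟨hmem, h⟩⟩
        split_ifs at hk with hP
        · rw [hP, hb1]; simpa using hk
        · have hQ := hX.resolve_left hP
          rw [hQ, hb2]; simpa using hk
      -- the move of B
      have e1 : gen σ β (2*(n+1)) = gen σ β (2*n+1) ++ [β (gen σ β (2*n+1))] := by
        rw [show 2*(n+1) = (2*n+1)+1 by ring, gen, if_neg (by rw [Nat.not_even_iff_odd]; exact ⟨n, rfl⟩)]
      have e2 : gen σ β (2*(n+1)+1) = gen σ β (2*(n+1)) ++ [σ (gen σ β (2*(n+1)))] := by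
        rw [gen, if_pos ⟨n+1, by ring⟩]
      have hβ' : β (gen σ β (2*n+1)) = bmove j (gen σ β (2*n+1)) hex.choose hex.choose_spec.choose := by
        simp only [β]; rw [dif_pos hex]
      refine ⟨(hex.choose, hex.choose_spec.choose) :: t, ?_, ?_⟩
      · rw [e2, e1, hβ', HH, ← ht]
      · have hspec := hex.choose_spec.choose_spec.2
        rw [play, if_pos ⟨n+1, by ring⟩, e1, hβ']
        exact hspec
  have hempty := hwin (play σ β) hplay (fun n hn => play_even σ β n hn)
  have hxall : x ∈ ⋂ n : ℕ, (play σ β (n + 1)).X := by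
    rw [Set.mem_iInter]
    intro n
    -- X_{n+1} contains X_{n+2} contains ...
    have hdec : ∀ m, (play σ β (m+1)).X ⊆ (play σ β m).X := by
      intro m
      have h1 := next_of_play hplay m
      have h2 : (play σ β m).P ∪ (play σ β m).Q = (play σ β m).X := by
        have h := hplay (m+1)
        rw [hist_succ] at h
        exact (last_of_legal h).2.1
      rcases h1.1 with h | h
      · rw [h, ← h2]; exact Set.subset_union_left
      · rw [h, ← h2]; exact Set.subset_union_right
    have hanti : ∀ a b, a ≤ b → (play σ β b).X ⊆ (play σ β a).X := by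
      intro a b hab
      induction hab with
      | refl => exact le_rfl
      | step _ ih => exact (hdec _).trans ih
    obtain ⟨t, _, h⟩ := hrep (n+1)
    exact hanti (n+1) (2*(n+1)) (by omega) h
  rw [hempty] at hxall
  exact hxall


/-! ### B has no winning strategy when `E` injects into the Cantor space -/

lemma inj_choice {J X : Type u} [Inhabited X] (A : J → Set X) :
    ∃ g : J → X, ∀ j, Cardinal.mk J ≤ Cardinal.mk (A j) → g j ∈ A j ∧
      ∀ k, Cardinal.mk J ≤ Cardinal.mk (A k) → k ≠ j → g k ≠ g j := by
  classical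
  obtain ⟨r, wo, hr⟩ := Cardinal.ord_eq J
  let G : J → (∀ _ : J, X) := fun _ _ => default
  let step : (j : J) → ((k : J) → r k j → X) → X := fun j ih =>
    if h : ∃ x ∈ A j, ∀ k (hk : r k j), ih k hk ≠ x then h.choose else default
  let g : J → X := wo.wf.fix step
  have hg : ∀ j, g j = if h : ∃ x ∈ A j, ∀ k (hk : r k j), g k ≠ x then h.choose else default := by
    intro j; exact WellFounded.fix_eq wo.wf step j
  have key : ∀ j, Cardinal.mk J ≤ Cardinal.mk (A j) → ∃ x ∈ A j, ∀ k (hk : r k j), g k ≠ x := by
    intro j hj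
    by_contra hcon
    push Not at hcon
    have h1 : A j ⊆ g '' {k | r k j} := by
      intro x hx
      obtain ⟨k, hk, h⟩ := hcon x hx
      exact ⟨k, hk, h⟩
    have h2 : Cardinal.mk {k | r k j} < Cardinal.mk J := by
      have h3 := Cardinal.card_typein_lt j hr
      rw [Ordinal.card_typein] at h3
      exact h3
    exact absurd (hj.trans ((Cardinal.mk_le_mk_of_subset h1).trans Cardinal.mk_image_le)) (not_le.2 h2)
  have hspec : ∀ j, Cardinal.mk J ≤ Cardinal.mk (A j) → g j ∈ A j ∧ ∀ k, r k j → g k ≠ g j := by
    intro j hj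
    have h := key j hj
    rw [hg j, dif_pos h]
    exact h.choose_spec
  refine ⟨g, fun j hj => ⟨(hspec j hj).1, fun k hk hne => ?_⟩⟩
  rcases trichotomous_of r k j with h | h | h
  · exact (hspec j hj).2 k h
  · exact absurd h hne
  · exact ((hspec k hk).2 j h).symm

/-- the map of the Cantor space coded by `c` -/
def phi (c : List Bool → Bool) (r : ℕ → Bool) (n : ℕ) : Bool := c ((List.range (n+1)).map r)

lemma bernstein : ∃ D : Set (ℕ → Bool), ∀ c : List Bool → Bool, Function.Injective (phi c) →
    (∃ r, phi c r ∈ D) ∧ (∃ r, phi c r ∉ D) := by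
  have hJ : Cardinal.mk ((List Bool → Bool) × Bool) = Cardinal.continuum := by simp
  obtain ⟨g, hg⟩ := inj_choice (J := (List Bool → Bool) × Bool) (X := ℕ → Bool)
    (fun j => Set.range (phi j.1))
  have hbig : ∀ c, Function.Injective (phi c) → ∀ b : Bool,
      Cardinal.mk ((List Bool → Bool) × Bool) ≤ Cardinal.mk (Set.range (phi (c, b).1)) := by
    intro c hc b
    rw [hJ, Cardinal.mk_range_eq _ hc]
    simp
  refine ⟨{x | ∃ c, Function.Injective (phi c) ∧ g (c, true) = x}, ?_⟩
  intro c hc
  constructor
  · obtain ⟨r, hr⟩ := (hg (c, true) (hbig c hc true)).1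
    exact ⟨r, c, hc, hr.symm⟩
  · obtain ⟨r, hr⟩ := (hg (c, false) (hbig c hc false)).1
    refine ⟨r, ?_⟩
    rintro ⟨c', hc', h⟩
    exact (hg (c, false) (hbig c hc false)).2 (c', true) (hbig c' hc' true) (by simp) (h.trans hr)

/-- A's strategy against B, following the real `r` -/
def alpha (D : Set (ℕ → Bool)) (j : E → ℕ → Bool) (r : ℕ → Bool) (h : List (Move E)) : Move E :=
  if h.length = 0 then ⟨Set.univ, {x | j x ∈ D}, {x | j x ∉ D}⟩
  else bmove j h (r (h.length / 2 - 1)) (h.length / 2 - 1)

theorem not_BWins (hE : Cardinal.lift.{0} (Cardinal.mk E) ≤ Cardinal.lift.{u} Cardinal.continuum.{0}) :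
    ¬ BWins E := by
  rintro ⟨τ, hτ, hwin⟩
  obtain ⟨j, hj⟩ : ∃ j : E → ℕ → Bool, Function.Injective j := by
    have h2 : Cardinal.lift.{0} (Cardinal.mk E) ≤ Cardinal.lift.{u} (Cardinal.mk (ℕ → Bool)) := by
      have : Cardinal.mk (ℕ → Bool) = Cardinal.continuum := by simp
      rw [this]; exact hE
    obtain ⟨g⟩ := Cardinal.lift_mk_le'.1 h2
    exact ⟨g, g.injective⟩
  obtain ⟨D, hD⟩ := bernstein
  set P : (ℕ → Bool) → ℕ → Move E := fun r => play (alpha D j r) τ with hPdef
  have hnext : ∀ r (h : List (Move E)), Next h.getLast? (alpha D j r h) := by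
    intro r h
    unfold alpha
    split_ifs with hh
    · have : h = [] := List.length_eq_zero_iff.1 hh
      subst this
      refine ⟨rfl, ?_, ?_⟩
      · ext x; simp; exact Classical.em _
      · rw [Set.disjoint_left]; intro x hx hx'; exact hx' hx
    · exact bmove_next j h _ _
  have hleg : ∀ r n, LegalHist (gen (alpha D j r) τ n) ∧ (gen (alpha D j r) τ n).length = n := by
    intro r n
    induction n with
    | zero => exact ⟨.nil, rfl⟩
    | succ n ih =>
      refine ⟨?_, by simp [gen, ih.2]⟩
      rw [gen]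
      split_ifs with he
      · exact .snoc _ _ ih.1 (hnext r _)
      · exact hτ _ ih.1 (by rw [ih.2]; exact Nat.not_even_iff_odd.1 he)
  have hlp : ∀ r, LegalPlay (P r) := fun r n => by
    show LegalHist (hist (play _ _) n)
    rw [hist_play]; exact (hleg r n).1
  have hne : ∀ r, (⋂ n : ℕ, (P r (n + 1)).X).Nonempty := fun r =>
    hwin (P r) (hlp r) (fun n hn => play_odd _ _ n hn)
  choose x hx using hne
  have hxn : ∀ r n, x r ∈ (P r (n+1)).X := fun r n => (Set.mem_iInter.1 (hx r)) n
  -- dependence on finitely many bits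
  have hdep : ∀ r r' m, (∀ i, 2 * i + 2 < m → r i = r' i) →
      gen (alpha D j r) τ m = gen (alpha D j r') τ m := by
    intro r r' m
    induction m with
    | zero => intro _; rfl
    | succ m ih =>
      intro h
      have ihm := ih (fun i hi => h i (by omega))
      rw [gen, gen, ihm]
      have hl : (gen (alpha D j r') τ m).length = m := (hleg r' m).2
      have hal : Even m → alpha D j r (gen (alpha D j r') τ m) = alpha D j r' (gen (alpha D j r') τ m) := by
        intro he
        rw [alpha, alpha, hl]
        split_ifs with hm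
        · rfl
        · obtain ⟨k, hk⟩ := he
          rw [h (m / 2 - 1) (by omega)]
      split_ifs with he
      · rw [hal he]
      · rfl
  have hplayeq : ∀ r r' m, (∀ i, 2 * i + 2 < m + 1 → r i = r' i) → P r m = P r' m := by
    intro r r' m h
    have h1 := hdep r r' (m+1) h
    have h2 : hist (P r) (m+1) = hist (P r') (m+1) := by
      show hist (play _ _) _ = hist (play _ _) _
      rw [hist_play, hist_play, h1]
    rw [hist_succ, hist_succ] at h2
    have := (List.append_inj' h2 rfl).2
    simpa using this
  -- the form of A's moves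
  have hA : ∀ r n, P r (2*n+2) = ⟨if r n then (P r (2*n+1)).P else (P r (2*n+1)).Q,
      (if r n then (P r (2*n+1)).P else (P r (2*n+1)).Q) ∩ {x | j x n = true},
      (if r n then (P r (2*n+1)).P else (P r (2*n+1)).Q) ∩ {x | j x n = false}⟩ := by
    intro r n
    have h1 : P r (2*n+2) = alpha D j r (hist (P r) (2*n+2)) :=
      play_even _ _ _ ⟨n+1, by ring⟩
    rw [h1]
    have h2 : (2*n+2)/2 - 1 = n := by omega
    rw [alpha, hist_len, if_neg (by omega), h2]
    unfold bmove
    rw [hist_last]
  have h0 : ∀ r, P r 0 = ⟨Set.univ, {x | j x ∈ D}, {x | j x ∉ D}⟩ := by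
    intro r
    have h1 : P r 0 = alpha D j r (hist (P r) 0) := play_even _ _ _ ⟨0, rfl⟩
    rw [h1]; simp [alpha, hist]
  -- B's choice after A's coordinate split
  have hside : ∀ r n, (∀ y ∈ (P r (2*n+3)).X, j y n = true) ∨ (∀ y ∈ (P r (2*n+3)).X, j y n = false) := by
    intro r n
    have h1 := (next_of_play (hlp r) (2*n+2)).1
    rw [hA r n] at h1
    rcases h1 with h | h
    · left; intro y hy; rw [show 2*n+3 = 2*n+2+1 by ring, h] at hy; exact hy.2
    · right; intro y hy; rw [show 2*n+3 = 2*n+2+1 by ring, h] at hy; exact hy.2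
  have hbit : ∀ r r' n, (∀ i, i ≤ n → r i = r' i) → j (x r) n = j (x r') n := by
    intro r r' n h
    have h1 : P r (2*n+3) = P r' (2*n+3) := hplayeq r r' _ (fun i hi => h i (by omega))
    have hx1 : x r ∈ (P r (2*n+3)).X := hxn r (2*n+2)
    have hx2 : x r' ∈ (P r (2*n+3)).X := by rw [h1]; exact hxn r' (2*n+2)
    rcases hside r n with h | h
    · rw [h _ hx1, h _ hx2]
    · rw [h _ hx1, h _ hx2]
  let ext : List Bool → ℕ → Bool := fun l i => l.getD i false
  let c : List Bool → Bool := fun l => j (x (ext l)) (l.length - 1)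
  have hphi : ∀ r, phi c r = j (x r) := by
    intro r
    funext n
    show j (x (ext _)) (((List.range (n+1)).map r).length - 1) = _
    have : ((List.range (n+1)).map r).length - 1 = n := by simp
    rw [this]
    apply hbit
    intro i hi
    show ((List.range (n+1)).map r).getD i false = r i
    rw [List.getD_eq_getElem?_getD, List.getElem?_map, List.getElem?_range (by omega)]
    rfl
  have hinj : Function.Injective (phi c) := by
    intro r r' hrr
    rw [hphi, hphi] at hrr
    have hxx : x r = x r' := hj hrr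
    by_contra hne
    have hex : ∃ n, r n ≠ r' n := by
      by_contra hcon; push Not at hcon; exact hne (funext hcon)
    classical
    obtain ⟨n, hn, hmin⟩ : ∃ n, r n ≠ r' n ∧ ∀ i < n, r i = r' i :=
      ⟨Nat.find hex, Nat.find_spec hex, fun i hi => by
        have := Nat.find_min hex hi; simpa using this⟩
    have h1 : P r (2*n+1) = P r' (2*n+1) := hplayeq r r' _ (fun i hi => hmin i (by omega))
    have hX1 : x r ∈ (P r (2*n+2)).X := hxn r (2*n+1)
    have hX2 : x r ∈ (P r' (2*n+2)).X := by rw [hxx]; exact hxn r' (2*n+1)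
    rw [hA] at hX1 hX2
    rw [← h1] at hX2
    have hdis : Disjoint (P r (2*n+1)).P (P r (2*n+1)).Q := by
      have h := hlp r (2*n+2)
      rw [hist_succ] at h
      exact (last_of_legal h).2.2
    simp only at hX1 hX2
    cases hr : r n <;> cases hr' : r' n
    · exact hn (hr.trans hr'.symm)
    · rw [hr] at hX1; rw [hr'] at hX2
      simp at hX1 hX2
      exact Set.disjoint_left.1 hdis hX2 hX1
    · rw [hr] at hX1; rw [hr'] at hX2
      simp at hX1 hX2
      exact Set.disjoint_left.1 hdis hX1 hX2
    · exact hn (hr.trans hr'.symm)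
  obtain ⟨⟨r1, hr1⟩, ⟨r2, hr2⟩⟩ := hD c hinj
  rw [hphi] at hr1 hr2
  have hP1 : P r1 1 = P r2 1 := hplayeq r1 r2 1 (fun i hi => by omega)
  have hn1 := (next_of_play (hlp r1) 0).1
  rw [h0] at hn1
  have hx1 : x r1 ∈ (P r1 1).X := hxn r1 0
  have hx2 : x r2 ∈ (P r1 1).X := by rw [hP1]; exact hxn r2 0
  rcases hn1 with h | h
  · rw [show (0+1) = 1 from rfl] at h
    rw [h] at hx2; exact hr2 hx2
  · rw [show (0+1) = 1 from rfl] at h
    rw [h] at hx1; exact hx1 hr1

end
end Pool.Agent.H21.SplitGame
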