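import Mathlib

set_option autoImplicit false

namespace Pool.Agent.H21.Td

open Finset Classical

variable {α β : Type*}

/-- in the bipartite graph `R` between `A` and `B`, any `≤ P` vertices of `A` and any `≤ Q`
vertices of `B` have a common neighbour, and no vertex is complete to the other side -/
structure Good (R : α → β → Prop) (A : Finset α) (B : Finset β) (P Q : ℕ) : Prop where
  i : ∀ S ⊆ A, S.card ≤ P → ∃ b ∈ B, ∀ a ∈ S, R a b
  ii : ∀ T ⊆ B, T.card ≤ Q → ∃ a ∈ A, ∀ b ∈ T, R a b
  iii : ∀ a ∈ A, ∃ b ∈ B, ¬ R a b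
  iv : ∀ b ∈ B, ∃ a ∈ A, ¬ R a b

theorem Good.flip {R : α → β → Prop} {A : Finset α} {B : Finset β} {P Q : ℕ}
    (h : Good R A B P Q) : Good (fun b a => R a b) B A Q P :=
  ⟨h.ii, h.i, h.iv, h.iii⟩

/-- degrees -/
noncomputable def dA (R : α → β → Prop) (B : Finset β) (a : α) : ℕ :=
  (B.filter (fun b => R a b)).card
noncomputable def dB (R : α → β → Prop) (A : Finset α) (b : β) : ℕ :=
  (A.filter (fun a => R a b)).card

/-- number of edges -/
noncomputable def E (R : α → β → Prop) (A : Finset α) (B : Finset β) : ℕ := ∑ a ∈ A, dA R B a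

theorem E_eq (R : α → β → Prop) (A : Finset α) (B : Finset β) : E R A B = ∑ b ∈ B, dB R A b := by
  unfold E dA dB
  exact Finset.sum_card_bipartiteAbove_eq_sum_card_bipartiteBelow R

theorem Good.degA {R : α → β → Prop} {A : Finset α} {B : Finset β} {P Q : ℕ}
    (h : Good R A B P Q) {a : α} (ha : a ∈ A) : P ≤ dA R B a := by
  by_contra hlt
  push Not at hlt
  unfold dA at hlt
  haveI : Nonempty α := ⟨a⟩
  choose! f hf1 hf2 using h.iv
  obtain ⟨b, hb, hab⟩ := h.i (insert a ((B.filter (fun b => R a b)).image f)) (by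
    intro x hx
    rcases mem_insert.1 hx with rfl | hx
    · exact ha
    · obtain ⟨y, hy, rfl⟩ := mem_image.1 hx
      exact hf1 y (mem_filter.1 hy).1) (by
    refine (card_insert_le _ _).trans ?_
    have := card_image_le (s := B.filter (fun b => R a b)) (f := f)
    omega)
  have h1 : R a b := hab a (mem_insert_self _ _)
  exact hf2 b hb (hab (f b) (mem_insert_of_mem (mem_image_of_mem f (mem_filter.2 ⟨hb, h1⟩))))

theorem Good.degB {R : α → β → Prop} {A : Finset α} {B : Finset β} {P Q : ℕ}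
    (h : Good R A B P Q) {b : β} (hb : b ∈ B) : Q ≤ dB R A b := h.flip.degA hb

theorem dB_lt {R : α → β → Prop} {A : Finset α} {B : Finset β} {P Q : ℕ}
    (h : Good R A B P Q) {b : β} (hb : b ∈ B) : dB R A b < A.card := by
  obtain ⟨a, ha, hab⟩ := h.iv b hb
  unfold dB
  apply card_lt_card
  refine ⟨filter_subset _ _, fun hs => ?_⟩
  exact hab (mem_filter.1 (hs ha)).2

theorem dA_lt {R : α → β → Prop} {A : Finset α} {B : Finset β} {P Q : ℕ}
    (h : Good R A B P Q) {a : α} (ha : a ∈ A) : dA R B a < B.card := dB_lt h.flip ha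

/-- the case of a vertex of degree `P` -/
theorem case0 {R : α → β → Prop} {A : Finset α} {B : Finset β} {P Q : ℕ}
    (h : Good R A B P Q) (hPQ : Q < P) {v0 : α} (hv0 : v0 ∈ A) (hd : dA R B v0 = P) :
    P * A.card + Q * B.card ≤ E R A B + Q * (P + 1) := by
  set C := B.filter (fun b => R v0 b) with hC
  set D := B.filter (fun b => ¬ R v0 b) with hD
  have hCc : C.card = P := hd
  have hCD : C.card + D.card = B.card := card_filter_add_card_filter_not _
  haveI : Nonempty α := ⟨v0⟩
  haveI : Nonempty β := ⟨(h.iii v0 hv0).choose⟩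
  choose! f hf1 hf2 using h.iv
  choose! g hg1 hg2 using h.iii
  -- every vertex misses at most one element of `C`
  have miss : ∀ u ∈ A, ∀ c ∈ C, ∀ c' ∈ C, ¬ R u c → ¬ R u c' → c = c' := by
    intro u hu c hc c' hc' h1 h2
    by_contra hne
    obtain ⟨b, hb, hab⟩ := h.i (insert v0 (insert u (((C.erase c).erase c').image f))) (by
      intro x hx
      rcases mem_insert.1 hx with rfl | hx
      · exact hv0
      · rcases mem_insert.1 hx with rfl | hx
        · exact hu
        · obtain ⟨y, hy, rfl⟩ := mem_image.1 hx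
          have hy1 := mem_of_mem_erase (mem_of_mem_erase hy)
          exact hf1 y (mem_filter.1 hy1).1) (by
      have e1 := card_insert_le v0 (insert u (((C.erase c).erase c').image f))
      have e2 := card_insert_le u (((C.erase c).erase c').image f)
      have e3 := card_image_le (s := (C.erase c).erase c') (f := f)
      have e4 : ((C.erase c).erase c').card = C.card - 2 := by
        rw [card_erase_of_mem (mem_erase.2 ⟨fun h => hne h.symm, hc'⟩), card_erase_of_mem hc]
        omega
      have e5 : 2 ≤ C.card := by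
        have : ({c, c'} : Finset β).card = 2 := card_pair hne
        rw [← this]
        apply card_le_card
        intro x hx
        rcases mem_insert.1 hx with rfl | hx
        · exact hc
        · rw [mem_singleton.1 hx]; exact hc'
      omega)
    have k1 : R v0 b := hab v0 (mem_insert_self _ _)
    have k2 : R u b := hab u (mem_insert_of_mem (mem_insert_self _ _))
    have k3 : b ∈ C := mem_filter.2 ⟨hb, k1⟩
    have k4 : b ≠ c := fun e => h1 (e ▸ k2)
    have k5 : b ≠ c' := fun e => h2 (e ▸ k2)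
    exact hf2 b hb (hab (f b) (mem_insert_of_mem (mem_insert_of_mem (mem_image_of_mem f
      (mem_erase.2 ⟨k5, mem_erase.2 ⟨k4, k3⟩⟩)))))
  let X : α → Finset β := fun u => D.filter (fun y => R u y)
  let A0 := A.filter (fun u => ∀ c ∈ C, R u c)
  let Ac : β → Finset α := fun c => A.filter (fun u => ¬ R u c)
  -- maximal disjoint subfamilies
  have hM : ∀ c, ∃ M ⊆ Ac c, (∀ u ∈ M, ∀ u' ∈ M, u ≠ u' → Disjoint (X u) (X u')) ∧
      ∀ u ∈ Ac c, u ∉ M → ∃ u' ∈ M, ¬ Disjoint (X u) (X u') := by
    intro c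
    obtain ⟨DF, hDF⟩ : ∃ DF : Finset α → Prop, ∀ M, DF M ↔
      ∀ u ∈ M, ∀ u' ∈ M, u ≠ u' → Disjoint (X u) (X u') := ⟨_, fun _ => Iff.rfl⟩
    obtain ⟨M, hM1, hM2⟩ := exists_max_image ((Ac c).powerset.filter DF)
      Finset.card ⟨∅, by rw [mem_filter, hDF]; simp⟩
    rw [mem_filter, mem_powerset, hDF] at hM1
    refine ⟨M, hM1.1, hM1.2, fun u hu huM => ?_⟩
    by_contra hcon
    push Not at hcon
    have := hM2 (insert u M) (by
      rw [mem_filter, mem_powerset, hDF]
      refine ⟨insert_subset hu hM1.1, ?_⟩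
      intro x hx y hy hxy
      rcases mem_insert.1 hx with hx | hx
      · rcases mem_insert.1 hy with hy | hy
        · exact absurd (hx.trans hy.symm) hxy
        · rw [hx]; exact hcon y hy
      · rcases mem_insert.1 hy with hy | hy
        · rw [hy]; exact (hcon x hx).symm
        · exact hM1.2 x hx y hy hxy)
    rw [card_insert_of_notMem huM] at this
    omega
  choose M hM1 hM2 hM3 using hM
  let U : β → Finset β := fun c => D.filter (fun y => ∃ u ∈ Ac c, R u y)
  have star : ∀ c, (U c).card + (Ac c).card ≤ ∑ u ∈ Ac c, (X u).card + (M c).card := by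
    intro c
    have h1 : U c ⊆ (M c).biUnion X ∪ (Ac c \ M c).biUnion (fun u => X u \ (M c).biUnion X) := by
      intro y hy
      obtain ⟨hyD, u, hu, huy⟩ := mem_filter.1 hy
      by_cases hyM : y ∈ (M c).biUnion X
      · exact mem_union_left _ hyM
      · apply mem_union_right
        have huX : y ∈ X u := mem_filter.2 ⟨hyD, huy⟩
        refine mem_biUnion.2 ⟨u, mem_sdiff.2 ⟨hu, fun hm => hyM (mem_biUnion.2 ⟨u, hm, huX⟩)⟩,
          mem_sdiff.2 ⟨huX, hyM⟩⟩
    have h2 : (U c).card ≤ ∑ u ∈ M c, (X u).card +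
        ∑ u ∈ Ac c \ M c, (X u \ (M c).biUnion X).card :=
      (card_le_card h1).trans ((card_union_le _ _).trans
        (add_le_add card_biUnion_le card_biUnion_le))
    have h3 : ∑ u ∈ Ac c \ M c, (X u \ (M c).biUnion X).card + (Ac c \ M c).card ≤
        ∑ u ∈ Ac c \ M c, (X u).card := by
      rw [card_eq_sum_ones, ← sum_add_distrib]
      apply sum_le_sum
      intro u hu
      obtain ⟨hu1, hu2⟩ := mem_sdiff.1 hu
      obtain ⟨u', hu', hnd⟩ := hM3 c u hu1 hu2
      rw [not_disjoint_iff] at hnd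
      obtain ⟨y, hy1, hy2⟩ := hnd
      have : X u \ (M c).biUnion X ⊂ X u := by
        refine ⟨sdiff_subset, fun hs => ?_⟩
        exact (mem_sdiff.1 (hs hy1)).2 (mem_biUnion.2 ⟨u', hu', hy2⟩)
      have := card_lt_card this
      omega
    have h4 : ∑ u ∈ Ac c \ M c, (X u).card + ∑ u ∈ M c, (X u).card = ∑ u ∈ Ac c, (X u).card :=
      sum_sdiff (hM1 c)
    have h5 : (Ac c \ M c).card + (M c).card = (Ac c).card := card_sdiff_add_card_eq_card (hM1 c)
    omega
  -- `M c` is nonempty for `c ∈ C`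
  have hMne : ∀ c ∈ C, ∃ u, u ∈ M c := by
    intro c hc
    have hcB := (mem_filter.1 hc).1
    by_cases hm : f c ∈ M c
    · exact ⟨_, hm⟩
    · obtain ⟨u', hu', -⟩ := hM3 c (f c) (mem_filter.2 ⟨hf1 c hcB, hf2 c hcB⟩) hm
      exact ⟨u', hu'⟩
  choose! m0 hm0 using hMne
  -- common neighbours of choice functions
  have hcom : ∀ F : β → α, (∀ c ∈ C, F c ∈ Ac c) → ∃ y ∈ D, ∀ c ∈ C, R (F c) y := by
    intro F hF
    obtain ⟨y, hy, hy2⟩ := h.i (C.image F) (by
      intro x hx
      obtain ⟨c, hc, rfl⟩ := mem_image.1 hx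
      exact (mem_filter.1 (hF c hc)).1) (card_image_le.trans hCc.le)
    have hy3 : ∀ c ∈ C, R (F c) y := fun c hc => hy2 _ (mem_image_of_mem F hc)
    refine ⟨y, mem_filter.2 ⟨hy, fun hv => ?_⟩, hy3⟩
    have hyC : y ∈ C := mem_filter.2 ⟨hy, hv⟩
    exact (mem_filter.1 (hF y hyC)).2 (hy3 y hyC)
  -- special points
  let Sp := D.filter (fun y => ∀ c ∈ C, y ∈ U c)
  have hsp : 1 + ∑ c ∈ C, ((M c).card - 1) ≤ Sp.card := by
    obtain ⟨y0, hy0, hy0'⟩ := hcom m0 (fun c hc => hM1 c (hm0 c hc))
    have hupd : ∀ p : (_ : β) × α, p ∈ C.sigma (fun c => (M c).erase (m0 c)) →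
        ∃ y ∈ D, R p.2 y ∧ ∀ c ∈ C, c ≠ p.1 → R (m0 c) y := by
      intro p hp
      obtain ⟨hp1, hp2⟩ := mem_sigma.1 hp
      obtain ⟨y, hy, hy'⟩ := hcom (Function.update m0 p.1 p.2) (by
        intro c hc
        by_cases hcp : c = p.1
        · rw [hcp, Function.update_self]
          exact hM1 _ (mem_of_mem_erase hp2)
        · rw [Function.update_of_ne hcp]
          exact hM1 c (hm0 c hc))
      refine ⟨y, hy, ?_, fun c hc hcp => ?_⟩
      · have := hy' p.1 hp1
        rwa [Function.update_self] at this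
      · have := hy' c hc
        rwa [Function.update_of_ne hcp] at this
    choose! yy hyy1 hyy2 hyy3 using hupd
    have hinj : Set.InjOn yy (C.sigma (fun c => (M c).erase (m0 c)) : Finset ((_ : β) × α)) := by
      rintro ⟨c, u⟩ hp ⟨c', u'⟩ hp' he
      obtain ⟨hp1, hp2⟩ := mem_sigma.1 (mem_coe.1 hp)
      obtain ⟨hp1', hp2'⟩ := mem_sigma.1 (mem_coe.1 hp')
      simp only at hp1 hp2 hp1' hp2'
      by_cases hcc : c = c'
      · subst hcc
        by_contra hne
        have huu : u ≠ u' := fun e => hne (by rw [e])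
        have hdis := hM2 c u (mem_of_mem_erase hp2) u' (mem_of_mem_erase hp2') huu
        exact disjoint_left.1 hdis (mem_filter.2 ⟨hyy1 _ hp, hyy2 _ hp⟩)
          (mem_filter.2 ⟨hyy1 _ hp, he ▸ hyy2 _ hp'⟩)
      · exfalso
        have hdis := hM2 c u (mem_of_mem_erase hp2) (m0 c) (hm0 c hp1) (ne_of_mem_erase hp2)
        exact disjoint_left.1 hdis (mem_filter.2 ⟨hyy1 _ hp, hyy2 _ hp⟩)
          (mem_filter.2 ⟨hyy1 _ hp, he ▸ hyy3 _ hp' c hp1 hcc⟩)
    have hy0n : y0 ∉ (C.sigma (fun c => (M c).erase (m0 c))).image yy := by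
      intro hmem
      obtain ⟨⟨c, u⟩, hp, he⟩ := mem_image.1 hmem
      obtain ⟨hp1, hp2⟩ := mem_sigma.1 hp
      simp only at hp1 hp2
      have hdis := hM2 c u (mem_of_mem_erase hp2) (m0 c) (hm0 c hp1) (ne_of_mem_erase hp2)
      exact disjoint_left.1 hdis (mem_filter.2 ⟨hyy1 _ hp, hyy2 _ hp⟩)
        (mem_filter.2 ⟨hyy1 _ hp, he.symm ▸ hy0' c hp1⟩)
    have hsub : insert y0 ((C.sigma (fun c => (M c).erase (m0 c))).image yy) ⊆ Sp := by
      intro y hy
      rcases mem_insert.1 hy with rfl | hy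
      · exact mem_filter.2 ⟨hy0, fun c hc => mem_filter.2 ⟨hy0, m0 c, hM1 c (hm0 c hc), hy0' c hc⟩⟩
      · obtain ⟨⟨c, u⟩, hp, rfl⟩ := mem_image.1 hy
        obtain ⟨hp1, hp2⟩ := mem_sigma.1 hp
        simp only at hp1 hp2
        refine mem_filter.2 ⟨hyy1 _ hp, fun c' hc' => mem_filter.2 ⟨hyy1 _ hp, ?_⟩⟩
        by_cases hcc : c' = c
        · subst hcc
          exact ⟨u, hM1 _ (mem_of_mem_erase hp2), hyy2 _ hp⟩
        · exact ⟨m0 c', hM1 c' (hm0 c' hc'), hyy3 _ hp c' hc' hcc⟩
    have := card_le_card hsub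
    rw [card_insert_of_notMem hy0n, card_image_of_injOn hinj, card_sigma] at this
    have e : ∑ c ∈ C, ((M c).erase (m0 c)).card = ∑ c ∈ C, ((M c).card - 1) :=
      sum_congr rfl (fun c hc => card_erase_of_mem (hm0 c hc))
    omega
  -- lower bound at every `y`
  let ty : β → ℕ := fun y => (A0.filter (fun u => R u y)).card
  let Sy : β → Finset β := fun y => C.filter (fun c => y ∈ U c)
  have hy1 : ∀ y ∈ D, Q ≤ ty y + (Sy y).card := by
    intro y hy
    by_contra hlt
    push Not at hlt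
    obtain ⟨a, ha, hab⟩ := h.ii (insert y (Sy y ∪ (A0.filter (fun u => R u y)).image g)) (by
      intro x hx
      rcases mem_insert.1 hx with rfl | hx
      · exact (mem_filter.1 hy).1
      · rcases mem_union.1 hx with hx | hx
        · exact (mem_filter.1 (mem_filter.1 hx).1).1
        · obtain ⟨u, hu, rfl⟩ := mem_image.1 hx
          exact hg1 u (mem_filter.1 (mem_filter.1 hu).1).1) (by
      have e1 := card_insert_le y (Sy y ∪ (A0.filter (fun u => R u y)).image g)
      have e2 := card_union_le (Sy y) ((A0.filter (fun u => R u y)).image g)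
      have e3 := card_image_le (s := A0.filter (fun u => R u y)) (f := g)
      have e4 : ty y = (A0.filter (fun u => R u y)).card := rfl
      omega)
    have k1 : R a y := hab y (mem_insert_self _ _)
    by_cases ha0 : ∀ c ∈ C, R a c
    · have k2 : a ∈ A0.filter (fun u => R u y) := mem_filter.2 ⟨mem_filter.2 ⟨ha, ha0⟩, k1⟩
      exact hg2 a ha (hab (g a) (mem_insert_of_mem (mem_union_right _ (mem_image_of_mem g k2))))
    · push Not at ha0
      obtain ⟨c, hc, hac⟩ := ha0
      have k2 : c ∈ Sy y := mem_filter.2 ⟨hc, mem_filter.2 ⟨hy, a, mem_filter.2 ⟨ha, hac⟩, k1⟩⟩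
      exact hac (hab c (mem_insert_of_mem (mem_union_left _ k2)))
  have hy2 : ∑ y ∈ D, (ty y + (Sy y).card) ≥ Q * D.card + (P - Q) * Sp.card := by
    have e1 : ∑ y ∈ D, (ty y + (Sy y).card) ≥
        ∑ y ∈ D, (Q + if (∀ c ∈ C, y ∈ U c) then P - Q else 0) := by
      apply sum_le_sum
      intro y hy
      split_ifs with hs
      · have : Sy y = C := filter_true_of_mem hs
        rw [this, hCc]; omega
      · simpa using hy1 y hy
    have e2 : ∑ y ∈ D, (Q + if (∀ c ∈ C, y ∈ U c) then P - Q else 0) =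
        Q * D.card + (P - Q) * Sp.card := by
      rw [sum_add_distrib, sum_const, smul_eq_mul, ← sum_filter, sum_const, smul_eq_mul]
      ring
    omega
  -- double counting
  have d1 : ∑ y ∈ D, ty y = ∑ u ∈ A0, (X u).card :=
    (Finset.sum_card_bipartiteAbove_eq_sum_card_bipartiteBelow (s := A0) (t := D)
      (fun u y => R u y)).symm
  have d2 : ∑ y ∈ D, (Sy y).card = ∑ c ∈ C, (U c).card := by
    have := Finset.sum_card_bipartiteAbove_eq_sum_card_bipartiteBelow (s := D) (t := C)
      (fun y c => y ∈ U c)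
    refine this.trans (sum_congr rfl (fun c _ => ?_))
    show (D.filter (fun y => y ∈ U c)).card = _
    congr 1
    ext y
    rw [mem_filter]
    exact ⟨fun hh => hh.2, fun hh => ⟨(mem_filter.1 hh).1, hh⟩⟩
  -- edges
  have d3 : E R A B + ∑ c ∈ C, (Ac c).card = P * A.card + ∑ u ∈ A, (X u).card := by
    have e1 : ∑ c ∈ C, (Ac c).card = ∑ u ∈ A, (C.filter (fun c => ¬ R u c)).card :=
      (Finset.sum_card_bipartiteAbove_eq_sum_card_bipartiteBelow (s := A) (t := C)
        (fun u c => ¬ R u c)).symm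
    rw [e1]
    unfold E
    rw [← sum_add_distrib, mul_comm, ← smul_eq_mul, ← sum_const, ← sum_add_distrib]
    apply sum_congr rfl
    intro u _
    have e2 : dA R B u = (C.filter (fun c => R u c)).card + (X u).card := by
      unfold dA
      rw [← card_union_of_disjoint]
      · congr 1
        ext y
        simp only [X, hC, hD, mem_union, mem_filter]
        tauto
      · rw [disjoint_left]
        intro y hy hy'
        exact (mem_filter.1 (mem_filter.1 hy').1).2 (mem_filter.1 (mem_filter.1 hy).1).2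
    have e3 : (C.filter (fun c => R u c)).card + (C.filter (fun c => ¬ R u c)).card = P := by
      rw [card_filter_add_card_filter_not]; exact hCc
    omega
  have d4 : ∑ u ∈ A, (X u).card = ∑ u ∈ A0, (X u).card + ∑ c ∈ C, ∑ u ∈ Ac c, (X u).card := by
    rw [← sum_filter_add_sum_filter_not A (fun u => ∀ c ∈ C, R u c)]
    congr 1
    rw [← sum_biUnion]
    · apply sum_congr _ (fun _ _ => rfl)
      ext u
      simp only [mem_filter, mem_biUnion, Ac]
      push Not
      constructor
      · rintro ⟨hu, c, hc, hcu⟩; exact ⟨c, hc, hu, hcu⟩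
      · rintro ⟨c, hc, hu, hcu⟩; exact ⟨hu, c, hc, hcu⟩
    · intro c hc c' hc' hne
      rw [Function.onFun, disjoint_left]
      intro u hu hu'
      exact hne (miss u (mem_filter.1 hu).1 c hc c' hc' (mem_filter.1 hu).2 (mem_filter.1 hu').2)
  have d5 : ∑ c ∈ C, (U c).card + ∑ c ∈ C, (Ac c).card ≤
      ∑ c ∈ C, ∑ u ∈ Ac c, (X u).card + ∑ c ∈ C, (M c).card := by
    rw [← sum_add_distrib, ← sum_add_distrib]
    exact sum_le_sum (fun c _ => star c)
  have d6 : ∑ c ∈ C, (M c).card = ∑ c ∈ C, ((M c).card - 1) + P := by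
    rw [← hCc, card_eq_sum_ones, ← sum_add_distrib]
    apply sum_congr rfl
    intro c hc
    have : 0 < (M c).card := card_pos.2 ⟨_, hm0 c hc⟩
    omega
  rw [sum_add_distrib, d1, d2] at hy2
  -- final arithmetic
  obtain ⟨δ, rfl⟩ : ∃ δ, P = Q + 1 + δ := ⟨P - Q - 1, by omega⟩
  have k1 : Q + 1 + δ - Q = 1 + δ := by omega
  rw [k1] at hy2
  have k2 : (1 + δ) * Sp.card ≥ Sp.card + δ := by
    have : 1 ≤ Sp.card := by omega
    nlinarith
  have k3 : D.card = B.card - (Q + 1 + δ) := by omega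
  have k4 : Q + 1 + δ ≤ B.card := by omega
  have k5 : Q * D.card + Q * (Q + 1 + δ) = Q * B.card := by
    rw [← mul_add]; congr 1; omega
  have k6 : Q * (Q + 1 + δ + 1) = Q * (Q + 1 + δ) + Q := by ring
  omega

end Pool.Agent.H21.Td
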