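import Pool.Agent.H21.TdThm

set_option autoImplicit false

namespace Pool.Agent.H21.Td

open Finset Classical

variable {V : Type*} [Fintype V]

/-- `S` dominates `B` -/
def Dom (G : SimpleGraph V) (S B : Finset V) : Prop := ∀ b ∈ B, ∃ a ∈ S, G.Adj b a

/-- the core bound -/
theorem core (G : SimpleGraph V) (A B : Finset V) (hd : Disjoint A B) (hu : A ∪ B = univ)
    (hadj : ∀ v w, G.Adj v w → (v ∈ A ∧ w ∈ B) ∨ (v ∈ B ∧ w ∈ A))
    (hiso : ∀ v, ∃ w, G.Adj v w) (P Q : ℕ) (hPQ : Q < P)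
    (hP : ∀ S ⊆ A, S.card ≤ P → ¬ Dom G S B) (hQ : ∀ S ⊆ B, S.card ≤ Q → ¬ Dom G S A) :
    4 * (G.edgeFinset.card : ℤ) ≤ ((Fintype.card V : ℤ) - P - Q) ^ 2 + 4 * Q := by
  have hdis : ∀ v, v ∈ A → v ∉ B := fun v h1 h2 => disjoint_left.1 hd h1 h2
  have hg : Good (fun a b : V => ¬ G.Adj a b) A B P Q := by
    refine ⟨?_, ?_, ?_, ?_⟩
    · intro S hS hSc
      have := hP S hS hSc
      unfold Dom at this
      push Not at this
      obtain ⟨b, hb, hab⟩ := this
      exact ⟨b, hb, fun a ha h => hab a ha h.symm⟩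
    · intro S hS hSc
      have := hQ S hS hSc
      unfold Dom at this
      push Not at this
      obtain ⟨b, hb, hab⟩ := this
      exact ⟨b, hb, fun a ha h => hab a ha h⟩
    · intro a ha
      obtain ⟨w, hw⟩ := hiso a
      rcases hadj a w hw with ⟨-, h2⟩ | ⟨h1, -⟩
      · exact ⟨w, h2, fun h => h hw⟩
      · exact absurd h1 (hdis a ha)
    · intro b hb
      obtain ⟨w, hw⟩ := hiso b
      rcases hadj b w hw with ⟨h1, -⟩ | ⟨-, h2⟩
      · exact absurd hb (hdis b h1)
      · exact ⟨w, h2, fun h => h hw.symm⟩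
  have hmain := main (fun a b : V => ¬ G.Adj a b) _ A B P Q rfl hg hPQ
  unfold Bd at hmain
  have hbip : G.IsBipartiteWith (A : Set V) (B : Set V) :=
    ⟨by exact_mod_cast hd, fun v w h => hadj v w h⟩
  have hm : ∑ v ∈ A, G.degree v = G.edgeFinset.card :=
    SimpleGraph.isBipartiteWith_sum_degrees_eq_card_edges hbip
  have hE : E (fun a b : V => ¬ G.Adj a b) A B + G.edgeFinset.card = A.card * B.card := by
    rw [← hm]
    unfold E
    rw [← sum_add_distrib, ← smul_eq_mul, ← sum_const]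
    apply sum_congr rfl
    intro a ha
    have e1 : G.degree a = (B.filter (fun b => G.Adj a b)).card := by
      rw [← SimpleGraph.card_neighborFinset_eq_degree]
      congr 1
      ext w
      rw [SimpleGraph.mem_neighborFinset, mem_filter]
      constructor
      · intro h
        rcases hadj a w h with ⟨-, h2⟩ | ⟨h1, -⟩
        · exact ⟨h2, h⟩
        · exact absurd h1 (hdis a ha)
      · exact fun h => h.2
    have e2 : dA (fun a b : V => ¬ G.Adj a b) B a = (B.filter (fun b => ¬ G.Adj a b)).card := by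
      unfold dA
      apply congrArg card
      ext w
      simp only [mem_filter]
    rw [e1, e2, add_comm]
    exact card_filter_add_card_filter_not _
  have hn : A.card + B.card = Fintype.card V := by
    rw [← card_union_of_disjoint hd, hu, card_univ]
  rw [← hn]
  push_cast
  zify at hmain hE
  nlinarith [sq_nonneg ((A.card : ℤ) - Q - (B.card - P))]

/-- total dominating sets -/
def TD (G : SimpleGraph V) (S : Finset V) : Prop := ∀ v, ∃ u ∈ S, G.Adj v u

theorem bound (G : SimpleGraph V) (hb : G.IsBipartite) (hiso : ∀ v, ∃ w, G.Adj v w) (γ : ℕ)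
    (h1 : ∃ S : Finset V, TD G S ∧ S.card = γ) (h2 : ∀ S : Finset V, TD G S → γ ≤ S.card)
    (hodd : Odd γ) :
    (G.edgeFinset.card : ℤ) ≤
      (((Fintype.card V : ℤ) - γ) * ((Fintype.card V : ℤ) - γ + 4) + 2 * γ - 2) / 4 := by
  obtain ⟨c⟩ := hb
  let A : Finset V := univ.filter (fun v => c v = 0)
  let B : Finset V := univ.filter (fun v => ¬ c v = 0)
  have hd : Disjoint A B := disjoint_filter_filter_not _ _ _
  have hu : A ∪ B = univ := filter_union_filter_not_eq _ _
  have hadj : ∀ v w, G.Adj v w → (v ∈ A ∧ w ∈ B) ∨ (v ∈ B ∧ w ∈ A) := by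
    intro v w h
    have h3 := c.valid h
    simp only [A, B, mem_filter, mem_univ, true_and]
    by_cases hv : c v = 0
    · left
      exact ⟨hv, fun hw => h3 (hv.trans hw.symm)⟩
    · right
      refine ⟨hv, ?_⟩
      by_contra hw
      apply h3
      have e1 : c v = 1 := by omega
      have e2 : c w = 1 := by omega
      rw [e1, e2]
  have hdis : ∀ v, v ∈ A → v ∉ B := fun v h1 h2 => disjoint_left.1 hd h1 h2
  have hAB : ∀ v, v ∈ A ∨ v ∈ B := fun v => by
    rw [← mem_union, hu]; exact mem_univ v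
  have nA : ∀ v w, v ∈ A → G.Adj v w → w ∈ B := by
    intro v w hv h
    rcases hadj v w h with ⟨-, h4⟩ | ⟨h3, -⟩
    · exact h4
    · exact absurd h3 (hdis v hv)
  have nB : ∀ v w, v ∈ B → G.Adj v w → w ∈ A := by
    intro v w hv h
    rcases hadj v w h with ⟨h3, -⟩ | ⟨-, h4⟩
    · exact absurd hv (hdis v h3)
    · exact h4
  -- minimal dominating sets
  obtain ⟨SA, hSA1, hSA2⟩ := exists_min_image (A.powerset.filter (fun S => Dom G S B)) card
    ⟨A, by
      rw [mem_filter, mem_powerset]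
      refine ⟨Subset.refl _, fun b hb => ?_⟩
      obtain ⟨w, hw⟩ := hiso b
      exact ⟨w, nB b w hb hw, hw⟩⟩
  obtain ⟨SB, hSB1, hSB2⟩ := exists_min_image (B.powerset.filter (fun S => Dom G S A)) card
    ⟨B, by
      rw [mem_filter, mem_powerset]
      refine ⟨Subset.refl _, fun b hb => ?_⟩
      obtain ⟨w, hw⟩ := hiso b
      exact ⟨w, nA b w hb hw, hw⟩⟩
  rw [mem_filter, mem_powerset] at hSA1 hSB1
  have hmA : ∀ S ⊆ A, Dom G S B → SA.card ≤ S.card := fun S hS hD =>
    hSA2 S (mem_filter.2 ⟨mem_powerset.2 hS, hD⟩)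
  have hmB : ∀ S ⊆ B, Dom G S A → SB.card ≤ S.card := fun S hS hD =>
    hSB2 S (mem_filter.2 ⟨mem_powerset.2 hS, hD⟩)
  have hsum : γ = SA.card + SB.card := by
    apply le_antisymm
    · refine (h2 (SA ∪ SB) ?_).trans (card_union_le _ _)
      intro v
      rcases hAB v with hv | hv
      · obtain ⟨u, hu1, hu2⟩ := hSB1.2 v hv
        exact ⟨u, mem_union_right _ hu1, hu2⟩
      · obtain ⟨u, hu1, hu2⟩ := hSA1.2 v hv
        exact ⟨u, mem_union_left _ hu1, hu2⟩
    · obtain ⟨S, hS, rfl⟩ := h1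
      have e1 : SA.card ≤ (S ∩ A).card := by
        apply hmA _ inter_subset_right
        intro b hb
        obtain ⟨u, hu1, hu2⟩ := hS b
        exact ⟨u, mem_inter.2 ⟨hu1, nB b u hb hu2⟩, hu2⟩
      have e2 : SB.card ≤ (S ∩ B).card := by
        apply hmB _ inter_subset_right
        intro b hb
        obtain ⟨u, hu1, hu2⟩ := hS b
        exact ⟨u, mem_inter.2 ⟨hu1, nA b u hb hu2⟩, hu2⟩
      have e3 : (S ∩ A).card + (S ∩ B).card = S.card := by
        rw [← card_union_of_disjoint (hd.mono inter_subset_right inter_subset_right),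
          ← inter_union_distrib_left, hu, inter_univ]
      omega
  -- both are positive
  have hne : Nonempty V := by
    obtain ⟨S, hS, hc⟩ := h1
    have : 0 < S.card := by rw [hc]; exact hodd.pos
    obtain ⟨v, -⟩ := card_pos.1 this
    exact ⟨v⟩
  have hApos : ∃ v, v ∈ A := by
    obtain ⟨v⟩ := hne
    rcases hAB v with hv | hv
    · exact ⟨v, hv⟩
    · obtain ⟨w, hw⟩ := hiso v
      exact ⟨w, nB v w hv hw⟩
  have hBpos : ∃ v, v ∈ B := by
    obtain ⟨v, hv⟩ := hApos
    obtain ⟨w, hw⟩ := hiso v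
    exact ⟨w, nA v w hv hw⟩
  have hp : 0 < SA.card := by
    obtain ⟨v, hv⟩ := hBpos
    obtain ⟨u, hu1, -⟩ := hSA1.2 v hv
    exact card_pos.2 ⟨u, hu1⟩
  have hq : 0 < SB.card := by
    obtain ⟨v, hv⟩ := hApos
    obtain ⟨u, hu1, -⟩ := hSB1.2 v hv
    exact card_pos.2 ⟨u, hu1⟩
  have hPA : ∀ S ⊆ A, S.card ≤ SA.card - 1 → ¬ Dom G S B := fun S hS hc hD => by
    have := hmA S hS hD; omega
  have hPB : ∀ S ⊆ B, S.card ≤ SB.card - 1 → ¬ Dom G S A := fun S hS hc hD => by
    have := hmB S hS hD; omega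
  rw [Int.le_ediv_iff_mul_le (by norm_num)]
  obtain ⟨k, hk⟩ := hodd
  have hne2 : SA.card ≠ SB.card := by omega
  rcases Nat.lt_or_gt_of_ne hne2 with hlt | hlt
  · have h3 := core G B A hd.symm (by rw [union_comm]; exact hu)
      (fun v w h => (hadj v w h).symm) hiso (SB.card - 1) (SA.card - 1) (by omega) hPB hPA
    have e1 : ((SB.card - 1 : ℕ) : ℤ) = SB.card - 1 := by omega
    have e2 : ((SA.card - 1 : ℕ) : ℤ) = SA.card - 1 := by omega
    rw [e1, e2] at h3
    have e3 : (γ : ℤ) = SA.card + SB.card := by exact_mod_cast hsum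
    rw [e3]
    have e4 : (SA.card : ℤ) + 1 ≤ SB.card := by exact_mod_cast hlt
    nlinarith
  · have h3 := core G A B hd hu hadj hiso (SA.card - 1) (SB.card - 1) (by omega) hPA hPB
    have e1 : ((SB.card - 1 : ℕ) : ℤ) = SB.card - 1 := by omega
    have e2 : ((SA.card - 1 : ℕ) : ℤ) = SA.card - 1 := by omega
    rw [e1, e2] at h3
    have e3 : (γ : ℤ) = SA.card + SB.card := by exact_mod_cast hsum
    rw [e3]
    have e4 : (SB.card : ℤ) + 1 ≤ SA.card := by exact_mod_cast hlt
    nlinarith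

end Pool.Agent.H21.Td
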