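import Pool.Agent.H21.TdCore

set_option autoImplicit false

namespace Pool.Agent.H21.Td

open Finset Classical

variable {α β : Type*}

/-- the bound -/
def Bd (R : α → β → Prop) (A : Finset α) (B : Finset β) (P Q : ℕ) : Prop :=
  P * A.card + Q * B.card ≤ E R A B + Q * (P + 1)

theorem E_erase {R : α → β → Prop} {A : Finset α} {B : Finset β} {v : α} (hv : v ∈ A) :
    E R A B = dA R B v + E R (A.erase v) B := by
  unfold E
  rw [add_sum_erase A (fun a => dA R B a) hv]

theorem E_erase' {R : α → β → Prop} {A : Finset α} {B : Finset β} {w : β} (hw : w ∈ B) :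
    E R A B = dB R A w + E R A (B.erase w) := by
  rw [E_eq, E_eq, add_sum_erase B (fun b => dB R A b) hw]

/-- non-removable vertices of `A` -/
theorem nrA {R : α → β → Prop} {A : Finset α} {B : Finset β} {P Q : ℕ}
    (h : Good R A B P Q) {v : α} (hv : v ∈ A)
    (hB : Good R (A.erase v) B P Q → Bd R (A.erase v) B P Q) (hc : ¬ Bd R A B P Q) :
    (∃ T ⊆ B, T.card ≤ Q ∧ ∀ a ∈ A, (∀ b ∈ T, R a b) → a = v) ∨
    (∃ b ∈ B, ∀ a ∈ A, ¬ R a b → a = v) := by
  by_contra hcon
  push Not at hcon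
  obtain ⟨h1, h2⟩ := hcon
  apply hc
  have hg : Good R (A.erase v) B P Q := by
    refine ⟨fun S hS => h.i S (hS.trans (erase_subset _ _)), ?_,
      fun a ha => h.iii a (mem_of_mem_erase ha), ?_⟩
    · intro T hT hTc
      obtain ⟨a, ha, hab, hav⟩ := h1 T hT hTc
      exact ⟨a, mem_erase.2 ⟨hav, ha⟩, hab⟩
    · intro b hb
      obtain ⟨a, ha, hab, hav⟩ := h2 b hb
      exact ⟨a, mem_erase.2 ⟨hav, ha⟩, hab⟩
  have h3 := hB hg
  unfold Bd at h3 ⊢
  rw [E_erase hv]
  have h4 := h.degA hv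
  have h5 : A.card = (A.erase v).card + 1 := by
    rw [card_erase_of_mem hv]
    have := card_pos.2 ⟨v, hv⟩
    omega
  rw [h5, mul_add, mul_one]
  omega

/-- non-removable vertices of `B` -/
theorem nrB {R : α → β → Prop} {A : Finset α} {B : Finset β} {P Q : ℕ}
    (h : Good R A B P Q) {w : β} (hw : w ∈ B)
    (hB : Good R A (B.erase w) P Q → Bd R A (B.erase w) P Q) (hc : ¬ Bd R A B P Q) :
    (∃ S ⊆ A, S.card ≤ P ∧ ∀ b ∈ B, (∀ a ∈ S, R a b) → b = w) ∨
    (∃ a ∈ A, ∀ b ∈ B, ¬ R a b → b = w) := by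
  by_contra hcon
  push Not at hcon
  obtain ⟨h1, h2⟩ := hcon
  apply hc
  have hg : Good R A (B.erase w) P Q := by
    refine ⟨?_, fun T hT => h.ii T (hT.trans (erase_subset _ _)), ?_,
      fun b hb => h.iv b (mem_of_mem_erase hb)⟩
    · intro S hS hSc
      obtain ⟨b, hb, hab, hbw⟩ := h1 S hS hSc
      exact ⟨b, mem_erase.2 ⟨hbw, hb⟩, hab⟩
    · intro a ha
      obtain ⟨b, hb, hab, hbw⟩ := h2 a ha
      exact ⟨b, mem_erase.2 ⟨hbw, hb⟩, hab⟩
  have h3 := hB hg
  unfold Bd at h3 ⊢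
  rw [E_erase' hw]
  have h4 := h.degB hw
  have h5 : B.card = (B.erase w).card + 1 := by
    rw [card_erase_of_mem hw]
    have := card_pos.2 ⟨w, hw⟩
    omega
  rw [h5, mul_add, mul_one]
  omega

/-- an isolated edge -/
theorem k2 {R : α → β → Prop} {A : Finset α} {B : Finset β} {P Q : ℕ}
    (h : Good R A B P Q) (hQ : 0 < Q) (hPQ : Q < P) {v : α} {l : β} (hv : v ∈ A) (hl : l ∈ B)
    (hvl : ¬ R v l) (h1 : ∀ a ∈ A, ¬ R a l → a = v) (h2 : ∀ b ∈ B, ¬ R v b → b = l)
    (hB : Good R (A.erase v) (B.erase l) (P - 1) (Q - 1) →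
      Bd R (A.erase v) (B.erase l) (P - 1) (Q - 1)) : Bd R A B P Q := by
  have hg : Good R (A.erase v) (B.erase l) (P - 1) (Q - 1) := by
    refine ⟨?_, ?_, ?_, ?_⟩
    · intro S hS hSc
      obtain ⟨b, hb, hab⟩ := h.i (insert v S)
        (insert_subset hv (hS.trans (erase_subset _ _))) ((card_insert_le _ _).trans (by omega))
      refine ⟨b, mem_erase.2 ⟨fun e => hvl (e ▸ hab v (mem_insert_self _ _)), hb⟩,
        fun a ha => hab a (mem_insert_of_mem ha)⟩
    · intro T hT hTc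
      obtain ⟨a, ha, hab⟩ := h.ii (insert l T)
        (insert_subset hl (hT.trans (erase_subset _ _))) ((card_insert_le _ _).trans (by omega))
      refine ⟨a, mem_erase.2 ⟨fun e => hvl (e ▸ hab l (mem_insert_self _ _)), ha⟩,
        fun b hb => hab b (mem_insert_of_mem hb)⟩
    · intro a ha
      obtain ⟨b, hb, hab⟩ := h.iii a (mem_of_mem_erase ha)
      exact ⟨b, mem_erase.2 ⟨fun e => (ne_of_mem_erase ha) (h1 a (mem_of_mem_erase ha) (e ▸ hab)),
        hb⟩, hab⟩
    · intro b hb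
      obtain ⟨a, ha, hab⟩ := h.iv b (mem_of_mem_erase hb)
      exact ⟨a, mem_erase.2 ⟨fun e => (ne_of_mem_erase hb) (h2 b (mem_of_mem_erase hb) (e ▸ hab)),
        ha⟩, hab⟩
  have h3 := hB hg
  have hAc : (A.erase v).card + 1 = A.card := card_erase_add_one hv
  have hBc : (B.erase l).card + 1 = B.card := card_erase_add_one hl
  have e1 : dA R B v = (B.erase l).card := by
    unfold dA
    congr 1
    ext b
    rw [mem_filter, mem_erase]
    constructor
    · rintro ⟨hb, hr⟩; exact ⟨fun e => hvl (e ▸ hr), hb⟩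
    · rintro ⟨hne, hb⟩
      refine ⟨hb, ?_⟩
      by_contra hr
      exact hne (h2 b hb hr)
  have e2 : dB R (A.erase v) l = (A.erase v).card := by
    unfold dB
    congr 1
    rw [filter_true_of_mem]
    intro a ha
    by_contra hr
    exact (ne_of_mem_erase ha) (h1 a (mem_of_mem_erase ha) hr)
  unfold Bd at h3 ⊢
  rw [E_erase hv, E_erase' hl, e1, e2]
  obtain ⟨q, rfl⟩ : ∃ q, Q = q + 1 := ⟨Q - 1, by omega⟩
  obtain ⟨p, rfl⟩ : ∃ p, P = p + 1 := ⟨P - 1, by omega⟩
  simp only [Nat.add_sub_cancel] at h3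
  rw [← hAc, ← hBc]
  nlinarith

/-- a path `l - v - w - u` with two end vertices -/
theorem p4 {R : α → β → Prop} {A : Finset α} {B : Finset β} {P Q : ℕ}
    (h : Good R A B P Q) (hQ : 0 < Q) (hPQ : Q < P) {v u : α} {l w : β} (hv : v ∈ A)
    (hu : u ∈ A) (hl : l ∈ B) (hw : w ∈ B) (huv : u ≠ v) (hwl : w ≠ l)
    (hvl : ¬ R v l) (hvw : ¬ R v w) (huw : ¬ R u w)
    (h1 : ∀ a ∈ A, ¬ R a l → a = v) (h2 : ∀ b ∈ B, ¬ R u b → b = w)
    (h3 : ∀ b ∈ B, b ≠ l → b ≠ w → ∃ a ∈ A, a ≠ v ∧ ¬ R a b)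
    (h4 : ∀ a ∈ A, a ≠ v → a ≠ u → ∃ b ∈ B, b ≠ w ∧ ¬ R a b)
    (hB : Good R ((A.erase v).erase u) ((B.erase l).erase w) (P - 1) (Q - 1) →
      Bd R ((A.erase v).erase u) ((B.erase l).erase w) (P - 1) (Q - 1)) : Bd R A B P Q := by
  have sA : (A.erase v).erase u ⊆ A := (erase_subset _ _).trans (erase_subset _ _)
  have sB : (B.erase l).erase w ⊆ B := (erase_subset _ _).trans (erase_subset _ _)
  have mA : ∀ a, a ∈ (A.erase v).erase u ↔ a ∈ A ∧ a ≠ v ∧ a ≠ u := by
    intro a; rw [mem_erase, mem_erase]; tauto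
  have mB : ∀ b, b ∈ (B.erase l).erase w ↔ b ∈ B ∧ b ≠ l ∧ b ≠ w := by
    intro b; rw [mem_erase, mem_erase]; tauto
  have hg : Good R ((A.erase v).erase u) ((B.erase l).erase w) (P - 1) (Q - 1) := by
    refine ⟨?_, ?_, ?_, ?_⟩
    · intro S hS hSc
      obtain ⟨b, hb, hab⟩ := h.i (insert v S)
        (insert_subset hv (hS.trans sA)) ((card_insert_le _ _).trans (by omega))
      have hvb := hab v (mem_insert_self _ _)
      exact ⟨b, (mB b).2 ⟨hb, fun e => hvl (e ▸ hvb), fun e => hvw (e ▸ hvb)⟩,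
        fun a ha => hab a (mem_insert_of_mem ha)⟩
    · intro T hT hTc
      obtain ⟨a, ha, hab⟩ := h.ii (insert w T)
        (insert_subset hw (hT.trans sB)) ((card_insert_le _ _).trans (by omega))
      have haw := hab w (mem_insert_self _ _)
      exact ⟨a, (mA a).2 ⟨ha, fun e => hvw (e ▸ haw), fun e => huw (e ▸ haw)⟩,
        fun b hb => hab b (mem_insert_of_mem hb)⟩
    · intro a ha
      obtain ⟨ha1, ha2, ha3⟩ := (mA a).1 ha
      obtain ⟨b, hb, hbw, hab⟩ := h4 a ha1 ha2 ha3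
      exact ⟨b, (mB b).2 ⟨hb, fun e => ha2 (h1 a ha1 (e ▸ hab)), hbw⟩, hab⟩
    · intro b hb
      obtain ⟨hb1, hb2, hb3⟩ := (mB b).1 hb
      obtain ⟨a, ha, hav, hab⟩ := h3 b hb1 hb2 hb3
      exact ⟨a, (mA a).2 ⟨ha, hav, fun e => hb3 (h2 b hb1 (e ▸ hab))⟩, hab⟩
  have h5 := hB hg
  have hu' : u ∈ A.erase v := mem_erase.2 ⟨huv, hu⟩
  have hw' : w ∈ B.erase l := mem_erase.2 ⟨hwl, hw⟩
  have hAc : (A.erase v).card + 1 = A.card := card_erase_add_one hv
  have hBc : (B.erase l).card + 1 = B.card := card_erase_add_one hl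
  have hAc' : ((A.erase v).erase u).card + 1 = (A.erase v).card := card_erase_add_one hu'
  have hBc' : ((B.erase l).erase w).card + 1 = (B.erase l).card := card_erase_add_one hw'
  have e1 : P ≤ dA R B v := h.degA hv
  have e2 : dA R B u + 1 = B.card := by
    have : dA R B u = (B.erase w).card := by
      unfold dA
      congr 1
      ext b
      rw [mem_filter, mem_erase]
      constructor
      · rintro ⟨hb, hr⟩; exact ⟨fun e => huw (e ▸ hr), hb⟩
      · rintro ⟨hne, hb⟩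
        refine ⟨hb, ?_⟩
        by_contra hr
        exact hne (h2 b hb hr)
    rw [this]; exact card_erase_add_one hw
  have e3 : dB R ((A.erase v).erase u) l = ((A.erase v).erase u).card := by
    unfold dB
    congr 1
    rw [filter_true_of_mem]
    intro a ha
    obtain ⟨ha1, ha2, ha3⟩ := (mA a).1 ha
    by_contra hr
    exact ha2 (h1 a ha1 hr)
  have e4 : Q ≤ dB R ((A.erase v).erase u) w := by
    have e5 : dB R ((A.erase v).erase u) w = dB R A w := by
      unfold dB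
      congr 1
      ext a
      rw [mem_filter, mem_filter, mA]
      constructor
      · rintro ⟨⟨ha, -, -⟩, hr⟩; exact ⟨ha, hr⟩
      · rintro ⟨ha, hr⟩
        exact ⟨⟨ha, fun e => hvw (e ▸ hr), fun e => huw (e ▸ hr)⟩, hr⟩
    rw [e5]; exact h.degB hw
  unfold Bd at h5 ⊢
  rw [E_erase hv, E_erase hu', E_erase' hl, E_erase' hw', e3]
  obtain ⟨q, rfl⟩ : ∃ q, Q = q + 1 := ⟨Q - 1, by omega⟩
  obtain ⟨p, rfl⟩ : ∃ p, P = p + 1 := ⟨P - 1, by omega⟩
  simp only [Nat.add_sub_cancel] at h5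
  have e6 : A.card = ((A.erase v).erase u).card + 2 := by omega
  have e7 : B.card = ((B.erase l).erase w).card + 2 := by omega
  rw [e7] at e2
  rw [e6, e7]
  generalize ((A.erase v).erase u).card = x at *
  generalize ((B.erase l).erase w).card = y at *
  nlinarith

/-- removing a vertex of `A` and its non-neighbours -/
theorem remA {R : α → β → Prop} {A : Finset α} {B : Finset β} {P Q : ℕ}
    (h : Good R A B P Q) (hQ : 0 < Q) (hPQ : Q < P) {v : α} (hv : v ∈ A)
    (hanti : ∀ u ∈ A, u ≠ v → ∃ b ∈ B, R v b ∧ ¬ R u b)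
    (hB : Good R (A.erase v) (B.filter (fun b => R v b)) (P - 1) (Q - 1) →
      Bd R (A.erase v) (B.filter (fun b => R v b)) (P - 1) (Q - 1)) (hc : ¬ Bd R A B P Q) :
    ∑ b ∈ B.filter (fun b => ¬ R v b), ((dB R A b : ℤ) - Q) ≤ A.card - Q - 2 := by
  set N := B.filter (fun b => R v b) with hN
  have hg : Good R (A.erase v) N (P - 1) (Q - 1) := by
    refine ⟨?_, ?_, ?_, ?_⟩
    · intro S hS hSc
      obtain ⟨b, hb, hab⟩ := h.i (insert v S)
        (insert_subset hv (hS.trans (erase_subset _ _))) ((card_insert_le _ _).trans (by omega))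
      exact ⟨b, mem_filter.2 ⟨hb, hab v (mem_insert_self _ _)⟩,
        fun a ha => hab a (mem_insert_of_mem ha)⟩
    · intro T hT hTc
      obtain ⟨w, hw, hvw⟩ := h.iii v hv
      obtain ⟨a, ha, hab⟩ := h.ii (insert w T)
        (insert_subset hw (hT.trans (filter_subset _ _))) ((card_insert_le _ _).trans (by omega))
      exact ⟨a, mem_erase.2 ⟨fun e => hvw (e ▸ hab w (mem_insert_self _ _)), ha⟩,
        fun b hb => hab b (mem_insert_of_mem hb)⟩
    · intro a ha
      obtain ⟨b, hb, h1, h2⟩ := hanti a (mem_of_mem_erase ha) (ne_of_mem_erase ha)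
      exact ⟨b, mem_filter.2 ⟨hb, h1⟩, h2⟩
    · intro b hb
      obtain ⟨hb1, hb2⟩ := mem_filter.1 hb
      obtain ⟨a, ha, hab⟩ := h.iv b hb1
      exact ⟨a, mem_erase.2 ⟨fun e => hab (e ▸ hb2), ha⟩, hab⟩
  have h3 := hB hg
  have hAc : (A.erase v).card + 1 = A.card := card_erase_add_one hv
  have hNc : N.card + (B.filter (fun b => ¬ R v b)).card = B.card :=
    card_filter_add_card_filter_not _
  have e1 : E R A B = E R A N + ∑ b ∈ B.filter (fun b => ¬ R v b), dB R A b := by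
    rw [E_eq, E_eq, ← sum_filter_add_sum_filter_not B (fun b => R v b)]
  have e2 : E R A N = N.card + E R (A.erase v) N := by
    rw [E_erase hv]
    congr 1
    unfold dA
    congr 1
    rw [filter_true_of_mem]
    intro b hb
    exact (mem_filter.1 hb).2
  unfold Bd at h3 hc
  push Not at hc
  rw [e1, e2] at hc
  rw [sum_sub_distrib, sum_const, nsmul_eq_mul, ← Nat.cast_sum]
  obtain ⟨q, rfl⟩ : ∃ q, Q = q + 1 := ⟨Q - 1, by omega⟩
  obtain ⟨p, rfl⟩ : ∃ p, P = p + 1 := ⟨P - 1, by omega⟩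
  simp only [Nat.add_sub_cancel] at h3
  rw [← hAc, ← hNc] at hc
  rw [← hAc]
  generalize (A.erase v).card = x at *
  generalize N.card = y at *
  generalize (B.filter (fun b => ¬ R v b)).card = z at *
  generalize ∑ b ∈ B.filter (fun b => ¬ R v b), dB R A b = s at *
  generalize E R (A.erase v) N = e at *
  zify at *
  nlinarith

/-- removing a vertex of `B` and its non-neighbours -/
theorem remB {R : α → β → Prop} {A : Finset α} {B : Finset β} {P Q : ℕ}
    (h : Good R A B P Q) (hQ : 0 < Q) (hPQ : Q < P) {w : β} (hw : w ∈ B)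
    (hanti : ∀ u ∈ B, u ≠ w → ∃ a ∈ A, R a w ∧ ¬ R a u)
    (hB : Good R (A.filter (fun a => R a w)) (B.erase w) (P - 1) (Q - 1) →
      Bd R (A.filter (fun a => R a w)) (B.erase w) (P - 1) (Q - 1)) (hc : ¬ Bd R A B P Q) :
    ∑ a ∈ A.filter (fun a => ¬ R a w), ((dA R B a : ℤ) - P) ≤ B.card - P - 2 := by
  set N := A.filter (fun a => R a w) with hN
  have hg : Good R N (B.erase w) (P - 1) (Q - 1) := by
    refine ⟨?_, ?_, ?_, ?_⟩
    · intro S hS hSc
      obtain ⟨v, hv, hvw⟩ := h.iv w hw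
      obtain ⟨b, hb, hab⟩ := h.i (insert v S)
        (insert_subset hv (hS.trans (filter_subset _ _))) ((card_insert_le _ _).trans (by omega))
      exact ⟨b, mem_erase.2 ⟨fun e => hvw (e ▸ hab v (mem_insert_self _ _)), hb⟩,
        fun a ha => hab a (mem_insert_of_mem ha)⟩
    · intro T hT hTc
      obtain ⟨a, ha, hab⟩ := h.ii (insert w T)
        (insert_subset hw (hT.trans (erase_subset _ _))) ((card_insert_le _ _).trans (by omega))
      exact ⟨a, mem_filter.2 ⟨ha, hab w (mem_insert_self _ _)⟩,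
        fun b hb => hab b (mem_insert_of_mem hb)⟩
    · intro a ha
      obtain ⟨ha1, ha2⟩ := mem_filter.1 ha
      obtain ⟨b, hb, hab⟩ := h.iii a ha1
      exact ⟨b, mem_erase.2 ⟨fun e => hab (e ▸ ha2), hb⟩, hab⟩
    · intro b hb
      obtain ⟨a, ha, h1, h2⟩ := hanti b (mem_of_mem_erase hb) (ne_of_mem_erase hb)
      exact ⟨a, mem_filter.2 ⟨ha, h1⟩, h2⟩
  have h3 := hB hg
  have hBc : (B.erase w).card + 1 = B.card := card_erase_add_one hw
  have hNc : N.card + (A.filter (fun a => ¬ R a w)).card = A.card :=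
    card_filter_add_card_filter_not _
  have e1 : E R A B = E R N B + ∑ a ∈ A.filter (fun a => ¬ R a w), dA R B a := by
    unfold E
    rw [← sum_filter_add_sum_filter_not A (fun a => R a w)]
  have e2 : E R N B = N.card + E R N (B.erase w) := by
    rw [E_erase' hw]
    congr 1
    unfold dB
    congr 1
    rw [filter_true_of_mem]
    intro b hb
    exact (mem_filter.1 hb).2
  unfold Bd at h3 hc
  push Not at hc
  rw [e1, e2] at hc
  rw [sum_sub_distrib, sum_const, nsmul_eq_mul, ← Nat.cast_sum]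
  obtain ⟨q, rfl⟩ : ∃ q, Q = q + 1 := ⟨Q - 1, by omega⟩
  obtain ⟨p, rfl⟩ : ∃ p, P = p + 1 := ⟨P - 1, by omega⟩
  simp only [Nat.add_sub_cancel] at h3
  rw [← hBc, ← hNc] at hc
  rw [← hBc]
  generalize (B.erase w).card = x at *
  generalize N.card = y at *
  generalize (A.filter (fun a => ¬ R a w)).card = z at *
  generalize ∑ a ∈ A.filter (fun a => ¬ R a w), dA R B a = s at *
  generalize E R N (B.erase w) = e at *
  zify at *
  nlinarith

end Pool.Agent.H21.Td
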