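import Pool.Agent.H21.TdMain

set_option autoImplicit false

namespace Pool.Agent.H21.Td

open Finset Classical

variable {α β : Type*}

theorem term_bound (a h q : ℤ) (h1 : h < a) (h2 : q < h) : a - q - 1 ≤ (a - h) * (h - q) := by
  nlinarith [mul_nonneg (show (0 : ℤ) ≤ a - h - 1 by omega) (show (0 : ℤ) ≤ h - q - 1 by omega)]

theorem main (R : α → β → Prop) : ∀ (n : ℕ) (A : Finset α) (B : Finset β) (P Q : ℕ),
    A.card + B.card = n → Good R A B P Q → Q < P → Bd R A B P Q := by
  intro n
  induction n using Nat.strong_induction_on with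
  | _ n ih =>
  intro A B P Q hn h hPQ
  by_contra hc
  -- `Q = 0` is trivial
  have hQ : 0 < Q := by
    rcases Nat.eq_zero_or_pos Q with h0 | h0
    · exfalso
      apply hc
      subst h0
      unfold Bd E
      have : ∑ a ∈ A, P ≤ ∑ a ∈ A, dA R B a := sum_le_sum (fun a ha => h.degA ha)
      rw [sum_const, smul_eq_mul, mul_comm] at this
      omega
    · exact h0
  have IH : ∀ (A' : Finset α) (B' : Finset β) (P' Q' : ℕ), A' ⊆ A → B' ⊆ B →
      A'.card + B'.card < A.card + B.card → Q' < P' → Good R A' B' P' Q' → Bd R A' B' P' Q' := by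
    intro A' B' P' Q' _ _ hlt hPQ' hg
    exact ih _ (hn ▸ hlt) A' B' P' Q' rfl hg hPQ'
  have lA : ∀ v ∈ A, (A.erase v).card < A.card := fun v hv => card_erase_lt_of_mem hv
  have lB : ∀ w ∈ B, (B.erase w).card < B.card := fun w hw => card_erase_lt_of_mem hw
  have tA : ∀ v ∈ A, (∃ T ⊆ B, T.card ≤ Q ∧ ∀ a ∈ A, (∀ b ∈ T, R a b) → a = v) ∨
      (∃ b ∈ B, ∀ a ∈ A, ¬ R a b → a = v) := fun v hv =>
    nrA h hv (IH _ _ _ _ (erase_subset _ _) (Subset.refl _)
      (Nat.add_lt_add_right (lA v hv) _) hPQ) hc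
  have tB : ∀ w ∈ B, (∃ S ⊆ A, S.card ≤ P ∧ ∀ b ∈ B, (∀ a ∈ S, R a b) → b = w) ∨
      (∃ a ∈ A, ∀ b ∈ B, ¬ R a b → b = w) := fun w hw =>
    nrB h hw (IH _ _ _ _ (Subset.refl _) (erase_subset _ _)
      (Nat.add_lt_add_left (lB w hw) _) hPQ) hc
  -- neighbours (in the complement) of a vertex `v` with a leaf `l` have leaves themselves
  have leafB : ∀ v ∈ A, ∀ l ∈ B, (∀ a ∈ A, ¬ R a l → a = v) → ∀ w ∈ B, w ≠ l → ¬ R v w →
      ∃ u ∈ A, ∀ b ∈ B, ¬ R u b → b = w := by
    intro v hv l hl h1 w hw hwl hvw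
    rcases tB w hw with ⟨S, hS, hSc, hSu⟩ | h2
    · exfalso
      obtain ⟨b, hb, hab⟩ := h.i S hS hSc
      have hbw := hSu b hb hab
      subst hbw
      have hl2 : ¬ ∀ a ∈ S, R a l := fun hh => hwl (hSu l hl hh).symm
      push Not at hl2
      obtain ⟨a, ha, hal⟩ := hl2
      have := h1 a (hS ha) hal
      subst this
      exact hvw (hab a ha)
    · exact h2
  have leafA : ∀ w ∈ B, ∀ u ∈ A, (∀ b ∈ B, ¬ R u b → b = w) → ∀ v ∈ A, v ≠ u → ¬ R v w →
      ∃ l ∈ B, ∀ a ∈ A, ¬ R a l → a = v := by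
    intro w hw u hu h1 v hv hvu hvw
    rcases tA v hv with ⟨T, hT, hTc, hTu⟩ | h2
    · exfalso
      obtain ⟨a, ha, hab⟩ := h.ii T hT hTc
      have hav := hTu a ha hab
      subst hav
      have hl2 : ¬ ∀ b ∈ T, R u b := fun hh => hvu (hTu u hu hh).symm
      push Not at hl2
      obtain ⟨b, hb, hub⟩ := hl2
      have := h1 b (hT hb) hub
      subst this
      exact hvw (hab b hb)
    · exact h2
  -- no leaves in `B`
  have noLeafB : ∀ v ∈ A, ∀ l ∈ B, ¬ ∀ a ∈ A, ¬ R a l → a = v := by
    intro v hv l hl h1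
    have hvl : ¬ R v l := by
      obtain ⟨a, ha, hal⟩ := h.iv l hl
      have := h1 a ha hal
      subst this; exact hal
    by_cases h2 : ∀ b ∈ B, ¬ R v b → b = l
    · exact hc (k2 h hQ hPQ hv hl hvl h1 h2 (IH _ _ _ _ (erase_subset _ _) (erase_subset _ _)
        (add_lt_add (lA v hv) (lB l hl)) (by omega)))
    · push Not at h2
      obtain ⟨w, hw, hvw, hwl⟩ := h2
      obtain ⟨u, hu, hu2⟩ := leafB v hv l hl h1 w hw hwl hvw
      have huw : ¬ R u w := by
        obtain ⟨b, hb, hub⟩ := h.iii u hu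
        have := hu2 b hb hub
        subst this; exact hub
      have huv : u ≠ v := by
        rintro rfl
        exact hwl (hu2 l hl hvl).symm
      refine hc (p4 h hQ hPQ hv hu hl hw huv hwl hvl hvw huw h1 hu2 ?_ ?_ ?_)
      · intro b hb hbl hbw
        by_contra hcon
        push Not at hcon
        have hb1 : ∀ a ∈ A, ¬ R a b → a = v := by
          intro a ha hab
          by_contra hne
          exact hab (hcon a ha hne)
        obtain ⟨a, ha, hab⟩ := h.iv b hb
        have hvb : ¬ R v b := by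
          have := hb1 a ha hab
          subst this; exact hab
        obtain ⟨u', hu', hu'2⟩ := leafB v hv l hl h1 b hb hbl hvb
        have hu'b : ¬ R u' b := by
          obtain ⟨b', hb', hub'⟩ := h.iii u' hu'
          have := hu'2 b' hb' hub'
          subst this; exact hub'
        have := hb1 u' hu' hu'b
        subst this
        exact hbl (hu'2 l hl hvl).symm
      · intro a ha hav hau
        by_contra hcon
        push Not at hcon
        have ha1 : ∀ b ∈ B, ¬ R a b → b = w := by
          intro b hb hab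
          by_contra hne
          exact hab (hcon b hb hne)
        obtain ⟨b, hb, hab⟩ := h.iii a ha
        have haw : ¬ R a w := by
          have := ha1 b hb hab
          subst this; exact hab
        obtain ⟨l', hl', hl'2⟩ := leafA w hw u hu hu2 a ha hau haw
        have hl'a : ¬ R a l' := by
          obtain ⟨a', ha', hal'⟩ := h.iv l' hl'
          have := hl'2 a' ha' hal'
          subst this; exact hal'
        have := ha1 l' hl' hl'a
        subst this
        exact hav (hl'2 v hv hvw).symm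
      · refine IH _ _ _ _ ((erase_subset _ _).trans (erase_subset _ _))
          ((erase_subset _ _).trans (erase_subset _ _)) ?_ (by omega)
        have e1 := lA v hv
        have e2 := lB l hl
        have e3 : ((A.erase v).erase u).card ≤ (A.erase v).card := card_le_card (erase_subset _ _)
        have e4 : ((B.erase l).erase w).card ≤ (B.erase l).card := card_le_card (erase_subset _ _)
        omega
  have noLeafA : ∀ w ∈ B, ∀ u ∈ A, ¬ ∀ b ∈ B, ¬ R u b → b = w := by
    intro w hw u hu h1
    have huw : ¬ R u w := by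
      obtain ⟨b, hb, hub⟩ := h.iii u hu
      have := h1 b hb hub
      subst this; exact hub
    by_cases h2 : ∀ a ∈ A, ¬ R a w → a = u
    · exact noLeafB u hu w hw h2
    · push Not at h2
      obtain ⟨v, hv, hvw, hvu⟩ := h2
      obtain ⟨l, hl, hl2⟩ := leafA w hw u hu h1 v hv hvu hvw
      exact noLeafB v hv l hl hl2
  -- critical sets
  have cA : ∀ v ∈ A, ∃ T ⊆ B, T.card ≤ Q ∧ ∀ a ∈ A, (∀ b ∈ T, R a b) → a = v := by
    intro v hv
    rcases tA v hv with h1 | ⟨b, hb, h1⟩
    · exact h1
    · exact absurd h1 (noLeafB v hv b hb)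
  have cB : ∀ w ∈ B, ∃ S ⊆ A, S.card ≤ P ∧ ∀ b ∈ B, (∀ a ∈ S, R a b) → b = w := by
    intro w hw
    rcases tB w hw with h1 | ⟨a, ha, h1⟩
    · exact h1
    · exact absurd h1 (noLeafA w hw a ha)
  have antiA : ∀ v ∈ A, ∀ u ∈ A, u ≠ v → ∃ b ∈ B, R v b ∧ ¬ R u b := by
    intro v hv u hu huv
    obtain ⟨T, hT, hTc, hTu⟩ := cA v hv
    obtain ⟨a, ha, hab⟩ := h.ii T hT hTc
    have := hTu a ha hab
    subst this
    by_contra hcon
    push Not at hcon
    exact huv (hTu u hu (fun b hb => hcon b (hT hb) (hab b hb)))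
  have antiB : ∀ w ∈ B, ∀ u ∈ B, u ≠ w → ∃ a ∈ A, R a w ∧ ¬ R a u := by
    intro w hw u hu huw
    obtain ⟨S, hS, hSc, hSu⟩ := cB w hw
    obtain ⟨b, hb, hab⟩ := h.i S hS hSc
    have := hSu b hb hab
    subst this
    by_contra hcon
    push Not at hcon
    exact huw (hSu u hu (fun a ha => hcon a (hS ha) (hab a ha)))
  have degB : ∀ w ∈ B, P ≤ dB R A w := by
    intro w hw
    obtain ⟨S, hS, hSc, hSu⟩ := cB w hw
    obtain ⟨b, hb, hab⟩ := h.i S hS hSc
    have := hSu b hb hab
    subst this
    have h1 : P ≤ S.card := by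
      by_contra hlt
      push Not at hlt
      obtain ⟨a, ha, hnab⟩ := h.iv b hw
      obtain ⟨b', hb', hab'⟩ := h.i (insert a S) (insert_subset ha hS)
        ((card_insert_le _ _).trans (by omega))
      have := hSu b' hb' (fun x hx => hab' x (mem_insert_of_mem hx))
      subst this
      exact hnab (hab' a (mem_insert_self _ _))
    refine h1.trans (card_le_card (fun a ha => mem_filter.2 ⟨hS ha, hab a ha⟩))
  by_cases h0 : ∃ v0 ∈ A, dA R B v0 = P
  · obtain ⟨v0, hv0, hd⟩ := h0
    exact hc (case0 h hPQ hv0 hd)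
  · push Not at h0
    have degA : ∀ v ∈ A, P < dA R B v := fun v hv =>
      lt_of_le_of_ne (h.degA hv) (fun e => h0 v hv e.symm)
    -- sum over `A`
    have YA : ∀ v ∈ A, ∑ b ∈ B.filter (fun b => ¬ R v b), ((dB R A b : ℤ) - Q) ≤
        A.card - Q - 2 := by
      intro v hv
      refine remA h hQ hPQ hv (fun u hu huv => antiA v hv u hu huv) ?_ hc
      refine IH _ _ _ _ (erase_subset _ _) (filter_subset _ _) ?_ (by omega)
      have e1 := lA v hv
      have e2 := card_filter_le B (fun b => R v b)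
      omega
    have XB : ∀ w ∈ B, ∑ a ∈ A.filter (fun a => ¬ R a w), ((dA R B a : ℤ) - P) ≤
        B.card - P - 2 := by
      intro w hw
      refine remB h hQ hPQ hw (fun u hu huw => antiB w hw u hu huw) ?_ hc
      refine IH _ _ _ _ (filter_subset _ _) (erase_subset _ _) ?_ (by omega)
      have e1 := lB w hw
      have e2 := card_filter_le A (fun a => R a w)
      omega
    have SY : ∑ b ∈ B, ((A.card : ℤ) - dB R A b) * ((dB R A b : ℤ) - Q) ≤
        A.card * ((A.card : ℤ) - Q - 2) := by
      have e1 : ∑ v ∈ A, ∑ b ∈ B.filter (fun b => ¬ R v b), ((dB R A b : ℤ) - Q) ≤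
          ∑ v ∈ A, ((A.card : ℤ) - Q - 2) := sum_le_sum YA
      rw [sum_const, nsmul_eq_mul] at e1
      refine le_trans (le_of_eq ?_) e1
      have e2 : ∑ v ∈ A, ∑ b ∈ B.filter (fun b => ¬ R v b), ((dB R A b : ℤ) - Q) =
          ∑ b ∈ B, ∑ v ∈ A.filter (fun v => ¬ R v b), ((dB R A b : ℤ) - Q) := by
        simp only [sum_filter]
        exact sum_comm
      rw [e2]
      apply sum_congr rfl
      intro b _
      rw [sum_const, nsmul_eq_mul]
      congr 1
      have e3 : (A.filter (fun v => R v b)).card + (A.filter (fun v => ¬ R v b)).card = A.card :=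
        card_filter_add_card_filter_not _
      unfold dB
      omega
    have SX : ∑ a ∈ A, ((B.card : ℤ) - dA R B a) * ((dA R B a : ℤ) - P) ≤
        B.card * ((B.card : ℤ) - P - 2) := by
      have e1 : ∑ w ∈ B, ∑ a ∈ A.filter (fun a => ¬ R a w), ((dA R B a : ℤ) - P) ≤
          ∑ w ∈ B, ((B.card : ℤ) - P - 2) := sum_le_sum XB
      rw [sum_const, nsmul_eq_mul] at e1
      refine le_trans (le_of_eq ?_) e1
      have e2 : ∑ w ∈ B, ∑ a ∈ A.filter (fun a => ¬ R a w), ((dA R B a : ℤ) - P) =
          ∑ a ∈ A, ∑ w ∈ B.filter (fun w => ¬ R a w), ((dA R B a : ℤ) - P) := by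
        simp only [sum_filter]
        exact sum_comm
      rw [e2]
      apply sum_congr rfl
      intro a _
      rw [sum_const, nsmul_eq_mul]
      congr 1
      have e3 : (B.filter (fun w => R a w)).card + (B.filter (fun w => ¬ R a w)).card = B.card :=
        card_filter_add_card_filter_not _
      unfold dA
      omega
    have LY : (B.card : ℤ) * ((A.card : ℤ) - Q - 1) ≤
        ∑ b ∈ B, ((A.card : ℤ) - dB R A b) * ((dB R A b : ℤ) - Q) := by
      rw [← nsmul_eq_mul, ← sum_const]
      apply sum_le_sum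
      intro b hb
      have e1 := degB b hb
      have e2 := dB_lt h hb
      exact term_bound _ _ _ (by exact_mod_cast e2) (by omega)
    have LX : (A.card : ℤ) * ((B.card : ℤ) - P - 1) ≤
        ∑ a ∈ A, ((B.card : ℤ) - dA R B a) * ((dA R B a : ℤ) - P) := by
      rw [← nsmul_eq_mul, ← sum_const]
      apply sum_le_sum
      intro a ha
      have e1 := degA a ha
      have e2 := dA_lt h ha
      exact term_bound _ _ _ (by exact_mod_cast e2) (by exact_mod_cast e1)
    obtain ⟨a0, ha0, -⟩ := h.ii ∅ (empty_subset _) (by simp)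
    obtain ⟨b0, hb0, -⟩ := h.i ∅ (empty_subset _) (by simp)
    have f1 := degB b0 hb0
    have f2 := dB_lt h hb0
    have f3 := degA a0 ha0
    have f4 := dA_lt h ha0
    have g1 : (0 : ℤ) < (A.card : ℤ) - Q - 1 := by omega
    have g2 : (0 : ℤ) < (B.card : ℤ) - P - 1 := by omega
    have h1 := LY.trans SY
    have h2 := LX.trans SX
    have c1 : (B.card : ℤ) < A.card := by
      by_contra hcon
      push Not at hcon
      have : (A.card : ℤ) * ((A.card : ℤ) - Q - 1) ≤ B.card * ((A.card : ℤ) - Q - 1) :=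
        mul_le_mul_of_nonneg_right hcon g1.le
      have hpos : (0 : ℤ) < A.card := by exact_mod_cast card_pos.2 ⟨a0, ha0⟩
      nlinarith
    have c2 : (A.card : ℤ) < B.card := by
      by_contra hcon
      push Not at hcon
      have : (B.card : ℤ) * ((B.card : ℤ) - P - 1) ≤ A.card * ((B.card : ℤ) - P - 1) :=
        mul_le_mul_of_nonneg_right hcon g2.le
      have hpos : (0 : ℤ) < B.card := by exact_mod_cast card_pos.2 ⟨b0, hb0⟩
      nlinarith
    omega

end Pool.Agent.H21.Td
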