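import Mathlib

set_option autoImplicit false
set_option linter.unusedVariables false

namespace H21.Tilf

open MeasureTheory ComplexConjugate

variable {G : Type} [TopologicalSpace G] [AddCommGroup G] [IsTopologicalAddGroup G] [CompactSpace G]
  [T2Space G] [MeasurableSpace G] [BorelSpace G]

/-- unitary characters as continuous functions -/
def IsChar (χ : C(G, ℂ)) : Prop := (∀ x y, χ (x + y) = χ x * χ y) ∧ ∀ x, ‖χ x‖ = 1

lemma IsChar.zero {χ : C(G, ℂ)} (h : IsChar χ) : χ 0 = 1 := by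
  have h1 := h.1 0 0
  rw [add_zero] at h1
  have h2 : χ 0 ≠ 0 := by
    intro h0
    have := h.2 0
    rw [h0, norm_zero] at this
    exact zero_ne_one this
  field_simp at h1
  exact h1.symm

lemma IsChar.conj_mul {χ : C(G, ℂ)} (h : IsChar χ) (x : G) : conj (χ x) * χ x = 1 := by
  rw [mul_comm, Complex.mul_conj, Complex.normSq_eq_norm_sq, h.2 x]
  simp

lemma IsChar.neg {χ : C(G, ℂ)} (h : IsChar χ) (x : G) : χ (-x) = conj (χ x) := by
  have h1 := h.1 (-x) x
  rw [neg_add_cancel, h.zero] at h1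
  have h2 := h.conj_mul x
  have h3 : χ x ≠ 0 := by
    intro h0
    have := h.2 x
    rw [h0, norm_zero] at this
    exact zero_ne_one this
  exact mul_right_cancel₀ h3 (h1.symm.trans h2.symm)

variable (μ : Measure G) [IsProbabilityMeasure μ] [μ.IsAddRightInvariant] [μ.WeaklyRegular]

/-- orthogonality -/
lemma integral_char (χ : C(G, ℂ)) (h : IsChar χ) (hne : ∃ a, χ a ≠ 1) : ∫ x, χ x ∂μ = 0 := by
  obtain ⟨a, ha⟩ := hne
  have h1 : ∫ x, χ (x + a) ∂μ = ∫ x, χ x ∂μ := integral_add_right_eq_self _ a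
  have h2 : ∫ x, χ (x + a) ∂μ = (∫ x, χ x ∂μ) * χ a := by
    simp_rw [h.1]
    exact integral_mul_const _ _
  rw [h2] at h1
  by_contra h0
  apply ha
  exact mul_left_cancel₀ h0 (by rw [h1, mul_one])

lemma ortho (S : Set C(G, ℂ)) (hS : ∀ χ ∈ S, IsChar χ) :
    Orthonormal ℂ (fun χ : S => ContinuousMap.toLp (E := ℂ) 2 μ ℂ (χ : C(G, ℂ))) := by
  classical
  rw [orthonormal_iff_ite]
  intro χ ψ
  rw [ContinuousMap.inner_toLp]
  split_ifs with h
  · subst h
    have : ∀ x, (χ : C(G, ℂ)) x * conj ((χ : C(G, ℂ)) x) = 1 := by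
      intro x
      rw [mul_comm]; exact (hS χ χ.2).conj_mul x
    simp_rw [this]
    simp
  · have hc := hS χ χ.2
    have hp := hS ψ ψ.2
    set θ : C(G, ℂ) := ⟨fun x => (ψ : C(G, ℂ)) x * conj ((χ : C(G, ℂ)) x), by fun_prop⟩ with hθ
    have hθc : IsChar θ := by
      constructor
      · intro x y
        show (ψ : C(G, ℂ)) (x + y) * conj ((χ : C(G, ℂ)) (x + y)) = _
        rw [hc.1, hp.1, map_mul]
        show _ = ((ψ : C(G, ℂ)) x * conj ((χ : C(G, ℂ)) x)) * ((ψ : C(G, ℂ)) y * conj ((χ : C(G, ℂ)) y))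
        ring
      · intro x
        show ‖(ψ : C(G, ℂ)) x * conj ((χ : C(G, ℂ)) x)‖ = 1
        rw [norm_mul, RCLike.norm_conj, hc.2, hp.2, mul_one]
    have hne : ∃ a, θ a ≠ 1 := by
      by_contra hcon
      push Not at hcon
      apply h
      apply Subtype.ext
      ext x
      have h1 : (ψ : C(G, ℂ)) x * conj ((χ : C(G, ℂ)) x) = 1 := hcon x
      have h2 := hc.conj_mul x
      have h3 : conj ((χ : C(G, ℂ)) x) ≠ 0 := by
        intro h0
        rw [h0, mul_zero] at h1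
        exact zero_ne_one h1
      have h4 : (ψ : C(G, ℂ)) x * conj ((χ : C(G, ℂ)) x) = (χ : C(G, ℂ)) x * conj ((χ : C(G, ℂ)) x) := by
        rw [h1, mul_comm, h2]
      exact (mul_right_cancel₀ h3 h4).symm
    exact integral_char μ θ hθc hne

/-- totality -/
lemma total (S : Set C(G, ℂ)) (h1 : (1 : C(G, ℂ)) ∈ S) (hmul : ∀ χ ∈ S, ∀ ψ ∈ S, χ * ψ ∈ S)
    (hstar : ∀ χ ∈ S, star χ ∈ S) (hsep : ∀ x y : G, x ≠ y → ∃ χ ∈ S, χ x ≠ χ y) :
    (Submodule.span ℂ (Set.range (fun χ : S => ContinuousMap.toLp (E := ℂ) 2 μ ℂ (χ : C(G, ℂ))))).topologicalClosure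
      = ⊤ := by
  let A : StarSubalgebra ℂ C(G, ℂ) :=
    { toSubalgebra := Algebra.adjoin ℂ S
      star_mem' := by
        change Algebra.adjoin ℂ S ≤ star (Algebra.adjoin ℂ S)
        refine Algebra.adjoin_le ?_
        intro χ hχ
        exact Algebra.subset_adjoin (hstar χ hχ) }
  have hA : A.topologicalClosure = ⊤ := by
    apply ContinuousMap.starSubalgebra_topologicalClosure_eq_top_of_separatesPoints
    intro x y hxy
    obtain ⟨χ, hχ, hne⟩ := hsep x y hxy
    exact ⟨_, ⟨χ, Algebra.subset_adjoin hχ, rfl⟩, hne⟩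
  have hspan : Subalgebra.toSubmodule A.toSubalgebra = Submodule.span ℂ S := by
    apply Algebra.adjoin_eq_span_of_subset
    refine Set.Subset.trans ?_ Submodule.subset_span
    intro x hx
    refine Submonoid.closure_induction (fun _ h => h) h1 (fun a b _ _ ha hb => hmul a ha b hb) hx
  have hcl : (Submodule.span ℂ S).topologicalClosure = ⊤ := by
    rw [← hspan]
    exact congr_arg (Subalgebra.toSubmodule <| StarSubalgebra.toSubalgebra ·) hA
  have h2 := (ContinuousMap.toLp_denseRange ℂ μ ℂ (p := 2) (by norm_num)).topologicalClosure_map_submodule hcl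
  rw [Submodule.map_span] at h2
  have heq : (Set.range (fun χ : S => ContinuousMap.toLp (E := ℂ) 2 μ ℂ (χ : C(G, ℂ))))
      = (fun χ : C(G, ℂ) => ContinuousMap.toLp (E := ℂ) 2 μ ℂ χ) '' S := by
    ext f
    constructor
    · rintro ⟨χ, rfl⟩
      exact ⟨χ, χ.2, rfl⟩
    · rintro ⟨χ, hχ, rfl⟩
      exact ⟨⟨χ, hχ⟩, rfl⟩
  rw [heq]
  exact h2

lemma inner_left (χ : C(G, ℂ)) (f : Lp ℂ 2 μ) :
    inner ℂ (ContinuousMap.toLp (E := ℂ) 2 μ ℂ χ) f = ∫ x, f x * conj (χ x) ∂μ := by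
  rw [L2.inner_def]
  apply integral_congr_ae
  filter_upwards [χ.coeFn_toLp (p := 2) (𝕜 := ℂ) μ] with x hx
  rw [hx]
  simp [RCLike.inner_apply]

lemma inner_translate (χ : C(G, ℂ)) (h : IsChar χ) (a : G) (f g : Lp ℂ 2 μ)
    (hfg : (g : G → ℂ) =ᵐ[μ] fun x => (f : G → ℂ) (x + a)) :
    inner ℂ (ContinuousMap.toLp (E := ℂ) 2 μ ℂ χ) g
      = χ a * inner ℂ (ContinuousMap.toLp (E := ℂ) 2 μ ℂ χ) f := by
  rw [inner_left, inner_left]
  have h1 : ∫ x, g x * conj (χ x) ∂μ = ∫ x, χ a * (f (x + a) * conj (χ (x + a))) ∂μ := by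
    apply integral_congr_ae
    filter_upwards [hfg] with x hx
    rw [hx, h.1, map_mul]
    have := h.conj_mul a
    calc f (x + a) * conj (χ x) = f (x + a) * conj (χ x) * (conj (χ a) * χ a) := by rw [this, mul_one]
      _ = χ a * (f (x + a) * (conj (χ x) * conj (χ a))) := by ring
  rw [h1, integral_const_mul]
  congr 1
  exact integral_add_right_eq_self (fun x => f x * conj (χ x)) a

lemma exists_translate (f : Lp ℂ 2 μ) (a : G) :
    ∃ g : Lp ℂ 2 μ, (g : G → ℂ) =ᵐ[μ] fun x => (f : G → ℂ) (x + a) := by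
  have hmp := measurePreserving_add_right μ a
  have h1 := (Lp.memLp f).comp_measurePreserving hmp
  exact ⟨h1.toLp _, h1.coeFn_toLp⟩

open scoped Classical in
/-- the abstract theorem -/
theorem main_abs (S : Set C(G, ℂ)) (hS : ∀ χ ∈ S, IsChar χ) (h1 : (1 : C(G, ℂ)) ∈ S)
    (hmul : ∀ χ ∈ S, ∀ ψ ∈ S, χ * ψ ∈ S)
    (hstar : ∀ χ ∈ S, star χ ∈ S) (hsep : ∀ x y : G, x ≠ y → ∃ χ ∈ S, χ x ≠ χ y) (m : ℕ)
    (hgood : ∀ w : S → ℝ, (∀ χ, 0 ≤ w χ) → Summable w → ∃ a : Fin m → G,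
      (∀ χ : S, (χ : C(G, ℂ)) ≠ 1 → 0 < ∑ j, ‖1 - (χ : C(G, ℂ)) (a j)‖ ^ 2) ∧
      Summable (fun χ : S => if (χ : C(G, ℂ)) = 1 then 0 else
        w χ / ∑ j, ‖1 - (χ : C(G, ℂ)) (a j)‖ ^ 2))
    (φ : Lp ℂ 2 μ →ₗ[ℂ] ℂ)
    (hφ : ∀ (a : G) (f g : Lp ℂ 2 μ), ((g : G → ℂ) =ᵐ[μ] fun x => (f : G → ℂ) (x + a)) → φ g = φ f) :
    Continuous φ := by
  let b : HilbertBasis S ℂ (Lp ℂ 2 μ) :=
    HilbertBasis.mk (ortho μ S hS) (total μ S h1 hmul hstar hsep).ge
  have hb : ∀ χ : S, b χ = ContinuousMap.toLp (E := ℂ) 2 μ ℂ (χ : C(G, ℂ)) := by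
    intro χ
    exact congrFun (HilbertBasis.coe_mk _ _) χ
  have hrep : ∀ (f : Lp ℂ 2 μ) (χ : S), b.repr f χ = inner ℂ (b χ) f := fun f χ =>
    HilbertBasis.repr_apply_apply b f χ
  set one : S := ⟨1, h1⟩ with hone
  have hkey : ∀ f : Lp ℂ 2 μ, inner ℂ (b one) f = 0 → φ f = 0 := by
    intro f hf0
    set c : S → ℂ := fun χ => b.repr f χ with hc
    have hsum : Summable (fun χ => ‖c χ‖ ^ 2) := by
      have h2 := (lp.memℓp (b.repr f)).summable (by norm_num)
      simpa using h2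
    obtain ⟨a, ha1, ha2⟩ := hgood (fun χ => ‖c χ‖ ^ 2) (fun χ => by positivity) hsum
    set D : S → ℝ := fun χ => ∑ j, ‖1 - (χ : C(G, ℂ)) (a j)‖ ^ 2 with hD
    let F : Fin m → S → ℂ := fun j χ => if (χ : C(G, ℂ)) = 1 then 0 else
      c χ * conj (1 - (χ : C(G, ℂ)) (a j)) / D χ
    have hF : ∀ j, Memℓp (F j) 2 := by
      intro j
      apply memℓp_gen
      have h3 : Summable (fun χ : S => ‖F j χ‖ ^ 2) := by
        refine Summable.of_nonneg_of_le (fun χ => by positivity) ?_ ha2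
        intro χ
        by_cases hχ : (χ : C(G, ℂ)) = 1
        · simp [F, hχ]
        · simp only [F, hχ, if_false]
          have hpos := ha1 χ hχ
          have hle : ‖1 - (χ : C(G, ℂ)) (a j)‖ ^ 2 ≤ D χ :=
            Finset.single_le_sum (f := fun j => ‖1 - (χ : C(G, ℂ)) (a j)‖ ^ 2)
              (fun _ _ => by positivity) (Finset.mem_univ j)
          rw [norm_div, norm_mul, RCLike.norm_conj, Complex.norm_real, Real.norm_of_nonneg hpos.le,
            div_pow, mul_pow]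
          rw [div_le_div_iff₀ (by positivity) hpos]
          have h5 : 0 ≤ ‖c χ‖ ^ 2 := by positivity
          nlinarith [mul_le_mul_of_nonneg_left hle (mul_nonneg h5 hpos.le)]
      simpa using h3
    let g : Fin m → Lp ℂ 2 μ := fun j => b.repr.symm ⟨F j, hF j⟩
    have hg : ∀ j χ, b.repr (g j) χ = F j χ := by
      intro j χ
      simp only [g, LinearIsometryEquiv.apply_symm_apply]
    choose T hT using fun j => exists_translate μ (g j) (a j)
    have hTr : ∀ j χ, b.repr (T j) χ = (χ : C(G, ℂ)) (a j) * F j χ := by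
      intro j χ
      rw [hrep, hb, inner_translate μ χ (hS χ χ.2) (a j) (g j) (T j) (hT j), ← hb, ← hrep, hg]
    have hf : f = ∑ j, (g j - T j) := by
      apply b.repr.injective
      apply lp.ext
      funext χ
      rw [map_sum]
      have h6 : ((∑ j, b.repr (g j - T j) : lp (fun _ : S => ℂ) 2) : S → ℂ) χ
          = ∑ j, (F j χ - (χ : C(G, ℂ)) (a j) * F j χ) := by
        rw [lp.coeFn_sum, Finset.sum_apply]
        apply Finset.sum_congr rfl
        intro j _
        rw [map_sub, lp.coeFn_sub, Pi.sub_apply, hg, hTr]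
      rw [h6]
      by_cases hχ : (χ : C(G, ℂ)) = 1
      · have h7 : χ = one := Subtype.ext hχ
        have h8 : b.repr f χ = 0 := by rw [h7, hrep, hf0]
        rw [h8]
        simp [F, hχ]
      · have hpos := ha1 χ hχ
        have hne : (D χ : ℂ) ≠ 0 := by exact_mod_cast hpos.ne'
        have h9 : ∀ j, F j χ - (χ : C(G, ℂ)) (a j) * F j χ
            = c χ / D χ * ((‖1 - (χ : C(G, ℂ)) (a j)‖ ^ 2 : ℝ) : ℂ) := by
          intro j
          simp only [F, hχ, if_false]
          have h10 : ((‖1 - (χ : C(G, ℂ)) (a j)‖ ^ 2 : ℝ) : ℂ)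
              = (1 - (χ : C(G, ℂ)) (a j)) * conj (1 - (χ : C(G, ℂ)) (a j)) := by
            rw [Complex.mul_conj, Complex.normSq_eq_norm_sq]
          rw [h10]
          ring
        simp_rw [h9]
        rw [← Finset.mul_sum, ← Complex.ofReal_sum]
        show c χ = c χ / D χ * ((D χ : ℝ) : ℂ)
        field_simp
    rw [hf, map_sum]
    apply Finset.sum_eq_zero
    intro j _
    rw [map_sub, hφ (a j) (g j) (T j) (hT j), sub_self]
  have hform : ∀ f : Lp ℂ 2 μ, φ f = inner ℂ (b one) f * φ (b one) := by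
    intro f
    have h11 : inner ℂ (b one) (b one) = (1 : ℂ) := by
      have := b.orthonormal.1 one
      rw [inner_self_eq_norm_sq_to_K, this]
      simp
    have h12 := hkey (f - (inner ℂ (b one) f : ℂ) • b one) (by
      rw [inner_sub_right, inner_smul_right, h11, mul_one, sub_self])
    rw [map_sub, map_smul, sub_eq_zero, smul_eq_mul] at h12
    exact h12
  have : (φ : Lp ℂ 2 μ → ℂ) = fun f => inner ℂ (b one) f * φ (b one) := funext hform
  rw [this]
  exact (continuous_const.inner continuous_id).mul continuous_const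

end H21.Tilf
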