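import Mathlib

set_option autoImplicit false

namespace H21.Tilf

lemma norm_one_sub (N : ℕ) [NeZero N] (v : ZMod N) :
    ‖1 - (ZMod.stdAddChar v : ℂ)‖ = 2 * Real.sin (Real.pi * v.val / N) := by
  have h1 : (ZMod.stdAddChar v : ℂ) = Complex.exp (2 * Real.pi * Complex.I * v.val / N) := by
    have := ZMod.stdAddChar_coe (N := N) (v.val : ℤ)
    rw [show (((v.val : ℤ)) : ZMod N) = v by simp] at this
    rw [this]
    push_cast
    rfl
  have hN : (0:ℝ) < N := Nat.cast_pos.2 (NeZero.pos N)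
  have hv : (v.val : ℝ) ≤ N := by exact_mod_cast (ZMod.val_lt v).le
  have h2 : (2 * Real.pi * Complex.I * v.val / N : ℂ) = ((2 * (Real.pi * v.val / N) : ℝ) : ℂ) * Complex.I := by
    push_cast; ring
  rw [h1, h2, norm_sub_rev]
  have h3 := Complex.norm_exp_I_mul_ofReal_sub_one (2 * (Real.pi * v.val / N))
  rw [mul_comm, h3]
  have h4 : 0 ≤ Real.sin (Real.pi * v.val / N) := by
    apply Real.sin_nonneg_of_nonneg_of_le_pi (by positivity)
    rw [div_le_iff₀ hN]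
    exact mul_le_mul_of_nonneg_left hv Real.pi_pos.le
  rw [Real.norm_eq_abs, abs_mul, abs_of_pos (by norm_num : (0:ℝ) < 2)]
  congr 1
  rw [show 2 * (Real.pi * v.val / N) / 2 = Real.pi * v.val / N by ring]
  exact abs_of_nonneg h4

/-- `m v = min v (N - v)` -/
def mm (N : ℕ) (v : ℕ) : ℕ := min v (N - v)

lemma norm_ge (N : ℕ) [NeZero N] (v : ZMod N) :
    4 * (mm N v.val : ℝ) / N ≤ ‖1 - (ZMod.stdAddChar v : ℂ)‖ := by
  rw [norm_one_sub]
  have hN : (0:ℝ) < N := Nat.cast_pos.2 (NeZero.pos N)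
  have hv : v.val < N := ZMod.val_lt v
  have hpi := Real.pi_pos
  rcases le_total v.val (N - v.val) with h | h
  · rw [mm, min_eq_left h]
    have h0 : (0:ℝ) ≤ Real.pi * v.val / N := by positivity
    have h1 : Real.pi * v.val / N ≤ Real.pi / 2 := by
      rw [div_le_div_iff₀ hN (by norm_num)]
      have : (2 * v.val : ℝ) ≤ N := by
        have : 2 * v.val ≤ N := by omega
        exact_mod_cast this
      nlinarith
    have h2 := Real.mul_le_sin h0 h1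
    have h3 : 2 / Real.pi * (Real.pi * v.val / N) = 2 * v.val / N := by field_simp
    rw [h3] at h2
    calc 4 * (v.val : ℝ) / N = 2 * (2 * v.val / N) := by ring
      _ ≤ _ := by linarith
  · rw [mm, min_eq_right h]
    have hc : ((N - v.val : ℕ) : ℝ) = (N:ℝ) - v.val := by rw [Nat.cast_sub hv.le]
    have hs : Real.sin (Real.pi * v.val / N) = Real.sin (Real.pi * (N - v.val : ℕ) / N) := by
      rw [hc, ← Real.sin_pi_sub]
      congr 1
      field_simp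
    rw [hs]
    have h0 : (0:ℝ) ≤ Real.pi * (N - v.val : ℕ) / N := by positivity
    have h1 : Real.pi * (N - v.val : ℕ) / N ≤ Real.pi / 2 := by
      rw [div_le_div_iff₀ hN (by norm_num)]
      have : (2 * (N - v.val : ℕ) : ℝ) ≤ N := by
        have : 2 * (N - v.val) ≤ N := by omega
        exact_mod_cast this
      nlinarith
    have h2 := Real.mul_le_sin h0 h1
    have h3 : 2 / Real.pi * (Real.pi * (N - v.val : ℕ) / N) = 2 * (N - v.val : ℕ) / N := by field_simp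
    rw [h3] at h2
    calc 4 * ((N - v.val : ℕ) : ℝ) / N = 2 * (2 * (N - v.val : ℕ) / N) := by ring
      _ ≤ _ := by linarith

theorem one_sub_ge (N : ℕ) [NeZero N] (v : ZMod N) (hv : v ≠ 0) :
    4 / (N : ℝ) ≤ ‖1 - (ZMod.stdAddChar v : ℂ)‖ := by
  refine le_trans ?_ (norm_ge N v)
  have hN : (0:ℝ) < N := Nat.cast_pos.2 (NeZero.pos N)
  have h1 : 1 ≤ mm N v.val := by
    have h2 : v.val < N := ZMod.val_lt v
    have h3 : v.val ≠ 0 := by rwa [Ne, ZMod.val_eq_zero]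
    unfold mm
    omega
  have h2 : (1:ℝ) ≤ mm N v.val := by exact_mod_cast h1
  apply div_le_div_of_nonneg_right _ hN.le
  linarith

/-- `s m = max(1,m)^(-1/2)` -/
noncomputable def sr (m : ℕ) : ℝ := (max 1 (m:ℝ)) ^ (-(1/2) : ℝ)

lemma term_le (N : ℕ) [NeZero N] (ζ : ℂ) (hζ : 4 / (N : ℝ) ≤ ‖1 - ζ‖) (v : ZMod N) :
    (‖1 - ζ‖ ^ 2 + ‖1 - (ZMod.stdAddChar v : ℂ)‖ ^ 2) ^ (-(1/4) : ℝ) ≤
      (4 / (N:ℝ)) ^ (-(1/2) : ℝ) * sr (mm N v.val) := by
  have hN : (0:ℝ) < N := Nat.cast_pos.2 (NeZero.pos N)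
  have h1 := norm_ge N v
  have hm : (0:ℝ) < max 1 (mm N v.val : ℝ) := lt_of_lt_of_le one_pos (le_max_left _ _)
  have h2 : (4 / (N:ℝ) * max 1 (mm N v.val : ℝ)) ^ 2 ≤ ‖1 - ζ‖ ^ 2 + ‖1 - (ZMod.stdAddChar v : ℂ)‖ ^ 2 := by
    rcases le_total 1 (mm N v.val : ℝ) with h | h
    · rw [max_eq_right h]
      have h3 : 4 / (N:ℝ) * (mm N v.val : ℝ) ≤ ‖1 - (ZMod.stdAddChar v : ℂ)‖ := by
        rw [div_mul_eq_mul_div]; exact h1
      have h4 : (4 / (N:ℝ) * (mm N v.val : ℝ)) ^ 2 ≤ ‖1 - (ZMod.stdAddChar v : ℂ)‖ ^ 2 := by gcongr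
      linarith [sq_nonneg ‖1 - ζ‖]
    · rw [max_eq_left h, mul_one]
      have h4 : (4 / (N:ℝ)) ^ 2 ≤ ‖1 - ζ‖ ^ 2 := by gcongr
      linarith [sq_nonneg ‖1 - (ZMod.stdAddChar v : ℂ)‖]
  have h5 : 0 < (4 / (N:ℝ) * max 1 (mm N v.val : ℝ)) := by positivity
  calc _ ≤ ((4 / (N:ℝ) * max 1 (mm N v.val : ℝ)) ^ 2) ^ (-(1/4) : ℝ) :=
        Real.rpow_le_rpow_of_nonpos (by positivity) h2 (by norm_num)
    _ = (4 / (N:ℝ) * max 1 (mm N v.val : ℝ)) ^ (-(1/2) : ℝ) := by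
        rw [← Real.rpow_natCast, ← Real.rpow_mul h5.le]; norm_num
    _ = _ := by rw [Real.mul_rpow (by positivity) hm.le]; rfl

lemma sr_nonneg (m : ℕ) : 0 ≤ sr m := Real.rpow_nonneg (by positivity) _

lemma sum_sr (N : ℕ) : ∑ m ∈ Finset.range (N + 1), sr m ≤ 1 + 2 * Real.sqrt N := by
  induction N with
  | zero => simp [sr]
  | succ N ih =>
    rw [Finset.sum_range_succ]
    have hN' : (0:ℝ) < ((N + 1 : ℕ) : ℝ) := by positivity
    have h1 : sr (N + 1) = 1 / Real.sqrt ((N + 1 : ℕ) : ℝ) := by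
      have : (1:ℝ) ≤ ((N + 1 : ℕ) : ℝ) := by push_cast; linarith [(Nat.cast_nonneg N : (0:ℝ) ≤ N)]
      rw [sr, max_eq_right this, Real.rpow_neg hN'.le, ← Real.sqrt_eq_rpow, one_div]
    rw [h1]
    have hs1 : 0 < Real.sqrt ((N + 1 : ℕ) : ℝ) := Real.sqrt_pos.2 hN'
    have hs0 : 0 ≤ Real.sqrt (N : ℝ) := Real.sqrt_nonneg _
    have e1 : Real.sqrt ((N + 1 : ℕ) : ℝ) ^ 2 = N + 1 := by rw [Real.sq_sqrt hN'.le]; push_cast; ring
    have e0 : Real.sqrt (N : ℝ) ^ 2 = N := Real.sq_sqrt (Nat.cast_nonneg N)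
    have h2 : 1 / Real.sqrt ((N + 1 : ℕ) : ℝ) ≤ 2 * (Real.sqrt ((N + 1 : ℕ) : ℝ) - Real.sqrt (N : ℝ)) := by
      rw [div_le_iff₀ hs1]
      nlinarith [sq_nonneg (Real.sqrt ((N + 1 : ℕ) : ℝ) - Real.sqrt (N : ℝ))]
    linarith

lemma sum_mm (N : ℕ) : ∑ v ∈ Finset.range N, sr (mm N v) ≤ 2 * ∑ m ∈ Finset.range (N + 1), sr m := by
  have h1 : ∀ v ∈ Finset.range N, sr (mm N v) ≤ sr v + sr (N - v) := by
    intro v _
    unfold mm
    rcases le_total v (N - v) with h | h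
    · rw [min_eq_left h]; linarith [sr_nonneg (N - v)]
    · rw [min_eq_right h]; linarith [sr_nonneg v]
  have h2 : ∑ v ∈ Finset.range (N + 1), sr (N - v) = ∑ v ∈ Finset.range (N + 1), sr v := by
    rw [← Finset.sum_range_reflect]
    refine Finset.sum_congr rfl fun v hv => ?_
    have := Finset.mem_range.1 hv
    congr 1; omega
  have h3 : ∑ v ∈ Finset.range N, sr (N - v) ≤ ∑ v ∈ Finset.range (N + 1), sr (N - v) :=
    Finset.sum_le_sum_of_subset_of_nonneg (Finset.range_mono (Nat.le_succ N)) fun i _ _ => sr_nonneg _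
  have h4 : ∑ v ∈ Finset.range N, sr v ≤ ∑ v ∈ Finset.range (N + 1), sr v :=
    Finset.sum_le_sum_of_subset_of_nonneg (Finset.range_mono (Nat.le_succ N)) fun i _ _ => sr_nonneg _
  have h5 := Finset.sum_le_sum h1
  rw [Finset.sum_add_distrib] at h5
  linarith

lemma sum_val (N : ℕ) [NeZero N] (F : ℕ → ℝ) : ∑ v : ZMod N, F v.val = ∑ i ∈ Finset.range N, F i := by
  obtain ⟨n, rfl⟩ := Nat.exists_eq_succ_of_ne_zero (NeZero.ne N)
  exact Fin.sum_univ_eq_sum_range F (n + 1)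

theorem fin_sum (N : ℕ) [NeZero N] (ζ : ℂ) (hζ : 4 / (N : ℝ) ≤ ‖1 - ζ‖) :
    ∑ v : ZMod N, (‖1 - ζ‖ ^ 2 + ‖1 - (ZMod.stdAddChar v : ℂ)‖ ^ 2) ^ (-(1/4) : ℝ) ≤ 3 * N := by
  have hN0 : 0 < N := NeZero.pos N
  have hN : (0:ℝ) < N := Nat.cast_pos.2 hN0
  have hN1 : (1:ℝ) ≤ N := by exact_mod_cast hN0
  have h1 := Finset.sum_le_sum fun (v : ZMod N) (_ : v ∈ Finset.univ) => term_le N ζ hζ v
  rw [← Finset.mul_sum, sum_val N (fun i => sr (mm N i))] at h1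
  have h2 := (sum_mm N).trans (mul_le_mul_of_nonneg_left (sum_sr N) (by norm_num))
  have h3 : (4 / (N:ℝ)) ^ (-(1/2) : ℝ) = Real.sqrt N / 2 := by
    rw [Real.rpow_neg (by positivity), ← Real.sqrt_eq_rpow, Real.sqrt_div (by norm_num),
      show (4:ℝ) = 2 ^ 2 by norm_num, Real.sqrt_sq (by norm_num), inv_div]
  rw [h3] at h1
  have hs : 1 ≤ Real.sqrt N := Real.one_le_sqrt.2 hN1
  have e : Real.sqrt N ^ 2 = N := Real.sq_sqrt hN.le
  calc _ ≤ _ := h1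
    _ ≤ Real.sqrt N / 2 * (2 * (1 + 2 * Real.sqrt N)) := mul_le_mul_of_nonneg_left h2 (by positivity)
    _ ≤ 3 * N := by nlinarith

end H21.Tilf
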