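import Pool.Agent.H21.TilfA

set_option autoImplicit false
set_option linter.unusedVariables false

namespace H21.Tilf

open MeasureTheory ComplexConjugate

variable {p : ℕ} [hp : Fact p.Prime]

lemma isChar_neg {G : Type} [TopologicalSpace G] [AddCommGroup G] {χ : C(G, ℂ)} (h1 : ∀ x y, χ (x + y) = χ x * χ y)
    (h2 : ∀ x, ‖χ x‖ = 1) (x : G) : χ (-x) = conj (χ x) := by
  have h0 : χ 0 = 1 := by
    have h3 := h1 0 0
    rw [add_zero] at h3
    have h4 : χ 0 ≠ 0 := by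
      intro h0
      have := h2 0
      rw [h0, norm_zero] at this
      exact zero_ne_one this
    field_simp at h3
    exact h3.symm
  have h3 := h1 (-x) x
  rw [neg_add_cancel, h0] at h3
  have h4 : conj (χ x) * χ x = 1 := by
    rw [mul_comm, Complex.mul_conj, Complex.normSq_eq_norm_sq, h2 x]
    simp
  have h5 : χ x ≠ 0 := by
    intro h6
    have := h2 x
    rw [h6, norm_zero] at this
    exact zero_ne_one this
  exact mul_right_cancel₀ h5 (h3.symm.trans h4.symm)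

/-- the character of level `k` and frequency `c` -/
noncomputable def Ef (p : ℕ) [Fact p.Prime] (k c : ℕ) (x : ℤ_[p]) : ℂ :=
  ZMod.stdAddChar ((c : ZMod (p ^ k)) * PadicInt.toZModPow k x)

lemma Ef_loc (k c : ℕ) : IsLocallyConstant (Ef p k c) := by
  rw [IsLocallyConstant.iff_eventually_eq]
  intro x
  have hpos : (0 : ℝ) < (p : ℝ) ^ (-(k : ℤ)) := zpow_pos (by exact_mod_cast hp.out.pos) _
  filter_upwards [Metric.ball_mem_nhds x hpos] with y hy
  have h1 : ‖y - x‖ ≤ (p : ℝ) ^ (-(k : ℤ)) := by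
    rw [← dist_eq_norm]; exact (Metric.mem_ball.1 hy).le
  rw [PadicInt.norm_le_pow_iff_mem_span_pow, ← PadicInt.ker_toZModPow, RingHom.mem_ker, map_sub,
    sub_eq_zero] at h1
  unfold Ef
  rw [h1]

/-- the character as a continuous function -/
noncomputable def E (p : ℕ) [Fact p.Prime] (k c : ℕ) : C(ℤ_[p], ℂ) := ⟨Ef p k c, (Ef_loc k c).continuous⟩

lemma E_apply (k c : ℕ) (x : ℤ_[p]) :
    E p k c x = ZMod.stdAddChar ((c : ZMod (p ^ k)) * PadicInt.toZModPow k x) := rfl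

lemma E_char (k c : ℕ) : IsChar (E p k c) := by
  constructor
  · intro x y
    rw [E_apply, E_apply, E_apply, map_add, mul_add, AddChar.map_add_eq_mul]
  · intro x
    rw [E_apply, ZMod.stdAddChar_apply, Circle.norm_coe]

lemma std_nat (N m : ℕ) [NeZero N] :
    (ZMod.stdAddChar ((m : ℕ) : ZMod N) : ℂ) = Complex.exp (2 * Real.pi * Complex.I * m / N) := by
  have := ZMod.stdAddChar_coe (N := N) (m : ℤ)
  push_cast at this
  exact this

lemma E_red (k c : ℕ) : E p (k + 1) (p * c) = E p k c := by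
  ext x
  rw [E_apply, E_apply]
  obtain ⟨m, hm⟩ : ∃ m : ℕ, PadicInt.toZModPow (k + 1) x = (m : ZMod (p ^ (k + 1))) :=
    ⟨(PadicInt.toZModPow (k + 1) x).val, (ZMod.natCast_zmod_val _).symm⟩
  have hm2 : PadicInt.toZModPow k x = (m : ZMod (p ^ k)) := by
    have h1 := PadicInt.cast_toZModPow k (k + 1) (Nat.le_succ k) x
    have hdvd : p ^ k ∣ p ^ (k + 1) := pow_dvd_pow p (Nat.le_succ k)
    have h2 := ZMod.cast_natCast (R := ZMod (p ^ k)) hdvd m
    rw [← h1, hm, h2]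
  rw [hm, hm2, ← Nat.cast_mul, ← Nat.cast_mul, std_nat, std_nat]
  congr 1
  have hp0 : (p : ℂ) ≠ 0 := by exact_mod_cast hp.out.ne_zero
  push_cast
  field_simp
  ring

lemma E_red_iter (k c l : ℕ) : E p (k + l) (p ^ l * c) = E p k c := by
  induction l with
  | zero => simp
  | succ l ih =>
    have h1 : p ^ (l + 1) * c = p * (p ^ l * c) := by ring
    rw [← add_assoc, h1, E_red, ih]

/-- the set of all characters -/
def SS (p : ℕ) [Fact p.Prime] : Set C(ℤ_[p], ℂ) := {χ | ∃ k c : ℕ, χ = E p k c}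

lemma SS_countable : Countable (SS p) := by
  have : SS p = Set.range (fun q : ℕ × ℕ => E p q.1 q.2) := by
    ext χ
    constructor
    · rintro ⟨k, c, rfl⟩; exact ⟨(k, c), rfl⟩
    · rintro ⟨q, rfl⟩; exact ⟨q.1, q.2, rfl⟩
  rw [this]
  exact (Set.countable_range _).to_subtype

lemma E_zero (c : ℕ) : E p 0 c = 1 := by
  ext x
  rw [E_apply]
  have : ((c : ZMod (p ^ 0)) * PadicInt.toZModPow 0 x) = 0 := by
    have hs : Subsingleton (ZMod (p ^ 0)) := by rw [pow_zero]; infer_instance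
    exact Subsingleton.elim _ _
  rw [this, AddChar.map_zero_eq_one]
  rfl

lemma one_mem : (1 : C(ℤ_[p], ℂ)) ∈ SS p := ⟨0, 0, (E_zero 0).symm⟩

lemma mul_mem' (χ : C(ℤ_[p], ℂ)) (hχ : χ ∈ SS p) (ψ : C(ℤ_[p], ℂ)) (hψ : ψ ∈ SS p) :
    χ * ψ ∈ SS p := by
  obtain ⟨k, c, rfl⟩ := hχ
  obtain ⟨l, d, rfl⟩ := hψ
  refine ⟨k + l, p ^ l * c + p ^ k * d, ?_⟩
  rw [← E_red_iter k c l, ← E_red_iter l d k, add_comm l k]
  ext x
  rw [ContinuousMap.mul_apply, E_apply, E_apply, E_apply, ← AddChar.map_add_eq_mul]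
  congr 1
  push_cast
  ring

lemma star_mem' (χ : C(ℤ_[p], ℂ)) (hχ : χ ∈ SS p) : star χ ∈ SS p := by
  obtain ⟨k, c, rfl⟩ := hχ
  refine ⟨k, (p ^ k - 1) * c, ?_⟩
  ext x
  have h1 : star (E p k c) x = conj (E p k c x) := rfl
  rw [h1, ← isChar_neg (E_char k c).1 (E_char k c).2 x, E_apply, E_apply]
  congr 1
  have h2 : ((((p ^ k - 1) * c : ℕ)) : ZMod (p ^ k)) = -(c : ZMod (p ^ k)) := by
    have h3 : 1 ≤ p ^ k := Nat.one_le_pow _ _ hp.out.pos
    push_cast [Nat.cast_sub h3]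
    have h4 : ((p : ZMod (p ^ k)) ^ k) = 0 := by
      have := ZMod.natCast_self (p ^ k)
      push_cast at this
      exact this
    rw [h4]; ring
  rw [h2, map_neg]
  ring

lemma sep (x y : ℤ_[p]) (hxy : x ≠ y) : ∃ χ ∈ SS p, χ x ≠ χ y := by
  have h1 : ¬ ∀ n, PadicInt.toZModPow n x = PadicInt.toZModPow n y :=
    fun h => hxy (PadicInt.ext_of_toZModPow.1 h)
  push Not at h1
  obtain ⟨n, hn⟩ := h1
  refine ⟨E p n 1, ⟨n, 1, rfl⟩, ?_⟩
  rw [E_apply, E_apply]
  intro h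
  have := ZMod.injective_stdAddChar h
  simp only [Nat.cast_one, one_mul] at this
  exact hn this

/-- primitive form -/
lemma primitive (k c : ℕ) (h : E p k c ≠ 1) :
    ∃ l d : ℕ, 1 ≤ l ∧ ¬ p ∣ d ∧ E p k c = E p l d := by
  induction k generalizing c with
  | zero => exact absurd (E_zero c) h
  | succ k ih =>
    by_cases hc : p ∣ c
    · obtain ⟨c', rfl⟩ := hc
      rw [E_red] at h ⊢
      exact ih c' h
    · exact ⟨k + 1, c, by omega, hc, rfl⟩

end H21.Tilf
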