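import Pool.Agent.H21.TilfP
import Pool.Agent.H21.TilfM

set_option autoImplicit false
set_option linter.unusedVariables false

namespace H21.Tilf

open MeasureTheory ComplexConjugate
open scoped ENNReal

variable {p : ℕ} [hp : Fact p.Prime]

/-- the weight of a pair -/
noncomputable def gw (χ : C(ℤ_[p], ℂ)) (a : ℤ_[p]) : ℝ :=
  (‖1 - χ 1‖ ^ 2 + ‖1 - χ a‖ ^ 2) ^ (-(1/4) : ℝ)

lemma gw_nonneg (χ : C(ℤ_[p], ℂ)) (a : ℤ_[p]) : 0 ≤ gw χ a := by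
  unfold gw; positivity

lemma unit_of_not_dvd (l d : ℕ) (hd : ¬ p ∣ d) : IsUnit (d : ZMod (p ^ l)) := by
  rw [ZMod.isUnit_iff_coprime]
  exact Nat.Coprime.pow_right l ((Nat.Prime.coprime_iff_not_dvd hp.out).2 hd).symm

lemma one_ge (l d : ℕ) (hl : 1 ≤ l) (hd : ¬ p ∣ d) :
    4 / ((p ^ l : ℕ) : ℝ) ≤ ‖1 - E p l d 1‖ := by
  rw [E_apply, map_one, mul_one]
  apply one_sub_ge
  have h := unit_of_not_dvd (p := p) l d hd
  haveI : Fact (1 < p ^ l) := ⟨Nat.one_lt_pow (by omega) hp.out.one_lt⟩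
  exact h.ne_zero

lemma one_pos' (χ : C(ℤ_[p], ℂ)) (hχ : χ ∈ SS p) (h1 : χ ≠ 1) : 0 < ‖1 - χ 1‖ := by
  obtain ⟨k, c, rfl⟩ := hχ
  obtain ⟨l, d, hl, hd, h⟩ := primitive k c h1
  rw [h]
  refine lt_of_lt_of_le ?_ (one_ge l d hl hd)
  have : 0 < p ^ l := pow_pos hp.out.pos l
  positivity

lemma sum_trans (l d : ℕ) (hl : 1 ≤ l) (hd : ¬ p ∣ d) (a : ℤ_[p]) :
    ∑ j : ZMod (p ^ l), gw (E p l d) (a + ((j.val : ℕ) : ℤ_[p])) ≤ 3 * ((p ^ l : ℕ) : ℝ) := by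
  have hu := unit_of_not_dvd (p := p) l d hd
  set ζ := E p l d 1 with hζ
  have h1 : ∀ j : ZMod (p ^ l), gw (E p l d) (a + ((j.val : ℕ) : ℤ_[p])) =
      (fun v : ZMod (p ^ l) => (‖1 - ζ‖ ^ 2 + ‖1 - (ZMod.stdAddChar v : ℂ)‖ ^ 2) ^ (-(1/4) : ℝ))
        ((d : ZMod (p ^ l)) * (PadicInt.toZModPow l a + j)) := by
    intro j
    have h2 : PadicInt.toZModPow l (a + ((j.val : ℕ) : ℤ_[p])) = PadicInt.toZModPow l a + j := by
      rw [map_add, map_natCast, ZMod.natCast_zmod_val]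
    unfold gw
    rw [← hζ, E_apply, h2]
  rw [Finset.sum_congr rfl (fun j _ => h1 j)]
  have hbij : Function.Bijective (fun j : ZMod (p ^ l) => (d : ZMod (p ^ l)) * (PadicInt.toZModPow l a + j)) := by
    have hinj : Function.Injective (fun j : ZMod (p ^ l) => (d : ZMod (p ^ l)) * (PadicInt.toZModPow l a + j)) := by
      intro x y hxy
      have := hu.mul_left_cancel hxy
      exact add_left_cancel this
    exact Finite.injective_iff_bijective.1 hinj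
  rw [Function.Bijective.sum_comp hbij
    (fun v : ZMod (p ^ l) => (‖1 - ζ‖ ^ 2 + ‖1 - (ZMod.stdAddChar v : ℂ)‖ ^ 2) ^ (-(1/4) : ℝ))]
  exact fin_sum (p ^ l) ζ (one_ge l d hl hd)

variable [MeasurableSpace ℤ_[p]] [BorelSpace ℤ_[p]]

lemma gw_meas (χ : C(ℤ_[p], ℂ)) : Measurable (gw χ) := by
  unfold gw
  have h : Measurable (fun a : ℤ_[p] => ‖1 - χ 1‖ ^ 2 + ‖1 - χ a‖ ^ 2) := by
    have : Continuous (fun a : ℤ_[p] => ‖1 - χ 1‖ ^ 2 + ‖1 - χ a‖ ^ 2) := by fun_prop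
    exact this.measurable
  exact h.pow_const _

lemma lint_le (μ : Measure ℤ_[p]) [IsProbabilityMeasure μ] [μ.IsAddRightInvariant]
    (χ : C(ℤ_[p], ℂ)) (hχ : χ ∈ SS p) : ∫⁻ a, ENNReal.ofReal (gw χ a) ∂μ ≤ 3 := by
  by_cases h1 : χ = 1
  · subst h1
    have : ∀ a : ℤ_[p], ENNReal.ofReal (gw (1 : C(ℤ_[p], ℂ)) a) = 0 := by
      intro a
      unfold gw
      simp only [ContinuousMap.one_apply, sub_self, norm_zero]
      norm_num
    simp [this]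
  · obtain ⟨k, c, rfl⟩ := hχ
    obtain ⟨l, d, hl, hd, h⟩ := primitive k c h1
    rw [h]
    have hN : 0 < p ^ l := pow_pos hp.out.pos l
    have h2 : ∀ j : ZMod (p ^ l), ∫⁻ a, ENNReal.ofReal (gw (E p l d) (a + ((j.val : ℕ) : ℤ_[p]))) ∂μ
        = ∫⁻ a, ENNReal.ofReal (gw (E p l d) a) ∂μ := fun j =>
      lintegral_add_right_eq_self (fun a => ENNReal.ofReal (gw (E p l d) a)) _
    have h3 : ∑ j : ZMod (p ^ l), ∫⁻ a, ENNReal.ofReal (gw (E p l d) (a + ((j.val : ℕ) : ℤ_[p]))) ∂μ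
        = ((p ^ l : ℕ) : ℝ≥0∞) * ∫⁻ a, ENNReal.ofReal (gw (E p l d) a) ∂μ := by
      rw [Finset.sum_congr rfl (fun j _ => h2 j), Finset.sum_const, Finset.card_univ, ZMod.card,
        nsmul_eq_mul]
    have h4 : ∑ j : ZMod (p ^ l), ∫⁻ a, ENNReal.ofReal (gw (E p l d) (a + ((j.val : ℕ) : ℤ_[p]))) ∂μ
        ≤ 3 * ((p ^ l : ℕ) : ℝ≥0∞) := by
      rw [← lintegral_finset_sum]
      · calc ∫⁻ a, ∑ j : ZMod (p ^ l), ENNReal.ofReal (gw (E p l d) (a + ((j.val : ℕ) : ℤ_[p]))) ∂μ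
            ≤ ∫⁻ a, ENNReal.ofReal (3 * ((p ^ l : ℕ) : ℝ)) ∂μ := by
              apply lintegral_mono
              intro a
              beta_reduce
              rw [← ENNReal.ofReal_sum_of_nonneg (fun j _ => gw_nonneg _ _)]
              exact ENNReal.ofReal_le_ofReal (sum_trans l d hl hd a)
          _ = 3 * ((p ^ l : ℕ) : ℝ≥0∞) := by
              rw [lintegral_const, measure_univ, mul_one, ENNReal.ofReal_mul (by norm_num),
                ENNReal.ofReal_natCast]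
              norm_num
      · intro j _
        exact ((gw_meas (E p l d)).comp (measurable_add_const _)).ennreal_ofReal
    rw [h3] at h4
    have h5 : ((p ^ l : ℕ) : ℝ≥0∞) ≠ 0 := by exact_mod_cast hN.ne'
    have h6 : ((p ^ l : ℕ) : ℝ≥0∞) ≠ ∞ := ENNReal.natCast_ne_top _
    rw [mul_comm (3 : ℝ≥0∞)] at h4
    exact (ENNReal.mul_le_mul_iff_right h5 h6).1 h4

lemma one_var (μ : Measure ℤ_[p]) [IsProbabilityMeasure μ] [μ.IsAddRightInvariant]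
    (w : SS p → ℝ≥0∞) (hw : ∑' χ, w χ ≠ ∞) :
    ∃ a : ℤ_[p], ∑' χ : SS p, w χ * ENNReal.ofReal (gw (χ : C(ℤ_[p], ℂ)) a) ≠ ∞ := by
  haveI := SS_countable (p := p)
  have h1 : ∫⁻ a, ∑' χ : SS p, w χ * ENNReal.ofReal (gw (χ : C(ℤ_[p], ℂ)) a) ∂μ ≠ ∞ := by
    rw [lintegral_tsum]
    · have h2 : ∀ χ : SS p, ∫⁻ a, w χ * ENNReal.ofReal (gw (χ : C(ℤ_[p], ℂ)) a) ∂μ ≤ w χ * 3 := by
        intro χ
        rw [lintegral_const_mul _ (gw_meas _).ennreal_ofReal]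
        gcongr
        exact lint_le μ _ χ.2
      refine ne_top_of_le_ne_top ?_ (ENNReal.tsum_le_tsum h2)
      rw [ENNReal.tsum_mul_right]
      exact ENNReal.mul_ne_top hw (by norm_num)
    · intro χ
      exact (((gw_meas _).ennreal_ofReal).const_mul _).aemeasurable
  have h3 : ∀ᵐ a ∂μ, ∑' χ : SS p, w χ * ENNReal.ofReal (gw (χ : C(ℤ_[p], ℂ)) a) < ∞ := by
    apply ae_lt_top' _ h1
    apply AEMeasurable.ennreal_tsum
    intro χ
    exact (((gw_meas _).ennreal_ofReal).const_mul _).aemeasurable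
  obtain ⟨a, ha⟩ := h3.exists
  exact ⟨a, ha.ne⟩

open scoped Classical in
lemma good (μ : Measure ℤ_[p]) [IsProbabilityMeasure μ] [μ.IsAddRightInvariant]
    (w : SS p → ℝ) (h0 : ∀ χ, 0 ≤ w χ) (hs : Summable w) : ∃ a : Fin 5 → ℤ_[p],
      (∀ χ : SS p, (χ : C(ℤ_[p], ℂ)) ≠ 1 → 0 < ∑ j, ‖1 - (χ : C(ℤ_[p], ℂ)) (a j)‖ ^ 2) ∧
      Summable (fun χ : SS p => if (χ : C(ℤ_[p], ℂ)) = 1 then 0 else
        w χ / ∑ j, ‖1 - (χ : C(ℤ_[p], ℂ)) (a j)‖ ^ 2) := by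
  have hw : ∑' χ, ENNReal.ofReal (w χ) ≠ ∞ := by
    rw [← ENNReal.ofReal_tsum_of_nonneg h0 hs]
    exact ENNReal.ofReal_ne_top
  obtain ⟨a1, h1⟩ := one_var μ _ hw
  obtain ⟨a2, h2⟩ := one_var μ _ h1
  obtain ⟨a3, h3⟩ := one_var μ _ h2
  obtain ⟨a4, h4⟩ := one_var μ _ h3
  have hsum := ENNReal.summable_toReal h4
  refine ⟨![1, a1, a2, a3, a4], ?_, ?_⟩
  · intro χ hχ
    have := one_pos' (χ : C(ℤ_[p], ℂ)) χ.2 hχ
    simp only [Fin.sum_univ_five, Matrix.cons_val_zero, Matrix.cons_val_one, Matrix.cons_val]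
    positivity
  · refine Summable.of_nonneg_of_le ?_ ?_ hsum
    · intro χ
      split_ifs
      · exact le_rfl
      · exact div_nonneg (h0 χ) (Finset.sum_nonneg fun _ _ => by positivity)
    · intro χ
      have hn : ∀ a, 0 ≤ gw (χ : C(ℤ_[p], ℂ)) a := gw_nonneg _
      simp only [ENNReal.toReal_mul, ENNReal.toReal_ofReal (h0 χ), ENNReal.toReal_ofReal (hn _)]
      split_ifs with hχ
      · have := h0 χ
        have := hn a1
        have := hn a2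
        have := hn a3
        have := hn a4
        positivity
      · have hpos := one_pos' (χ : C(ℤ_[p], ℂ)) χ.2 hχ
        simp only [Fin.sum_univ_five, Matrix.cons_val_zero, Matrix.cons_val_one, Matrix.cons_val]
        set z := ‖1 - (χ : C(ℤ_[p], ℂ)) 1‖ with hz
        set D := z ^ 2 + ‖1 - (χ : C(ℤ_[p], ℂ)) a1‖ ^ 2 + ‖1 - (χ : C(ℤ_[p], ℂ)) a2‖ ^ 2 +
          ‖1 - (χ : C(ℤ_[p], ℂ)) a3‖ ^ 2 + ‖1 - (χ : C(ℤ_[p], ℂ)) a4‖ ^ 2 with hD
        have hDpos : 0 < D := by positivity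
        have key : ∀ a, z ^ 2 + ‖1 - (χ : C(ℤ_[p], ℂ)) a‖ ^ 2 ≤ D →
            D ^ (-(1/4) : ℝ) ≤ gw (χ : C(ℤ_[p], ℂ)) a := by
          intro a ha
          unfold gw
          exact Real.rpow_le_rpow_of_nonpos (by positivity) ha (by norm_num)
        have k1 := key a1 (by
          have := sq_nonneg ‖1 - (χ : C(ℤ_[p], ℂ)) a2‖
          have := sq_nonneg ‖1 - (χ : C(ℤ_[p], ℂ)) a3‖
          have := sq_nonneg ‖1 - (χ : C(ℤ_[p], ℂ)) a4‖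
          linarith)
        have k2 := key a2 (by
          have := sq_nonneg ‖1 - (χ : C(ℤ_[p], ℂ)) a1‖
          have := sq_nonneg ‖1 - (χ : C(ℤ_[p], ℂ)) a3‖
          have := sq_nonneg ‖1 - (χ : C(ℤ_[p], ℂ)) a4‖
          linarith)
        have k3 := key a3 (by
          have := sq_nonneg ‖1 - (χ : C(ℤ_[p], ℂ)) a2‖
          have := sq_nonneg ‖1 - (χ : C(ℤ_[p], ℂ)) a1‖
          have := sq_nonneg ‖1 - (χ : C(ℤ_[p], ℂ)) a4‖
          linarith)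
        have k4 := key a4 (by
          have := sq_nonneg ‖1 - (χ : C(ℤ_[p], ℂ)) a2‖
          have := sq_nonneg ‖1 - (χ : C(ℤ_[p], ℂ)) a3‖
          have := sq_nonneg ‖1 - (χ : C(ℤ_[p], ℂ)) a1‖
          linarith)
        have hr : D⁻¹ = D ^ (-(1/4) : ℝ) * D ^ (-(1/4) : ℝ) * D ^ (-(1/4) : ℝ) * D ^ (-(1/4) : ℝ) := by
          rw [← Real.rpow_add hDpos, ← Real.rpow_add hDpos, ← Real.rpow_add hDpos, ← Real.rpow_neg_one]
          norm_num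
        have hq : 0 ≤ D ^ (-(1/4) : ℝ) := by positivity
        rw [div_eq_mul_inv, hr]
        have e1 : w χ * gw (χ : C(ℤ_[p], ℂ)) a1 * gw (χ : C(ℤ_[p], ℂ)) a2 * gw (χ : C(ℤ_[p], ℂ)) a3 *
            gw (χ : C(ℤ_[p], ℂ)) a4 = w χ * (gw (χ : C(ℤ_[p], ℂ)) a1 * gw (χ : C(ℤ_[p], ℂ)) a2 *
              gw (χ : C(ℤ_[p], ℂ)) a3 * gw (χ : C(ℤ_[p], ℂ)) a4) := by ring
        rw [e1]
        apply mul_le_mul_of_nonneg_left _ (h0 χ)
        have g1 := hn a1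
        have g2 := hn a2
        have g3 := hn a3
        gcongr

theorem tilf (μ : Measure ℤ_[p]) [IsProbabilityMeasure μ] [μ.IsAddRightInvariant] [μ.WeaklyRegular]
    (φ : Lp ℂ 2 μ →ₗ[ℂ] ℂ)
    (hφ : ∀ (a : ℤ_[p]) (f g : Lp ℂ 2 μ),
      ((g : ℤ_[p] → ℂ) =ᵐ[μ] fun x => (f : ℤ_[p] → ℂ) (x + a)) → φ g = φ f) :
    Continuous φ := by
  refine main_abs μ (SS p) ?_ one_mem mul_mem' star_mem' sep 5 ?_ φ hφ
  · rintro χ ⟨k, c, rfl⟩
    exact E_char k c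
  · intro w h0 hs
    exact good μ w h0 hs

end H21.Tilf
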